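import Mathlib

namespace Pool.Agent.R325.AG

/-- The window sum `a(n) + a(n-1) + ... + a(n-r+1)`, with the convention `a(k) = 0` for `k ≤ 0`
(here `n - i` is truncated subtraction and `a 0 = 0`). -/
def win (r : ℕ) (a : ℕ → ℕ) (n : ℕ) : ℕ := ∑ i ∈ Finset.range r, a (n - i)

/-- `a` is a nondecreasing sequence of positive integers (indexed by `n ≥ 1`, with `a 0 = 0` by
convention) such that `a(a(n) + a(n-1) + ... + a(n-r+1)) = n` for all `n ≥ 1`. -/
structure IsSol (r : ℕ) (a : ℕ → ℕ) : Prop where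
  zero : a 0 = 0
  pos : ∀ n, 1 ≤ n → 1 ≤ a n
  mono : Monotone a
  eq : ∀ n, 1 ≤ n → a (win r a n) = n

/-- The almost Golomb sequence of order `r`: a solution each of whose terms is chosen as small as
possible: for `n ≥ 3` there is no integer `m` with `a(n-1) ≤ m < a(n)` and
`a(m + a(n-1) + ... + a(n-r+1)) = n`. -/
structure IsAlmostGolomb (r : ℕ) (a : ℕ → ℕ) : Prop extends IsSol r a where
  least : ∀ n, 3 ≤ n → ∀ m, a (n - 1) ≤ m → m < a n →
    a (m + ∑ i ∈ Finset.range (r - 1), a (n - 1 - i)) ≠ n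

/-- `L_max = limsup a(n)/n` -/
noncomputable def Lmax (a : ℕ → ℕ) : ℝ :=
  Filter.limsup (fun n : ℕ => (a n : ℝ) / (n : ℝ)) Filter.atTop

end Pool.Agent.R325.AG
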