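import Pool.Agent.R325.AGDefs

namespace Pool.Agent.R325.AG

/-- the almost Golomb sequence of order `r` -/
def ag (r : ℕ) (n : ℕ) : ℕ :=
  if n ≤ 2 then n else
    2 + ((Finset.Ico 3 n).attach.filter
      (fun j => (∑ i ∈ Finset.range r, ag r (j.1 - i)) ≤ n)).card
termination_by n
decreasing_by
  all_goals
    have := Finset.mem_Ico.mp (Subtype.prop ‹{x // x ∈ Finset.Ico 3 n}›)
    omega

lemma ag_small (r : ℕ) {n : ℕ} (hn : n ≤ 2) : ag r n = n := by
  rw [ag, if_pos hn]

lemma ag_eq (r : ℕ) {n : ℕ} (hn : 3 ≤ n) :
    ag r n = 2 + ((Finset.Ico 3 n).filter (fun j => win r (ag r) j ≤ n)).card := by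
  rw [ag, if_neg (by omega)]
  congr 1
  have := Finset.filter_attach (fun j => win r (ag r) j ≤ n) (Finset.Ico 3 n)
  have h2 := congrArg Finset.card this
  rw [Finset.card_map, Finset.card_attach] at h2
  rw [← h2]
  rfl

lemma win_succ (r : ℕ) (a : ℕ → ℕ) (_ : a 0 = 0) (j : ℕ) :
    win r a (j + 1) + a (j + 1 - r) = win r a j + a (j + 1) := by
  unfold win
  have h1 : ∑ i ∈ Finset.range (r + 1), a (j + 1 - i)
      = ∑ i ∈ Finset.range r, a (j + 1 - i) + a (j + 1 - r) := Finset.sum_range_succ _ _
  have h2 : ∑ i ∈ Finset.range (r + 1), a (j + 1 - i)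
      = ∑ i ∈ Finset.range r, a (j + 1 - (i + 1)) + a (j + 1 - 0) := Finset.sum_range_succ' _ _
  rw [← h1, h2]
  congr 1
  exact Finset.sum_congr rfl fun i _ => by congr 1; omega

lemma win_one (r : ℕ) (hr : 2 ≤ r) : win r (ag r) 1 = 1 := by
  obtain ⟨s, rfl⟩ : ∃ s, r = s + 1 := ⟨r - 1, by omega⟩
  unfold win
  rw [Finset.sum_range_succ']
  have : ∑ k ∈ Finset.range s, ag (s + 1) (1 - (k + 1)) = 0 := by
    apply Finset.sum_eq_zero
    intro k _
    rw [show 1 - (k + 1) = 0 by omega, ag_small _ (by omega)]
  rw [this, ag_small _ (by omega)]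

lemma win_two (r : ℕ) (hr : 2 ≤ r) : win r (ag r) 2 = 3 := by
  have h := win_succ r (ag r) (ag_small r (by omega)) 1
  rw [win_one r hr, show 1 + 1 - r = 0 by omega, ag_small r (n := 0) (by omega),
    ag_small r (n := 1 + 1) (by omega)] at h
  omega

lemma ag_three (r : ℕ) : ag r 3 = 2 := by
  rw [ag_eq r le_rfl]
  simp

lemma win_three (r : ℕ) (hr : 2 ≤ r) : 4 ≤ win r (ag r) 3 ∧ win r (ag r) 3 ≤ 5 ∧
    win r (ag r) 3 ≤ r + 2 := by
  have h := win_succ r (ag r) (ag_small r (by omega)) 2
  rw [win_two r hr, show 2 + 1 = 3 by rfl, ag_three] at h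
  have h3 : ag r (3 - r) = 3 - r := ag_small r (by omega)
  rw [h3] at h
  omega

/-- the induction -/
lemma ag_ind (r : ℕ) (hr : 2 ≤ r) (n : ℕ) :
    (∀ k, k < n → ag r k ≤ ag r (k + 1) ∧ ag r (k + 1) ≤ ag r k + 1) ∧
    (∀ k, 1 ≤ k → k ≤ n → ag r (k - r) < ag r k) := by
  induction n with
  | zero =>
    refine ⟨fun k hk => by omega, fun k hk hk' => by omega⟩
  | succ n ih =>
    obtain ⟨ih1, ih2⟩ := ih
    have a0 : ag r 0 = 0 := ag_small r (by omega)
    -- consequences of the induction hypothesis
    have hmono : ∀ k l, k ≤ l → l ≤ n → ag r k ≤ ag r l ∧ ag r l ≤ ag r k + (l - k) := by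
      intro k l hkl
      induction l, hkl using Nat.le_induction with
      | base => intro _; simp
      | succ l hkl ihl =>
        intro hl
        have h1 := ihl (by omega)
        have h2 := ih1 l (by omega)
        omega
    have hw : ∀ k, k + 1 ≤ n → win r (ag r) k < win r (ag r) (k + 1) ∧
        win r (ag r) (k + 1) ≤ win r (ag r) k + r := by
      intro k hk
      have h1 := win_succ r (ag r) a0 k
      have h2 := ih2 (k + 1) (by omega) hk
      have h3 := hmono (k + 1 - r) (k + 1) (by omega) hk
      omega
    have hwmono : ∀ k l, k < l → l ≤ n → win r (ag r) k < win r (ag r) l := by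
      intro k l hkl
      induction l, (show k + 1 ≤ l from hkl) using Nat.le_induction with
      | base => intro hl; exact (hw k hl).1
      | succ l hkl' ihl =>
        intro hl
        exact (ihl (by omega) (by omega)).trans (hw l hl).1
    have hwge : ∀ k, 2 ≤ k → k ≤ n → k + 1 ≤ win r (ag r) k := by
      intro k hk
      induction k, hk using Nat.le_induction with
      | base => intro _; rw [win_two r hr]
      | succ k hk ihk =>
        intro hk'
        have h1 := ihk (by omega)
        have h2 := (hw k hk').1
        omega
    -- the new step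
    have hstep : ag r n ≤ ag r (n + 1) ∧ ag r (n + 1) ≤ ag r n + 1 := by
      rcases Nat.lt_or_ge n 3 with hn | hn
      · rcases (show n = 0 ∨ n = 1 ∨ n = 2 by omega) with rfl | rfl | rfl
        · rw [ag_small r (by omega), ag_small r (by omega)]; omega
        · rw [ag_small r (by omega), ag_small r (by omega)]; omega
        · rw [ag_small r (by omega), ag_three]; omega
      · rw [ag_eq r hn, ag_eq r (show 3 ≤ n + 1 by omega)]
        have hsub : (Finset.Ico 3 n).filter (fun j => win r (ag r) j ≤ n) ⊆
            (Finset.Ico 3 (n + 1)).filter (fun j => win r (ag r) j ≤ n + 1) := by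
          intro j hj
          simp only [Finset.mem_filter, Finset.mem_Ico] at hj ⊢
          omega
        have hsub2 : (Finset.Ico 3 (n + 1)).filter (fun j => win r (ag r) j ≤ n + 1) ⊆
            (Finset.Ico 3 n).filter (fun j => win r (ag r) j ≤ n) ∪
            (Finset.Ico 3 (n + 1)).filter (fun j => win r (ag r) j = n + 1) := by
          intro j hj
          simp only [Finset.mem_filter, Finset.mem_Ico, Finset.mem_union] at hj ⊢
          by_cases hj2 : win r (ag r) j = n + 1
          · right; exact ⟨hj.1, hj2⟩
          · left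
            refine ⟨⟨hj.1.1, ?_⟩, by omega⟩
            by_contra hc
            have hjn : j = n := by omega
            have := hwge n (by omega) le_rfl
            rw [hjn] at hj hj2
            omega
        have hone : ((Finset.Ico 3 (n + 1)).filter (fun j => win r (ag r) j = n + 1)).card ≤ 1 := by
          rw [Finset.card_le_one]
          intro x hx y hy
          simp only [Finset.mem_filter, Finset.mem_Ico] at hx hy
          rcases Nat.lt_trichotomy x y with h | h | h
          · have := hwmono x y h (by omega)
            omega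
          · exact h
          · have := hwmono y x h (by omega)
            omega
        have h1 := Finset.card_le_card hsub
        have h2 := Finset.card_le_card hsub2
        have h3 := Finset.card_union_le ((Finset.Ico 3 n).filter (fun j => win r (ag r) j ≤ n))
          ((Finset.Ico 3 (n + 1)).filter (fun j => win r (ag r) j = n + 1))
        omega
    have hge2 : ∀ m, 3 ≤ m → 2 ≤ ag r m := fun m hm => by rw [ag_eq r hm]; omega
    refine ⟨?_, ?_⟩
    · intro k hk
      rcases Nat.lt_or_ge k n with h | h
      · exact ih1 k h
      · obtain rfl : k = n := by omega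
        exact hstep
    · intro k hk1 hk
      rcases Nat.lt_or_ge k (n + 1) with h | h
      · exact ih2 k hk1 (by omega)
      · obtain rfl : k = n + 1 := by omega
        have hpos : 1 ≤ ag r (n + 1) := by
          rcases Nat.lt_or_ge (n + 1) 3 with h3 | h3
          · rw [ag_small r (by omega)]; omega
          · exact le_trans (by omega) (hge2 _ h3)
        rcases Nat.lt_or_ge r (n + 1) with hrn | hrn
        · -- `k₀ = n + 1 - r ≥ 1`
          obtain ⟨k₀, hk₀⟩ : ∃ k₀, n + 1 - r = k₀ := ⟨_, rfl⟩
          rw [hk₀]
          have hn3 : 3 ≤ n + 1 := by omega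
          rcases (show k₀ = 1 ∨ k₀ = 2 ∨ 3 ≤ k₀ by omega) with h1 | h1 | h1
          · rw [h1, ag_small r (n := 1) (by omega)]
            exact lt_of_lt_of_le (by omega) (hge2 _ hn3)
          · rw [h1, ag_small r (n := 2) (by omega), ag_eq r hn3]
            have : 0 < ((Finset.Ico 3 (n + 1)).filter
                (fun j => win r (ag r) j ≤ n + 1)).card := by
              rw [Finset.card_pos]
              refine ⟨3, ?_⟩
              simp only [Finset.mem_filter, Finset.mem_Ico]
              have := win_three r hr
              omega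
            omega
          · -- there is `j` with `k₀ < w j ≤ n + 1`
            obtain ⟨j, hj3, hjn, hj1, hj2⟩ : ∃ j, 3 ≤ j ∧ j ≤ n ∧ k₀ < win r (ag r) j ∧
                win r (ag r) j ≤ n + 1 := by
              by_cases hw3 : win r (ag r) 3 ≤ k₀
              · -- least `j` with `w j > k₀`
                have hex : ∃ j, 3 ≤ j ∧ j ≤ n ∧ k₀ < win r (ag r) j :=
                  ⟨k₀, h1, by omega, by have := hwge k₀ (by omega) (by omega); omega⟩
                classical
                obtain ⟨hj3, hjn, hj⟩ := Nat.find_spec hex
                refine ⟨Nat.find hex, hj3, hjn, hj, ?_⟩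
                have hne : Nat.find hex ≠ 3 := by
                  intro he
                  rw [he] at hj
                  omega
                obtain ⟨j', hj'⟩ : ∃ j', Nat.find hex = j' + 1 := ⟨Nat.find hex - 1, by omega⟩
                have hlt : j' < Nat.find hex := by omega
                have hmin := Nat.find_min hex hlt
                have hle : win r (ag r) j' ≤ k₀ := by
                  by_contra hc
                  exact hmin ⟨by omega, by omega, by omega⟩
                have := (hw j' (by omega)).2
                rw [hj']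
                omega
              · have := win_three r hr
                exact ⟨3, le_rfl, by omega, by omega, by omega⟩
            rw [ag_eq r h1, ag_eq r hn3]
            have hss : (Finset.Ico 3 k₀).filter (fun j => win r (ag r) j ≤ k₀) ⊂
                (Finset.Ico 3 (n + 1)).filter (fun j => win r (ag r) j ≤ n + 1) := by
              rw [Finset.ssubset_iff_of_subset]
              · refine ⟨j, ?_, ?_⟩
                · simp only [Finset.mem_filter, Finset.mem_Ico]
                  omega
                · simp only [Finset.mem_filter, Finset.mem_Ico]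
                  omega
              · intro x hx
                simp only [Finset.mem_filter, Finset.mem_Ico] at hx ⊢
                omega
            have := Finset.card_lt_card hss
            omega
        · rw [show n + 1 - r = 0 by omega, a0]
          omega

/-- the almost Golomb sequence exists for every order `r ≥ 2` -/
theorem exists_ag (r : ℕ) (hr : 2 ≤ r) : IsAlmostGolomb r (ag r) := by
  have a0 : ag r 0 = 0 := ag_small r (by omega)
  have hstep : ∀ k, ag r k ≤ ag r (k + 1) ∧ ag r (k + 1) ≤ ag r k + 1 := fun k =>
    (ag_ind r hr (k + 1)).1 k (by omega)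
  have hmono : Monotone (ag r) := monotone_nat_of_le_succ fun k => (hstep k).1
  have hw : StrictMono (win r (ag r)) := by
    apply strictMono_nat_of_lt_succ
    intro k
    have h1 := win_succ r (ag r) a0 k
    have h2 := (ag_ind r hr (k + 1)).2 (k + 1) (by omega) le_rfl
    omega
  have hwge : ∀ k, 2 ≤ k → k + 1 ≤ win r (ag r) k := by
    intro k hk
    induction k, hk using Nat.le_induction with
    | base => rw [win_two r hr]
    | succ k hk ihk =>
      have := hw (Nat.lt_succ_self k)
      rw [Nat.succ_eq_add_one] at this
      omega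
  have hge2 : ∀ m, 3 ≤ m → 2 ≤ ag r m := fun m hm => by rw [ag_eq r hm]; omega
  refine ⟨⟨a0, ?_, hmono, ?_⟩, ?_⟩
  · intro n hn
    have := hmono hn
    rw [ag_small r (n := 1) (by omega)] at this
    exact this
  · intro n hn
    rcases (show n = 1 ∨ n = 2 ∨ 3 ≤ n by omega) with rfl | rfl | h3
    · rw [win_one r hr, ag_small r (by omega)]
    · rw [win_two r hr, ag_three]
    · have h4 := hwge n (by omega)
      rw [ag_eq r (by omega)]
      have : (Finset.Ico 3 (win r (ag r) n)).filter (fun j => win r (ag r) j ≤ win r (ag r) n)
          = Finset.Icc 3 n := by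
        ext j
        simp only [Finset.mem_filter, Finset.mem_Ico, Finset.mem_Icc, hw.le_iff_le]
        omega
      rw [this, Nat.card_Icc]
      omega
  · intro n hn m hm1 hm2 hc
    obtain ⟨n', rfl⟩ : ∃ n', n = n' + 1 := ⟨n - 1, by omega⟩
    rw [Nat.add_sub_cancel] at hm1
    have h1 := hstep n'
    have hmeq : m + 1 = ag r (n' + 1) := by omega
    obtain ⟨s, rfl⟩ : ∃ s, r = s + 1 := ⟨r - 1, by omega⟩
    have hwin : win (s + 1) (ag (s + 1)) (n' + 1)
        = (∑ i ∈ Finset.range s, ag (s + 1) (n' - i)) + ag (s + 1) (n' + 1) := by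
      unfold win
      rw [Finset.sum_range_succ']
      congr 1
      exact Finset.sum_congr rfl fun i _ => by congr 1; omega
    have h4 := hwge (n' + 1) (by omega)
    have harg : m + ∑ i ∈ Finset.range (s + 1 - 1), ag (s + 1) (n' + 1 - 1 - i)
        = win (s + 1) (ag (s + 1)) (n' + 1) - 1 := by
      rw [hwin, Nat.add_sub_cancel, Nat.add_sub_cancel]
      omega
    rw [harg, ag_eq _ (by omega)] at hc
    have hsub : (Finset.Ico 3 (win (s + 1) (ag (s + 1)) (n' + 1) - 1)).filter
        (fun j => win (s + 1) (ag (s + 1)) j ≤ win (s + 1) (ag (s + 1)) (n' + 1) - 1)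
          ⊆ Finset.Icc 3 n' := by
      intro j hj
      simp only [Finset.mem_filter, Finset.mem_Ico, Finset.mem_Icc] at hj ⊢
      refine ⟨hj.1.1, ?_⟩
      by_contra hc2
      have : win (s + 1) (ag (s + 1)) (n' + 1) ≤ win (s + 1) (ag (s + 1)) j :=
        hw.monotone (by omega)
      omega
    have := Finset.card_le_card hsub
    rw [Nat.card_Icc] at this
    omega

end Pool.Agent.R325.AG
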