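import Pool.Agent.R325.AGDefs

namespace Pool.Agent.R325.AG

variable {r : ℕ} {a : ℕ → ℕ}

lemma IsSol.win_mono (h : IsSol r a) : Monotone (win r a) := by
  intro x y hxy
  exact Finset.sum_le_sum fun i _ => h.mono (Nat.sub_le_sub_right hxy i)

lemma IsSol.win_lt (h : IsSol r a) {n : ℕ} (hn : 1 ≤ n) : win r a n < win r a (n + 1) := by
  rcases (h.win_mono (Nat.le_succ n)).lt_or_eq with h1 | h1
  · exact h1
  · have h2 := h.eq n hn
    have h3 := h.eq (n + 1) (by omega)
    rw [Nat.succ_eq_add_one] at h1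
    rw [← h1, h2] at h3
    omega

lemma IsSol.win_add (h : IsSol r a) {n : ℕ} (hn : 1 ≤ n) (k : ℕ) :
    win r a n + k ≤ win r a (n + k) := by
  induction k with
  | zero => simp
  | succ k ih =>
    have := h.win_lt (n := n + k) (by omega)
    rw [← add_assoc n k 1]
    omega

lemma IsSol.step (h : IsSol r a) (n : ℕ) : a (n + 1) ≤ a n + 1 := by
  by_contra hc
  push Not at hc
  have h1 := h.eq (a n + 1) (by omega)
  rcases Nat.lt_or_ge n (win r a (a n + 1)) with h2 | h2
  · have := h.mono (show n + 1 ≤ win r a (a n + 1) by omega)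
    omega
  · have := h.mono h2
    omega

lemma IsSol.le_self (h : IsSol r a) (n : ℕ) : a n ≤ n := by
  induction n with
  | zero => rw [h.zero]
  | succ n ih =>
    have := h.step n
    omega

lemma IsSol.win_le_sq (h : IsSol r a) (n : ℕ) : win r a n ≤ n * n := by
  have h1 : ∀ i ∈ Finset.range r, a (n - i) ≤ if i < n then n else 0 := by
    intro i _
    split_ifs with hi
    · exact (h.le_self _).trans (Nat.sub_le _ _)
    · rw [Nat.sub_eq_zero_of_le (by omega), h.zero]
  calc win r a n ≤ ∑ i ∈ Finset.range r, (if i < n then n else 0) := Finset.sum_le_sum h1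
    _ = ((Finset.range r).filter (· < n)).card * n := by
        rw [← Finset.sum_filter, Finset.sum_const, smul_eq_mul]
    _ ≤ (Finset.range n).card * n := by
        apply Nat.mul_le_mul_right
        apply Finset.card_le_card
        intro i hi
        simp only [Finset.mem_filter, Finset.mem_range] at hi ⊢
        exact hi.2
    _ = n * n := by rw [Finset.card_range]

lemma IsSol.sqrt_le (h : IsSol r a) {s x : ℕ} (hs : s * s ≤ x) : s ≤ a x := by
  rcases Nat.eq_zero_or_pos s with h0 | h0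
  · omega
  · have h1 := h.eq s h0
    have h2 := h.mono ((h.win_le_sq s).trans hs)
    omega

lemma IsSol.mul_le_win (h : IsSol r a) {k : ℕ} (hk : k ≤ r) (n : ℕ) :
    k * a (n - k) ≤ win r a n := by
  calc k * a (n - k) = ∑ _i ∈ Finset.range k, a (n - k) := by simp
    _ ≤ ∑ i ∈ Finset.range k, a (n - i) := by
        apply Finset.sum_le_sum
        intro i hi
        rw [Finset.mem_range] at hi
        exact h.mono (by omega)
    _ ≤ win r a n := by
        apply Finset.sum_le_sum_of_subset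
        intro i hi
        rw [Finset.mem_range] at hi ⊢
        omega

lemma IsSol.win_le_mul (h : IsSol r a) (n : ℕ) : win r a n ≤ r * a n := by
  calc win r a n ≤ ∑ _i ∈ Finset.range r, a n := Finset.sum_le_sum fun i _ =>
        h.mono (Nat.sub_le _ _)
    _ = r * a n := by simp

lemma IsSol.mul_le_win' (h : IsSol r a) (n : ℕ) : r * a (n - (r - 1)) ≤ win r a n := by
  calc r * a (n - (r - 1)) = ∑ _i ∈ Finset.range r, a (n - (r - 1)) := by simp
    _ ≤ win r a n := by
        apply Finset.sum_le_sum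
        intro i hi
        rw [Finset.mem_range] at hi
        exact h.mono (by omega)

lemma IsSol.scale (h : IsSol r a) {n : ℕ} (hn : 1 ≤ n) :
    a (r * n) ≤ r * a (n + (r - 1)) := by
  set N := n + (r - 1) with hN
  have h1 : win r a n + (r - 1) ≤ win r a N := h.win_add hn (r - 1)
  have h2 : n ≤ a (win r a N - (r - 1)) := by
    have := h.mono (show win r a n ≤ win r a N - (r - 1) by omega)
    rw [h.eq n hn] at this
    exact this
  have h3 : r * n ≤ win r a (win r a N) :=
    (Nat.mul_le_mul_left r h2).trans (h.mul_le_win' _)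
  have h4 : 1 ≤ win r a N := by
    by_contra hc
    have h5 : win r a N = 0 := by omega
    have h6 := h.eq N (by omega)
    rw [h5, h.zero] at h6
    omega
  calc a (r * n) ≤ a (win r a (win r a N)) := h.mono h3
    _ = win r a N := h.eq _ h4
    _ ≤ r * a N := h.win_le_mul N

lemma IsSol.scale_pow (h : IsSol r a) (hr : 2 ≤ r) (k : ℕ) :
    ∀ y, 1 ≤ y → a (r ^ k * y) ≤ r ^ k * a (y + 2 * r) := by
  induction k with
  | zero =>
    intro y _
    simp only [pow_zero, one_mul]
    exact h.mono (by omega)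
  | succ k ih =>
    intro y hy
    have h1 := ih (r * y) (Nat.mul_pos (by omega) hy)
    have h2 := h.scale (n := y + 2) (by omega)
    have h3 : a (y + 2 + (r - 1)) ≤ a (y + 2 * r) := h.mono (by omega)
    calc a (r ^ (k + 1) * y) = a (r ^ k * (r * y)) := by congr 1; ring
      _ ≤ r ^ k * a (r * y + 2 * r) := h1
      _ = r ^ k * a (r * (y + 2)) := by congr 2; ring
      _ ≤ r ^ k * (r * a (y + 2 * r)) :=
          Nat.mul_le_mul_left _ (h2.trans (Nat.mul_le_mul_left _ h3))
      _ = r ^ (k + 1) * a (y + 2 * r) := by ring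

lemma IsSol.win_lt_of (h : IsSol r a) {z N : ℕ} (hN : 1 ≤ N) (hz : a z = N + 1) :
    win r a N < z := by
  by_contra hc
  push Not at hc
  have := h.mono hc
  rw [h.eq N hN] at this
  omega

/-- the key estimate -/
lemma IsSol.key (h : IsSol r a) {t Y y : ℕ} (ht : 1 ≤ t) (hY : 8 * t * Y ≤ r)
    (hY2 : r ≤ 16 * t * Y) (hYbig : 64 * t * (t * (32 * t + 1)) ^ 2 + 100 * t ≤ Y)
    (hy1 : Y ≤ y) (hy2 : y ≤ r * Y) : t * a (y + 2 * r) ≤ y := by
  by_contra hc
  push Not at hc
  set z := y + 2 * r with hz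
  have hzd : z ≤ (32 * t + 1) * y := by
    have h0 : 2 * r ≤ 32 * t * y := by
      calc 2 * r ≤ 2 * (16 * t * Y) := Nat.mul_le_mul_left _ hY2
        _ = 32 * t * Y := by ring
        _ ≤ 32 * t * y := Nat.mul_le_mul_left _ hy1
    have h00 : (32 * t + 1) * y = 32 * t * y + y := by ring
    omega
  have hy0 : 1 ≤ y := by omega
  obtain ⟨N, hN⟩ : ∃ N, a z = N + 1 := by
    have := h.pos z (by omega)
    exact ⟨a z - 1, by omega⟩
  rw [hN] at hc
  have hyY : 100 * t ≤ y := by omega
  have hN1 : 1 ≤ N := by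
    by_contra hcon
    have h0 : N = 0 := by omega
    rw [h0] at hc
    omega
  have hwin := h.win_lt_of hN1 hN
  rcases Nat.lt_or_ge (2 * r) N with hcase | hcase
  · -- N > 2r
    set s := Nat.sqrt (N - r) with hs
    have h1 : s ≤ a (N - r) := h.sqrt_le (by rw [hs]; exact Nat.sqrt_le _)
    have h2 : r * s < z := lt_of_le_of_lt ((Nat.mul_le_mul_left r h1).trans
      (h.mul_le_win le_rfl N)) hwin
    have hr0 : 0 < r := by
      rcases Nat.eq_zero_or_pos r with h0 | h0
      · rw [h0] at hy2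
        omega
      · exact h0
    have h3 : s ≤ y / r + 2 := by
      have : r * s < r * (y / r + 3) := by
        have h4 := Nat.div_add_mod y r
        have h5 := Nat.mod_lt y hr0
        have h6 : r * (y / r + 3) = r * (y / r) + 3 * r := by ring
        omega
      have := Nat.lt_of_mul_lt_mul_left this
      omega
    have h4 : N - r < (s + 1) * (s + 1) := Nat.lt_succ_sqrt (N - r)
    set q := y / r with hq
    have hqY : q ≤ Y := by
      rw [hq]
      exact Nat.div_le_of_le_mul hy2
    have hqr : q * r ≤ y := Nat.div_mul_le_self y r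
    have h5 : N < 2 * ((q + 3) * (q + 3)) := by
      have : (s + 1) * (s + 1) ≤ (q + 3) * (q + 3) := Nat.mul_le_mul (by omega) (by omega)
      omega
    have h60 : 6 * q ≤ q * q + 9 := by
      have : (6 * (q : ℤ)) ≤ q * q + 9 := by
        have := sq_nonneg ((q : ℤ) - 3)
        linarith [this, show ((q : ℤ) - 3) ^ 2 = q * q - 6 * q + 9 by ring]
      exact_mod_cast this
    have h6 : (q + 3) * (q + 3) ≤ 2 * (q * q) + 18 := by
      have : (q + 3) * (q + 3) = q * q + 6 * q + 9 := by ring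
      omega
    have h7 : 8 * t * (q * q) ≤ y := by
      calc 8 * t * (q * q) = q * (8 * t * q) := by ring
        _ ≤ q * (8 * t * Y) := Nat.mul_le_mul_left _ (Nat.mul_le_mul_left _ hqY)
        _ ≤ q * r := Nat.mul_le_mul_left _ hY
        _ ≤ y := hqr
    -- `y < t (N + 1) ≤ t (4 q² + 36) ≤ y / 2 + 36 t`
    have h8 : t * (N + 1) ≤ t * (4 * (q * q) + 36) := Nat.mul_le_mul_left _ (by omega)
    have h9 : 2 * (t * (4 * (q * q) + 36)) = 8 * t * (q * q) + 72 * t := by ring
    omega
  · -- N ≤ 2r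
    set k := N / 2 with hk
    set s := Nat.sqrt k with hs
    have hkr : k ≤ r := by omega
    have hss : s * s ≤ N - k := (Nat.sqrt_le k).trans (by omega)
    have h1 : s ≤ a (N - k) := h.sqrt_le hss
    have h2 : k * s < z := lt_of_le_of_lt ((Nat.mul_le_mul_left k h1).trans
      (h.mul_le_win hkr N)) hwin
    have hk1 : 1 ≤ k := by
      by_contra hcon
      have h10 : N + 1 ≤ 2 := by omega
      have h11 : t * (N + 1) ≤ t * 2 := Nat.mul_le_mul_left _ h10
      omega
    have h3 : y < 4 * t * k := by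
      have h10 : N + 1 ≤ 4 * k := by omega
      calc y < t * (N + 1) := hc
        _ ≤ t * (4 * k) := Nat.mul_le_mul_left _ h10
        _ = 4 * t * k := by ring
    have h4 : k * s < k * (4 * t * (32 * t + 1)) := by
      calc k * s < z := h2
        _ ≤ (32 * t + 1) * y := hzd
        _ ≤ (32 * t + 1) * (4 * t * k) := Nat.mul_le_mul_left _ h3.le
        _ = k * (4 * t * (32 * t + 1)) := by ring
    have h5 : s < 4 * t * (32 * t + 1) := Nat.lt_of_mul_lt_mul_left h4
    have h6 : k < (s + 1) * (s + 1) := Nat.lt_succ_sqrt k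
    have h7 : (s + 1) * (s + 1) ≤ (4 * t * (32 * t + 1)) * (4 * t * (32 * t + 1)) :=
      Nat.mul_le_mul (by omega) (by omega)
    have h8 : y < 4 * t * ((4 * t * (32 * t + 1)) * (4 * t * (32 * t + 1))) :=
      lt_of_lt_of_le h3 (Nat.mul_le_mul_left _ (by omega))
    have h9 : 4 * t * ((4 * t * (32 * t + 1)) * (4 * t * (32 * t + 1)))
      = 64 * t * (t * (32 * t + 1)) ^ 2 := by ring
    omega

/-- for every `t` and all large `r`: `a(x) ≤ (2/t) x` for all large `x` -/
theorem bound (t : ℕ) (ht : 1 ≤ t) : ∃ R : ℕ, ∀ r, R ≤ r → ∀ a, IsSol r a →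
    ∃ X : ℕ, ∀ x, X ≤ x → t * a x ≤ 2 * x := by
  set C := 64 * t * (t * (32 * t + 1)) ^ 2 + 100 * t with hC
  refine ⟨8 * t * (C + 1), fun r hr a h => ?_⟩
  set Y := r / (8 * t) with hYdef
  have h8 : 0 < 8 * t := by omega
  have hCY : C + 1 ≤ Y := by
    rw [hYdef, Nat.le_div_iff_mul_le h8]
    rw [mul_comm]
    exact hr
  have hY1 : 1 ≤ Y := by omega
  have hY : 8 * t * Y ≤ r := Nat.mul_div_le r (8 * t)
  have hY2 : r ≤ 16 * t * Y := by
    have h1 := Nat.div_add_mod r (8 * t)
    have h2 := Nat.mod_lt r h8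
    rw [← hYdef] at h1
    nlinarith
  have hr2 : 2 ≤ r := by nlinarith
  refine ⟨Y, fun x hx => ?_⟩
  -- the scale
  set k := Nat.log r (x / Y) with hk
  have hxY : x / Y ≠ 0 := by
    have := Nat.div_pos hx hY1
    omega
  have h1 : r ^ k ≤ x / Y := Nat.pow_log_le_self r hxY
  have h2 : x / Y < r ^ (k + 1) := Nat.lt_pow_succ_log_self (by omega) _
  have h1' : r ^ k * Y ≤ x := by
    rwa [Nat.le_div_iff_mul_le hY1] at h1
  have h2' : x < r ^ (k + 1) * Y := by
    rwa [Nat.div_lt_iff_lt_mul hY1] at h2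
  have hpk : 0 < r ^ k := Nat.pow_pos (by omega)
  set y := x / r ^ k + 1 with hy
  have hy1 : Y ≤ y := by
    have : Y ≤ x / r ^ k := by
      rw [Nat.le_div_iff_mul_le hpk, mul_comm]
      exact h1'
    omega
  have hy2 : y ≤ r * Y := by
    have : x / r ^ k < r * Y := by
      rw [Nat.div_lt_iff_lt_mul hpk]
      calc x < r ^ (k + 1) * Y := h2'
        _ = r * Y * r ^ k := by ring
    omega
  have h3 := h.key ht hY hY2 (by omega) hy1 hy2
  have h4 : x ≤ r ^ k * y := by
    have h5 := Nat.div_add_mod x (r ^ k)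
    have h6 := Nat.mod_lt x hpk
    rw [hy]
    nlinarith
  have h5 : r ^ k * y ≤ 2 * x := by
    have h6 : r ^ k * (x / r ^ k) ≤ x := Nat.mul_div_le x (r ^ k)
    have h7 : r ^ k ≤ x := by nlinarith
    rw [hy]
    nlinarith
  have h6 := h.scale_pow hr2 k y (by omega)
  calc t * a x ≤ t * a (r ^ k * y) := Nat.mul_le_mul_left _ (h.mono h4)
    _ ≤ t * (r ^ k * a (y + 2 * r)) := Nat.mul_le_mul_left _ h6
    _ = r ^ k * (t * a (y + 2 * r)) := by ring
    _ ≤ r ^ k * y := Nat.mul_le_mul_left _ h3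
    _ ≤ 2 * x := h5

lemma Lmax_nonneg {r : ℕ} {a : ℕ → ℕ} (h : IsSol r a) : 0 ≤ Lmax a := by
  apply Filter.le_limsup_of_frequently_le
  · exact Filter.Frequently.of_forall fun n => by positivity
  · refine ⟨1, ?_⟩
    rw [Filter.eventually_map]
    refine Filter.Eventually.of_forall fun n => ?_
    apply div_le_one_of_le₀ _ (Nat.cast_nonneg n)
    exact_mod_cast h.le_self n

lemma Lmax_le {a : ℕ → ℕ} {t X : ℕ} (ht : 1 ≤ t) (hX : ∀ x, X ≤ x → t * a x ≤ 2 * x) :
    Lmax a ≤ 2 / t := by
  apply Filter.limsup_le_of_le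
  · refine ⟨0, ?_⟩
    intro c hc
    rw [Filter.eventually_map] at hc
    obtain ⟨n, hn⟩ := hc.exists
    exact le_trans (by positivity) hn
  · filter_upwards [Filter.eventually_ge_atTop (max X 1)] with n hn
    have hn1 : (0 : ℝ) < n := by
      have : 1 ≤ n := (le_max_right _ _).trans hn
      exact_mod_cast this
    have ht1 : (0 : ℝ) < t := by exact_mod_cast ht
    rw [div_le_div_iff₀ hn1 ht1]
    have := hX n ((le_max_left _ _).trans hn)
    calc (a n : ℝ) * t = ((t * a n : ℕ) : ℝ) := by push_cast; ring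
      _ ≤ ((2 * n : ℕ) : ℝ) := by exact_mod_cast this
      _ = 2 * n := by push_cast; ring

theorem main_eps (ε : ℝ) (hε : 0 < ε) : ∃ R : ℕ, ∀ r, R ≤ r → ∀ a, IsSol r a → Lmax a ≤ ε := by
  obtain ⟨t, ht⟩ := exists_nat_gt (2 / ε)
  have ht1 : 1 ≤ t := by
    have : (0 : ℝ) < t := lt_trans (by positivity) ht
    exact_mod_cast this
  obtain ⟨R, hR⟩ := bound t ht1
  refine ⟨R, fun r hr a h => ?_⟩
  obtain ⟨X, hX⟩ := hR r hr a h
  refine (Lmax_le ht1 hX).trans ?_
  have ht0 : (0 : ℝ) < t := by exact_mod_cast ht1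
  rw [div_le_iff₀ ht0]
  rw [div_lt_iff₀ hε] at ht
  linarith

end Pool.Agent.R325.AG
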