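import Mathlib

/-!
# Definitions for MP_fa793f_nt
-/

set_option autoImplicit false

namespace Pool.Agent.R325.AvgDegree

open Polynomial

/-- `∑_{i ≤ k} a_i u^i v^(k-i)` for `a` a polynomial over `F` and `u, v` in an `F`-algebra. -/
noncomputable def hom {F B : Type} [Field F] [CommRing B] [Algebra F B] (k : ℕ) (a : F[X])
    (u v : B) : B :=
  ∑ i ∈ Finset.range (k + 1), algebraMap F B (a.coeff i) * u ^ i * v ^ (k - i)

section Factors

variable {F : Type} [Field F]

/-- The finite set of distinct monic irreducible factors of `Q`. -/
noncomputable def factors (Q : F[X]) : Finset F[X] := by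
  classical exact (UniqueFactorizationMonoid.normalizedFactors Q).toFinset

/-- The sum of the degrees of the distinct irreducible factors of `Q`. -/
noncomputable def delta (Q : F[X]) : ℕ := ∑ p ∈ factors Q, p.natDegree

/-- The number of distinct irreducible factors of `Q`. -/
noncomputable def numFactors (Q : F[X]) : ℕ := (factors Q).card

/-- The average degree of the distinct irreducible factors of `Q`. -/
noncomputable def avg (Q : F[X]) : ℝ := (delta Q : ℝ) / (numFactors Q : ℝ)

end Factors

section Dynamics

variable {F : Type} [Field F]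

/-- The degree of `R = g / h`. -/
def degR (g h : F[X]) : ℕ := max g.natDegree h.natDegree

/-- The `R`-transform `f_R = h^k f(g/h)`, `k = deg f`, for `R = g / h`. -/
noncomputable def transform (g h f : F[X]) : F[X] := hom f.natDegree f g h

/-- `f_R^{(n)}`: the `R`-transform iterated `n` times. -/
noncomputable def iterTransform (g h f : F[X]) (n : ℕ) : F[X] := (transform g h)^[n] f

/-- Numerator and denominator of the iterate `R^{(n)}` of `R = g / h`. -/
noncomputable def iterFn (g h : F[X]) : ℕ → F[X] × F[X]
  | 0 => (X, 1)
  | n + 1 => (hom (degR g h) g (iterFn g h n).1 (iterFn g h n).2,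
      hom (degR g h) h (iterFn g h n).1 (iterFn g h n).2)

variable {K : Type} [Field K] [Algebra F K]

/-- The map `[s : t] ↦ [g(s,t) : h(s,t)]` on homogeneous coordinates. -/
noncomputable def st (g h : F[X]) (P : K × K) : K × K :=
  (hom (degR g h) g P.1 P.2, hom (degR g h) h P.1 P.2)

/-- The number of distinct `x ∈ K` with `R^{(n)}(x) = α`, `R = g / h`. -/
noncomputable def numSol (g h : F[X]) (α : K) (n : ℕ) : ℕ :=
  Set.ncard {x : K | aeval x (iterFn g h n).2 ≠ 0 ∧
    aeval x (iterFn g h n).1 / aeval x (iterFn g h n).2 = α}

/-- Homogeneous coordinates over `F` of the point `R^{(j)}(∞)`, `R = g / h`. -/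
noncomputable def infOrbit (g h : F[X]) (j : ℕ) : F × F := (st g h)^[j] (1, 0)

end Dynamics

end Pool.Agent.R325.AvgDegree
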