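import Mathlib
import Pool.Agent.R325.AvgDegreeDefs

set_option autoImplicit false

namespace Pool.Agent.R325.AvgDegree

open Polynomial Finset

section Growth

variable {K : Type} [Field K] [IsAlgClosed K]

/-- the distinct affine preimages of `T` under `g / h` -/
noncomputable def pre (g h : K[X]) (T : Finset K) : Finset K := by
  classical exact T.biUnion (fun β => (g - C β * h).roots.toFinset)

omit [IsAlgClosed K] in
theorem sub_ne_zero' (g h : K[X]) (hc : IsCoprime g h) (hd : 1 ≤ max g.natDegree h.natDegree)
    (β : K) : g - C β * h ≠ 0 := by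
  intro h0
  have hg : g = C β * h := sub_eq_zero.mp h0
  have hu : IsUnit h := by
    apply hc.isUnit_of_dvd' (dvd_of_mul_left_eq (C β) hg.symm) dvd_rfl
  have hhd := natDegree_eq_zero_of_isUnit hu
  have : g.natDegree ≤ h.natDegree := by rw [hg]; exact natDegree_C_mul_le _ _
  omega

omit [IsAlgClosed K] in
theorem no_common_root (g h : K[X]) (hc : IsCoprime g h) (x : K) (h1 : g.eval x = 0)
    (h2 : h.eval x = 0) : False := by
  obtain ⟨a, b, hab⟩ := hc
  have := congrArg (fun p => p.eval x) hab
  simp [h1, h2] at this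

omit [IsAlgClosed K] in
theorem mem_pre (g h : K[X]) (hc : IsCoprime g h) (hd : 1 ≤ max g.natDegree h.natDegree)
    (T : Finset K) (x : K) : x ∈ pre g h T ↔ h.eval x ≠ 0 ∧ g.eval x / h.eval x ∈ T := by
  classical
  simp only [pre, mem_biUnion, Multiset.mem_toFinset, mem_roots (sub_ne_zero' g h hc hd _),
    IsRoot.def, eval_sub, eval_mul, eval_C]
  constructor
  · rintro ⟨β, hβ, hx⟩
    have hne : h.eval x ≠ 0 := by
      intro h0
      rw [h0, mul_zero, sub_zero] at hx
      exact no_common_root g h hc x hx h0
    refine ⟨hne, ?_⟩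
    have : g.eval x / h.eval x = β := by
      rw [div_eq_iff hne]; exact sub_eq_zero.mp hx
    rwa [this]
  · rintro ⟨hne, hx⟩
    exact ⟨_, hx, by field_simp; ring⟩

theorem growth (g h : K[X]) (hc : IsCoprime g h) (hd : 1 ≤ max g.natDegree h.natDegree)
    (hW : derivative g * h - g * derivative h ≠ 0) (T : Finset K) :
    max g.natDegree h.natDegree * T.card ≤
      (pre g h T).card + (3 * max g.natDegree h.natDegree - 1) := by
  classical
  set d := max g.natDegree h.natDegree with hdd
  set W := derivative g * h - g * derivative h with hWd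
  set P : K → K[X] := fun β => g - C β * h with hP
  have hP0 : ∀ β, P β ≠ 0 := sub_ne_zero' g h hc hd
  have hgd : g.natDegree ≤ d := le_max_left _ _
  have hhd : h.natDegree ≤ d := le_max_right _ _
  have hWdeg : W.natDegree ≤ 2 * d - 1 := by
    have e1 : (derivative g * h).natDegree ≤ 2 * d - 1 := by
      by_cases h0 : g.natDegree = 0
      · have : derivative g = 0 := derivative_of_natDegree_zero h0
        simp [this]
      · have := natDegree_derivative_lt h0
        refine natDegree_mul_le.trans ?_
        omega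
    have e2 : (g * derivative h).natDegree ≤ 2 * d - 1 := by
      by_cases h0 : h.natDegree = 0
      · have : derivative h = 0 := derivative_of_natDegree_zero h0
        simp [this]
      · have := natDegree_derivative_lt h0
        refine natDegree_mul_le.trans ?_
        omega
    exact (natDegree_sub_le_of_le e1 e2).trans (by simp)
  -- sum of the degrees from below
  have hlow : d * T.card ≤ ∑ β ∈ T, (P β).natDegree + d := by
    by_cases hex : ∃ β₀ ∈ T, (P β₀).coeff d = 0
    · obtain ⟨β₀, hβ₀, h0⟩ := hex
      have hothers : ∀ β ∈ T.erase β₀, d ≤ (P β).natDegree := by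
        intro β hβ
        apply le_natDegree_of_ne_zero
        intro h1
        rw [mem_erase] at hβ
        simp only [hP, coeff_sub, coeff_C_mul] at h0 h1
        have h2 : (β - β₀) * h.coeff d = 0 := by linear_combination h0 - h1
        rcases mul_eq_zero.mp h2 with h3 | h3
        · exact hβ.1 (sub_eq_zero.mp h3)
        · rw [h3, mul_zero, sub_zero] at h0
          rcases max_choice g.natDegree h.natDegree with h4 | h4
          · rw [← hdd] at h4
            rw [h4, ← leadingCoeff, leadingCoeff_eq_zero] at h0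
            rw [h0] at h4
            simp at h4
            omega
          · rw [← hdd] at h4
            rw [h4, ← leadingCoeff, leadingCoeff_eq_zero] at h3
            rw [h3] at h4
            simp at h4
            omega
      have h5 : (T.erase β₀).card * d ≤ ∑ β ∈ T.erase β₀, (P β).natDegree := by
        have := sum_le_sum hothers
        simpa using this
      have h6 : ∑ β ∈ T.erase β₀, (P β).natDegree ≤ ∑ β ∈ T, (P β).natDegree :=
        sum_le_sum_of_subset (erase_subset _ _)
      rw [card_erase_of_mem hβ₀] at h5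
      have h7 : T.card = (T.card - 1) + 1 := by
        have := card_pos.mpr ⟨β₀, hβ₀⟩
        omega
      rw [h7, mul_add, mul_one, mul_comm]
      omega
    · push Not at hex
      have hothers : ∀ β ∈ T, d ≤ (P β).natDegree := fun β hβ => le_natDegree_of_ne_zero (hex β hβ)
      have := sum_le_sum hothers
      simp at this
      rw [mul_comm]
      omega
  -- sum of the degrees from above
  have hdis : (T : Set K).PairwiseDisjoint (fun β => (P β).roots.toFinset) := by
    intro β hβ β' hβ' hne
    rw [Function.onFun, Finset.disjoint_left]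
    intro x hx hx'
    rw [Multiset.mem_toFinset, mem_roots (hP0 _), IsRoot.def] at hx hx'
    simp only [hP, eval_sub, eval_mul, eval_C] at hx hx'
    have h2 : (β - β') * h.eval x = 0 := by linear_combination hx' - hx
    rcases mul_eq_zero.mp h2 with h3 | h3
    · exact hne (sub_eq_zero.mp h3)
    · rw [h3, mul_zero, sub_zero] at hx
      exact no_common_root g h hc x hx h3
  have hmult : ∀ β x, (P β).roots.count x ≤ 1 + W.roots.count x := by
    intro β x
    rw [count_roots, count_roots]
    have h1 : (X - C x) ^ ((P β).rootMultiplicity x) ∣ P β := pow_rootMultiplicity_dvd _ _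
    have h2 := pow_sub_one_dvd_derivative_of_pow_dvd h1
    have h3 : (X - C x) ^ ((P β).rootMultiplicity x - 1) ∣ P β :=
      (pow_dvd_pow _ (Nat.sub_le _ _)).trans h1
    have h4 : W = derivative (P β) * h - P β * derivative h := by
      simp only [hP, hWd, derivative_sub, derivative_mul, derivative_C, zero_mul, zero_add]
      ring
    have h5 : (X - C x) ^ ((P β).rootMultiplicity x - 1) ∣ W := by
      rw [h4]
      exact dvd_sub (h2.mul_right _) (h3.mul_right _)
    have := (le_rootMultiplicity_iff hW).mpr h5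
    omega
  have hup : ∑ β ∈ T, (P β).natDegree ≤ (pre g h T).card + (2 * d - 1) := by
    have h1 : ∀ β ∈ T, (P β).natDegree ≤
        (P β).roots.toFinset.card + ∑ x ∈ (P β).roots.toFinset, W.roots.count x := by
      intro β _
      have h2 : (P β).natDegree = (P β).roots.card :=
        (splits_iff_card_roots.mp (IsAlgClosed.splits _)).symm
      rw [h2, ← Multiset.toFinset_sum_count_eq, card_eq_sum_ones, ← sum_add_distrib]
      exact sum_le_sum fun x _ => hmult β x
    refine (sum_le_sum h1).trans ?_
    rw [sum_add_distrib]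
    have h3 : ∑ β ∈ T, (P β).roots.toFinset.card = (pre g h T).card := by
      rw [pre, card_biUnion hdis]
    have h4 : ∑ β ∈ T, ∑ x ∈ (P β).roots.toFinset, W.roots.count x =
        ∑ x ∈ pre g h T, W.roots.count x := by
      rw [pre, sum_biUnion hdis]
    have h5 : ∑ x ∈ pre g h T, W.roots.count x ≤ W.roots.card := by
      have h6 : ∑ x ∈ pre g h T, W.roots.count x ≤ ∑ x ∈ pre g h T ∪ W.roots.toFinset,
        W.roots.count x := sum_le_sum_of_subset subset_union_left
      refine h6.trans ?_
      rw [← Multiset.toFinset_sum_count_eq]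
      apply le_of_eq
      symm
      apply sum_subset subset_union_right
      intro x _ hx
      rw [Multiset.mem_toFinset] at hx
      exact Multiset.count_eq_zero_of_notMem hx
    have h6 : W.roots.card ≤ 2 * d - 1 := (card_roots' W).trans hWdeg
    rw [h3, h4]
    omega
  omega


end Growth

section Reduction

variable {K : Type} [Field K] [IsAlgClosed K] {p : ℕ} [hp : Fact p.Prime] [CharP K p]

theorem reduction (n : ℕ) : ∀ g h : K[X], IsCoprime g h → 1 ≤ max g.natDegree h.natDegree →
    max g.natDegree h.natDegree ≤ n →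
    ∃ (e : ℕ) (g₁ h₁ : K[X]), g = g₁ ^ (p ^ e) ∧ h = h₁ ^ (p ^ e) ∧ IsCoprime g₁ h₁ ∧
      1 ≤ max g₁.natDegree h₁.natDegree ∧
      derivative g₁ * h₁ - g₁ * derivative h₁ ≠ 0 := by
  induction n with
  | zero => intro g h _ h1 h2; omega
  | succ n ih =>
    intro g h hc h1 h2
    by_cases hW : derivative g * h - g * derivative h = 0
    · have hgh : derivative g * h = g * derivative h := sub_eq_zero.mp hW
      have hder : ∀ u v : K[X], IsCoprime u v → derivative u * v = u * derivative v →
          derivative u = 0 := by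
        intro u v huv he
        by_contra hne
        have hdvd : u ∣ derivative u := by
          apply huv.dvd_of_dvd_mul_right
          exact ⟨_, he⟩
        have := natDegree_le_of_dvd hdvd hne
        have h0 : u.natDegree ≠ 0 := by
          intro h0
          exact hne (derivative_of_natDegree_zero h0)
        have := natDegree_derivative_lt h0
        omega
      have hg' : derivative g = 0 := hder g h hc hgh
      have hh' : derivative h = 0 := hder h g hc.symm (by rw [mul_comm, ← hgh, mul_comm])
      have hp0 : p ≠ 0 := hp.out.ne_zero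
      have eg := expand_contract p hg' hp0
      have eh := expand_contract p hh' hp0
      rw [polynomial_expand_eq] at eg eh
      set g₂ := (contract p g).map ((frobeniusEquiv K p).symm : K →+* K) with hg₂
      set h₂ := (contract p h).map ((frobeniusEquiv K p).symm : K →+* K) with hh₂
      have hc₂ : IsCoprime g₂ h₂ := by
        rw [← eg, ← eh] at hc
        exact (IsCoprime.pow_iff hp.out.pos hp.out.pos).mp hc
      have dg : g.natDegree = p * g₂.natDegree := by rw [← eg, natDegree_pow]
      have dh : h.natDegree = p * h₂.natDegree := by rw [← eh, natDegree_pow]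
      have hmax : max g.natDegree h.natDegree = p * max g₂.natDegree h₂.natDegree := by
        rw [dg, dh, Nat.mul_max_mul_left]
      have h2p := hp.out.two_le
      have h1' : 1 ≤ max g₂.natDegree h₂.natDegree := by
        by_contra h0
        have : max g₂.natDegree h₂.natDegree = 0 := by omega
        rw [hmax, this] at h1
        omega
      have hlt : max g₂.natDegree h₂.natDegree ≤ n := by
        have : 2 * max g₂.natDegree h₂.natDegree ≤ p * max g₂.natDegree h₂.natDegree :=
          Nat.mul_le_mul_right _ h2p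
        omega
      obtain ⟨e, g₁, h₁, a1, a2, a3, a4, a5⟩ := ih g₂ h₂ hc₂ h1' hlt
      refine ⟨e + 1, g₁, h₁, ?_, ?_, a3, a4, a5⟩
      · rw [← eg, a1, ← pow_mul, pow_succ]
      · rw [← eh, a2, ← pow_mul, pow_succ]
    · exact ⟨0, g, h, by simp, by simp, hc, h1, hW⟩

/-- growth through a possibly inseparable function. -/
theorem growth' (g h g₁ h₁ : K[X]) (e : ℕ) (hg : g = g₁ ^ (p ^ e)) (hh : h = h₁ ^ (p ^ e))
    (hc : IsCoprime g₁ h₁) (hd : 1 ≤ max g₁.natDegree h₁.natDegree)
    (hW : derivative g₁ * h₁ - g₁ * derivative h₁ ≠ 0) (S S' : Finset K)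
    (hS : ∀ x, h.eval x ≠ 0 → g.eval x / h.eval x ∈ S → x ∈ S') :
    max g₁.natDegree h₁.natDegree * S.card ≤
      S'.card + (3 * max g₁.natDegree h₁.natDegree - 1) := by
  classical
  set φ : K ≃+* K := iterateFrobeniusEquiv K p e with hφ
  set T := S.image φ.symm with hT
  have hTcard : T.card = S.card := card_image_of_injective _ φ.symm.injective
  have := growth g₁ h₁ hc hd hW T
  rw [hTcard] at this
  refine this.trans (Nat.add_le_add_right (card_le_card ?_) _)
  intro x hx
  rw [mem_pre g₁ h₁ hc hd] at hx
  obtain ⟨hx1, hx2⟩ := hx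
  apply hS x
  · rw [hh, eval_pow]; exact pow_ne_zero _ hx1
  · rw [hT, mem_image] at hx2
    obtain ⟨s, hs, hs2⟩ := hx2
    have : g.eval x / h.eval x = φ (g₁.eval x / h₁.eval x) := by
      rw [hφ, iterateFrobeniusEquiv_apply, iterateFrobenius_def, hg, hh, eval_pow, eval_pow,
        div_pow]
    rw [this, ← hs2, RingEquiv.apply_symm_apply]
    exact hs

end Reduction


section Hom

variable {F K : Type} [Field F] [Field K] [Algebra F K]

theorem hom_of_ne (k : ℕ) (a : F[X]) (ha : a.natDegree ≤ k) (u v : K) (hv : v ≠ 0) :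
    hom k a u v = v ^ k * aeval (u / v) a := by
  rw [aeval_eq_sum_range' (Nat.lt_succ_of_le ha), Finset.mul_sum, hom]
  refine Finset.sum_congr rfl fun i hi => ?_
  have hi' : i ≤ k := Nat.lt_succ_iff.mp (Finset.mem_range.mp hi)
  rw [Algebra.smul_def]
  have : v ^ k = v ^ i * v ^ (k - i) := by rw [← pow_add]; congr 1; omega
  rw [this, div_pow]
  field_simp

theorem hom_zero (k : ℕ) (a : F[X]) (u : K) :
    hom k a u 0 = algebraMap F K (a.coeff k) * u ^ k := by
  rw [hom, Finset.sum_eq_single k]
  · simp
  · intro i hi hne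
    have hi' : i ≤ k := Nat.lt_succ_iff.mp (Finset.mem_range.mp hi)
    have : k - i ≠ 0 := by omega
    rw [zero_pow this, mul_zero]
  · intro h; simp at h

theorem hom_smul (k : ℕ) (a : F[X]) (c u v : K) :
    hom k a (c * u) (c * v) = c ^ k * hom k a u v := by
  rw [hom, hom, Finset.mul_sum]
  refine Finset.sum_congr rfl fun i hi => ?_
  have hi' : i ≤ k := Nat.lt_succ_iff.mp (Finset.mem_range.mp hi)
  have : c ^ k = c ^ i * c ^ (k - i) := by rw [← pow_add]; congr 1; omega
  rw [this, mul_pow, mul_pow]
  ring

theorem map_hom {B : Type} [CommRing B] [Algebra F B] (φ : B →ₐ[F] K) (k : ℕ) (a : F[X])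
    (u v : B) : φ (hom k a u v) = hom k a (φ u) (φ v) := by
  simp [hom, map_sum]

theorem hom_map (k : ℕ) (a : F[X]) (u v : K) :
    hom k (a.map (algebraMap F K)) u v = hom k a u v := by
  simp [hom]

theorem hom_pow (k m : ℕ) (a : K[X]) (ha : a.natDegree ≤ k) (u v : K) :
    hom (m * k) (a ^ m) u v = (hom k a u v) ^ m := by
  by_cases hv : v = 0
  · subst hv
    rw [hom_zero, hom_zero, coeff_pow_of_natDegree_le ha, map_pow, mul_pow, ← pow_mul,
      mul_comm k m]
  · rw [hom_of_ne _ _ (natDegree_pow_le_of_le m ha) _ _ hv, hom_of_ne _ _ ha _ _ hv, map_pow,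
      mul_pow, ← pow_mul, mul_comm k m]

theorem hom_one (a : K[X]) (u v : K) :
    hom 1 a u v = a.coeff 1 * u + a.coeff 0 * v := by
  simp [hom, Finset.sum_range_succ]; ring

end Hom

section Dichotomy

theorem dichotomy {K : Type} [Field K] [IsAlgClosed K] (p : ℕ) [hp : Fact p.Prime] [CharP K p]
    (g h : K[X]) (hc : IsCoprime g h) (hd : 1 ≤ max g.natDegree h.natDegree) :
    (∃ d₁ : ℕ, 2 ≤ d₁ ∧ ∀ S S' : Finset K,
      (∀ x, h.eval x ≠ 0 → g.eval x / h.eval x ∈ S → x ∈ S') →
        d₁ * S.card ≤ S'.card + (3 * d₁ - 1)) ∨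
    (∀ s t s' t' : K, hom (max g.natDegree h.natDegree) g s t *
      hom (max g.natDegree h.natDegree) h s' t' =
      hom (max g.natDegree h.natDegree) g s' t' * hom (max g.natDegree h.natDegree) h s t →
      s * t' = s' * t) := by
  obtain ⟨e, g₁, h₁, hg, hh, hc₁, hd₁, hW⟩ :=
    reduction (p := p) (max g.natDegree h.natDegree) g h hc hd le_rfl
  by_cases h2 : 2 ≤ max g₁.natDegree h₁.natDegree
  · left
    refine ⟨_, h2, fun S S' hS => ?_⟩
    exact growth' g h g₁ h₁ e hg hh hc₁ hd₁ hW S S' hS
  · right
    have h1 : max g₁.natDegree h₁.natDegree = 1 := by omega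
    have hg1 : g₁.natDegree ≤ 1 := h1 ▸ le_max_left _ _
    have hh1 : h₁.natDegree ≤ 1 := h1 ▸ le_max_right _ _
    have hmax : max g.natDegree h.natDegree = p ^ e * 1 := by
      rw [hg, hh, natDegree_pow, natDegree_pow, Nat.mul_max_mul_left, h1]
    intro s t s' t' hcross
    rw [hmax] at hcross
    have eg : g₁ = C (g₁.coeff 1) * X + C (g₁.coeff 0) := eq_X_add_C_of_natDegree_le_one hg1
    have eh : h₁ = C (h₁.coeff 1) * X + C (h₁.coeff 0) := eq_X_add_C_of_natDegree_le_one hh1
    have hdet : g₁.coeff 1 * h₁.coeff 0 - g₁.coeff 0 * h₁.coeff 1 ≠ 0 := by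
      intro h0
      apply hW
      have : derivative g₁ * h₁ - g₁ * derivative h₁ =
          C (g₁.coeff 1 * h₁.coeff 0 - g₁.coeff 0 * h₁.coeff 1) := by
        conv_lhs => rw [eg, eh]
        simp only [derivative_add, derivative_mul, derivative_C, derivative_X, map_sub, map_mul]
        ring
      rw [this, h0, C_0]
    rw [hg, hh, hom_pow 1 _ _ hg1, hom_pow 1 _ _ hh1, hom_pow 1 _ _ hg1, hom_pow 1 _ _ hh1,
      ← mul_pow, ← mul_pow] at hcross
    have hinj := (iterateFrobeniusEquiv K p e).injective
    have h3 : hom 1 g₁ s t * hom 1 h₁ s' t' = hom 1 g₁ s' t' * hom 1 h₁ s t := by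
      apply hinj
      rw [iterateFrobeniusEquiv_apply, iterateFrobeniusEquiv_apply, iterateFrobenius_def,
        iterateFrobenius_def]
      exact hcross
    simp only [hom_one] at h3
    have h4 : (g₁.coeff 1 * h₁.coeff 0 - g₁.coeff 0 * h₁.coeff 1) * (s * t' - s' * t) = 0 := by
      linear_combination h3
    rcases mul_eq_zero.mp h4 with h5 | h5
    · exact absurd h5 hdet
    · exact sub_eq_zero.mp h5

/-- exponential growth of a sequence of finite sets -/
theorem expGrowth {K : Type} [Field K] (g h : K[X]) (d₁ : ℕ) (h2 : 2 ≤ d₁)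
    (H : ∀ S S' : Finset K, (∀ x, h.eval x ≠ 0 → g.eval x / h.eval x ∈ S → x ∈ S') →
        d₁ * S.card ≤ S'.card + (3 * d₁ - 1))
    (S : ℕ → Finset K) (hS : ∀ n x, h.eval x ≠ 0 → g.eval x / h.eval x ∈ S n → x ∈ S (n + 1))
    (n₀ : ℕ) (hn₀ : 6 ≤ (S n₀).card) (k : ℕ) : 5 + 2 ^ k ≤ (S (n₀ + k)).card := by
  induction k with
  | zero => simpa using hn₀
  | succ k ih =>
    have := H (S (n₀ + k)) (S (n₀ + k + 1)) (hS (n₀ + k))
    have h3 : d₁ * (5 + 2 ^ k) ≤ d₁ * (S (n₀ + k)).card := Nat.mul_le_mul_left _ ih
    have h4 : 2 * 2 ^ k ≤ d₁ * 2 ^ k := Nat.mul_le_mul_right _ h2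
    rw [← add_assoc, pow_succ]
    have h5 : d₁ * (5 + 2 ^ k) = 5 * d₁ + d₁ * 2 ^ k := by ring
    omega

end Dichotomy


section Average

variable {F : Type} [Field F]

theorem mem_factors (Q : F[X]) (hQ : Q ≠ 0) (p : F[X]) :
    p ∈ factors Q ↔ Irreducible p ∧ p.Monic ∧ p ∣ Q := by
  classical
  rw [factors, Multiset.mem_toFinset]
  constructor
  · intro hp
    have h1 := UniqueFactorizationMonoid.irreducible_of_normalized_factor p hp
    have h2 := UniqueFactorizationMonoid.normalize_normalized_factor p hp
    exact ⟨h1, by rw [← h2]; exact monic_normalize h1.ne_zero,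
      UniqueFactorizationMonoid.dvd_of_mem_normalizedFactors hp⟩
  · rintro ⟨h1, h2, h3⟩
    obtain ⟨q, hq, hpq⟩ := UniqueFactorizationMonoid.exists_mem_normalizedFactors_of_dvd hQ h1 h3
    have h4 := UniqueFactorizationMonoid.normalize_normalized_factor q hq
    have h5 : normalize p = normalize q := normalize_eq_normalize_iff_associated.mpr hpq
    rw [h4, h2.normalize_eq_self] at h5
    rwa [h5]

variable {K : Type} [Field K] [Algebra F K]

/-- distinct roots in `K` -/
noncomputable def rts (K : Type) [Field K] [Algebra F K] (Q : F[X]) : Finset K := by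
  classical exact (Q.aroots K).toFinset

theorem mem_rts (Q : F[X]) (hQ : Q ≠ 0) (x : K) : x ∈ rts K Q ↔ aeval x Q = 0 := by
  classical
  rw [rts, Multiset.mem_toFinset, mem_aroots]
  exact ⟨fun h => h.2, fun h => ⟨hQ, h⟩⟩

theorem card_rts_le_delta (Q : F[X]) (hQ : Q ≠ 0) : (rts K Q).card ≤ delta Q := by
  classical
  have hsub : rts K Q ⊆ (factors Q).biUnion (fun p => rts K p) := by
    intro x hx
    rw [mem_rts Q hQ] at hx
    have hassoc := UniqueFactorizationMonoid.prod_normalizedFactors hQ
    obtain ⟨u, hu⟩ := hassoc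
    have h1 : aeval x ((UniqueFactorizationMonoid.normalizedFactors Q).prod) *
        aeval x (u : F[X]) = 0 := by rw [← map_mul, hu, hx]
    have h2 : aeval x (u : F[X]) ≠ 0 := (u.isUnit.map (aeval x)).ne_zero
    have h3 := (mul_eq_zero.mp h1).resolve_right h2
    rw [map_multiset_prod, Multiset.prod_eq_zero_iff, Multiset.mem_map] at h3
    obtain ⟨p, hp, hp0⟩ := h3
    rw [Finset.mem_biUnion]
    refine ⟨p, by rw [factors, Multiset.mem_toFinset]; exact hp, ?_⟩
    rw [mem_rts p (UniqueFactorizationMonoid.irreducible_of_normalized_factor p hp).ne_zero]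
    exact hp0
  refine (Finset.card_le_card hsub).trans (Finset.card_biUnion_le.trans ?_)
  refine Finset.sum_le_sum fun p _ => ?_
  rw [rts]
  refine (Multiset.toFinset_card_le _).trans ?_
  refine (card_roots' _).trans natDegree_map_le

theorem delta_le_card_rts [PerfectField F] [IsAlgClosed K] (Q : F[X]) (hQ : Q ≠ 0) :
    delta Q ≤ (rts K Q).card := by
  classical
  have hcard : ∀ p ∈ factors Q, (rts K p).card = p.natDegree := by
    intro p hp
    rw [mem_factors Q hQ] at hp
    have hsep : p.Separable := PerfectField.separable_of_irreducible hp.1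
    rw [rts, Multiset.toFinset_card_of_nodup]
    · rw [aroots, splits_iff_card_roots.mp (IsAlgClosed.splits _), natDegree_map]
    · exact nodup_roots hsep.map
  have hdis : ((factors Q : Finset F[X]) : Set F[X]).PairwiseDisjoint (fun p => rts K p) := by
    intro p hp p' hp' hne
    rw [Function.onFun, Finset.disjoint_left]
    intro x hx hx'
    rw [Finset.mem_coe, mem_factors Q hQ] at hp hp'
    rw [mem_rts p hp.1.ne_zero] at hx
    rw [mem_rts p' hp'.1.ne_zero] at hx'
    have h1 := minpoly.eq_of_irreducible_of_monic hp.1 hx hp.2.1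
    have h2 := minpoly.eq_of_irreducible_of_monic hp'.1 hx' hp'.2.1
    exact hne (h1.trans h2.symm)
  have hsub : (factors Q).biUnion (fun p => rts K p) ⊆ rts K Q := by
    intro x hx
    rw [Finset.mem_biUnion] at hx
    obtain ⟨p, hp, hx⟩ := hx
    rw [mem_factors Q hQ] at hp
    rw [mem_rts p hp.1.ne_zero] at hx
    rw [mem_rts Q hQ]
    obtain ⟨q, hq⟩ := hp.2.2
    rw [hq, map_mul, hx, zero_mul]
  have := Finset.card_le_card hsub
  rw [Finset.card_biUnion hdis, Finset.sum_congr rfl hcard] at this
  exact this

/-- counting bound: `M * N ≤ M * q^M + δ`. -/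
theorem numFactors_bound [Fintype F] (Q : F[X]) (M : ℕ) :
    M * numFactors Q ≤ M * Fintype.card F ^ M + delta Q := by
  classical
  rw [numFactors, delta, ← Finset.card_filter_add_card_filter_not (s := factors Q)
    (fun p => p.natDegree < M), mul_add]
  apply Nat.add_le_add
  · apply Nat.mul_le_mul_left
    have hinj : Set.InjOn (fun (p : F[X]) (i : Fin M) => p.coeff i)
        ((factors Q).filter (fun p => p.natDegree < M) : Finset F[X]) := by
      intro p hp p' hp' he
      simp only [Finset.coe_filter, Set.mem_ofPred_eq] at hp hp'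
      ext n
      by_cases hn : n < M
      · exact congrFun he ⟨n, hn⟩
      · rw [coeff_eq_zero_of_natDegree_lt (by omega), coeff_eq_zero_of_natDegree_lt (by omega)]
    have := Finset.card_le_card_of_injOn (s := (factors Q).filter (fun p => p.natDegree < M))
      (t := (Finset.univ : Finset (Fin M → F))) _ (fun _ _ => Finset.mem_univ _) hinj
    simpa using this
  · have h1 : ∑ p ∈ (factors Q).filter (fun p => ¬ p.natDegree < M), M ≤
        ∑ p ∈ (factors Q).filter (fun p => ¬ p.natDegree < M), p.natDegree := by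
      apply Finset.sum_le_sum
      intro p hp
      rw [Finset.mem_filter] at hp
      omega
    rw [Finset.sum_const, smul_eq_mul, mul_comm] at h1
    exact h1.trans (Finset.sum_le_sum_of_subset (Finset.filter_subset _ _))

/-- The averaging argument. -/
theorem avg_linear [Fintype F] (P : ℕ → F[X]) (hP : ∀ n, P n ≠ 0) (n₀ : ℕ)
    (hexp : ∀ k, 2 ^ k ≤ (rts K (P (n₀ + k))).card) :
    ∃ c : ℝ, 0 < c ∧ ∀ᶠ n : ℕ in Filter.atTop, c * n ≤ avg (P n) := by
  classical
  set q := Fintype.card F with hq
  have hq2 : 2 ≤ q := Fintype.one_lt_card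
  -- `q ≤ 2 ^ q`
  have hq' : q ≤ 2 ^ q := Nat.lt_two_pow_self.le
  refine ⟨1 / (16 * q), by positivity, ?_⟩
  filter_upwards [Filter.eventually_ge_atTop (2 * n₀ + 4 * q)] with n hn
  set M := (n - n₀) / (2 * q) with hM
  obtain ⟨k, hk⟩ : ∃ k, n = n₀ + k := ⟨n - n₀, by omega⟩
  have hMk : M = k / (2 * q) := by rw [hM, hk]; congr 1; omega
  have hδ : 2 ^ k ≤ delta (P n) := by
    rw [hk]; exact (hexp k).trans (card_rts_le_delta _ (hP _))
  have hMk' : 2 * q * M ≤ k := by rw [hMk]; exact Nat.mul_div_le _ _
  have h1 : M * q ^ M ≤ 2 ^ k := by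
    calc M * q ^ M ≤ 2 ^ M * (2 ^ q) ^ M :=
          Nat.mul_le_mul Nat.lt_two_pow_self.le (Nat.pow_le_pow_left hq' M)
      _ = 2 ^ (M + q * M) := by rw [← pow_mul, ← pow_add]
      _ ≤ 2 ^ k := by
          apply Nat.pow_le_pow_right (by norm_num)
          have : M ≤ q * M := Nat.le_mul_of_pos_left M (by omega)
          nlinarith
  have h2 := numFactors_bound (P n) M
  have h3 : M * numFactors (P n) ≤ 2 * delta (P n) := by
    have : M * Fintype.card F ^ M ≤ 2 ^ k := h1
    omega
  have hNpos : 0 < numFactors (P n) := by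
    rw [numFactors, Finset.card_pos]
    by_contra h0
    rw [Finset.not_nonempty_iff_eq_empty] at h0
    have : delta (P n) = 0 := by rw [delta, h0, Finset.sum_empty]
    have h4 : 0 < 2 ^ k := by positivity
    omega
  rw [avg, le_div_iff₀ (by exact_mod_cast hNpos)]
  have h3' : (M : ℝ) * numFactors (P n) ≤ 2 * delta (P n) := by exact_mod_cast h3
  -- `n ≤ 8 q M`
  have hM4 : n ≤ 8 * q * M := by
    have h5 : k < 2 * q * (M + 1) := by
      rw [hMk]
      have := Nat.lt_mul_div_succ k (show 0 < 2 * q by omega)
      exact this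
    have h6 : n ≤ 2 * k := by omega
    have h7 : 1 ≤ M := by
      rw [hMk, Nat.le_div_iff_mul_le (by omega)]
      omega
    have h8 : q ≤ q * M := Nat.le_mul_of_pos_right q h7
    have h9 : 2 * q * (M + 1) = 2 * (q * M) + 2 * q := by ring
    have h10 : 8 * q * M = 8 * (q * M) := by ring
    omega
  have hM4' : (n : ℝ) ≤ 8 * q * M := by exact_mod_cast hM4
  have hNn : (0 : ℝ) ≤ numFactors (P n) := by positivity
  have hqpos : (0 : ℝ) < q := by positivity
  calc 1 / (16 * (q : ℝ)) * n * numFactors (P n)
      ≤ 1 / (16 * (q : ℝ)) * (8 * q * M) * numFactors (P n) := by gcongr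
    _ = (M * numFactors (P n)) / 2 := by field_simp; ring
    _ ≤ delta (P n) := by linarith

end Average

end Pool.Agent.R325.AvgDegree
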