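import Mathlib
import Pool.Agent.R325.AvgDegree

set_option autoImplicit false

namespace Pool.Agent.R325.AvgDegree

open Polynomial

section Dynamics

variable {F : Type} [Field F]

variable {K : Type} [Field K] [Algebra F K]

theorem st_iterFn (g h : F[X]) (n : ℕ) (x : K) :
    (aeval x (iterFn g h n).1, aeval x (iterFn g h n).2) = (st g h)^[n] (x, 1) := by
  induction n with
  | zero => simp [iterFn]
  | succ n ih =>
    rw [Function.iterate_succ_apply', ← ih]
    simp only [iterFn, st, map_hom]

theorem st_smul (g h : F[X]) (c : K) (P : K × K) :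
    st g h (c • P) = c ^ (degR g h) • st g h P := by
  simp only [st, Prod.smul_fst, Prod.smul_snd, smul_eq_mul, hom_smul, Prod.smul_mk]

theorem st_iter_smul (g h : F[X]) (n : ℕ) (c : K) (P : K × K) :
    (st g h)^[n] (c • P) = c ^ (degR g h ^ n) • (st g h)^[n] P := by
  induction n generalizing c P with
  | zero => simp
  | succ n ih =>
    rw [Function.iterate_succ_apply, Function.iterate_succ_apply, st_smul, ih, ← pow_mul,
      pow_succ, mul_comm]

theorem coprime_pt (g h : F[X]) (hc : IsCoprime g h) (x : K) (h1 : aeval x g = 0)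
    (h2 : aeval x h = 0) : False := by
  obtain ⟨a, b, hab⟩ := hc
  have := congrArg (aeval x) hab
  simp [h1, h2] at this

theorem st_ne_zero (g h : F[X]) (hc : IsCoprime g h) (hd : 1 ≤ degR g h) (P : K × K)
    (hP : P ≠ 0) : st g h P ≠ 0 := by
  intro h0
  obtain ⟨s, t⟩ := P
  rw [st, Prod.mk_eq_zero] at h0
  obtain ⟨h1, h2⟩ := h0
  have hgd : g.natDegree ≤ degR g h := le_max_left _ _
  have hhd : h.natDegree ≤ degR g h := le_max_right _ _
  dsimp only at h1 h2
  by_cases ht : t = 0
  · subst ht
    have hs : s ≠ 0 := by rintro rfl; exact hP rfl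
    rw [hom_zero] at h1 h2
    have hs' : s ^ degR g h ≠ 0 := pow_ne_zero _ hs
    have h3 : g.coeff (degR g h) = 0 := by
      simpa [hs'] using h1
    have h4 : h.coeff (degR g h) = 0 := by
      simpa [hs'] using h2
    rcases max_choice g.natDegree h.natDegree with h5 | h5
    · have h6 : degR g h = g.natDegree := h5
      rw [h6, ← leadingCoeff, leadingCoeff_eq_zero] at h3
      have h7 : g.natDegree = 0 := by rw [h3]; simp
      omega
    · have h6 : degR g h = h.natDegree := h5
      rw [h6, ← leadingCoeff, leadingCoeff_eq_zero] at h4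
      have h7 : h.natDegree = 0 := by rw [h4]; simp
      omega
  · rw [hom_of_ne _ _ hgd _ _ ht] at h1
    rw [hom_of_ne _ _ hhd _ _ ht] at h2
    have ht' : t ^ degR g h ≠ 0 := pow_ne_zero _ ht
    exact coprime_pt g h hc (s / t) (by simpa [ht'] using h1) (by simpa [ht'] using h2)

theorem st_iter_ne_zero (g h : F[X]) (hc : IsCoprime g h) (hd : 1 ≤ degR g h) (n : ℕ) (P : K × K)
    (hP : P ≠ 0) : (st g h)^[n] P ≠ 0 := by
  induction n with
  | zero => simpa
  | succ n ih => rw [Function.iterate_succ_apply']; exact st_ne_zero g h hc hd _ ih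

theorem st_pt (g h : F[X]) (x : K) (hx : aeval x h ≠ 0) :
    st g h (x, 1) = (aeval x h) • (aeval x g / aeval x h, (1 : K)) := by
  have hgd : g.natDegree ≤ degR g h := le_max_left _ _
  have hhd : h.natDegree ≤ degR g h := le_max_right _ _
  rw [st]
  dsimp only
  rw [hom_of_ne _ _ hgd _ _ one_ne_zero, hom_of_ne _ _ hhd _ _ one_ne_zero]
  simp only [one_pow, one_mul, div_one, Prod.smul_mk, smul_eq_mul, mul_one]
  rw [mul_div_cancel₀ _ hx]

theorem st_pt_zero (g h : F[X]) (x : K) (hx : aeval x h = 0) :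
    st g h (x, 1) = (aeval x g) • ((1 : K), (0 : K)) := by
  have hgd : g.natDegree ≤ degR g h := le_max_left _ _
  have hhd : h.natDegree ≤ degR g h := le_max_right _ _
  rw [st]
  dsimp only
  rw [hom_of_ne _ _ hgd _ _ one_ne_zero, hom_of_ne _ _ hhd _ _ one_ne_zero]
  simp [hx]

/-- roots of a transform -/
theorem aeval_transform (u v f : F[X]) (hf : f ≠ 0) (x : K)
    (hx : ¬ (aeval x u = 0 ∧ aeval x v = 0)) :
    aeval x (transform u v f) = 0 ↔ aeval x v ≠ 0 ∧ aeval (aeval x u / aeval x v) f = 0 := by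
  rw [transform, map_hom]
  by_cases hv : aeval x v = 0
  · rw [hv, hom_zero]
    have hu : aeval x u ≠ 0 := fun h => hx ⟨h, hv⟩
    simp [hf, hu]
  · rw [hom_of_ne _ _ le_rfl _ _ hv]
    simp [hv]


theorem transform_ne_zero' [Infinite K] (u v f : F[X]) (hf : f ≠ 0)
    (huv : ∀ x : K, ¬ (aeval x u = 0 ∧ aeval x v = 0))
    (hfin : ∀ β : K, {x : K | aeval x v ≠ 0 ∧ aeval x u / aeval x v = β}.Finite) :
    transform u v f ≠ 0 := by
  intro h0
  have hall : ∀ x : K, aeval x v ≠ 0 ∧ aeval (aeval x u / aeval x v) f = 0 := by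
    intro x
    rw [← aeval_transform u v f hf x (huv x), h0, map_zero]
  have hcov : (Set.univ : Set K) ⊆ ⋃ β ∈ (rts K f : Set K),
      {x : K | aeval x v ≠ 0 ∧ aeval x u / aeval x v = β} := by
    intro x _
    rw [Set.mem_iUnion₂]
    exact ⟨_, by rw [Finset.mem_coe, mem_rts f hf]; exact (hall x).2, (hall x).1, rfl⟩
  have hf2 : (⋃ β ∈ (rts K f : Set K),
      {x : K | aeval x v ≠ 0 ∧ aeval x u / aeval x v = β}).Finite :=
    (Finset.finite_toSet _).biUnion fun β _ => hfin β
  exact Set.infinite_univ (hf2.subset hcov)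

theorem finite_fiber (g h : F[X]) (hc : IsCoprime g h) (hd : 1 ≤ degR g h) (β : K) :
    {x : K | aeval x h ≠ 0 ∧ aeval x g / aeval x h = β}.Finite := by
  have hc' : IsCoprime (g.map (algebraMap F K)) (h.map (algebraMap F K)) :=
    hc.map (mapRingHom (algebraMap F K))
  have hd' : 1 ≤ max (g.map (algebraMap F K)).natDegree (h.map (algebraMap F K)).natDegree := by
    rw [natDegree_map, natDegree_map]; exact hd
  refine (Finset.finite_toSet (pre (g.map (algebraMap F K)) (h.map (algebraMap F K)) {β})).subset ?_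
  intro x hx
  rw [Finset.mem_coe, mem_pre _ _ hc' hd', eval_map_algebraMap, eval_map_algebraMap,
    Finset.mem_singleton]
  exact hx

theorem transform_ne_zero [Infinite K] (g h f : F[X]) (hc : IsCoprime g h) (hd : 1 ≤ degR g h)
    (hf : f ≠ 0) : transform g h f ≠ 0 :=
  transform_ne_zero' (K := K) g h f hf (fun x hx => coprime_pt g h hc x hx.1 hx.2)
    (finite_fiber g h hc hd)

theorem iterFn_ne (g h : F[X]) (hc : IsCoprime g h) (hd : 1 ≤ degR g h) (n : ℕ) (x : K) :
    ¬ (aeval x (iterFn g h n).1 = 0 ∧ aeval x (iterFn g h n).2 = 0) := by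
  intro hx
  have h1 := st_iterFn g h n x
  rw [hx.1, hx.2] at h1
  exact st_iter_ne_zero g h hc hd n (x, (1 : K)) (by simp) h1.symm

/-- `R^{(n+1)}(x) = R^{(n)}(R(x))` -/
theorem iterFn_succ_pt (g h : F[X]) (n : ℕ) (x : K) (hx : aeval x h ≠ 0) :
    aeval x (iterFn g h (n + 1)).1 =
      (aeval x h) ^ (degR g h ^ n) * aeval (aeval x g / aeval x h) (iterFn g h n).1 ∧
    aeval x (iterFn g h (n + 1)).2 =
      (aeval x h) ^ (degR g h ^ n) * aeval (aeval x g / aeval x h) (iterFn g h n).2 := by
  have h1 := st_iterFn g h (n + 1) x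
  rw [Function.iterate_succ_apply, st_pt g h x hx, st_iter_smul, ← st_iterFn] at h1
  simpa [Prod.ext_iff] using h1

theorem finite_fiber_iter (g h : F[X]) (hc : IsCoprime g h) (hd : 1 ≤ degR g h) (n : ℕ) (β : K) :
    {x : K | aeval x (iterFn g h n).2 ≠ 0 ∧
      aeval x (iterFn g h n).1 / aeval x (iterFn g h n).2 = β}.Finite := by
  induction n generalizing β with
  | zero =>
    refine (Set.finite_singleton β).subset ?_
    intro x hx
    simpa [iterFn] using hx
  | succ n ih =>
    have hh0 : h ≠ 0 := by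
      rintro rfl
      have hu : IsUnit g := isCoprime_zero_right.mp hc
      have := natDegree_eq_zero_of_isUnit hu
      rw [degR, this] at hd
      simp at hd
    have hc' : IsCoprime (g.map (algebraMap F K)) (h.map (algebraMap F K)) :=
      hc.map (mapRingHom (algebraMap F K))
    have hd' : 1 ≤ max (g.map (algebraMap F K)).natDegree (h.map (algebraMap F K)).natDegree := by
      rw [natDegree_map, natDegree_map]; exact hd
    refine ((Finset.finite_toSet (rts K h)).union (Finset.finite_toSet
      (pre (g.map (algebraMap F K)) (h.map (algebraMap F K)) (ih β).toFinset))).subset ?_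
    intro x hx
    by_cases hxh : aeval x h = 0
    · left; rw [Finset.mem_coe, mem_rts h hh0]; exact hxh
    · right
      rw [Finset.mem_coe, mem_pre _ _ hc' hd', eval_map_algebraMap, eval_map_algebraMap,
        Set.Finite.mem_toFinset]
      refine ⟨hxh, ?_⟩
      obtain ⟨h1, h2⟩ := hx
      obtain ⟨e1, e2⟩ := iterFn_succ_pt g h n x hxh
      rw [e1, e2] at h2
      rw [e2] at h1
      have hp : (aeval x h) ^ (degR g h ^ n) ≠ 0 := pow_ne_zero _ hxh
      refine ⟨fun h3 => h1 (by rw [h3, mul_zero]), ?_⟩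
      rw [mul_div_mul_left _ _ hp] at h2
      exact h2


theorem algebraMap_infOrbit (g h : F[X]) (j : ℕ) :
    (algebraMap F K (infOrbit g h j).1, algebraMap F K (infOrbit g h j).2) =
      (st g h)^[j] ((1 : K), (0 : K)) := by
  induction j with
  | zero => simp [infOrbit]
  | succ j ih =>
    rw [Function.iterate_succ_apply', ← ih, infOrbit, Function.iterate_succ_apply']
    have h1 : ∀ (k : ℕ) (a : F[X]) (u v : F), algebraMap F K (hom k a u v) =
        hom k a (algebraMap F K u) (algebraMap F K v) := by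
      intro k a u v
      simp [hom, map_sum]
    simp only [st, h1, infOrbit]

theorem cross_iter (g h : F[X])
    (H : ∀ s t s' t' : K, hom (degR g h) g s t * hom (degR g h) h s' t' =
      hom (degR g h) g s' t' * hom (degR g h) h s t → s * t' = s' * t) (n : ℕ) (P P' : K × K)
    (hPP : ((st g h)^[n] P).1 * ((st g h)^[n] P').2 = ((st g h)^[n] P').1 * ((st g h)^[n] P).2) :
    P.1 * P'.2 = P'.1 * P.2 := by
  induction n with
  | zero => simpa using hPP
  | succ n ih =>
    rw [Function.iterate_succ_apply', Function.iterate_succ_apply'] at hPP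
    exact ih (H _ _ _ _ hPP)

variable [IsAlgClosed K]

theorem dich (p : ℕ) [Fact p.Prime] [CharP K p] (g h : F[X]) (hc : IsCoprime g h)
    (hd : 1 ≤ degR g h) :
    (∃ d₁ : ℕ, 2 ≤ d₁ ∧ ∀ S S' : Finset K,
      (∀ x, (h.map (algebraMap F K)).eval x ≠ 0 →
        (g.map (algebraMap F K)).eval x / (h.map (algebraMap F K)).eval x ∈ S → x ∈ S') →
        d₁ * S.card ≤ S'.card + (3 * d₁ - 1)) ∨
    (∀ s t s' t' : K, hom (degR g h) g s t * hom (degR g h) h s' t' =
      hom (degR g h) g s' t' * hom (degR g h) h s t → s * t' = s' * t) := by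
  have hc' : IsCoprime (g.map (algebraMap F K)) (h.map (algebraMap F K)) :=
    hc.map (mapRingHom (algebraMap F K))
  have hd' : 1 ≤ max (g.map (algebraMap F K)).natDegree (h.map (algebraMap F K)).natDegree := by
    rw [natDegree_map, natDegree_map]; exact hd
  rcases dichotomy p _ _ hc' hd' with h1 | h1
  · exact Or.inl h1
  · right
    rw [natDegree_map, natDegree_map] at h1
    simp only [hom_map] at h1
    exact h1

omit [IsAlgClosed K] in
/-- Linear growth for any sequence closed under preimages. -/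
theorem linear_of_unbounded [Fintype F] (g h : F[X]) (d₁ : ℕ) (h2 : 2 ≤ d₁)
    (H : ∀ S S' : Finset K,
      (∀ x, (h.map (algebraMap F K)).eval x ≠ 0 →
        (g.map (algebraMap F K)).eval x / (h.map (algebraMap F K)).eval x ∈ S → x ∈ S') →
        d₁ * S.card ≤ S'.card + (3 * d₁ - 1))
    (P : ℕ → F[X]) (hP : ∀ n, P n ≠ 0)
    (hstep : ∀ n (x : K), aeval x h ≠ 0 → aeval (aeval x g / aeval x h) (P n) = 0 →
      aeval x (P (n + 1)) = 0)
    (n₀ : ℕ) (hn₀ : 6 ≤ (rts K (P n₀)).card) :
    ∃ c : ℝ, 0 < c ∧ ∀ᶠ n : ℕ in Filter.atTop, c * n ≤ avg (P n) := by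
  have hgrow := expGrowth (g.map (algebraMap F K)) (h.map (algebraMap F K)) d₁ h2 H
    (fun n => rts K (P n)) (by
      intro n x hx1 hx2
      rw [eval_map_algebraMap, eval_map_algebraMap, mem_rts _ (hP n)] at hx2
      rw [eval_map_algebraMap] at hx1
      rw [mem_rts _ (hP (n + 1))]
      exact hstep n x hx1 hx2) n₀ hn₀
  exact avg_linear (K := K) P hP n₀ fun k => by have := hgrow k; omega

theorem iterTransform_succ (g h f : F[X]) (n : ℕ) :
    iterTransform g h f (n + 1) = transform g h (iterTransform g h f n) := by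
  rw [iterTransform, Function.iterate_succ_apply']; rfl

omit [IsAlgClosed K] in
theorem iterTransform_ne_zero [Infinite K] (g h f : F[X]) (hc : IsCoprime g h)
    (hd : 1 ≤ degR g h) (hf : f ≠ 0) (n : ℕ) : iterTransform g h f n ≠ 0 := by
  induction n with
  | zero => simpa [iterTransform]
  | succ n ih => rw [iterTransform_succ]; exact transform_ne_zero (K := K) g h _ hc hd ih

theorem avg_le_delta (Q : F[X]) : avg Q ≤ delta Q := by
  rw [avg]
  by_cases h : numFactors Q = 0
  · rw [h]; simp
  · apply div_le_self (by positivity)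
    exact_mod_cast Nat.one_le_iff_ne_zero.mpr h

/-- Part A. -/
theorem partA [Fintype F] (K : Type) [Field K] [Algebra F K] [IsAlgClosed K] (g h f : F[X])
    (hc : IsCoprime g h) (hd : 1 ≤ degR g h)
    (hf : f ≠ 0) :
    (∃ c : ℝ, 0 < c ∧ ∀ᶠ n : ℕ in Filter.atTop, c * n ≤ avg (iterTransform g h f n)) ↔
    (∀ B : ℕ, ∃ n, B ≤ delta (iterTransform g h f n)) := by
  classical
  constructor
  · rintro ⟨c, hc0, hev⟩ B
    obtain ⟨N, hN⟩ := Filter.eventually_atTop.mp hev
    obtain ⟨m, hm⟩ := exists_nat_gt ((B : ℝ) / c)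
    refine ⟨max N m, ?_⟩
    have h1 := (hN (max N m) (le_max_left _ _)).trans (avg_le_delta _)
    have h2 : (B : ℝ) < c * m := by rwa [div_lt_iff₀' hc0] at hm
    have h3 : (m : ℝ) ≤ ((max N m : ℕ) : ℝ) := by exact_mod_cast le_max_right _ _
    have h4 : (B : ℝ) ≤ (delta (iterTransform g h f (max N m)) : ℝ) := by nlinarith
    exact_mod_cast h4
  · intro hunb
    obtain ⟨p, hp⟩ := CharP.exists F
    have : Fact p.Prime := ⟨CharP.char_is_prime F p⟩
    have : CharP K p := charP_of_injective_algebraMap (algebraMap F K).injective p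
    have : Infinite K := IsAlgClosed.instInfinite
    have hP := iterTransform_ne_zero (K := K) g h f hc hd hf
    have hstep : ∀ n (x : K), aeval x (iterTransform g h f (n + 1)) = 0 ↔ aeval x h ≠ 0 ∧
        aeval (aeval x g / aeval x h) (iterTransform g h f n) = 0 := by
      intro n x
      rw [iterTransform_succ]
      exact aeval_transform g h _ (hP n) x (fun hx => coprime_pt g h hc x hx.1 hx.2)
    rcases dich (K := K) p g h hc hd with ⟨d₁, h2, H⟩ | H
    · obtain ⟨n₀, hn₀⟩ := hunb 6
      exact linear_of_unbounded (K := K) g h d₁ h2 H _ hP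
        (fun n x h1 h2 => (hstep n x).mpr ⟨h1, h2⟩) n₀
        (hn₀.trans (delta_le_card_rts _ (hP n₀)))
    · exfalso
      have hmono : ∀ n, (rts K (iterTransform g h f n)).card ≤
          (rts K (iterTransform g h f 0)).card := by
        intro n
        induction n with
        | zero => exact le_rfl
        | succ n ih =>
          refine le_trans ?_ ih
          apply Finset.card_le_card_of_injOn (fun x => aeval x g / aeval x h)
          · intro x hx
            rw [Finset.mem_coe, mem_rts _ (hP _), hstep] at hx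
            rw [Finset.mem_coe, mem_rts _ (hP _)]
            exact hx.2
          · intro x hx y hy hxy
            rw [Finset.mem_coe, mem_rts _ (hP _), hstep] at hx hy
            dsimp only at hxy
            have h3 := H x 1 y 1 (by
              have e1 := st_pt g h x hx.1
              have e2 := st_pt g h y hy.1
              rw [hxy] at e1
              rw [st, Prod.ext_iff] at e1 e2
              simp only [Prod.smul_mk, smul_eq_mul, mul_one] at e1 e2
              rw [e1.1, e1.2, e2.1, e2.2]
              ring)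
            simpa using h3
      obtain ⟨n, hn⟩ := hunb ((rts K (iterTransform g h f 0)).card + 1)
      have h3 := hn.trans (delta_le_card_rts (K := K) _ (hP n))
      have h4 := hmono n
      omega

/-- Part B. -/
theorem partB [Fintype F] (g h f : F[X]) (hc : IsCoprime g h) (hd : 1 ≤ degR g h)
    (hf : f ≠ 0) (α : K) (hα : aeval α f = 0) (hcrit : ∀ B, ∃ n, B < numSol g h α n)
    (hinf : ∀ j, algebraMap F K (infOrbit g h j).1 ≠ α * algebraMap F K (infOrbit g h j).2) :
    ∀ B : ℕ, ∃ n, B ≤ delta (iterTransform g h f n) := by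
  classical
  have : Infinite K := IsAlgClosed.instInfinite
  have hP := iterTransform_ne_zero (K := K) g h f hc hd hf
  have key : ∀ n (x : K), aeval x (iterFn g h n).2 ≠ 0 →
      aeval x (iterFn g h n).1 / aeval x (iterFn g h n).2 = α →
      aeval x (iterTransform g h f n) = 0 := by
    intro n
    induction n with
    | zero =>
      intro x _ hx
      have : x = α := by simpa [iterFn] using hx
      rw [this]; exact hα
    | succ n ih =>
      intro x h1 h2
      rw [iterTransform_succ, aeval_transform g h _ (hP n) x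
        (fun hx => coprime_pt g h hc x hx.1 hx.2)]
      by_cases hxh : aeval x h = 0
      · exfalso
        have e1 := st_iterFn g h (n + 1) x
        rw [Function.iterate_succ_apply, st_pt_zero g h x hxh, st_iter_smul,
          ← algebraMap_infOrbit, Prod.smul_mk, Prod.mk.injEq] at e1
        obtain ⟨e1, e2⟩ := e1
        rw [div_eq_iff h1, e1, e2] at h2
        simp only [smul_eq_mul] at h2
        have hg0 : aeval x g ≠ 0 := fun h0 => coprime_pt g h hc x h0 hxh
        have hg1 : aeval x g ^ degR g h ^ n ≠ 0 := pow_ne_zero _ hg0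
        apply hinf n
        apply mul_left_cancel₀ hg1
        rw [h2]; ring
      · refine ⟨hxh, ?_⟩
        obtain ⟨e1, e2⟩ := iterFn_succ_pt g h n x hxh
        have hp : (aeval x h) ^ (degR g h ^ n) ≠ 0 := pow_ne_zero _ hxh
        rw [e1, e2, mul_div_mul_left _ _ hp] at h2
        rw [e2] at h1
        exact ih _ (fun h3 => h1 (by rw [h3, mul_zero])) h2
  intro B
  obtain ⟨n, hn⟩ := hcrit B
  refine ⟨n, hn.le.trans (le_trans ?_ (card_rts_le_delta (K := K) _ (hP n)))⟩
  rw [numSol, ← Set.ncard_coe_finset]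
  apply Set.ncard_le_ncard _ (Finset.finite_toSet _)
  rintro x ⟨h1, h2⟩
  rw [Finset.mem_coe, mem_rts _ (hP n)]
  exact key n x h1 h2

omit [IsAlgClosed K] in
theorem infOrbit_ne (g h : F[X]) (hc : IsCoprime g h) (hd : 1 ≤ degR g h) (α : K)
    (hα : ∀ a : F, algebraMap F K a ≠ α) (j : ℕ) :
    algebraMap F K (infOrbit g h j).1 ≠ α * algebraMap F K (infOrbit g h j).2 := by
  intro h0
  have hne : infOrbit g h j ≠ 0 := st_iter_ne_zero g h hc hd j _ (by simp)
  by_cases h2 : (infOrbit g h j).2 = 0
  · rw [h2, map_zero, mul_zero] at h0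
    have h1 : (infOrbit g h j).1 = 0 := by simpa using h0
    exact hne (Prod.ext h1 h2)
  · apply hα ((infOrbit g h j).1 / (infOrbit g h j).2)
    have : algebraMap F K (infOrbit g h j).2 ≠ 0 := by simpa using h2
    rw [map_div₀, h0, mul_div_assoc, div_self this, mul_one]

/-- Part C. -/
theorem partC [Fintype F] (g h f : F[X]) (hc : IsCoprime g h) (hd : 1 ≤ degR g h)
    (hf : f ≠ 0) (α : K) (hα : aeval α f = 0) (hcrit : ∀ B, ∃ n, B < numSol g h α n) :
    ∃ c : ℝ, 0 < c ∧ ∀ᶠ n : ℕ in Filter.atTop,
      c * n ≤ avg (transform (iterFn g h n).1 (iterFn g h n).2 f) := by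
  classical
  obtain ⟨p, hp⟩ := CharP.exists F
  have : Fact p.Prime := ⟨CharP.char_is_prime F p⟩
  have : CharP K p := charP_of_injective_algebraMap (algebraMap F K).injective p
  have : Infinite K := IsAlgClosed.instInfinite
  have hP : ∀ n, transform (iterFn g h n).1 (iterFn g h n).2 f ≠ 0 := fun n =>
    transform_ne_zero' (K := K) _ _ f hf (iterFn_ne g h hc hd n) (finite_fiber_iter g h hc hd n)
  have hroot : ∀ n (x : K), aeval x (transform (iterFn g h n).1 (iterFn g h n).2 f) = 0 ↔
      aeval x (iterFn g h n).2 ≠ 0 ∧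
        aeval (aeval x (iterFn g h n).1 / aeval x (iterFn g h n).2) f = 0 := fun n x =>
    aeval_transform _ _ f hf x (iterFn_ne g h hc hd n x)
  rcases dich (K := K) p g h hc hd with ⟨d₁, h2, H⟩ | H
  · obtain ⟨n₀, hn₀⟩ := hcrit 6
    refine linear_of_unbounded (K := K) g h d₁ h2 H _ hP ?_ n₀ ?_
    · intro n x hxh hx
      rw [hroot] at hx ⊢
      obtain ⟨e1, e2⟩ := iterFn_succ_pt g h n x hxh
      have hp : (aeval x h) ^ (degR g h ^ n) ≠ 0 := pow_ne_zero _ hxh
      rw [e1, e2, mul_div_mul_left _ _ hp]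
      exact ⟨mul_ne_zero hp hx.1, hx.2⟩
    · refine hn₀.le.trans ?_
      rw [numSol, ← Set.ncard_coe_finset]
      apply Set.ncard_le_ncard _ (Finset.finite_toSet _)
      rintro x ⟨h1, h2⟩
      rw [Finset.mem_coe, mem_rts _ (hP _), hroot, h2]
      exact ⟨h1, hα⟩
  · exfalso
    obtain ⟨n, hn⟩ := hcrit 1
    apply absurd hn
    rw [not_lt, numSol]
    rw [Set.ncard_le_one (finite_fiber_iter g h hc hd n α)]
    rintro x ⟨h1, h2⟩ y ⟨h3, h4⟩
    rw [div_eq_iff h1] at h2
    rw [div_eq_iff h3] at h4
    have e1 := st_iterFn g h n x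
    have e2 := st_iterFn g h n y
    have h5 := cross_iter g h H n (x, 1) (y, 1) (by
      rw [← e1, ← e2]
      dsimp only
      rw [h2, h4]
      ring)
    simpa using h5

end Dynamics

end Pool.Agent.R325.AvgDegree
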