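import Mathlib
import Pool.Agent.R325.AvgDegreeDyn

set_option autoImplicit false

namespace Pool.Agent.R325.AvgDegree

open Polynomial

section Example

theorem factors_X {F : Type} [Field F] : factors (X : F[X]) = {X} := by
  ext p
  rw [mem_factors X X_ne_zero, Finset.mem_singleton]
  constructor
  · rintro ⟨h1, h2, h3⟩
    have h4 : Associated p X := h1.associated_of_dvd irreducible_X h3
    exact eq_of_monic_of_associated h2 monic_X h4
  · rintro rfl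
    exact ⟨irreducible_X, monic_X, dvd_rfl⟩

theorem avg_X {F : Type} [Field F] : avg (X : F[X]) = 1 := by
  simp [avg, delta, numFactors, factors_X]

theorem transform_ex : transform (X : (ZMod 3)[X]) (X ^ 2 + 1) X = X := by
  rw [transform, natDegree_X, hom]
  simp [Finset.sum_range_succ]

theorem iterTransform_ex (n : ℕ) : iterTransform (X : (ZMod 3)[X]) (X ^ 2 + 1) X n = X := by
  induction n with
  | zero => rfl
  | succ n ih => rw [iterTransform_succ, ih, transform_ex]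

theorem coprime_ex : IsCoprime (X : (ZMod 3)[X]) (X ^ 2 + 1) := ⟨-X, 1, by ring⟩

theorem degR_ex : degR (X : (ZMod 3)[X]) (X ^ 2 + 1) = 2 := by
  have : (X ^ 2 + 1 : (ZMod 3)[X]).natDegree = 2 := by compute_degree!
  rw [degR, this, natDegree_X]
  norm_num

variable {K : Type} [Field K] [Algebra (ZMod 3) K] [IsAlgClosed K]

theorem exists_two (y : K) (h0 : y ≠ 0) (h1 : y ≠ 1) (h2 : y ≠ -1) :
    ∃ x₁ x₂ : K, x₁ ≠ x₂ ∧ (x₁ ^ 2 + 1 ≠ 0 ∧ x₁ / (x₁ ^ 2 + 1) = y ∧ x₁ ≠ 0 ∧ x₁ ≠ 1 ∧ x₁ ≠ -1) ∧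
      (x₂ ^ 2 + 1 ≠ 0 ∧ x₂ / (x₂ ^ 2 + 1) = y ∧ x₂ ≠ 0 ∧ x₂ ≠ 1 ∧ x₂ ≠ -1) := by
  have hchar : CharP K 3 := charP_of_injective_algebraMap (algebraMap (ZMod 3) K).injective 3
  have h3 : (3 : K) = 0 := by exact_mod_cast CharP.cast_eq_zero K 3
  have h2' : (2 : K) = -1 := by linear_combination h3
  obtain ⟨δ, hδ⟩ := IsAlgClosed.exists_pow_nat_eq (1 - y ^ 2) (show 0 < 2 by norm_num)
  have hδ0 : δ ≠ 0 := by
    rintro rfl
    have : (1 - y) * (1 + y) = 0 := by linear_combination -hδ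
    rcases mul_eq_zero.mp this with h | h
    · exact h1 (by linear_combination -h)
    · exact h2 (by linear_combination h)
  have hgen : ∀ e : K, e ^ 2 = 1 - y ^ 2 → (((-(1 + e) / y) ^ 2 + 1 ≠ 0 ∧
      (-(1 + e) / y) / ((-(1 + e) / y) ^ 2 + 1) = y ∧ (-(1 + e) / y) ≠ 0 ∧
      (-(1 + e) / y) ≠ 1 ∧ (-(1 + e) / y) ≠ -1)) := by
    intro e he
    set x := -(1 + e) / y with hx
    have hxy : x * y = -(1 + e) := by rw [hx]; field_simp
    clear_value x
    have hq : y * (x ^ 2 + 1) = x := by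
      have : y * (y * (x ^ 2 + 1)) = y * x := by
        linear_combination (x * y - (1 + e) - 1) * hxy + he + (1 + e) * h3
      exact mul_left_cancel₀ h0 this
    have hx0 : x ≠ 0 := by
      intro h
      rw [h] at hq
      apply h0
      simpa using hq
    have hx1 : x ^ 2 + 1 ≠ 0 := by
      intro h
      rw [h, mul_zero] at hq
      exact hx0 hq.symm
    refine ⟨hx1, by rw [div_eq_iff hx1, hq], hx0, ?_, ?_⟩
    · intro h
      rw [h] at hq
      apply h2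
      linear_combination -hq + y * h3
    · intro h
      rw [h] at hq
      apply h1
      linear_combination -hq + y * h3
  refine ⟨-(1 + δ) / y, -(1 + -δ) / y, ?_, hgen δ hδ, hgen (-δ) (by rw [neg_sq]; exact hδ)⟩
  intro h
  rw [div_left_inj' h0] at h
  apply hδ0
  linear_combination δ * h3 + h

theorem tree (i : K) (hi : i ^ 2 = -1) (k : ℕ) : ∃ T : Finset K, T.card = 2 ^ k ∧
    ∀ x ∈ T, (x ≠ 0 ∧ x ≠ 1 ∧ x ≠ -1) ∧ ∃ c : K, c ≠ 0 ∧
      (st (X : (ZMod 3)[X]) (X ^ 2 + 1))^[k] (x, (1 : K)) = c • (i, (1 : K)) := by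
  classical
  have hchar : CharP K 3 := charP_of_injective_algebraMap (algebraMap (ZMod 3) K).injective 3
  have h3 : (3 : K) = 0 := by exact_mod_cast CharP.cast_eq_zero K 3
  have hne : (1 : K) ≠ -1 := by
    intro h
    have : (1 : K) = 0 := by linear_combination h3 - h
    exact one_ne_zero this
  induction k with
  | zero =>
    refine ⟨{i}, by simp, fun x hx => ?_⟩
    rw [Finset.mem_singleton] at hx
    subst hx
    refine ⟨⟨?_, ?_, ?_⟩, 1, one_ne_zero, by simp⟩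
    · rintro rfl; simp at hi
    · rintro rfl; exact hne (by simpa using hi)
    · rintro rfl; exact hne (by simpa using hi)
  | succ k ih =>
    obtain ⟨T, hT, hTx⟩ := ih
    have hch : ∀ y : K, ∃ x₁ x₂ : K, (y ≠ 0 ∧ y ≠ 1 ∧ y ≠ -1) → x₁ ≠ x₂ ∧
      (x₁ ^ 2 + 1 ≠ 0 ∧ x₁ / (x₁ ^ 2 + 1) = y ∧ x₁ ≠ 0 ∧ x₁ ≠ 1 ∧ x₁ ≠ -1) ∧
      (x₂ ^ 2 + 1 ≠ 0 ∧ x₂ / (x₂ ^ 2 + 1) = y ∧ x₂ ≠ 0 ∧ x₂ ≠ 1 ∧ x₂ ≠ -1) := by
      intro y
      by_cases hy : y ≠ 0 ∧ y ≠ 1 ∧ y ≠ -1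
      · obtain ⟨x₁, x₂, h⟩ := exists_two y hy.1 hy.2.1 hy.2.2
        exact ⟨x₁, x₂, fun _ => h⟩
      · exact ⟨0, 0, fun h => absurd h hy⟩
    choose φ ψ hφψ using hch
    have hφ : ∀ y ∈ T, φ y / (φ y ^ 2 + 1) = y := fun y hy => (hφψ y (hTx y hy).1).2.1.2.1
    have hψ : ∀ y ∈ T, ψ y / (ψ y ^ 2 + 1) = y := fun y hy => (hφψ y (hTx y hy).1).2.2.2.1
    refine ⟨T.image φ ∪ T.image ψ, ?_, ?_⟩
    · rw [Finset.card_union_of_disjoint, Finset.card_image_of_injOn, Finset.card_image_of_injOn,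
        hT, pow_succ]
      · ring
      · intro x hx y hy hxy
        rw [Finset.mem_coe] at hx hy
        rw [← hψ x hx, ← hψ y hy, hxy]
      · intro x hx y hy hxy
        rw [Finset.mem_coe] at hx hy
        rw [← hφ x hx, ← hφ y hy, hxy]
      · rw [Finset.disjoint_left]
        intro z hz hz'
        rw [Finset.mem_image] at hz hz'
        obtain ⟨x, hx, hxz⟩ := hz
        obtain ⟨y, hy, hyz⟩ := hz'
        have hxy : x = y := by rw [← hφ x hx, ← hψ y hy, hxz, hyz]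
        rw [hxy] at hxz
        exact (hφψ y (hTx y hy).1).1 (hxz.trans hyz.symm)
    · intro x hx
      have hx' : ∃ y ∈ T, x ^ 2 + 1 ≠ 0 ∧ x / (x ^ 2 + 1) = y ∧ x ≠ 0 ∧ x ≠ 1 ∧ x ≠ -1 := by
        rw [Finset.mem_union, Finset.mem_image, Finset.mem_image] at hx
        rcases hx with ⟨y, hy, rfl⟩ | ⟨y, hy, rfl⟩
        · exact ⟨y, hy, (hφψ y (hTx y hy).1).2.1⟩
        · exact ⟨y, hy, (hφψ y (hTx y hy).1).2.2⟩
      obtain ⟨y, hy, h1, h2, h4⟩ := hx'
      refine ⟨h4, ?_⟩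
      obtain ⟨-, c, hc, hcy⟩ := hTx y hy
      have e1 : aeval x (X ^ 2 + 1 : (ZMod 3)[X]) = x ^ 2 + 1 := by simp
      have e2 : aeval x (X : (ZMod 3)[X]) = x := by simp
      have := st_pt (X : (ZMod 3)[X]) (X ^ 2 + 1) x (by rw [e1]; exact h1)
      rw [e1, e2, h2] at this
      rw [Function.iterate_succ_apply, this, st_iter_smul, hcy, smul_smul]
      exact ⟨_, mul_ne_zero (pow_ne_zero _ h1) hc, rfl⟩

theorem not_critical_ex (B : ℕ) : ∃ n, B < numSol (X : (ZMod 3)[X]) (X ^ 2 + 1) (0 : K) n := by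
  classical
  obtain ⟨i, hi⟩ := IsAlgClosed.exists_pow_nat_eq (-1 : K) (show 0 < 2 by norm_num)
  obtain ⟨T, hT, hTx⟩ := tree i hi B
  refine ⟨B + 2, ?_⟩
  have hd : 1 ≤ degR (X : (ZMod 3)[X]) (X ^ 2 + 1) := by rw [degR_ex]; norm_num
  have hlt : B < T.card := by rw [hT]; exact Nat.lt_two_pow_self
  refine hlt.trans_le ?_
  rw [numSol, ← Set.ncard_coe_finset]
  apply Set.ncard_le_ncard _ (finite_fiber_iter _ _ coprime_ex hd _ _)
  intro x hx
  rw [Finset.mem_coe] at hx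
  obtain ⟨-, c, hc, hcx⟩ := hTx x hx
  have h1 := st_iterFn (X : (ZMod 3)[X]) (X ^ 2 + 1) (B + 2) x
  rw [show B + 2 = (B + 1) + 1 from rfl, Function.iterate_succ_apply', Function.iterate_succ_apply',
    hcx, st_smul, st_smul] at h1
  have h2 : st (X : (ZMod 3)[X]) (X ^ 2 + 1) (i, (1 : K)) = (i, 0) := by
    rw [st_pt_zero]
    · simp
    · simp [hi]
  have h4 : st (X : (ZMod 3)[X]) (X ^ 2 + 1) (i, (0 : K)) = (0, -1) := by
    rw [st, degR_ex]
    dsimp only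
    rw [hom_zero, hom_zero, hi]
    simp [coeff_X, coeff_one]
  rw [h2, h4, Prod.smul_mk, Prod.mk.injEq] at h1
  simp only [smul_eq_mul] at h1
  obtain ⟨h5, h6⟩ := h1
  show aeval x _ ≠ 0 ∧ aeval x _ / aeval x _ = 0
  rw [show B + 2 = (B + 1) + 1 from rfl, h5, h6]
  simp [hc]

end Example

end Pool.Agent.R325.AvgDegree
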