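import Mathlib

/-!
# Cofactor chain complexes of 2-complexes in `ℝ³`: definitions
-/

set_option autoImplicit false

namespace Pool.Agent.R325.Cof

open MvPolynomial

/-- real polynomials in three variables `x, y, z` -/
abbrev P3 := MvPolynomial (Fin 3) ℝ

/-- the affine form `A x + B y + C z + D` (`a = (A, B, C)`, `d = D`) -/
noncomputable def aff (a : Fin 3 → ℝ) (d : ℝ) : P3 := ∑ i, C (a i) * X i + C d

variable {V : Type} [Fintype V] [LinearOrder V]

/-- `I¹_ψ(p)`: the affine forms which vanish at `p v` for all `v ∈ ψ` -/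
def I1 (p : V → Fin 3 → ℝ) (ψ : Finset V) : Set P3 :=
  {l | (∃ (a : Fin 3 → ℝ) (d : ℝ), l = aff a d) ∧ ∀ v ∈ ψ, eval (p v) l = 0}

/-- `Iˢ_ψ(p)`: the span of the `s`-th powers of the elements of `I¹_ψ(p)` if `ψ ≠ ∅`, and
`P_s`, the space of all polynomials of total degree `≤ s`, if `ψ = ∅` -/
noncomputable def IS (p : V → Fin 3 → ℝ) (s : ℕ) (ψ : Finset V) : Submodule ℝ P3 :=
  if ψ = ∅ then restrictTotalDegree (Fin 3) ℝ s
  else Submodule.span ℝ ((fun l => l ^ s) '' I1 p ψ)

/-- An abstract simplicial complex of dimension at most two with vertices in `V`, given by the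
set of its simplices, `∅` included. -/
structure IsComplex (K : Finset (Finset V)) : Prop where
  empty_mem : ∅ ∈ K
  down : ∀ ψ ∈ K, ∀ θ, θ ⊆ ψ → θ ∈ K
  dim : ∀ ψ ∈ K, ψ.card ≤ 3

/-- the incidence number of `θ` in `θ ∪ {v}`, for `v ∉ θ` and the simplices oriented by the order
of `V` -/
def sgn (v : V) (θ : Finset V) : ℝ := (-1) ^ (θ.filter (fun u => u < v)).card

/-- the boundary operator -/
noncomputable def bd : (Finset V → P3) →ₗ[ℝ] (Finset V → P3) where
  toFun c θ := ∑ v, if v ∈ θ then 0 else sgn v θ • c (insert v θ)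
  map_add' c c' := by
    funext θ
    simp only [Pi.add_apply]
    rw [← Finset.sum_add_distrib]
    refine Finset.sum_congr rfl fun v _ => ?_
    split_ifs
    · simp
    · rw [smul_add]
  map_smul' r c := by
    funext θ
    simp only [Pi.smul_apply, RingHom.id_apply]
    rw [Finset.smul_sum]
    refine Finset.sum_congr rfl fun v _ => ?_
    split_ifs
    · simp
    · rw [smul_comm]

/-- The chains in degree `i` (`j = i + 1`) of the cofactor complex: a coefficient in `Iˢ_ψ(p)` for
each simplex `ψ` with `j` vertices, and zero elsewhere. -/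
def Ch (K : Finset (Finset V)) (p : V → Fin 3 → ℝ) (s j : ℕ) : Submodule ℝ (Finset V → P3) where
  carrier := {c | ∀ ψ, (ψ ∈ K ∧ ψ.card = j → c ψ ∈ IS p s ψ) ∧ (¬(ψ ∈ K ∧ ψ.card = j) → c ψ = 0)}
  add_mem' {a b} ha hb ψ := ⟨fun h => (IS p s ψ).add_mem ((ha ψ).1 h) ((hb ψ).1 h), fun h => by
    rw [Pi.add_apply, (ha ψ).2 h, (hb ψ).2 h, add_zero]⟩
  zero_mem' ψ := ⟨fun _ => (IS p s ψ).zero_mem, fun _ => rfl⟩
  smul_mem' r a ha ψ := ⟨fun h => (IS p s ψ).smul_mem r ((ha ψ).1 h), fun h => by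
    rw [Pi.smul_apply, (ha ψ).2 h, smul_zero]⟩

/-- the cycles -/
noncomputable def Cy (K : Finset (Finset V)) (p : V → Fin 3 → ℝ) (s j : ℕ) :
    Submodule ℝ (Finset V → P3) := Ch K p s j ⊓ LinearMap.ker bd

/-- the boundaries -/
noncomputable def Bo (K : Finset (Finset V)) (p : V → Fin 3 → ℝ) (s j : ℕ) :
    Submodule ℝ (Finset V → P3) := (Ch K p s (j + 1)).map bd

/-- The Betti number `β_i`, `j = i + 1`, of the cofactor complex `𝒦ₛˢ⁻¹(K; p)`: the dimension of
the homology in degree `i`. -/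
noncomputable def betti (K : Finset (Finset V)) (p : V → Fin 3 → ℝ) (s j : ℕ) : ℕ :=
  Module.finrank ℝ (Cy K p s j ⧸ (Bo K p s j).comap (Cy K p s j).subtype)

/-- the truncated cone over `K` with apex `w` -/
def cone (w : V) (K : Finset (Finset V)) : Finset (Finset V) :=
  K ∪ (K.filter (fun ψ => ψ.card ≤ 2)).image (insert w)

/-- The point `p w` is in general position relative to the points `p v`, `v` a vertex of `K`: it
lies in no proper affine subspace of `ℝ³` spanned by some of them. -/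
def General (K : Finset (Finset V)) (w : V) (p : V → Fin 3 → ℝ) : Prop :=
  ∀ S : Set V, (∀ v ∈ S, {v} ∈ K) → affineSpan ℝ (p '' S) ≠ ⊤ → p w ∉ affineSpan ℝ (p '' S)

/-- every 2-simplex is placed at affinely independent points -/
def Nondeg (K : Finset (Finset V)) (p : V → Fin 3 → ℝ) : Prop :=
  ∀ ψ ∈ K, ψ.card = 3 → AffineIndependent ℝ (fun v : ψ => p v)

end Pool.Agent.R325.Cof
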