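import Mathlib
import Pool.Agent.R325.CofDefs

/-!
# Powers of affine forms and the polar derivative
-/

set_option autoImplicit false

namespace Pool.Agent.R325.Cof

open MvPolynomial

/-- coefficients of a polynomial curve in a subspace -/
theorem poly_mem {M : Type*} [AddCommGroup M] [Module ℝ M] (W : Submodule ℝ M) (n : ℕ)
    (f : ℕ → M) (h : ∀ c : ℝ, ∑ k ∈ Finset.range (n + 1), c ^ k • f k ∈ W) :
    ∀ k, k ≤ n → f k ∈ W := by
  intro k hk
  rw [← Submodule.Quotient.mk_eq_zero]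
  by_contra hne
  obtain ⟨φ, hφ⟩ : ∃ φ : (M ⧸ W) →ₗ[ℝ] ℝ, φ (Submodule.Quotient.mk (f k)) ≠ 0 := by
    by_contra hno
    push Not at hno
    exact hne ((Module.forall_dual_apply_eq_zero_iff ℝ _).mp hno)
  have h1 : (∑ k ∈ Finset.range (n + 1),
      Polynomial.C (φ (Submodule.Quotient.mk (f k))) * Polynomial.X ^ k) = 0 := by
    apply Polynomial.funext
    intro c
    rw [Polynomial.eval_finsetSum, Polynomial.eval_zero]
    have h2 := h c
    rw [← Submodule.Quotient.mk_eq_zero] at h2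
    have h3 : φ (Submodule.Quotient.mk (∑ k ∈ Finset.range (n + 1), c ^ k • f k)) = 0 := by
      rw [h2, map_zero]
    rw [← h3]
    have h4 : (Submodule.Quotient.mk (∑ k ∈ Finset.range (n + 1), c ^ k • f k) : M ⧸ W) =
        ∑ k ∈ Finset.range (n + 1), c ^ k • (Submodule.Quotient.mk (f k) : M ⧸ W) := by
      change W.mkQ _ = _
      rw [map_sum]
      refine Finset.sum_congr rfl fun i _ => ?_
      rw [map_smul]
      rfl
    rw [h4, map_sum]
    refine Finset.sum_congr rfl fun i _ => ?_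
    rw [map_smul, smul_eq_mul, Polynomial.eval_mul, Polynomial.eval_C, Polynomial.eval_pow,
      Polynomial.eval_X, mul_comm]
  have h2 := congrArg (fun q => Polynomial.coeff q k) h1
  simp only [Polynomial.finsetSum_coeff, Polynomial.coeff_C_mul, Polynomial.coeff_X_pow,
    Polynomial.coeff_zero] at h2
  rw [Finset.sum_eq_single k] at h2
  · simp only [if_true, mul_one] at h2
    exact hφ h2
  · intro j _ hj
    rw [if_neg (Ne.symm hj), mul_zero]
  · intro hk'
    exact absurd (Finset.mem_range.mpr (by omega)) hk'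

/-- the span of the `s`-th powers of the elements of `U` -/
noncomputable def pw (U : Submodule ℝ P3) (s : ℕ) : Submodule ℝ P3 :=
  Submodule.span ℝ ((fun l => l ^ s) '' (U : Set P3))

theorem pow_mem_pw {U : Submodule ℝ P3} {b : P3} (hb : b ∈ U) (s : ℕ) : b ^ s ∈ pw U s :=
  Submodule.subset_span ⟨b, hb, rfl⟩

theorem mul_mem_pw {U : Submodule ℝ P3} {a g : P3} {s : ℕ} (ha : a ∈ U) (hg : g ∈ pw U s) :
    a * g ∈ pw U (s + 1) := by
  induction hg using Submodule.span_induction with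
  | mem x hx =>
    obtain ⟨b, hb, rfl⟩ := hx
    have h1 := poly_mem (pw U (s + 1)) (s + 1)
      (fun k => a ^ k * b ^ (s + 1 - k) * ((s + 1).choose k : P3)) (by
        intro c
        have h2 : ∑ k ∈ Finset.range (s + 1 + 1),
            c ^ k • (a ^ k * b ^ (s + 1 - k) * ((s + 1).choose k : P3)) = (c • a + b) ^ (s + 1) := by
          rw [add_pow]
          refine Finset.sum_congr rfl fun k _ => ?_
          rw [smul_pow, smul_mul_assoc, smul_mul_assoc]
        rw [h2]
        exact pow_mem_pw (U.add_mem (U.smul_mem c ha) hb) _) 1 (by omega)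
    simp only [pow_one, Nat.add_sub_cancel, Nat.choose_one_right] at h1
    have h3 : a * b ^ s = ((s + 1 : ℕ) : ℝ)⁻¹ • (a * b ^ s * ((s + 1 : ℕ) : P3)) := by
      have h4 : ((s + 1 : ℕ) : P3) = C (((s + 1 : ℕ) : ℝ)) := by simp
      rw [h4, mul_comm _ (C _), ← smul_eq_C_mul, smul_smul, inv_mul_cancel₀, one_smul]
      positivity
    simp only
    rw [h3]
    exact Submodule.smul_mem _ _ h1
  | zero => rw [mul_zero]; exact Submodule.zero_mem _
  | add x y _ _ hx hy => rw [mul_add]; exact Submodule.add_mem _ hx hy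
  | smul r x _ hx => rw [mul_smul_comm]; exact Submodule.smul_mem _ _ hx

theorem pow_mul_mem_pw {U : Submodule ℝ P3} {a g : P3} {s : ℕ} (k : ℕ) (ha : a ∈ U)
    (hg : g ∈ pw U s) : a ^ k * g ∈ pw U (s + k) := by
  induction k with
  | zero => simpa using hg
  | succ k ih =>
    rw [pow_succ', mul_assoc]
    exact mul_mem_pw ha ih

theorem pw_mono {U U' : Submodule ℝ P3} (h : U ≤ U') (s : ℕ) : pw U s ≤ pw U' s :=
  Submodule.span_mono (Set.image_mono h)

theorem one_mem_pw_zero (U : Submodule ℝ P3) : (1 : P3) ∈ pw U 0 := by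
  have := pow_mem_pw (U := U) U.zero_mem 0
  simpa using this

/-- the affine forms -/
noncomputable def affL : ((Fin 3 → ℝ) × ℝ) →ₗ[ℝ] P3 where
  toFun x := aff x.1 x.2
  map_add' x y := by
    simp only [aff, Prod.fst_add, Prod.snd_add, Pi.add_apply, map_add, add_mul,
      Finset.sum_add_distrib]
    ring
  map_smul' r x := by
    simp only [aff, Prod.smul_fst, Prod.smul_snd, Pi.smul_apply, smul_eq_mul, map_mul,
      RingHom.id_apply, smul_eq_C_mul, mul_add, Finset.mul_sum, mul_assoc]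

/-- the space of affine forms -/
noncomputable def Aff : Submodule ℝ P3 := LinearMap.range affL

theorem mem_Aff {l : P3} : l ∈ Aff ↔ ∃ (a : Fin 3 → ℝ) (d : ℝ), l = aff a d := by
  constructor
  · rintro ⟨x, rfl⟩; exact ⟨x.1, x.2, rfl⟩
  · rintro ⟨a, d, rfl⟩; exact ⟨(a, d), rfl⟩

theorem eval_aff (a : Fin 3 → ℝ) (d : ℝ) (x : Fin 3 → ℝ) :
    eval x (aff a d) = ∑ i, a i * x i + d := by
  simp [aff]

/-- the derivation `∑ (w i - x i) ∂ᵢ` -/
noncomputable def dl (w : Fin 3 → ℝ) : Derivation ℝ P3 P3 :=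
  mkDerivation ℝ (fun i => C (w i) - X i)

theorem dl_aff (w : Fin 3 → ℝ) (l : P3) (hl : l ∈ Aff) : dl w l = C (eval w l) - l := by
  obtain ⟨a, d, rfl⟩ := mem_Aff.mp hl
  have h1 : dl w (aff a d) = ∑ i, C (a i) * (C (w i) - X i) := by
    unfold aff
    rw [map_add, map_sum]
    have h2 : dl w (C d) = 0 := by
      have : (C d : P3) = algebraMap ℝ P3 d := rfl
      rw [this]; exact (dl w).map_algebraMap d
    rw [h2, add_zero]
    refine Finset.sum_congr rfl fun i _ => ?_
    have h3 : (C (a i) : P3) * X i = a i • X i := by rw [smul_eq_C_mul]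
    rw [h3, (dl w).map_smul, smul_eq_C_mul]
    congr 1
    exact mkDerivation_X ℝ _ i
  rw [h1, eval_aff]
  unfold aff
  simp only [mul_sub, Finset.sum_sub_distrib, map_add, map_sum, map_mul]
  ring

/-- the polar derivative on polynomials of degree `n` -/
noncomputable def pd (w : Fin 3 → ℝ) (n : ℕ) : P3 →ₗ[ℝ] P3 :=
  (n : ℝ) • LinearMap.id + (dl w : P3 →ₗ[ℝ] P3)

theorem pd_apply (w : Fin 3 → ℝ) (n : ℕ) (f : P3) : pd w n f = (n : ℝ) • f + dl w f := rfl

theorem dl_pow (w : Fin 3 → ℝ) (l : P3) (n : ℕ) :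
    dl w (l ^ n) = (n : ℝ) • (l ^ (n - 1) * dl w l) := by
  rw [Derivation.leibniz_pow, smul_eq_mul, ← Nat.cast_smul_eq_nsmul ℝ]

theorem pd_pow (w : Fin 3 → ℝ) (l : P3) (hl : l ∈ Aff) (n : ℕ) :
    pd w (n + 1) (l ^ (n + 1)) = ((n + 1 : ℕ) : ℝ) • (eval w l • l ^ n) := by
  rw [pd_apply, dl_pow, dl_aff w l hl, Nat.add_sub_cancel, ← smul_add]
  congr 1
  rw [mul_sub, smul_eq_C_mul, ← pow_succ]
  ring

/-- forms vanishing at `w` -/
noncomputable def van (U : Submodule ℝ P3) (w : Fin 3 → ℝ) : Submodule ℝ P3 where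
  carrier := {l | l ∈ U ∧ eval w l = 0}
  add_mem' {a b} ha hb := ⟨U.add_mem ha.1 hb.1, by rw [map_add, ha.2, hb.2, add_zero]⟩
  zero_mem' := ⟨U.zero_mem, map_zero _⟩
  smul_mem' r a ha := ⟨U.smul_mem r ha.1, by rw [smul_eval, ha.2, mul_zero]⟩

theorem dl_van {U : Submodule ℝ P3} (hU : U ≤ Aff) (w : Fin 3 → ℝ) (n : ℕ) (g : P3)
    (hg : g ∈ pw (van U w) n) : dl w g = -((n : ℝ) • g) := by
  induction hg using Submodule.span_induction with
  | mem x hx =>
    obtain ⟨b, hb, rfl⟩ := hx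
    simp only
    rcases Nat.eq_zero_or_pos n with rfl | hn
    · simp
    · rw [dl_pow, dl_aff w b (hU hb.1), hb.2, map_zero, zero_sub, mul_neg, smul_neg, ← pow_succ,
        Nat.sub_add_cancel hn]
  | zero => simp
  | add x y _ _ hx hy => rw [map_add, hx, hy, smul_add, neg_add]
  | smul r x _ hx => rw [(dl w).map_smul, hx, smul_neg, smul_comm]

variable {U : Submodule ℝ P3} {w : Fin 3 → ℝ} {l0 : P3}

theorem pd_term (hU : U ≤ Aff) (hl0 : l0 ∈ U) (h1 : eval w l0 = 1) {n k : ℕ} (hk : k ≤ n) {g : P3}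
    (hg : g ∈ pw (van U w) (n - k)) :
    pd w n (l0 ^ k * g) = (k : ℝ) • (l0 ^ (k - 1) * g) := by
  rw [pd_apply, Derivation.leibniz, smul_eq_mul, smul_eq_mul, dl_van hU w (n - k) g hg, dl_pow,
    dl_aff w l0 (hU hl0), h1, map_one]
  rcases Nat.eq_zero_or_pos k with rfl | hk0
  · simp
  · have h2 : l0 ^ k = l0 ^ (k - 1) * l0 := by rw [← pow_succ, Nat.sub_add_cancel hk0]
    rw [h2]
    simp only [smul_eq_C_mul]
    have h3 : ((n - k : ℕ) : ℝ) = n - k := by push_cast [Nat.cast_sub hk]; ring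
    rw [h3, C_sub]
    ring

/-- normal form -/
theorem normal_form (hl0 : l0 ∈ U) (h1 : eval w l0 = 1) (n : ℕ) (f : P3) (hf : f ∈ pw U n) :
    ∃ g : ℕ → P3, (∀ k, k ≤ n → g k ∈ pw (van U w) (n - k)) ∧
      f = ∑ k ∈ Finset.range (n + 1), l0 ^ k * g k := by
  induction hf using Submodule.span_induction with
  | mem x hx =>
    obtain ⟨b, hb, rfl⟩ := hx
    set c := eval w b with hc
    set b' := b - c • l0 with hb'
    have hb'v : b' ∈ van U w := by
      refine ⟨U.sub_mem hb (U.smul_mem c hl0), ?_⟩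
      rw [hb', map_sub, smul_eval, h1, mul_one, sub_self]
    refine ⟨fun k => (c ^ k * (n.choose k : ℝ)) • b' ^ (n - k), fun k _ =>
      Submodule.smul_mem _ _ (pow_mem_pw hb'v _), ?_⟩
    have h2 : b = c • l0 + b' := by rw [hb']; ring
    simp only
    conv_lhs => rw [h2]
    rw [add_pow]
    refine Finset.sum_congr rfl fun k _ => ?_
    rw [smul_pow, smul_eq_C_mul, smul_eq_C_mul]
    simp only [map_mul, map_pow, map_natCast]
    ring
  | zero => exact ⟨fun _ => 0, fun _ _ => Submodule.zero_mem _, by simp⟩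
  | add x y _ _ hx hy =>
    obtain ⟨g, hg, rfl⟩ := hx
    obtain ⟨g', hg', rfl⟩ := hy
    refine ⟨fun k => g k + g' k, fun k hk => Submodule.add_mem _ (hg k hk) (hg' k hk), ?_⟩
    rw [← Finset.sum_add_distrib]
    exact Finset.sum_congr rfl fun k _ => (mul_add _ _ _).symm
  | smul r x _ hx =>
    obtain ⟨g, hg, rfl⟩ := hx
    refine ⟨fun k => r • g k, fun k hk => Submodule.smul_mem _ _ (hg k hk), ?_⟩
    rw [Finset.smul_sum]
    exact Finset.sum_congr rfl fun k _ => (mul_smul_comm _ _ _).symm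

/-- uniqueness of the normal form -/
theorem normal_form_unique (hU : U ≤ Aff) (hl0 : l0 ∈ U) (h1 : eval w l0 = 1) (n : ℕ) :
    ∀ g : ℕ → P3, (∀ k, k ≤ n → g k ∈ pw (van U w) (n - k)) →
      ∑ k ∈ Finset.range (n + 1), l0 ^ k * g k = 0 → ∀ k, k ≤ n → g k = 0 := by
  induction n with
  | zero =>
    intro g _ h k hk
    obtain rfl : k = 0 := by omega
    simpa using h
  | succ n ih =>
    intro g hg h
    have h2 : ∑ k ∈ Finset.range (n + 1), l0 ^ k * ((((k + 1 : ℕ) : ℝ)) • g (k + 1)) = 0 := by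
      have h3 := congrArg (pd w (n + 1)) h
      rw [map_zero, map_sum, Finset.sum_range_succ'] at h3
      rw [pd_term hU hl0 h1 (Nat.zero_le _) (hg 0 (Nat.zero_le _))] at h3
      simp only [Nat.cast_zero, zero_smul, add_zero] at h3
      rw [← h3]
      refine Finset.sum_congr rfl fun k hk => ?_
      rw [Finset.mem_range] at hk
      rw [pd_term hU hl0 h1 (by omega) (hg (k + 1) (by omega)), Nat.add_sub_cancel, mul_smul_comm]
    have h4 := ih (fun k => (((k + 1 : ℕ) : ℝ)) • g (k + 1)) (fun k hk => by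
      have := hg (k + 1) (by omega)
      rw [Nat.add_sub_add_right] at this
      exact Submodule.smul_mem _ _ this) h2
    have h5 : ∀ k, k ≤ n → g (k + 1) = 0 := by
      intro k hk
      have := h4 k hk
      simp only [smul_eq_zero] at this
      rcases this with h6 | h6
      · exfalso
        have : (0 : ℝ) < ((k + 1 : ℕ) : ℝ) := by positivity
        linarith
      · exact h6
    intro k hk
    rcases Nat.eq_zero_or_pos k with rfl | hk0
    · rw [Finset.sum_range_succ'] at h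
      rw [Finset.sum_eq_zero (fun k hk => by
        rw [h5 k (by rw [Finset.mem_range] at hk; omega), mul_zero])] at h
      simpa using h
    · obtain ⟨j, rfl⟩ : ∃ j, k = j + 1 := ⟨k - 1, by omega⟩
      exact h5 j (by omega)

/-- the kernel of the polar derivative -/
theorem pd_ker (hU : U ≤ Aff) (hl0 : l0 ∈ U) (h1 : eval w l0 = 1) (n : ℕ) (f : P3)
    (hf : f ∈ pw U (n + 1)) (h : pd w (n + 1) f = 0) : f ∈ pw (van U w) (n + 1) := by
  obtain ⟨g, hg, rfl⟩ := normal_form hl0 h1 (n + 1) f hf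
  have h2 : ∑ k ∈ Finset.range (n + 1), l0 ^ k * ((((k + 1 : ℕ) : ℝ)) • g (k + 1)) = 0 := by
    rw [map_sum, Finset.sum_range_succ'] at h
    rw [pd_term hU hl0 h1 (Nat.zero_le _) (hg 0 (Nat.zero_le _))] at h
    simp only [Nat.cast_zero, zero_smul, add_zero] at h
    rw [← h]
    refine Finset.sum_congr rfl fun k hk => ?_
    rw [Finset.mem_range] at hk
    rw [pd_term hU hl0 h1 (by omega) (hg (k + 1) (by omega)), Nat.add_sub_cancel, mul_smul_comm]
  have h4 := normal_form_unique hU hl0 h1 n (fun k => (((k + 1 : ℕ) : ℝ)) • g (k + 1))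
    (fun k hk => by
      have := hg (k + 1) (by omega)
      rw [Nat.add_sub_add_right] at this
      exact Submodule.smul_mem _ _ this) h2
  have h5 : ∀ k, k ≤ n → g (k + 1) = 0 := by
    intro k hk
    have := h4 k hk
    simp only [smul_eq_zero] at this
    rcases this with h6 | h6
    · exfalso
      have : (0 : ℝ) < ((k + 1 : ℕ) : ℝ) := by positivity
      linarith
    · exact h6
  rw [Finset.sum_range_succ', Finset.sum_eq_zero (fun k hk => by
    rw [h5 k (by rw [Finset.mem_range] at hk; omega), mul_zero])]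
  simpa using hg 0 (Nat.zero_le _)

/-- the polar derivative maps `pw U (n + 1)` to `pw U n` -/
theorem pd_mem (hU : U ≤ Aff) (n : ℕ) (f : P3) (hf : f ∈ pw U (n + 1)) :
    pd w (n + 1) f ∈ pw U n := by
  induction hf using Submodule.span_induction with
  | mem x hx =>
    obtain ⟨b, hb, rfl⟩ := hx
    simp only
    rw [pd_pow w b (hU hb) n]
    exact Submodule.smul_mem _ _ (Submodule.smul_mem _ _ (pow_mem_pw hb n))
  | zero => rw [map_zero]; exact Submodule.zero_mem _
  | add x y _ _ hx hy => rw [map_add]; exact Submodule.add_mem _ hx hy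
  | smul r x _ hx => rw [map_smul]; exact Submodule.smul_mem _ _ hx

/-- and kills `pw (van U w) (n + 1)` -/
theorem pd_van (hU : U ≤ Aff) (n : ℕ) (f : P3) (hf : f ∈ pw (van U w) n) :
    pd w n f = 0 := by
  rw [pd_apply, dl_van hU w n f hf, add_neg_cancel]

/-- surjectivity -/
theorem pd_surj (hU : U ≤ Aff) (hl0 : l0 ∈ U) (h1 : eval w l0 = 1) (n : ℕ) (g : P3)
    (hg : g ∈ pw U n) : ∃ f ∈ pw U (n + 1), pd w (n + 1) f = g := by
  obtain ⟨q, hq, rfl⟩ := normal_form hl0 h1 n g hg
  refine ⟨∑ k ∈ Finset.range (n + 1), (((k + 1 : ℕ) : ℝ))⁻¹ • (l0 ^ (k + 1) * q k), ?_, ?_⟩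
  · refine Submodule.sum_mem _ fun k hk => Submodule.smul_mem _ _ ?_
    rw [Finset.mem_range] at hk
    have h2 := pow_mul_mem_pw (k + 1) hl0 (pw_mono (U := van U w) (U' := U) (fun x hx => hx.1)
      (n - k) (hq k (by omega)))
    have h3 : n - k + (k + 1) = n + 1 := by omega
    rwa [h3] at h2
  · rw [map_sum]
    refine Finset.sum_congr rfl fun k hk => ?_
    rw [Finset.mem_range] at hk
    rw [map_smul, pd_term hU hl0 h1 (by omega) (by
      rw [Nat.add_sub_add_right]; exact hq k (by omega)), Nat.add_sub_cancel, smul_smul,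
      inv_mul_cancel₀, one_smul]
    positivity

end Pool.Agent.R325.Cof
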