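import Mathlib
import Pool.Agent.R325.CofAlg

/-!
# The cone of a cofactor complex
-/

set_option autoImplicit false
set_option linter.unusedSectionVars false

namespace Pool.Agent.R325.Cof

open MvPolynomial

variable {V : Type} [Fintype V] [LinearOrder V]

/-- affine forms vanishing on `ψ` -/
noncomputable def Vs (p : V → Fin 3 → ℝ) (ψ : Finset V) : Submodule ℝ P3 where
  carrier := {l | l ∈ Aff ∧ ∀ v ∈ ψ, eval (p v) l = 0}
  add_mem' {a b} ha hb := ⟨Aff.add_mem ha.1 hb.1, fun v hv => by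
    rw [map_add, ha.2 v hv, hb.2 v hv, add_zero]⟩
  zero_mem' := ⟨Aff.zero_mem, fun _ _ => map_zero _⟩
  smul_mem' r a ha := ⟨Aff.smul_mem r ha.1, fun v hv => by rw [smul_eval, ha.2 v hv, mul_zero]⟩

theorem Vs_le (p : V → Fin 3 → ℝ) (ψ : Finset V) : Vs p ψ ≤ Aff := fun _ h => h.1

theorem Vs_anti (p : V → Fin 3 → ℝ) {θ ψ : Finset V} (h : θ ⊆ ψ) : Vs p ψ ≤ Vs p θ :=
  fun _ hl => ⟨hl.1, fun v hv => hl.2 v (h hv)⟩

theorem coe_Vs (p : V → Fin 3 → ℝ) (ψ : Finset V) : (Vs p ψ : Set P3) = I1 p ψ := by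
  ext l
  change (l ∈ Aff ∧ _) ↔ (_ ∧ _)
  rw [mem_Aff]

theorem van_Vs (p : V → Fin 3 → ℝ) (ψ : Finset V) (w : V) :
    van (Vs p ψ) (p w) = Vs p (insert w ψ) := by
  ext l
  change ((l ∈ Aff ∧ _) ∧ _) ↔ (_ ∧ _)
  simp only [Finset.mem_insert, forall_eq_or_imp]
  tauto

theorem totalDegree_aff (a : Fin 3 → ℝ) (d : ℝ) : (aff a d).totalDegree ≤ 1 := by
  unfold aff
  refine (totalDegree_add _ _).trans (max_le ?_ ?_)
  · refine totalDegree_finsetSum_le fun i _ => ?_
    refine (totalDegree_mul _ _).trans ?_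
    rw [totalDegree_C, totalDegree_X]
  · rw [totalDegree_C]; omega

theorem C_mem_Aff (r : ℝ) : (C r : P3) ∈ Aff := by
  rw [mem_Aff]
  exact ⟨0, r, by simp [aff]⟩

theorem X_mem_Aff (i : Fin 3) : (X i : P3) ∈ Aff := by
  rw [mem_Aff]
  refine ⟨Pi.single i 1, 0, ?_⟩
  unfold aff
  rw [Finset.sum_eq_single i]
  · simp
  · intro j _ hj
    simp [Pi.single_eq_of_ne hj]
  · intro h
    exact absurd (Finset.mem_univ i) h

theorem restrict_eq_pw (s : ℕ) : restrictTotalDegree (Fin 3) ℝ s = pw Aff s := by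
  apply le_antisymm
  · intro f hf
    rw [mem_restrictTotalDegree] at hf
    rw [f.as_sum]
    refine Submodule.sum_mem _ fun m hm => ?_
    have h1 : (m.sum fun _ e => e) ≤ s := (le_totalDegree hm).trans hf
    have h2 : m 0 + m 1 + m 2 ≤ s := by
      rw [Finsupp.sum_fintype _ _ (fun _ => rfl), Fin.sum_univ_three] at h1
      exact h1
    rw [monomial_eq, Finsupp.prod_fintype _ _ (fun _ => pow_zero _), Fin.prod_univ_three,
      ← smul_eq_C_mul]
    apply Submodule.smul_mem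
    have h3 : (1 : P3) ∈ pw Aff (s - (m 0 + m 1 + m 2)) := by
      have := pow_mem_pw (U := Aff) (b := 1) (by simpa using C_mem_Aff 1) (s - (m 0 + m 1 + m 2))
      simpa using this
    have h4 := pow_mul_mem_pw (m 0) (X_mem_Aff 0) (pow_mul_mem_pw (m 1) (X_mem_Aff 1)
      (pow_mul_mem_pw (m 2) (X_mem_Aff 2) h3))
    have h5 : s - (m 0 + m 1 + m 2) + m 2 + m 1 + m 0 = s := by omega
    rw [h5, mul_one, ← mul_assoc] at h4
    exact h4
  · unfold pw
    rw [Submodule.span_le]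
    rintro _ ⟨l, hl, rfl⟩
    obtain ⟨a, d, rfl⟩ := mem_Aff.mp hl
    rw [SetLike.mem_coe, mem_restrictTotalDegree]
    refine (totalDegree_pow _ _).trans ?_
    calc s * (aff a d).totalDegree ≤ s * 1 := Nat.mul_le_mul_left _ (totalDegree_aff a d)
      _ = s := mul_one s

theorem IS_eq (p : V → Fin 3 → ℝ) (s : ℕ) (ψ : Finset V) : IS p s ψ = pw (Vs p ψ) s := by
  unfold IS
  split_ifs with h
  · rw [restrict_eq_pw, h]
    congr 1
    apply le_antisymm
    · intro l hl
      exact ⟨hl, fun v hv => absurd hv (Finset.notMem_empty v)⟩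
    · exact Vs_le p ∅
  · unfold pw
    rw [coe_Vs]

theorem IS_anti (p : V → Fin 3 → ℝ) (s : ℕ) {θ ψ : Finset V} (h : θ ⊆ ψ) :
    IS p s ψ ≤ IS p s θ := by
  rw [IS_eq, IS_eq]
  exact pw_mono (Vs_anti p h) s

/-! ## The boundary operator -/

theorem bd_apply (c : Finset V → P3) (θ : Finset V) :
    bd c θ = ∑ v, if v ∈ θ then 0 else sgn v θ • c (insert v θ) := rfl

theorem mem_Ch {K : Finset (Finset V)} {p : V → Fin 3 → ℝ} {s j : ℕ} {c : Finset V → P3} :
    c ∈ Ch K p s j ↔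
      ∀ ψ, (ψ ∈ K ∧ ψ.card = j → c ψ ∈ IS p s ψ) ∧ (¬(ψ ∈ K ∧ ψ.card = j) → c ψ = 0) := Iff.rfl

theorem bd_mem {K : Finset (Finset V)} (hK : IsComplex K) (p : V → Fin 3 → ℝ) (s j : ℕ)
    {c : Finset V → P3} (hc : c ∈ Ch K p s (j + 1)) : bd c ∈ Ch K p s j := by
  intro θ
  constructor
  · rintro ⟨hθ, hj⟩
    rw [bd_apply]
    refine Submodule.sum_mem _ fun v _ => ?_
    split_ifs with hv
    · exact Submodule.zero_mem _
    · apply Submodule.smul_mem
      by_cases h : insert v θ ∈ K ∧ (insert v θ).card = j + 1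
      · exact IS_anti p s (Finset.subset_insert v θ) ((hc _).1 h)
      · rw [(hc _).2 h]; exact Submodule.zero_mem _
  · intro hn
    rw [bd_apply]
    refine Finset.sum_eq_zero fun v _ => ?_
    split_ifs with hv
    · rfl
    · rw [(hc _).2, smul_zero]
      rintro ⟨h1, h2⟩
      apply hn
      refine ⟨hK.down _ h1 _ (Finset.subset_insert v θ), ?_⟩
      rw [Finset.card_insert_of_notMem hv] at h2
      omega

theorem sgn_insert (u v : V) (θ : Finset V) (hv : v ∉ θ) :
    sgn u (insert v θ) = (if v < u then -1 else 1) * sgn u θ := by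
  unfold sgn
  rw [Finset.filter_insert]
  split_ifs with h
  · rw [Finset.card_insert_of_notMem (by simp [hv]), pow_succ]
    ring
  · rw [one_mul]

theorem sgn_swap (u v : V) (θ : Finset V) (hu : u ∉ θ) (hv : v ∉ θ) (huv : u ≠ v) :
    sgn v θ * sgn u (insert v θ) = -(sgn u θ * sgn v (insert u θ)) := by
  rw [sgn_insert u v θ hv, sgn_insert v u θ hu]
  rcases lt_or_gt_of_ne huv with h | h
  · rw [if_neg (not_lt.mpr h.le), if_pos h]; ring
  · rw [if_pos h, if_neg (not_lt.mpr h.le)]; ring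

theorem bd_bd (c : Finset V → P3) : bd (bd c) = 0 := by
  funext θ
  rw [Pi.zero_apply]
  set f : V → V → P3 := fun v u => if v ∈ θ then 0 else
    if u ∈ insert v θ then 0 else (sgn v θ * sgn u (insert v θ)) • c (insert u (insert v θ)) with hf
  have h1 : bd (bd c) θ = ∑ v, ∑ u, f v u := by
    rw [bd_apply]
    refine Finset.sum_congr rfl fun v _ => ?_
    by_cases hv : v ∈ θ
    · simp [hf, hv]
    · rw [if_neg hv, bd_apply, Finset.smul_sum]
      refine Finset.sum_congr rfl fun u _ => ?_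
      simp only [hf, if_neg hv]
      split_ifs
      · rw [smul_zero]
      · rw [smul_smul]
  have h2 : ∀ v u, f v u = -f u v := by
    intro v u
    simp only [hf]
    by_cases hv : v ∈ θ
    · simp [hv]
    · by_cases hu : u ∈ θ
      · simp [hu]
      · by_cases huv : u = v
        · subst huv; simp
        · rw [if_neg hv, if_neg hu, if_neg (by simp [huv, hu]), if_neg (by simp [Ne.symm huv, hv]),
            sgn_swap u v θ hu hv huv, neg_smul, Finset.insert_comm]
  have h3 : ∑ v, ∑ u, f v u = -∑ v, ∑ u, f v u := by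
    conv_lhs => rw [Finset.sum_comm]
    rw [← Finset.sum_neg_distrib]
    refine Finset.sum_congr rfl fun v _ => ?_
    rw [← Finset.sum_neg_distrib]
    exact Finset.sum_congr rfl fun u _ => h2 u v
  rw [h1]
  exact self_eq_neg.mp h3

/-! ## The cone -/

section cone

variable {K : Finset (Finset V)} {w : V}

theorem mem_cone {ψ : Finset V} : ψ ∈ cone w K ↔ ψ ∈ K ∨ ∃ θ ∈ K, θ.card ≤ 2 ∧ insert w θ = ψ := by
  unfold cone
  simp only [Finset.mem_union, Finset.mem_image, Finset.mem_filter, and_assoc]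

theorem mem_cone_of_notMem {θ : Finset V} (hθ : w ∉ θ) : θ ∈ cone w K ↔ θ ∈ K := by
  rw [mem_cone]
  constructor
  · rintro (h | ⟨τ, _, _, rfl⟩)
    · exact h
    · exact absurd (Finset.mem_insert_self w τ) hθ
  · exact Or.inl

theorem insert_mem_cone (hwK : ∀ ψ ∈ K, w ∉ ψ) {θ : Finset V} (hθ : w ∉ θ) :
    insert w θ ∈ cone w K ↔ θ ∈ K ∧ θ.card ≤ 2 := by
  rw [mem_cone]
  constructor
  · rintro (h | ⟨τ, h1, h2, h3⟩)
    · exact absurd (Finset.mem_insert_self w θ) (hwK _ h)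
    · have h4 : τ = θ := by
        have := congrArg (fun x => Finset.erase x w) h3
        simpa [Finset.erase_insert (hwK _ h1), Finset.erase_insert hθ] using this
      rw [← h4]; exact ⟨h1, h2⟩
  · rintro ⟨h1, h2⟩
    exact Or.inr ⟨θ, h1, h2, rfl⟩

theorem cone_isComplex (hK : IsComplex K) (hwK : ∀ ψ ∈ K, w ∉ ψ) : IsComplex (cone w K) where
  empty_mem := mem_cone.mpr (Or.inl hK.empty_mem)
  down := by
    intro ψ hψ θ hθ
    rcases mem_cone.mp hψ with h | ⟨τ, h1, h2, rfl⟩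
    · exact mem_cone.mpr (Or.inl (hK.down _ h _ hθ))
    · by_cases hw : w ∈ θ
      · have h3 : θ.erase w ⊆ τ := by
          intro x hx
          rw [Finset.mem_erase] at hx
          rcases Finset.mem_insert.mp (hθ hx.2) with h | h
          · exact absurd h hx.1
          · exact h
        refine mem_cone.mpr (Or.inr ⟨θ.erase w, hK.down _ h1 _ h3, ?_, Finset.insert_erase hw⟩)
        exact (Finset.card_le_card h3).trans h2
      · refine mem_cone.mpr (Or.inl (hK.down _ h1 _ ?_))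
        intro x hx
        rcases Finset.mem_insert.mp (hθ hx) with h | h
        · exact absurd (h ▸ hx) hw
        · exact h
  dim := by
    intro ψ hψ
    rcases mem_cone.mp hψ with h | ⟨τ, h1, h2, rfl⟩
    · exact hK.dim _ h
    · exact (Finset.card_insert_le _ _).trans (by omega)

theorem sgn_least (hw : ∀ v, w ≤ v) (θ : Finset V) : sgn w θ = 1 := by
  unfold sgn
  rw [Finset.filter_false_of_mem (fun u _ => not_lt.mpr (hw u))]
  simp

theorem sgn_insert_least (hw : ∀ v, w ≤ v) {v : V} (hv : v ≠ w) {τ : Finset V} (hτ : w ∉ τ) :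
    sgn v (insert w τ) = -sgn v τ := by
  rw [sgn_insert v w τ hτ, if_pos (lt_of_le_of_ne (hw v) hv.symm)]
  ring

variable (p : V → Fin 3 → ℝ) (s : ℕ)

/-- the kernel complex -/
noncomputable def Nn (K : Finset (Finset V)) (w : V) (p : V → Fin 3 → ℝ) (s j : ℕ) :
    Submodule ℝ (Finset V → P3) where
  carrier := {c | ∀ ψ, (ψ ∈ cone w K ∧ ψ.card = j → c ψ ∈ pw (Vs p (insert w ψ)) (s + 1)) ∧
    (¬(ψ ∈ cone w K ∧ ψ.card = j) → c ψ = 0)}
  add_mem' {a b} ha hb ψ := ⟨fun h => Submodule.add_mem _ ((ha ψ).1 h) ((hb ψ).1 h), fun h => by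
    rw [Pi.add_apply, (ha ψ).2 h, (hb ψ).2 h, add_zero]⟩
  zero_mem' ψ := ⟨fun _ => Submodule.zero_mem _, fun _ => rfl⟩
  smul_mem' r a ha ψ := ⟨fun h => Submodule.smul_mem _ r ((ha ψ).1 h), fun h => by
    rw [Pi.smul_apply, (ha ψ).2 h, smul_zero]⟩

/-- the chain map -/
noncomputable def Phi (w : V) (p : V → Fin 3 → ℝ) (s : ℕ) :
    (Finset V → P3) →ₗ[ℝ] (Finset V → P3) where
  toFun c ψ := if w ∈ ψ then 0 else pd (p w) (s + 1) (c ψ)
  map_add' a b := by
    funext ψ
    simp only [Pi.add_apply]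
    split_ifs
    · simp
    · rw [map_add]
  map_smul' r a := by
    funext ψ
    simp only [Pi.smul_apply, RingHom.id_apply]
    split_ifs
    · simp
    · rw [map_smul]

theorem Phi_apply (c : Finset V → P3) (ψ : Finset V) :
    Phi w p s c ψ = if w ∈ ψ then 0 else pd (p w) (s + 1) (c ψ) := rfl

theorem Nn_le (j : ℕ) : Nn K w p s j ≤ Ch (cone w K) p (s + 1) j := by
  intro c hc ψ
  refine ⟨fun h => ?_, (hc ψ).2⟩
  rw [IS_eq]
  exact pw_mono (Vs_anti p (Finset.subset_insert w ψ)) _ ((hc ψ).1 h)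

theorem Phi_Nn (j : ℕ) {c : Finset V → P3} (hc : c ∈ Nn K w p s j) : Phi w p s c = 0 := by
  funext ψ
  rw [Phi_apply]
  split_ifs with h
  · rfl
  · by_cases h1 : ψ ∈ cone w K ∧ ψ.card = j
    · have h2 := (hc ψ).1 h1
      rw [← van_Vs] at h2
      rw [pd_van (Vs_le p ψ) (s + 1) _ h2]; rfl
    · rw [(hc ψ).2 h1, map_zero]; rfl

/-- the genericity used in the proof -/
def Gen (K : Finset (Finset V)) (w : V) (p : V → Fin 3 → ℝ) : Prop :=
  ∀ ψ ∈ K, ∃ l0 ∈ Vs p ψ, eval (p w) l0 = 1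

variable {p}

theorem mem_Nn_of_Phi (hG : Gen K w p) (j : ℕ) {c : Finset V → P3}
    (hc : c ∈ Ch (cone w K) p (s + 1) j) (h : Phi w p s c = 0) : c ∈ Nn K w p s j := by
  intro ψ
  refine ⟨fun h1 => ?_, (hc ψ).2⟩
  have h2 := (hc ψ).1 h1
  rw [IS_eq] at h2
  by_cases hw : w ∈ ψ
  · rwa [Finset.insert_eq_of_mem hw]
  · have h3 := congrFun h ψ
    rw [Phi_apply, if_neg hw, Pi.zero_apply] at h3
    obtain ⟨l0, hl0, h4⟩ := hG ψ ((mem_cone_of_notMem hw).mp h1.1)
    have := pd_ker (Vs_le p ψ) hl0 h4 s (c ψ) h2 h3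
    rwa [van_Vs] at this

theorem Phi_mem (j : ℕ) {c : Finset V → P3} (hc : c ∈ Ch (cone w K) p (s + 1) j)
    (hwK : ∀ ψ ∈ K, w ∉ ψ) : Phi w p s c ∈ Ch K p s j := by
  intro ψ
  rw [Phi_apply]
  constructor
  · rintro ⟨h1, h2⟩
    rw [if_neg (hwK ψ h1), IS_eq]
    have h3 := (hc ψ).1 ⟨(mem_cone_of_notMem (hwK ψ h1)).mpr h1, h2⟩
    rw [IS_eq] at h3
    exact pd_mem (Vs_le p ψ) s _ h3
  · intro h
    split_ifs with hw
    · rfl
    · rw [(hc ψ).2, map_zero]
      rintro ⟨h1, h2⟩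
      exact h ⟨(mem_cone_of_notMem hw).mp h1, h2⟩

theorem Phi_surj (hG : Gen K w p) (hwK : ∀ ψ ∈ K, w ∉ ψ) (j : ℕ) {c : Finset V → P3}
    (hc : c ∈ Ch K p s j) : ∃ c' ∈ Ch (cone w K) p (s + 1) j, Phi w p s c' = c := by
  classical
  have h : ∀ ψ, ∃ f : P3, ψ ∈ K ∧ ψ.card = j →
      f ∈ pw (Vs p ψ) (s + 1) ∧ pd (p w) (s + 1) f = c ψ := by
    intro ψ
    by_cases h1 : ψ ∈ K ∧ ψ.card = j
    · obtain ⟨l0, hl0, h4⟩ := hG ψ h1.1
      have h2 := (hc ψ).1 h1
      rw [IS_eq] at h2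
      obtain ⟨f, hf, h3⟩ := pd_surj (Vs_le p ψ) hl0 h4 s _ h2
      exact ⟨f, fun _ => ⟨hf, h3⟩⟩
    · exact ⟨0, fun h => absurd h h1⟩
  choose f hf using h
  refine ⟨fun ψ => if ψ ∈ K ∧ ψ.card = j then f ψ else 0, ?_, ?_⟩
  · intro ψ
    simp only
    constructor
    · rintro ⟨h1, h2⟩
      split_ifs with h3
      · rw [IS_eq]; exact (hf ψ h3).1
      · exact Submodule.zero_mem _
    · intro h1
      rw [if_neg]
      rintro ⟨h2, h3⟩
      exact h1 ⟨mem_cone.mpr (Or.inl h2), h3⟩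
  · funext ψ
    rw [Phi_apply]
    by_cases h1 : ψ ∈ K ∧ ψ.card = j
    · rw [if_neg (hwK ψ h1.1), if_pos h1, (hf ψ h1).2]
    · rw [if_neg h1, (hc ψ).2 h1, map_zero, ite_self]

theorem bd_Phi (hwK : ∀ ψ ∈ K, w ∉ ψ) (j : ℕ) {c : Finset V → P3}
    (hc : c ∈ Ch (cone w K) p (s + 1) j) : bd (Phi w p s c) = Phi w p s (bd c) := by
  funext θ
  rw [Phi_apply, bd_apply, bd_apply]
  by_cases hw : w ∈ θ
  · rw [if_pos hw]
    refine Finset.sum_eq_zero fun v _ => ?_
    split_ifs with hv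
    · rfl
    · rw [Phi_apply, if_pos (Finset.mem_insert_of_mem hw), smul_zero]
  · rw [if_neg hw, map_sum]
    refine Finset.sum_congr rfl fun v _ => ?_
    by_cases hv : v ∈ θ
    · rw [if_pos hv, if_pos hv, map_zero]
    · rw [if_neg hv, if_neg hv, Phi_apply, map_smul]
      by_cases hvw : v = w
      · subst hvw
        rw [if_pos (Finset.mem_insert_self v θ), smul_zero]
        by_cases h1 : insert v θ ∈ cone v K ∧ (insert v θ).card = j
        · have h2 := (hc _).1 h1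
          rw [IS_eq, ← van_Vs] at h2
          rw [pd_van (Vs_le p θ) (s + 1) _ h2, smul_zero]
        · rw [(hc _).2 h1, map_zero, smul_zero]
      · rw [if_neg]
        simp only [Finset.mem_insert, not_or]
        exact ⟨fun h => hvw h.symm, hw⟩

/-- the cone construction -/
noncomputable def coneOp (w : V) (n : Finset V → P3) (ψ : Finset V) : P3 :=
  if w ∈ ψ then n (ψ.erase w) else 0

theorem bd_coneOp (hw : ∀ v, w ≤ v) {n : Finset V → P3} (hn : bd n = 0) :
    bd (coneOp w n) = n := by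
  funext θ
  rw [bd_apply]
  by_cases hwθ : w ∈ θ
  · set τ := θ.erase w with hτ
    have hwτ : w ∉ τ := Finset.notMem_erase w θ
    have hθ : θ = insert w τ := (Finset.insert_erase hwθ).symm
    have h1 := congrFun hn τ
    rw [bd_apply, Pi.zero_apply, ← Finset.add_sum_erase _ _ (Finset.mem_univ w), if_neg hwτ,
      sgn_least hw, one_smul, ← hθ] at h1
    rw [← Finset.add_sum_erase _ _ (Finset.mem_univ w), if_pos hwθ, zero_add]
    rw [eq_neg_of_add_eq_zero_left h1, ← Finset.sum_neg_distrib]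
    refine Finset.sum_congr rfl fun v hv => ?_
    have hvw : v ≠ w := (Finset.mem_erase.mp hv).1
    by_cases hvθ : v ∈ θ
    · rw [if_pos hvθ, if_pos (Finset.mem_erase.mpr ⟨hvw, hvθ⟩), neg_zero]
    · have hvτ : v ∉ τ := fun h => hvθ (Finset.mem_of_mem_erase h)
      rw [if_neg hvθ, if_neg hvτ]
      unfold coneOp
      rw [if_pos (Finset.mem_insert_of_mem hwθ), hθ, sgn_insert_least hw hvw hwτ, neg_smul]
      congr 3
      rw [Finset.insert_comm, Finset.erase_insert]
      simp only [Finset.mem_insert, not_or]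
      exact ⟨hvw.symm, hwτ⟩
  · rw [Finset.sum_eq_single w]
    · rw [if_neg hwθ, sgn_least hw, one_smul]
      unfold coneOp
      rw [if_pos (Finset.mem_insert_self w θ), Finset.erase_insert hwθ]
    · intro v _ hvw
      split_ifs with hv
      · rfl
      · unfold coneOp
        rw [if_neg, smul_zero]
        simp only [Finset.mem_insert, not_or]
        exact ⟨hvw.symm, hwθ⟩
    · intro h
      exact absurd (Finset.mem_univ w) h

theorem coneOp_mem (hwK : ∀ ψ ∈ K, w ∉ ψ) {j : ℕ} (hj : j ≤ 2) {n : Finset V → P3}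
    (hn : n ∈ Nn K w p s j) : coneOp w n ∈ Nn K w p s (j + 1) := by
  intro ψ
  unfold coneOp
  by_cases hw : w ∈ ψ
  · rw [if_pos hw]
    set τ := ψ.erase w with hτ
    have hwτ : w ∉ τ := Finset.notMem_erase w ψ
    have hψ : ψ = insert w τ := (Finset.insert_erase hw).symm
    constructor
    · rintro ⟨h1, h2⟩
      rw [hψ, insert_mem_cone hwK hwτ] at h1
      rw [hψ, Finset.card_insert_of_notMem hwτ] at h2
      have h3 := (hn τ).1 ⟨(mem_cone_of_notMem hwτ).mpr h1.1, by omega⟩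
      rw [hψ, Finset.insert_idem]
      exact h3
    · intro h1
      apply (hn τ).2
      rintro ⟨h2, h3⟩
      apply h1
      rw [mem_cone_of_notMem hwτ] at h2
      refine ⟨?_, ?_⟩
      · rw [hψ, insert_mem_cone hwK hwτ]
        exact ⟨h2, by omega⟩
      · rw [hψ, Finset.card_insert_of_notMem hwτ, h3]
  · rw [if_neg hw]
    exact ⟨fun _ => Submodule.zero_mem _, fun _ => rfl⟩

end cone

end Pool.Agent.R325.Cof
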