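import Mathlib
import Pool.Agent.R325.CofCx

/-!
# Coning and the Betti numbers of cofactor complexes
-/

set_option autoImplicit false
set_option linter.unusedSectionVars false

namespace Pool.Agent.R325.Cof

open MvPolynomial

/-! ## Linear algebra -/

theorem finrank_map_add {M M' : Type*} [AddCommGroup M] [Module ℝ M] [AddCommGroup M']
    [Module ℝ M'] (f : M →ₗ[ℝ] M') (Z : Submodule ℝ M) [FiniteDimensional ℝ Z] :
    Module.finrank ℝ (Z.map f) + Module.finrank ℝ (Z ⊓ LinearMap.ker f : Submodule ℝ M) =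
      Module.finrank ℝ Z := by
  have h1 := LinearMap.finrank_range_add_finrank_ker (f.domRestrict Z)
  rw [LinearMap.range_domRestrict] at h1
  have h2 : Module.finrank ℝ (LinearMap.ker (f.domRestrict Z)) =
      Module.finrank ℝ (Z ⊓ LinearMap.ker f : Submodule ℝ M) := by
    rw [← Submodule.finrank_map_subtype_eq Z (LinearMap.ker (f.domRestrict Z))]
    have h3 : (LinearMap.ker (f.domRestrict Z)).map Z.subtype = Z ⊓ LinearMap.ker f := by
      ext x
      simp only [Submodule.mem_map, LinearMap.mem_ker, LinearMap.domRestrict_apply,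
        Submodule.subtype_apply, Submodule.mem_inf]
      constructor
      · rintro ⟨y, hy, rfl⟩; exact ⟨y.2, hy⟩
      · rintro ⟨h3, h4⟩; exact ⟨⟨x, h3⟩, h4, rfl⟩
    rw [h3]
  rw [← h2]
  exact h1

theorem finrank_quot {M : Type*} [AddCommGroup M] [Module ℝ M] (Z B : Submodule ℝ M)
    [FiniteDimensional ℝ Z] (h : B ≤ Z) :
    Module.finrank ℝ (Z ⧸ B.comap Z.subtype) + Module.finrank ℝ B = Module.finrank ℝ Z := by
  have h1 := Submodule.finrank_quotient_add_finrank (B.comap Z.subtype)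
  have h2 : Module.finrank ℝ (B.comap Z.subtype) = Module.finrank ℝ B :=
    (Submodule.comapSubtypeEquivOfLe h).finrank_eq
  rw [← h2]
  exact h1

theorem Aff_fg : (Aff).FG := by
  unfold Aff
  rw [LinearMap.range_eq_map]
  exact Submodule.FG.map _ Module.Finite.fg_top

theorem pw_le_pow (U : Submodule ℝ P3) (s : ℕ) : pw U s ≤ U ^ s := by
  unfold pw
  rw [Submodule.span_le]
  rintro _ ⟨l, hl, rfl⟩
  exact Submodule.pow_mem_pow _ hl s

instance fd_pw (s : ℕ) : FiniteDimensional ℝ (pw Aff s) := by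
  have h1 : (Aff ^ s).FG := Submodule.FG.pow Aff_fg s
  have : FiniteDimensional ℝ (Aff ^ s : Submodule ℝ P3) := Module.Finite.iff_fg.mpr h1
  exact Submodule.finiteDimensional_of_le (pw_le_pow Aff s)

variable {V : Type} [Fintype V] [LinearOrder V]

instance fd_Ch (K : Finset (Finset V)) (p : V → Fin 3 → ℝ) (s j : ℕ) :
    FiniteDimensional ℝ (Ch K p s j) := by
  let f : (Finset V → pw Aff s) →ₗ[ℝ] (Finset V → P3) :=
    LinearMap.pi (fun ψ => (pw Aff s).subtype ∘ₗ LinearMap.proj ψ)
  have : Ch K p s j ≤ LinearMap.range f := by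
    intro c hc
    have h1 : ∀ ψ, c ψ ∈ pw Aff s := by
      intro ψ
      by_cases h : ψ ∈ K ∧ ψ.card = j
      · have h2 := (hc ψ).1 h
        rw [IS_eq] at h2
        exact pw_mono (Vs_le p ψ) s h2
      · rw [(hc ψ).2 h]; exact Submodule.zero_mem _
    exact ⟨fun ψ => ⟨c ψ, h1 ψ⟩, by funext ψ; rfl⟩
  exact Submodule.finiteDimensional_of_le this

instance fd_Cy (K : Finset (Finset V)) (p : V → Fin 3 → ℝ) (s j : ℕ) :
    FiniteDimensional ℝ (Cy K p s j) :=
  Submodule.finiteDimensional_of_le (S₂ := Ch K p s j) inf_le_left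

instance fd_Bo (K : Finset (Finset V)) (p : V → Fin 3 → ℝ) (s j : ℕ) :
    FiniteDimensional ℝ (Bo K p s j) := by
  unfold Bo
  infer_instance

theorem Bo_le {K : Finset (Finset V)} (hK : IsComplex K) (p : V → Fin 3 → ℝ) (s j : ℕ) :
    Bo K p s j ≤ Cy K p s j := by
  rintro _ ⟨c, hc, rfl⟩
  exact ⟨bd_mem hK p s j hc, by rw [SetLike.mem_coe, LinearMap.mem_ker, bd_bd]⟩

/-! ## The comparison -/

section cone

variable {K : Finset (Finset V)} {w : V} {p : V → Fin 3 → ℝ} {s : ℕ}

theorem Nn_cycle (hw : ∀ v, w ≤ v) (hwK : ∀ ψ ∈ K, w ∉ ψ) {j : ℕ} (hj : j ≤ 2)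
    {n : Finset V → P3} (hn : n ∈ Nn K w p s j) (h : bd n = 0) :
    ∃ m ∈ Nn K w p s (j + 1), bd m = n :=
  ⟨coneOp w n, coneOp_mem s hwK hj hn, bd_coneOp hw h⟩

theorem Nn_eq (hG : Gen K w p) (j : ℕ) :
    Nn K w p s j = Ch (cone w K) p (s + 1) j ⊓ LinearMap.ker (Phi w p s) := by
  apply le_antisymm
  · intro c hc
    exact ⟨Nn_le p s j hc, Phi_Nn p s j hc⟩
  · rintro c ⟨h1, h2⟩
    exact mem_Nn_of_Phi s hG j h1 h2

theorem bd_Nn (hK : IsComplex K) (hwK : ∀ ψ ∈ K, w ∉ ψ) (hG : Gen K w p) (j : ℕ)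
    {n : Finset V → P3} (hn : n ∈ Nn K w p s (j + 1)) : bd n ∈ Nn K w p s j := by
  rw [Nn_eq hG] at hn ⊢
  refine ⟨bd_mem (cone_isComplex hK hwK) p (s + 1) j hn.1, ?_⟩
  rw [SetLike.mem_coe, LinearMap.mem_ker, ← bd_Phi s hwK _ hn.1, LinearMap.mem_ker.mp hn.2, map_zero]

theorem Ch_zero_of (hK : IsComplex K) {j : ℕ} (hj : 4 ≤ j) {c : Finset V → P3}
    (hc : c ∈ Ch K p s j) : c = 0 := by
  funext ψ
  apply (hc ψ).2
  rintro ⟨h1, h2⟩
  have := hK.dim ψ h1
  omega

/-- cycles of the cone map onto cycles -/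
theorem map_Cy (hK : IsComplex K) (hw : ∀ v, w ≤ v) (hwK : ∀ ψ ∈ K, w ∉ ψ) (hG : Gen K w p)
    {j : ℕ} (hj : j ≤ 3) :
    (Cy (cone w K) p (s + 1) j).map (Phi w p s) = Cy K p s j := by
  apply le_antisymm
  · rintro _ ⟨c, hc, rfl⟩
    refine ⟨Phi_mem s j hc.1 hwK, ?_⟩
    rw [SetLike.mem_coe, LinearMap.mem_ker, bd_Phi s hwK j hc.1, LinearMap.mem_ker.mp hc.2, map_zero]
  · rintro z ⟨hz, hz2⟩
    obtain ⟨c, hc, rfl⟩ := Phi_surj s hG hwK j hz
    rcases Nat.eq_zero_or_pos j with rfl | hj0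
    · -- degree `-1`: every chain is a cycle
      refine ⟨c, ⟨hc, ?_⟩, rfl⟩
      rw [SetLike.mem_coe, LinearMap.mem_ker]
      funext θ
      rw [bd_apply]
      refine Finset.sum_eq_zero fun v _ => ?_
      split_ifs with hv
      · rfl
      · rw [(hc _).2, smul_zero]
        rintro ⟨_, h2⟩
        rw [Finset.card_insert_of_notMem hv] at h2
        omega
    · obtain ⟨i, rfl⟩ : ∃ i, j = i + 1 := ⟨j - 1, by omega⟩
      have h1 : bd c ∈ Nn K w p s i := by
        rw [Nn_eq hG]
        refine ⟨bd_mem (cone_isComplex hK hwK) p (s + 1) i hc, ?_⟩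
        rw [SetLike.mem_coe, LinearMap.mem_ker, ← bd_Phi s hwK _ hc, LinearMap.mem_ker.mp hz2]
      obtain ⟨m, hm, hm2⟩ := Nn_cycle hw hwK (by omega) h1 (bd_bd c)
      refine ⟨c - m, ⟨Submodule.sub_mem _ hc (Nn_le p s _ hm), ?_⟩, ?_⟩
      · rw [SetLike.mem_coe, LinearMap.mem_ker, map_sub, hm2, sub_self]
      · rw [map_sub, Phi_Nn p s _ hm, sub_zero]

theorem Cy_inf (hG : Gen K w p) (j : ℕ) :
    Cy (cone w K) p (s + 1) j ⊓ LinearMap.ker (Phi w p s) = Nn K w p s j ⊓ LinearMap.ker bd := by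
  rw [Nn_eq hG]
  unfold Cy
  rw [inf_assoc, inf_assoc, inf_comm (LinearMap.ker bd)]

theorem map_Bo (hwK : ∀ ψ ∈ K, w ∉ ψ) (hG : Gen K w p) (j : ℕ) :
    (Bo (cone w K) p (s + 1) j).map (Phi w p s) = Bo K p s j := by
  apply le_antisymm
  · rintro _ ⟨_, ⟨c, hc, rfl⟩, rfl⟩
    exact ⟨Phi w p s c, Phi_mem s (j + 1) hc hwK, bd_Phi s hwK (j + 1) hc⟩
  · rintro _ ⟨c, hc, rfl⟩
    obtain ⟨c', hc', rfl⟩ := Phi_surj s hG hwK (j + 1) hc
    exact ⟨bd c', ⟨c', hc', rfl⟩, (bd_Phi s hwK (j + 1) hc').symm⟩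

theorem Bo_inf (hK : IsComplex K) (hw : ∀ v, w ≤ v) (hwK : ∀ ψ ∈ K, w ∉ ψ) (hG : Gen K w p)
    {j : ℕ} (hj : j ≤ 2) :
    Bo (cone w K) p (s + 1) j ⊓ LinearMap.ker (Phi w p s) = Nn K w p s j ⊓ LinearMap.ker bd := by
  apply le_antisymm
  · intro c hc
    rw [← Cy_inf hG]
    exact ⟨Bo_le (cone_isComplex hK hwK) p (s + 1) j hc.1, hc.2⟩
  · rintro c ⟨hc, hc2⟩
    obtain ⟨m, hm, rfl⟩ := Nn_cycle hw hwK hj hc hc2
    exact ⟨⟨m, Nn_le p s _ hm, rfl⟩, Phi_Nn p s j hc⟩

theorem betti_add (hK : IsComplex K) (p : V → Fin 3 → ℝ) (s j : ℕ) :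
    betti K p s j + Module.finrank ℝ (Bo K p s j) = Module.finrank ℝ (Cy K p s j) :=
  finrank_quot _ _ (Bo_le hK p s j)

theorem betti_low (hK : IsComplex K) (hw : ∀ v, w ≤ v) (hwK : ∀ ψ ∈ K, w ∉ ψ) (hG : Gen K w p)
    {j : ℕ} (hj : j ≤ 2) : betti (cone w K) p (s + 1) j = betti K p s j := by
  have h1 := betti_add (cone_isComplex hK hwK) p (s + 1) j
  have h2 := betti_add hK p s j
  have h3 := finrank_map_add (Phi w p s) (Cy (cone w K) p (s + 1) j)
  have h4 := finrank_map_add (Phi w p s) (Bo (cone w K) p (s + 1) j)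
  rw [map_Cy hK hw hwK hG (by omega), Cy_inf hG] at h3
  rw [map_Bo hwK hG, Bo_inf hK hw hwK hG hj] at h4
  omega

theorem Bo_three (hK : IsComplex K) (p : V → Fin 3 → ℝ) (s : ℕ) : Bo K p s 3 = ⊥ := by
  rw [eq_bot_iff]
  rintro _ ⟨c, hc, rfl⟩
  rw [Ch_zero_of hK (le_refl 4) hc, map_zero]
  exact Submodule.zero_mem _

theorem betti_top (hK : IsComplex K) (hw : ∀ v, w ≤ v) (hwK : ∀ ψ ∈ K, w ∉ ψ) (hG : Gen K w p) :
    betti (cone w K) p (s + 1) 3 =
      betti K p s 3 + Module.finrank ℝ (Nn K w p s 3 ⊓ LinearMap.ker bd : Submodule ℝ _) := by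
  have h1 := betti_add (cone_isComplex hK hwK) p (s + 1) 3
  have h2 := betti_add hK p s 3
  have h3 := finrank_map_add (Phi w p s) (Cy (cone w K) p (s + 1) 3)
  rw [map_Cy hK hw hwK hG (by omega), Cy_inf hG] at h3
  rw [Bo_three (cone_isComplex hK hwK), finrank_bot] at h1
  rw [Bo_three hK, finrank_bot] at h2
  omega

/-! ## The 2-cycles of the kernel complex -/

theorem pw_bot (n : ℕ) : pw (⊥ : Submodule ℝ P3) (n + 1) = ⊥ := by
  rw [eq_bot_iff]
  unfold pw
  rw [Submodule.span_le]
  rintro _ ⟨l, hl, rfl⟩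
  rw [SetLike.mem_coe, Submodule.mem_bot] at hl
  simp [hl]

theorem Z_eq_bot_of (hw : ∀ v, w ≤ v) (h : ∀ σ ∈ K, σ.card = 3 → Vs p (insert w σ) = ⊥) :
    (Nn K w p s 3 ⊓ LinearMap.ker bd : Submodule ℝ _) = ⊥ := by
  rw [eq_bot_iff]
  rintro n ⟨hn, hn2⟩
  rw [Submodule.mem_bot, ← bd_coneOp hw (LinearMap.mem_ker.mp hn2)]
  have h1 : coneOp w n = 0 := by
    funext ψ
    unfold coneOp
    split_ifs with hψ
    · have hwτ : w ∉ ψ.erase w := Finset.notMem_erase w ψ
      by_cases h2 : ψ.erase w ∈ cone w K ∧ (ψ.erase w).card = 3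
      · have h3 := (hn _).1 h2
        rw [h _ ((mem_cone_of_notMem hwτ).mp h2.1) h2.2, pw_bot] at h3
        exact (Submodule.mem_bot ℝ).mp h3
      · exact (hn _).2 h2
    · rfl
  rw [h1, map_zero]

theorem Vs_eq_bot_of (hK : IsComplex K) (hw : ∀ v, w ≤ v) (hwK : ∀ ψ ∈ K, w ∉ ψ)
    (h : (Nn K w p s 3 ⊓ LinearMap.ker bd : Submodule ℝ _) = ⊥) {σ : Finset V} (hσ : σ ∈ K)
    (hc : σ.card = 3) : Vs p (insert w σ) = ⊥ := by
  classical
  rw [eq_bot_iff]
  intro l hl
  rw [Submodule.mem_bot]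
  set a : P3 := l ^ (s + 1) with ha
  have haA : a ∈ pw (Vs p (insert w σ)) (s + 1) := pow_mem_pw hl _
  have hwσ := hwK σ hσ
  set g : Finset V → P3 := fun ψ => if ψ = insert w σ then a else 0 with hg
  have hmem : bd g ∈ (Nn K w p s 3 ⊓ LinearMap.ker bd : Submodule ℝ _) := by
    refine ⟨?_, by rw [SetLike.mem_coe, LinearMap.mem_ker, bd_bd]⟩
    intro θ
    constructor
    · rintro _
      rw [bd_apply]
      refine Submodule.sum_mem _ fun v _ => ?_
      split_ifs with hv
      · exact Submodule.zero_mem _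
      · apply Submodule.smul_mem
        simp only [hg]
        split_ifs with h1
        · refine pw_mono (Vs_anti p ?_) _ haA
          intro x hx
          rcases Finset.mem_insert.mp hx with h2 | h2
          · rw [h2]; exact Finset.mem_insert_self w σ
          · rw [← h1]; exact Finset.mem_insert_of_mem h2
        · exact Submodule.zero_mem _
    · intro hn
      rw [bd_apply]
      refine Finset.sum_eq_zero fun v _ => ?_
      split_ifs with hv
      · rfl
      · simp only [hg]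
        rw [if_neg, smul_zero]
        intro h1
        apply hn
        have hcard : θ.card = 3 := by
          have h2 := congrArg Finset.card h1
          rw [Finset.card_insert_of_notMem hv, Finset.card_insert_of_notMem hwσ] at h2
          omega
        have hsub : θ ⊆ insert w σ := by rw [← h1]; exact Finset.subset_insert v θ
        refine ⟨?_, hcard⟩
        by_cases hwθ : w ∈ θ
        · have h3 : θ.erase w ⊆ σ := by
            intro x hx
            rw [Finset.mem_erase] at hx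
            rcases Finset.mem_insert.mp (hsub hx.2) with h | h
            · exact absurd h hx.1
            · exact h
          rw [← Finset.insert_erase hwθ, insert_mem_cone hwK (Finset.notMem_erase w θ)]
          refine ⟨hK.down _ hσ _ h3, ?_⟩
          rw [Finset.card_erase_of_mem hwθ]; omega
        · rw [mem_cone_of_notMem hwθ]
          refine hK.down _ hσ _ ?_
          intro x hx
          rcases Finset.mem_insert.mp (hsub hx) with h | h
          · exact absurd (h ▸ hx) hwθ
          · exact h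
  rw [h, Submodule.mem_bot] at hmem
  have h2 := congrFun hmem σ
  rw [bd_apply, Pi.zero_apply, Finset.sum_eq_single w] at h2
  · rw [if_neg hwσ, sgn_least hw, one_smul] at h2
    simp only [hg, if_true] at h2
    exact pow_eq_zero_iff (by omega) |>.mp h2
  · intro v _ hvw
    split_ifs with hv
    · rfl
    · simp only [hg]
      rw [if_neg, smul_zero]
      intro h3
      have h4 : v ∈ insert w σ := by rw [← h3]; exact Finset.mem_insert_self v σ
      rcases Finset.mem_insert.mp h4 with h5 | h5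
      · exact hvw h5
      · exact hv h5
  · intro h3
    exact absurd (Finset.mem_univ w) h3

/-! ## Geometry -/

theorem dual_coord (f : (Fin 3 → ℝ) →ₗ[ℝ] ℝ) (x : Fin 3 → ℝ) :
    f x = ∑ i, f (Pi.single i 1) * x i := by
  conv_lhs => rw [pi_eq_sum_univ' x, map_sum]
  refine Finset.sum_congr rfl fun i _ => ?_
  rw [map_smul, smul_eq_mul, mul_comm]

theorem affineSpan_ne_top (p : V → Fin 3 → ℝ) (ψ : Finset V) (h : ψ.card ≤ 3) :
    affineSpan ℝ (p '' (ψ : Set V)) ≠ ⊤ := by
  classical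
  intro h1
  rcases Nat.eq_zero_or_pos ψ.card with h0 | h0
  · rw [Finset.card_eq_zero] at h0
    rw [h0, Finset.coe_empty, Set.image_empty, AffineSubspace.span_empty] at h1
    exact bot_ne_top h1
  · obtain ⟨n, hn⟩ : ∃ n, ψ.card = n + 1 := ⟨ψ.card - 1, by omega⟩
    have h2 := finrank_vectorSpan_image_finset_le ℝ p ψ hn
    rw [Finset.coe_image, ← direction_affineSpan, h1, AffineSubspace.direction_top, finrank_top,
      Module.finrank_fintype_fun_eq_card, Fintype.card_fin] at h2
    omega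

theorem gen_of_general (hK : IsComplex K) (hG : General K w p) : Gen K w p := by
  intro ψ hψ
  have hv : ∀ v ∈ (ψ : Set V), {v} ∈ K := by
    intro v hv
    exact hK.down ψ hψ _ (Finset.singleton_subset_iff.mpr hv)
  have h1 := hG (ψ : Set V) hv (affineSpan_ne_top p ψ (hK.dim ψ hψ))
  rcases ψ.eq_empty_or_nonempty with h0 | ⟨v0, hv0⟩
  · refine ⟨1, ⟨by simpa using C_mem_Aff 1, ?_⟩, by simp⟩
    intro v hv
    rw [h0] at hv
    exact absurd hv (Finset.notMem_empty v)
  · have hmem0 : p v0 ∈ affineSpan ℝ (p '' (ψ : Set V)) :=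
      subset_affineSpan ℝ _ ⟨v0, hv0, rfl⟩
    have h2 : p w - p v0 ∉ (affineSpan ℝ (p '' (ψ : Set V))).direction := by
      intro h3
      apply h1
      exact (AffineSubspace.vsub_right_mem_direction_iff_mem hmem0 (p w)).mp h3
    obtain ⟨f, hf, hf2⟩ := Submodule.exists_le_ker_of_notMem h2
    set t := f (p w - p v0) with ht
    refine ⟨aff (fun i => t⁻¹ * f (Pi.single i 1)) (-(t⁻¹ * f (p v0))), ⟨mem_Aff.mpr ⟨_, _, rfl⟩, ?_⟩,
      ?_⟩
    · intro v hv
      have h4 : f (p v - p v0) = 0 := by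
        apply hf2
        exact AffineSubspace.vsub_mem_direction (subset_affineSpan ℝ _ ⟨v, hv, rfl⟩) hmem0
      rw [eval_aff]
      have h5 : ∑ i, t⁻¹ * f (Pi.single i 1) * p v i = t⁻¹ * f (p v) := by
        rw [dual_coord f (p v), Finset.mul_sum]
        exact Finset.sum_congr rfl fun i _ => by ring
      rw [h5]
      rw [map_sub] at h4
      linear_combination t⁻¹ * h4
    · rw [eval_aff]
      have h5 : ∑ i, t⁻¹ * f (Pi.single i 1) * p w i = t⁻¹ * f (p w) := by
        rw [dual_coord f (p w), Finset.mul_sum]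
        exact Finset.sum_congr rfl fun i _ => by ring
      rw [h5]
      have h6 : t⁻¹ * t = 1 := inv_mul_cancel₀ hf
      rw [ht, map_sub] at h6 ⊢
      linear_combination h6

theorem aff_eq_zero {a : Fin 3 → ℝ} {d : ℝ} (ha : a = 0) (hd : d = 0) : aff a d = 0 := by
  subst ha; subst hd
  simp [aff]

/-- `p v - p w`, `v ∈ σ`, span `ℝ³` if and only if no affine form vanishes on `σ ∪ {w}` -/
theorem Vs_eq_bot_iff_span (σ : Finset V) :
    Vs p (insert w σ) = ⊥ ↔ Submodule.span ℝ (Set.range (fun v : σ => p v - p w)) = ⊤ := by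
  constructor
  · intro h
    by_contra hne
    obtain ⟨f, hf, hf2⟩ := Submodule.exists_le_ker_of_lt_top _ (lt_top_iff_ne_top.mpr hne)
    apply hf
    have h1 : ∀ v ∈ σ, f (p v) = f (p w) := by
      intro v hv
      have h2 : f (p v - p w) = 0 := hf2 (Submodule.subset_span ⟨⟨v, hv⟩, rfl⟩)
      rw [map_sub] at h2
      linarith
    have h2 : aff (fun i => f (Pi.single i 1)) (-f (p w)) ∈ Vs p (insert w σ) := by
      refine ⟨mem_Aff.mpr ⟨_, _, rfl⟩, ?_⟩
      intro v hv
      rw [eval_aff, ← dual_coord]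
      rcases Finset.mem_insert.mp hv with h3 | h3
      · rw [h3]; ring
      · rw [h1 v h3]; ring
    rw [h, Submodule.mem_bot] at h2
    have h3 : ∀ x : Fin 3 → ℝ, f x - f (p w) = 0 := by
      intro x
      have := congrArg (eval x) h2
      rw [eval_aff, ← dual_coord, map_zero] at this
      linarith
    apply LinearMap.ext
    intro x
    have h4 := h3 x
    have h5 := h3 0
    rw [map_zero] at h5
    rw [LinearMap.zero_apply]
    linarith
  · intro h
    rw [eq_bot_iff]
    rintro l ⟨hl, hl2⟩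
    obtain ⟨a, d, rfl⟩ := mem_Aff.mp hl
    rw [Submodule.mem_bot]
    set f : (Fin 3 → ℝ) →ₗ[ℝ] ℝ := ∑ i, a i • LinearMap.proj i with hf
    have hfx : ∀ x, f x = ∑ i, a i * x i := by
      intro x
      simp [hf]
    have hw0 := hl2 w (Finset.mem_insert_self w σ)
    rw [eval_aff, ← hfx] at hw0
    have hker : Submodule.span ℝ (Set.range (fun v : σ => p v - p w)) ≤ LinearMap.ker f := by
      rw [Submodule.span_le]
      rintro _ ⟨v, rfl⟩
      have h1 := hl2 v (Finset.mem_insert_of_mem v.2)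
      rw [eval_aff, ← hfx] at h1
      rw [SetLike.mem_coe, LinearMap.mem_ker, map_sub]
      linarith
    rw [h] at hker
    have hf0 : ∀ x, f x = 0 := fun x => hker trivial
    apply aff_eq_zero
    · funext i
      have := hf0 (Pi.single i 1)
      rw [hfx, Finset.sum_eq_single i] at this
      · simpa using this
      · intro j _ hj
        rw [Pi.single_eq_of_ne hj, mul_zero]
      · intro h
        exact absurd (Finset.mem_univ i) h
    · rw [hf0, zero_add] at hw0
      exact hw0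

theorem indep_iff (hK : IsComplex K) (hG : General K w p) {σ : Finset V} (hσ : σ ∈ K)
    (hc : σ.card = 3) :
    AffineIndependent ℝ (fun v : σ => p v) ↔ Vs p (insert w σ) = ⊥ := by
  rw [Vs_eq_bot_iff_span]
  have hcard : Fintype.card σ = Module.finrank ℝ (Fin 3 → ℝ) := by
    rw [Fintype.card_coe, hc, Module.finrank_fintype_fun_eq_card, Fintype.card_fin]
  constructor
  · intro h
    have hlin : LinearIndependent ℝ (fun v : σ => p v - p w) := by
      rw [Fintype.linearIndependent_iff]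
      intro g hg
      have h1 : ∑ v, g v • p v = (∑ v, g v) • p w := by
        have : ∑ v : σ, g v • (p v - p w) = ∑ v : σ, g v • p v - (∑ v, g v) • p w := by
          rw [Finset.sum_smul, ← Finset.sum_sub_distrib]
          exact Finset.sum_congr rfl fun v _ => smul_sub _ _ _
        rw [this] at hg
        exact sub_eq_zero.mp hg
      by_cases ht : ∑ v, g v = 0
      · rw [ht, zero_smul] at h1
        intro i
        exact (affineIndependent_iff.mp h) Finset.univ g ht h1 i (Finset.mem_univ i)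
      · exfalso
        have hv : ∀ v ∈ (σ : Set V), {v} ∈ K := fun v hv =>
          hK.down σ hσ _ (Finset.singleton_subset_iff.mpr hv)
        apply hG (σ : Set V) hv (affineSpan_ne_top p σ (hK.dim σ hσ))
        set t := ∑ v, g v with ht'
        have h2 : ∑ v, t⁻¹ * g v = 1 := by
          rw [← Finset.mul_sum, ← ht', inv_mul_cancel₀ ht]
        have h3 := affineCombination_mem_affineSpan (s := Finset.univ) (w := fun v => t⁻¹ * g v)
          h2 (fun v : σ => p v)
        rw [Finset.affineCombination_eq_linear_combination _ _ _ h2] at h3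
        have h4 : ∑ v : σ, (t⁻¹ * g v) • p v = p w := by
          have : ∑ v : σ, (t⁻¹ * g v) • p v = t⁻¹ • ∑ v : σ, g v • p v := by
            rw [Finset.smul_sum]
            exact Finset.sum_congr rfl fun v _ => mul_smul _ _ _
          rw [this, h1, smul_smul, inv_mul_cancel₀ ht, one_smul]
        rw [h4] at h3
        have h5 : Set.range (fun v : σ => p v) = p '' (σ : Set V) := by
          ext x
          simp
        rwa [h5] at h3
    exact hlin.span_eq_top_of_card_eq_finrank' hcard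
  · intro h
    have hlin := linearIndependent_of_top_le_span_of_card_eq_finrank h.ge hcard
    rw [Fintype.linearIndependent_iff] at hlin
    rw [affineIndependent_iff]
    intro S g h1 h2 e he
    have h3 := hlin (fun v => if v ∈ S then g v else 0) (by
      have : ∑ v : σ, (if v ∈ S then g v else 0) • (p v - p w) =
          ∑ v ∈ S, g v • (p v - p w) := by
        rw [← Finset.sum_filter_add_sum_filter_not Finset.univ (fun v => v ∈ S)]
        rw [Finset.sum_eq_zero (s := Finset.univ.filter (fun v => ¬v ∈ S)), add_zero]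
        · rw [Finset.filter_mem_eq_inter, Finset.univ_inter]
          exact Finset.sum_congr rfl fun v hv => by rw [if_pos hv]
        · intro v hv
          rw [if_neg (Finset.mem_filter.mp hv).2, zero_smul]
      rw [this]
      simp only [smul_sub, Finset.sum_sub_distrib]
      rw [h2, ← Finset.sum_smul, h1, zero_smul, sub_zero]) e
    simpa [he] using h3

/-- **Main theorem.** -/
theorem main (hK : IsComplex K) (hw : ∀ v, w ≤ v) (hwK : ∀ ψ ∈ K, w ∉ ψ)
    (hG : General K w p) (s : ℕ) :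
    (∀ j, j ≤ 2 → betti (cone w K) p (s + 1) j = betti K p s j) ∧
    betti K p s 3 ≤ betti (cone w K) p (s + 1) 3 ∧
    (betti (cone w K) p (s + 1) 3 = betti K p s 3 ↔ Nondeg K p) := by
  have hg := gen_of_general hK hG
  have htop := betti_top (s := s) hK hw hwK hg
  have hfd : FiniteDimensional ℝ (Nn K w p s 3 ⊓ LinearMap.ker bd : Submodule ℝ _) :=
    Submodule.finiteDimensional_of_le (S₂ := Ch (cone w K) p (s + 1) 3)
      (inf_le_left.trans (Nn_le p s 3))
  refine ⟨fun j hj => betti_low hK hw hwK hg hj, by omega, ?_⟩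
  constructor
  · intro h σ hσ hc
    have h1 : Module.finrank ℝ (Nn K w p s 3 ⊓ LinearMap.ker bd : Submodule ℝ _) = 0 := by omega
    have h2 := Submodule.finrank_eq_zero.mp h1
    exact (indep_iff hK hG hσ hc).mpr (Vs_eq_bot_of hK hw hwK h2 hσ hc)
  · intro h
    have h1 := Z_eq_bot_of (s := s) hw fun σ hσ hc => (indep_iff hK hG hσ hc).mp (h σ hσ hc)
    rw [htop, h1, finrank_bot, add_zero]

end cone

end Pool.Agent.R325.Cof
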