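import Mathlib
import Pool.Agent.R325.CofMain

/-!
# A degenerate configuration
-/

set_option autoImplicit false

namespace Pool.Agent.R325.Cof

open MvPolynomial

/-- the full triangle with vertices `1, 2, 3` -/
def K0 : Finset (Finset (Fin 4)) := ({1, 2, 3} : Finset (Fin 4)).powerset

/-- the three vertices are placed at the origin, the apex `0` at `(1, 0, 0)` -/
noncomputable def p0 : Fin 4 → Fin 3 → ℝ := fun v => if v = 0 then Pi.single 0 1 else 0

theorem K0_complex : IsComplex K0 where
  empty_mem := by simp [K0]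
  down := by
    intro ψ hψ θ hθ
    unfold K0 at *
    rw [Finset.mem_powerset] at *
    exact hθ.trans hψ
  dim := by
    intro ψ hψ
    unfold K0 at hψ
    rw [Finset.mem_powerset] at hψ
    exact (Finset.card_le_card hψ).trans (by decide)

theorem K0_zero : ∀ ψ ∈ K0, (0 : Fin 4) ∉ ψ := by
  intro ψ hψ h
  unfold K0 at hψ
  rw [Finset.mem_powerset] at hψ
  exact absurd (hψ h) (by decide)

theorem p0_general : General K0 0 p0 := by
  intro S hS _ hmem
  have h1 : p0 '' S ⊆ {0} := by
    rintro _ ⟨v, hv, rfl⟩
    have h2 := K0_zero _ (hS v hv)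
    have h3 : v ≠ 0 := by
      rintro rfl
      exact h2 (Finset.mem_singleton_self _)
    simp [p0, h3]
  have h2 := affineSpan_mono ℝ h1 hmem
  rw [AffineSubspace.mem_affineSpan_singleton] at h2
  have h3 := congrFun h2 0
  simp [p0] at h3

theorem K0_not_nondeg : ¬ Nondeg K0 p0 := by
  intro h
  have h1 := h {1, 2, 3} (by simp [K0]) (by decide)
  have h2 := h1.injective (a₁ := ⟨1, by decide⟩) (a₂ := ⟨2, by decide⟩) (by simp [p0])
  have h3 := congrArg (fun x : ({1, 2, 3} : Finset (Fin 4)) => (x : Fin 4)) h2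
  simp at h3

end Pool.Agent.R325.Cof
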