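import Mathlib

/-!
# A 2-adic obstruction for `p(q₀(x)) = q₁(x)² + q₂(x)²`
-/

set_option autoImplicit false

namespace Pool.Agent.R325.CubicTwoSquares

open Polynomial

theorem one_add_sq_norm (u : ℤ_[2]) : (1 : ℝ) / 2 ≤ ‖1 + u ^ 2‖ := by
  by_contra hlt
  push Not at hlt
  have h1 : ‖1 + u ^ 2‖ ≤ ((2 : ℕ) : ℝ) ^ (-(2 : ℕ) : ℤ) := by
    rw [PadicInt.norm_le_pow_iff_norm_lt_pow_add_one]
    norm_num
    linarith
  rw [PadicInt.norm_le_pow_iff_mem_span_pow, ← PadicInt.ker_toZModPow, RingHom.mem_ker] at h1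
  rw [map_add, map_one, map_pow] at h1
  generalize PadicInt.toZModPow 2 u = w at h1
  revert h1
  revert w
  decide

theorem max_norm_le (x y : ℚ_[2]) : max ‖x‖ ‖y‖ ^ 2 ≤ 2 * ‖x ^ 2 + y ^ 2‖ := by
  wlog h : ‖y‖ ≤ ‖x‖ with H
  · have := H y x (le_of_not_ge h)
    rwa [max_comm, add_comm] at this
  rw [max_eq_left h]
  by_cases hx : x = 0
  · subst hx; simp
  have hxn : 0 < ‖x‖ := norm_pos_iff.mpr hx
  have hu : ‖y / x‖ ≤ 1 := by
    rw [norm_div]; exact div_le_one_of_le₀ h hxn.le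
  obtain ⟨u, hu'⟩ : ∃ u : ℤ_[2], (u : ℚ_[2]) = y / x := ⟨⟨y / x, hu⟩, rfl⟩
  have h1 := one_add_sq_norm u
  have h2 : ‖1 + (y / x) ^ 2‖ = ‖1 + u ^ 2‖ := by
    rw [← hu', PadicInt.norm_def]; push_cast; rfl
  have h3 : x ^ 2 + y ^ 2 = x ^ 2 * (1 + (y / x) ^ 2) := by field_simp
  rw [h3, norm_mul, norm_pow, h2]
  nlinarith [pow_pos hxn 2]

theorem norm_two : ‖(2 : ℚ_[2])‖ = 1 / 2 := by
  have := Padic.norm_p (p := 2)
  simpa using this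

theorem norm_three : ‖(3 : ℚ_[2])‖ = 1 := by
  have h : ‖((3 : ℕ) : ℚ_[2])‖ = 1 := by
    rw [Padic.norm_natCast_eq_one_iff]; decide
  simpa using h

/-- The 2-adic part of the argument. -/
theorem two_adic (a b c γ h : ℤ) (hd : (2 : ℤ) ∣ 3 * h ^ 2 + 2 * a * h + b)
    (hp : (h ^ 3 + a * h ^ 2 + b * h + c) % 4 = 3) (t x y z w : ℚ)
    (h1 : t ^ 3 + a * t ^ 2 + b * t + c = x ^ 2 + y ^ 2)
    (h2 : 3 * t ^ 2 + 2 * a * t + b = 2 * (x * z + y * w))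
    (h3 : γ + 2 * t + a = z ^ 2 + w ^ 2) : False := by
  -- cast to `ℚ_[2]`
  have h1' : ((t : ℚ_[2])) ^ 3 + a * t ^ 2 + b * t + c = (x : ℚ_[2]) ^ 2 + (y : ℚ_[2]) ^ 2 := by
    exact_mod_cast congrArg (fun q : ℚ => (q : ℚ_[2])) h1
  have h2' : 3 * (t : ℚ_[2]) ^ 2 + 2 * a * t + b = 2 * (x * z + y * w) := by
    exact_mod_cast congrArg (fun q : ℚ => (q : ℚ_[2])) h2
  have h3' : (γ : ℚ_[2]) + 2 * t + a = (z : ℚ_[2]) ^ 2 + (w : ℚ_[2]) ^ 2 := by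
    exact_mod_cast congrArg (fun q : ℚ => (q : ℚ_[2])) h3
  generalize (t : ℚ_[2]) = T at h1' h2' h3'
  generalize (x : ℚ_[2]) = X at h1' h2' h3'
  generalize (y : ℚ_[2]) = Y at h1' h2' h3'
  generalize (z : ℚ_[2]) = Z at h1' h2' h3'
  generalize (w : ℚ_[2]) = W at h1' h2' h3'
  have ha := Padic.norm_int_le_one (p := 2) a
  have hb := Padic.norm_int_le_one (p := 2) b
  have hc := Padic.norm_int_le_one (p := 2) c
  have hγ := Padic.norm_int_le_one (p := 2) γ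
  have hXY := max_norm_le X Y
  have hZW := max_norm_le Z W
  set M1 := max ‖X‖ ‖Y‖ with hM1
  set M2 := max ‖Z‖ ‖W‖ with hM2
  have hM1n : 0 ≤ M1 := le_max_of_le_left (norm_nonneg _)
  have hM2n : 0 ≤ M2 := le_max_of_le_left (norm_nonneg _)
  -- the inner product bound
  have hin : ‖X * Z + Y * W‖ ≤ M1 * M2 := by
    refine (Padic.nonarchimedean _ _).trans (max_le ?_ ?_)
    · rw [norm_mul]
      exact mul_le_mul (le_max_left _ _) (le_max_left _ _) (norm_nonneg _) hM1n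
    · rw [norm_mul]
      exact mul_le_mul (le_max_right _ _) (le_max_right _ _) (norm_nonneg _) hM1n
  have hin2 : ‖3 * T ^ 2 + 2 * a * T + b‖ ≤ M1 * M2 / 2 := by
    rw [h2', norm_mul, norm_two]; linarith
  -- the square of the inequality
  have hsq : ‖3 * T ^ 2 + 2 * a * T + b‖ ^ 2 ≤ ‖T ^ 3 + a * T ^ 2 + b * T + c‖ *
      ‖(γ : ℚ_[2]) + 2 * T + a‖ := by
    rw [h1', h3']
    have e1 : ‖3 * T ^ 2 + 2 * a * T + b‖ ^ 2 ≤ (M1 * M2 / 2) ^ 2 :=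
      pow_le_pow_left₀ (norm_nonneg _) hin2 2
    have e2 : (M1 * M2 / 2) ^ 2 = (M1 ^ 2 / 2) * (M2 ^ 2 / 2) := by ring
    rw [e2] at e1
    refine e1.trans (mul_le_mul (by linarith) (by linarith) (by positivity) (norm_nonneg _))
  -- `T` is a 2-adic integer
  have hT : ‖T‖ ≤ 1 := by
    by_contra hlt
    push Not at hlt
    have hT2 : 2 ≤ ‖T‖ := by
      by_contra h5
      push Not at h5
      have h6 : ‖T‖ < ((2 : ℕ) : ℝ) ^ ((0 : ℤ) + 1) := by norm_num; exact h5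
      rw [← Padic.norm_le_pow_iff_norm_lt_pow_add_one] at h6
      norm_num at h6
      linarith
    have hTpos : 0 < ‖T‖ := by linarith
    have n2 : ‖3 * T ^ 2 + 2 * a * T + b‖ = ‖T‖ ^ 2 := by
      have e1 : ‖3 * T ^ 2‖ = ‖T‖ ^ 2 := by rw [norm_mul, norm_three, norm_pow, one_mul]
      have e2 : ‖2 * a * T + b‖ < ‖T‖ ^ 2 := by
        refine lt_of_le_of_lt (Padic.nonarchimedean _ _) (max_lt ?_ ?_)
        · rw [norm_mul, norm_mul, norm_two]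
          have : ‖(a : ℚ_[2])‖ * ‖T‖ ≤ 1 * ‖T‖ := mul_le_mul_of_nonneg_right ha hTpos.le
          nlinarith
        · nlinarith
      rw [add_assoc, Padic.add_eq_max_of_ne (by rw [e1]; exact e2.ne'), e1,
        max_eq_left e2.le]
    have n1 : ‖T ^ 3 + a * T ^ 2 + b * T + c‖ ≤ ‖T‖ ^ 3 := by
      have hT1 : 1 ≤ ‖T‖ := hlt.le
      refine (Padic.nonarchimedean _ _).trans (max_le ?_ ?_)
      · refine (Padic.nonarchimedean _ _).trans (max_le ?_ ?_)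
        · refine (Padic.nonarchimedean _ _).trans (max_le ?_ ?_)
          · rw [norm_pow]
          · rw [norm_mul, norm_pow]
            have e1 : ‖(a : ℚ_[2])‖ * ‖T‖ ^ 2 ≤ 1 * ‖T‖ ^ 2 :=
              mul_le_mul_of_nonneg_right ha (by positivity)
            have e2 : ‖T‖ ^ 2 ≤ ‖T‖ ^ 3 := pow_le_pow_right₀ hT1 (by norm_num)
            linarith
        · rw [norm_mul]
          have e1 : ‖(b : ℚ_[2])‖ * ‖T‖ ≤ 1 * ‖T‖ := mul_le_mul_of_nonneg_right hb hTpos.le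
          have e2 : ‖T‖ ^ 1 ≤ ‖T‖ ^ 3 := pow_le_pow_right₀ hT1 (by norm_num)
          rw [pow_one] at e2
          linarith
      · have e2 : ‖T‖ ^ 0 ≤ ‖T‖ ^ 3 := pow_le_pow_right₀ hT1 (by norm_num)
        rw [pow_zero] at e2
        linarith
    have n3 : ‖(γ : ℚ_[2]) + 2 * T + a‖ ≤ ‖T‖ / 2 := by
      refine (Padic.nonarchimedean _ _).trans (max_le ?_ (by linarith))
      refine (Padic.nonarchimedean _ _).trans (max_le (by linarith) ?_)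
      rw [norm_mul, norm_two]; linarith
    rw [n2] at hsq
    have h7 : (‖T‖ ^ 2) ^ 2 ≤ ‖T‖ ^ 3 * (‖T‖ / 2) :=
      hsq.trans (mul_le_mul n1 n3 (norm_nonneg _) (by positivity))
    have h8 : 0 < ‖T‖ ^ 4 := by positivity
    nlinarith
  obtain ⟨τ, rfl⟩ : ∃ τ : ℤ_[2], (τ : ℚ_[2]) = T := ⟨⟨T, hT⟩, rfl⟩
  have norm_int : ∀ s : ℤ_[2], ‖(s : ℚ_[2])‖ ≤ 1 := fun s => PadicInt.norm_le_one s
  -- everything is a 2-adic integer
  have small : ∀ m : ℝ, 0 ≤ m → m ^ 2 ≤ 2 → m < 2 := by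
    intro m hm h; nlinarith
  have toInt : ∀ s : ℚ_[2], ‖s‖ < 2 → ‖s‖ ≤ 1 := by
    intro s hs
    have h6 : ‖s‖ < ((2 : ℕ) : ℝ) ^ ((0 : ℤ) + 1) := by norm_num; exact hs
    rw [← Padic.norm_le_pow_iff_norm_lt_pow_add_one] at h6
    simpa using h6
  have hl1 : ‖X ^ 2 + Y ^ 2‖ ≤ 1 := by
    rw [← h1']
    have := norm_int (τ ^ 3 + a * τ ^ 2 + b * τ + c)
    push_cast at this
    exact this
  have hl3 : ‖Z ^ 2 + W ^ 2‖ ≤ 1 := by
    rw [← h3']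
    have := norm_int (γ + 2 * τ + a)
    push_cast at this
    exact this
  have hM1' : M1 < 2 := small M1 hM1n (by linarith)
  have hM2' : M2 < 2 := small M2 hM2n (by linarith)
  obtain ⟨X', rfl⟩ : ∃ s : ℤ_[2], (s : ℚ_[2]) = X :=
    ⟨⟨X, toInt X (lt_of_le_of_lt (le_max_left _ _) hM1')⟩, rfl⟩
  obtain ⟨Y', rfl⟩ : ∃ s : ℤ_[2], (s : ℚ_[2]) = Y :=
    ⟨⟨Y, toInt Y (lt_of_le_of_lt (le_max_right _ _) hM1')⟩, rfl⟩
  obtain ⟨Z', rfl⟩ : ∃ s : ℤ_[2], (s : ℚ_[2]) = Z :=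
    ⟨⟨Z, toInt Z (lt_of_le_of_lt (le_max_left _ _) hM2')⟩, rfl⟩
  obtain ⟨W', rfl⟩ : ∃ s : ℤ_[2], (s : ℚ_[2]) = W :=
    ⟨⟨W, toInt W (lt_of_le_of_lt (le_max_right _ _) hM2')⟩, rfl⟩
  have k1 : τ ^ 3 + a * τ ^ 2 + b * τ + c = X' ^ 2 + Y' ^ 2 := by
    apply Subtype.coe_injective
    push_cast
    exact h1'
  have k2 : 3 * τ ^ 2 + 2 * a * τ + b = 2 * (X' * Z' + Y' * W') := by
    apply Subtype.coe_injective
    push_cast
    exact h2'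
  -- reduce modulo 4
  have m1 := congrArg (PadicInt.toZModPow 2) k1
  have m2 := congrArg (PadicInt.toZModPow 2) k2
  simp only [map_add, map_mul, map_pow, map_intCast, map_ofNat] at m1 m2
  generalize PadicInt.toZModPow 2 τ = τ₀ at m1 m2
  generalize PadicInt.toZModPow 2 X' = X₀ at m1 m2
  generalize PadicInt.toZModPow 2 Y' = Y₀ at m1 m2
  generalize PadicInt.toZModPow 2 Z' = Z₀ at m1 m2
  generalize PadicInt.toZModPow 2 W' = W₀ at m1 m2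
  have hd' : ∃ s : ZMod (2 ^ 2), 3 * (h : ZMod (2 ^ 2)) ^ 2 + 2 * (a : ZMod (2 ^ 2)) * (h : ZMod (2 ^ 2)) +
      (b : ZMod (2 ^ 2)) = 2 * s := by
    obtain ⟨s, hs⟩ := hd
    refine ⟨(s : ZMod (2 ^ 2)), ?_⟩
    have := congrArg (fun q : ℤ => (q : ZMod (2 ^ 2))) hs
    push_cast at this
    exact this
  have hp' : (h : ZMod (2 ^ 2)) ^ 3 + (a : ZMod (2 ^ 2)) * (h : ZMod (2 ^ 2)) ^ 2 +
      (b : ZMod (2 ^ 2)) * (h : ZMod (2 ^ 2)) + (c : ZMod (2 ^ 2)) = 3 := by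
    have h5 : ((h ^ 3 + a * h ^ 2 + b * h + c : ℤ) : ZMod (2 ^ 2)) = ((3 : ℤ) : ZMod (2 ^ 2)) := by
      rw [ZMod.intCast_eq_intCast_iff']
      norm_num
      exact hp
    push_cast at h5
    exact h5
  obtain ⟨s, hs⟩ := hd'
  generalize (h : ZMod (2 ^ 2)) = h₀ at hs hp'
  generalize (a : ZMod (2 ^ 2)) = a₀ at hs hp' m1 m2
  generalize (b : ZMod (2 ^ 2)) = b₀ at hs hp' m1 m2
  generalize (c : ZMod (2 ^ 2)) = c₀ at hs hp' m1 m2
  generalize X₀ * Z₀ + Y₀ * W₀ = u₀ at m2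
  have hb₀ : b₀ = 2 * s - (3 * h₀ ^ 2 + 2 * a₀ * h₀) := by rw [← hs]; ring
  have hc₀ : c₀ = 3 - (h₀ ^ 3 + a₀ * h₀ ^ 2 + b₀ * h₀) := by rw [← hp']; ring
  rw [hc₀, hb₀] at m1
  rw [hb₀] at m2
  have fin2 : ∀ X₀ Y₀ : ZMod (2 ^ 2), X₀ ^ 2 + Y₀ ^ 2 = 0 ∨ X₀ ^ 2 + Y₀ ^ 2 = 1 ∨
      X₀ ^ 2 + Y₀ ^ 2 = 2 := by decide
  have fin3 : X₀ ^ 2 + Y₀ ^ 2 ≠ 3 := by
    clear m1 m2
    revert X₀ Y₀
    decide
  rw [← m1] at fin3
  clear m1 fin2 hb₀ hc₀ hp' hs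
  revert m2 fin3
  clear * -
  revert h₀ a₀ s τ₀ u₀
  decide

theorem coeffs6 (k0 k1 k2 k3 k4 k5 k6 : ℚ)
    (h : (C k6 * X ^ 6 + C k5 * X ^ 5 + C k4 * X ^ 4 + C k3 * X ^ 3 + C k2 * X ^ 2 + C k1 * X +
      C k0 : ℚ[X]) = 0) :
    k6 = 0 ∧ k5 = 0 ∧ k4 = 0 ∧ k3 = 0 ∧ k2 = 0 ∧ k1 = 0 ∧ k0 = 0 := by
  refine ⟨?_, ?_, ?_, ?_, ?_, ?_, ?_⟩
  · simpa [coeff_X, coeff_C] using congrArg (fun p => p.coeff 6) h
  · simpa [coeff_X, coeff_C] using congrArg (fun p => p.coeff 5) h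
  · simpa [coeff_X, coeff_C] using congrArg (fun p => p.coeff 4) h
  · simpa [coeff_X, coeff_C] using congrArg (fun p => p.coeff 3) h
  · simpa [coeff_X, coeff_C] using congrArg (fun p => p.coeff 2) h
  · simpa [coeff_X, coeff_C] using congrArg (fun p => p.coeff 1) h
  · simpa [coeff_X, coeff_C] using congrArg (fun p => p.coeff 0) h

/-- The scalar core. -/
theorem core (a b c : ℚ) (P : ℚ[X]) (hP : P = X ^ 3 + C a * X ^ 2 + C b * X + C c)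
    (hirr : Irreducible P)
    (α c' a0 a1 a2 a3 b0 b1 b2 b3 : ℚ) (hα : α ≠ 0) (ha3 : a3 ≠ 0)
    (h6 : α ^ 3 = a3 ^ 2 + b3 ^ 2)
    (h5 : a2 * a3 + b2 * b3 = 0)
    (h4 : 3 * α ^ 2 * c' + a * α ^ 2 = a2 ^ 2 + 2 * a1 * a3 + b2 ^ 2 + 2 * b1 * b3)
    (h3 : a0 * a3 + a1 * a2 + b0 * b3 + b1 * b2 = 0)
    (h2 : 3 * α * c' ^ 2 + 2 * a * α * c' + b * α = a1 ^ 2 + 2 * a0 * a2 + b1 ^ 2 + 2 * b0 * b2)
    (h1 : a0 * a1 + b0 * b1 = 0)
    (h0 : c' ^ 3 + a * c' ^ 2 + b * c' + c = a0 ^ 2 + b0 ^ 2) :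
    ∃ t v l : ℚ, t ^ 3 + a * t ^ 2 + b * t + c = α * v ^ 2 ∧
      3 * t ^ 2 + 2 * a * t + b = 2 * α * l * v ∧ a + 2 * t + c' = α * l ^ 2 := by
  obtain ⟨s, hs⟩ : ∃ s : ℚ, s * α = 1 := ⟨α⁻¹, inv_mul_cancel₀ hα⟩
  have hs0 : s ≠ 0 := by rintro rfl; simp at hs
  -- the polynomials in the variable `T = q₀`
  set Zp : ℚ[X] := C s * (X - C c') with hZp
  set E1 : ℚ[X] := C a0 + C a2 * Zp with hE1
  set O1 : ℚ[X] := C a1 + C a3 * Zp with hO1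
  set E2 : ℚ[X] := C b0 + C b2 * Zp with hE2
  set O2 : ℚ[X] := C b1 + C b3 * Zp with hO2
  have horth : E1 * O1 + E2 * O2 = 0 := by
    have : E1 * O1 + E2 * O2 = C (a2 * a3 + b2 * b3) * Zp ^ 2 +
        C (a0 * a3 + a1 * a2 + b0 * b3 + b1 * b2) * Zp + C (a0 * a1 + b0 * b1) := by
      simp only [hE1, hO1, hE2, hO2, map_add, map_mul]
      ring
    rw [this, h5, h3, h1]
    simp
  have hPQ : P = E1 ^ 2 + E2 ^ 2 + Zp * (O1 ^ 2 + O2 ^ 2) := by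
    have e1 : E1 ^ 2 + E2 ^ 2 + Zp * (O1 ^ 2 + O2 ^ 2) = C (a3 ^ 2 + b3 ^ 2) * Zp ^ 3 +
        C (a2 ^ 2 + 2 * a1 * a3 + b2 ^ 2 + 2 * b1 * b3) * Zp ^ 2 +
        C (a1 ^ 2 + 2 * a0 * a2 + b1 ^ 2 + 2 * b0 * b2) * Zp + C (a0 ^ 2 + b0 ^ 2) := by
      simp only [hE1, hO1, hE2, hO2, map_add, map_mul, map_pow, map_ofNat]
      ring
    rw [e1, ← h6, ← h4, ← h2, ← h0, hP]
    have hX : (X : ℚ[X]) = C α * Zp + C c' := by
      rw [hZp, ← mul_assoc, ← C_mul, mul_comm α s, hs]; simp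
    have e2 : ∀ Y : ℚ[X], (X : ℚ[X]) = C α * Y + C c' → X ^ 3 + C a * X ^ 2 + C b * X + C c =
        C (α ^ 3) * Y ^ 3 + C (3 * α ^ 2 * c' + a * α ^ 2) * Y ^ 2 +
        C (3 * α * c' ^ 2 + 2 * a * α * c' + b * α) * Y + C (c' ^ 3 + a * c' ^ 2 + b * c' + c) := by
      intro Y hY
      rw [hY]
      simp only [map_add, map_mul, map_pow, map_ofNat]
      ring
    exact e2 Zp hX
  have hkey : O1 ^ 2 * P = (O1 ^ 2 + O2 ^ 2) * (E2 ^ 2 + Zp * O1 ^ 2) := by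
    have e1 : E1 * O1 = -(E2 * O2) := by linear_combination horth
    have e2 : (E1 * O1) ^ 2 = (E2 * O2) ^ 2 := by rw [e1]; ring
    rw [hPQ]
    linear_combination e2
  have hprime : Prime P := hirr.prime
  have hPm : P.Monic := by rw [hP]; monicity!
  have hPd : P.natDegree = 3 := by rw [hP]; compute_degree!
  -- explicit form of `O1^2+O2^2` and `E2^2+Z O1^2`
  have hS : O1 ^ 2 + O2 ^ 2 = C (s ^ 2 * (a3 ^ 2 + b3 ^ 2)) * X ^ 2 +
      C (2 * s * (a3 * (a1 - a3 * s * c') + b3 * (b1 - b3 * s * c'))) * X +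
      C ((a1 - a3 * s * c') ^ 2 + (b1 - b3 * s * c') ^ 2) := by
    simp only [hZp, hO1, hO2, map_add, map_mul, map_pow, map_ofNat, map_sub]
    ring
  have hF : E2 ^ 2 + Zp * O1 ^ 2 = C (s ^ 3 * a3 ^ 2) * X ^ 3 +
      C (b2 ^ 2 * s ^ 2 + 2 * s ^ 2 * a3 * (a1 - a3 * s * c') - s ^ 3 * c' * a3 ^ 2) * X ^ 2 +
      C (2 * (b0 - b2 * s * c') * b2 * s + s * (a1 - a3 * s * c') ^ 2 -
        2 * s ^ 2 * c' * a3 * (a1 - a3 * s * c')) * X +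
      C ((b0 - b2 * s * c') ^ 2 - s * c' * (a1 - a3 * s * c') ^ 2) := by
    simp only [hZp, hO1, hE2, map_add, map_mul, map_pow, map_ofNat, map_sub]
    ring
  have hSne : O1 ^ 2 + O2 ^ 2 ≠ 0 := by
    intro h
    rw [hS] at h
    have h' : (C 0 * X ^ 6 + C 0 * X ^ 5 + C 0 * X ^ 4 + C 0 * X ^ 3 +
      C (s ^ 2 * (a3 ^ 2 + b3 ^ 2)) * X ^ 2 +
      C (2 * s * (a3 * (a1 - a3 * s * c') + b3 * (b1 - b3 * s * c'))) * X +
      C ((a1 - a3 * s * c') ^ 2 + (b1 - b3 * s * c') ^ 2) : ℚ[X]) = 0 := by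
      rw [← h]; simp only [map_zero]; ring
    obtain ⟨-, -, -, -, q2, -, -⟩ := coeffs6 _ _ _ _ _ _ _ h'
    rw [← h6] at q2
    have : s ^ 2 * α ^ 3 ≠ 0 := by positivity
    exact this q2
  have hSdeg : (O1 ^ 2 + O2 ^ 2).natDegree ≤ 2 := by
    rw [hS]; compute_degree
  have hFdeg : (E2 ^ 2 + Zp * O1 ^ 2).natDegree ≤ 3 := by
    rw [hF]; compute_degree
  have hdvd : P ∣ E2 ^ 2 + Zp * O1 ^ 2 := by
    have h : P ∣ (O1 ^ 2 + O2 ^ 2) * (E2 ^ 2 + Zp * O1 ^ 2) := ⟨O1 ^ 2, by rw [← hkey]; ring⟩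
    rcases hprime.dvd_or_dvd h with h | h
    · exfalso
      have := Polynomial.natDegree_le_of_dvd h hSne
      omega
    · exact h
  obtain ⟨G, hG⟩ := hdvd
  have hGd : G.natDegree = 0 := by
    by_cases hG0 : G = 0
    · rw [hG0]; simp
    · have := hPm.natDegree_mul' hG0
      rw [← hG] at this
      omega
  obtain ⟨k, hk⟩ : ∃ k : ℚ, G = C k := ⟨G.coeff 0, eq_C_of_natDegree_eq_zero hGd⟩
  rw [hk, hF, hP] at hG
  have hG' : (C 0 * X ^ 6 + C 0 * X ^ 5 + C 0 * X ^ 4 + C (s ^ 3 * a3 ^ 2 - k) * X ^ 3 +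
      C (b2 ^ 2 * s ^ 2 + 2 * s ^ 2 * a3 * (a1 - a3 * s * c') - s ^ 3 * c' * a3 ^ 2 - a * k) * X ^ 2 +
      C (2 * (b0 - b2 * s * c') * b2 * s + s * (a1 - a3 * s * c') ^ 2 -
        2 * s ^ 2 * c' * a3 * (a1 - a3 * s * c') - b * k) * X +
      C ((b0 - b2 * s * c') ^ 2 - s * c' * (a1 - a3 * s * c') ^ 2 - c * k) : ℚ[X]) = 0 := by
    simp only [map_add, map_mul, map_pow, map_ofNat, map_sub, map_zero] at hG ⊢
    linear_combination hG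
  obtain ⟨-, -, -, g3, g2, g1, g0⟩ := coeffs6 _ _ _ _ _ _ _ hG'
  have hk' : k = s ^ 3 * a3 ^ 2 := by linarith
  subst hk'
  have hsv : s = 1 / α := by field_simp; linarith
  subst hsv
  field_simp at g0 g1 g2
  have ha : a = (b2 ^ 2 * α + a3 * (α * a1 - c' * a3) * 2 - c' * a3 ^ 2) / a3 ^ 2 := by
    field_simp; linarith
  have hb : b = (b2 * α * (b0 * α - b2 * c') * 2 + (α * a1 - c' * a3) ^ 2 -
      c' * a3 * (α * a1 - c' * a3) * 2) / a3 ^ 2 := by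
    field_simp; linarith
  have hc : c = (α * (b0 * α - b2 * c') ^ 2 - c' * (α * a1 - c' * a3) ^ 2) / a3 ^ 2 := by
    field_simp; linarith
  refine ⟨c' - α * a1 / a3, α * (b0 - b2 * a1 / a3) / a3, b2 / a3, ?_, ?_, ?_⟩
  · rw [ha, hb, hc]; field_simp; ring
  · rw [ha, hb]; field_simp; ring
  · rw [ha]; field_simp; ring


theorem final_alg (a b c γ h : ℤ) (hd : (2 : ℤ) ∣ 3 * h ^ 2 + 2 * a * h + b)
    (hp : (h ^ 3 + a * h ^ 2 + b * h + c) % 4 = 3)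
    (hirr : Irreducible (X ^ 3 + C (a : ℚ) * X ^ 2 + C (b : ℚ) * X + C (c : ℚ) : ℚ[X]))
    (α η c' a0 a1 a2 a3 b0 b1 b2 b3 : ℚ) (hα : α ≠ 0) (hc' : c' = γ - α * η ^ 2)
    (H : (C α * X ^ 2 + C c') ^ 3 + C (a : ℚ) * (C α * X ^ 2 + C c') ^ 2 +
      C (b : ℚ) * (C α * X ^ 2 + C c') + C (c : ℚ) =
      (C a0 + C a1 * X + C a2 * X ^ 2 + C a3 * X ^ 3) ^ 2 +
      (C b0 + C b1 * X + C b2 * X ^ 2 + C b3 * X ^ 3 : ℚ[X]) ^ 2) : False := by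
  have H' : (C (α ^ 3 - (a3 ^ 2 + b3 ^ 2)) * X ^ 6 + C (-2 * (a2 * a3 + b2 * b3)) * X ^ 5 +
      C (3 * α ^ 2 * c' + a * α ^ 2 - (a2 ^ 2 + 2 * a1 * a3 + b2 ^ 2 + 2 * b1 * b3)) * X ^ 4 +
      C (-2 * (a0 * a3 + a1 * a2 + b0 * b3 + b1 * b2)) * X ^ 3 +
      C (3 * α * c' ^ 2 + 2 * a * α * c' + b * α -
        (a1 ^ 2 + 2 * a0 * a2 + b1 ^ 2 + 2 * b0 * b2)) * X ^ 2 +
      C (-2 * (a0 * a1 + b0 * b1)) * X +
      C (c' ^ 3 + a * c' ^ 2 + b * c' + c - (a0 ^ 2 + b0 ^ 2)) : ℚ[X]) = 0 := by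
    simp only [map_add, map_mul, map_pow, map_ofNat, map_sub, map_neg]
    linear_combination H
  obtain ⟨h6, h5, h4, h3, h2, h1, h0⟩ := coeffs6 _ _ _ _ _ _ _ H'
  have main : ∃ t v l : ℚ, t ^ 3 + a * t ^ 2 + b * t + c = α * v ^ 2 ∧
      3 * t ^ 2 + 2 * a * t + b = 2 * α * l * v ∧ a + 2 * t + c' = α * l ^ 2 := by
    by_cases ha3 : a3 = 0
    · have hb3 : b3 ≠ 0 := by
        rintro rfl
        subst ha3
        have : α ^ 3 = 0 := by linarith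
        exact hα (by simpa using this)
      exact core a b c _ rfl hirr α c' b0 b1 b2 b3 a0 a1 a2 a3 hα hb3 (by linarith) (by linarith)
        (by linarith) (by linarith) (by linarith) (by linarith) (by linarith)
    · exact core a b c _ rfl hirr α c' a0 a1 a2 a3 b0 b1 b2 b3 hα ha3 (by linarith) (by linarith)
        (by linarith) (by linarith) (by linarith) (by linarith) (by linarith)
  obtain ⟨t, v, l, m1, m2, m3⟩ := main
  -- `α` is a sum of two squares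
  obtain ⟨A, B, hAB⟩ : ∃ A B : ℚ, α = A ^ 2 + B ^ 2 := by
    refine ⟨a3 / α, b3 / α, ?_⟩
    field_simp
    linarith
  refine two_adic a b c γ h hd hp t (A * v) (B * v) (A * l - B * η) (A * η + B * l) ?_ ?_ ?_
  · rw [m1, hAB]; ring
  · rw [m2, hAB]; ring
  · have : (γ : ℚ) + 2 * t + a = α * l ^ 2 + α * η ^ 2 := by rw [← m3, hc']; ring
    rw [this, hAB]; ring

theorem natDegree_le_three_of_sum_sq (R Q1 Q2 : ℚ[X]) (hR : R.natDegree ≤ 6)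
    (h : R = Q1 ^ 2 + Q2 ^ 2) : Q1.natDegree ≤ 3 ∧ Q2.natDegree ≤ 3 := by
  by_contra hcon
  set d := max Q1.natDegree Q2.natDegree with hd
  have hd4 : 4 ≤ d := by
    by_contra hlt
    push Not at hlt
    apply hcon
    constructor
    · have := le_max_left Q1.natDegree Q2.natDegree
      omega
    · have := le_max_right Q1.natDegree Q2.natDegree
      omega
  have e1 : (Q1 ^ 2).coeff (2 * d) = Q1.coeff d ^ 2 :=
    coeff_pow_of_natDegree_le (le_max_left _ _)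
  have e2 : (Q2 ^ 2).coeff (2 * d) = Q2.coeff d ^ 2 :=
    coeff_pow_of_natDegree_le (le_max_right _ _)
  have e3 : R.coeff (2 * d) = 0 := coeff_eq_zero_of_natDegree_lt (by omega)
  rw [h, coeff_add, e1, e2] at e3
  have f1 : Q1.coeff d = 0 := by nlinarith [sq_nonneg (Q1.coeff d), sq_nonneg (Q2.coeff d)]
  have f2 : Q2.coeff d = 0 := by nlinarith [sq_nonneg (Q1.coeff d), sq_nonneg (Q2.coeff d)]
  rcases max_choice Q1.natDegree Q2.natDegree with h' | h'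
  · rw [← hd] at h'
    rw [h', ← leadingCoeff, leadingCoeff_eq_zero] at f1
    rw [f1] at h'
    simp at h'
    omega
  · rw [← hd] at h'
    rw [h', ← leadingCoeff, leadingCoeff_eq_zero] at f2
    rw [f2] at h'
    simp at h'
    omega

theorem cubic_form (Q : ℚ[X]) (h : Q.natDegree ≤ 3) :
    Q = C (Q.coeff 0) + C (Q.coeff 1) * X + C (Q.coeff 2) * X ^ 2 + C (Q.coeff 3) * X ^ 3 := by
  conv_lhs => rw [Q.as_sum_range_C_mul_X_pow' (n := 4) (by omega)]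
  simp [Finset.sum_range_succ]

theorem quadratic_form (Q : ℚ[X]) (h : Q.natDegree ≤ 2) :
    Q = C (Q.coeff 0) + C (Q.coeff 1) * X + C (Q.coeff 2) * X ^ 2 := by
  conv_lhs => rw [Q.as_sum_range_C_mul_X_pow' (n := 3) (by omega)]
  simp [Finset.sum_range_succ]

/-- The obstruction. -/
theorem no_identity (p : ℤ[X]) (hm : p.Monic) (h3 : p.natDegree = 3) (hirr : Irreducible p)
    (h : ℤ) (hd : 2 ∣ p.derivative.eval h) (hp : p.eval h % 4 = 3) (q₀ q₁ q₂ : ℚ[X])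
    (hq0 : q₀.natDegree = 2) (hint : ∃ m : ℤ, q₀.eval 0 = m)
    (H : (p.map (Int.castRingHom ℚ)).comp q₀ = q₁ ^ 2 + q₂ ^ 2) : False := by
  set a := p.coeff 2 with ha
  set b := p.coeff 1 with hb
  set c := p.coeff 0 with hc
  have hpf : p = X ^ 3 + C a * X ^ 2 + C b * X + C c := by
    have e := p.as_sum_range_C_mul_X_pow' (n := 4) (by omega)
    have e3 : p.coeff 3 = 1 := by rw [← h3]; exact hm
    simp only [Finset.sum_range_succ, Finset.sum_range_zero, e3] at e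
    rw [e, ha, hb, hc]
    simp
    ring
  have hPf : p.map (Int.castRingHom ℚ) =
      X ^ 3 + C (a : ℚ) * X ^ 2 + C (b : ℚ) * X + C (c : ℚ) := by
    rw [hpf]
    simp
  have hPirr : Irreducible (p.map (Int.castRingHom ℚ)) :=
    (hm.irreducible_iff_irreducible_map_fraction_map (K := ℚ)).mp hirr
  rw [hPf] at hPirr H
  obtain ⟨γ, hγ⟩ := hint
  have hγ' : q₀.coeff 0 = γ := by rw [coeff_zero_eq_eval_zero]; simpa using hγ
  have hα : q₀.coeff 2 ≠ 0 := by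
    rw [← hq0, ← leadingCoeff, Ne, leadingCoeff_eq_zero]
    rintro rfl
    simp at hq0
  set α := q₀.coeff 2 with hαdef
  set β := q₀.coeff 1 with hβdef
  have hq0f : q₀ = C (γ : ℚ) + C β * X + C α * X ^ 2 := by
    have := quadratic_form q₀ hq0.le
    rw [hγ'] at this
    exact this
  set η : ℚ := β / (2 * α) with hη
  have hηβ : β = 2 * α * η := by rw [hη]; field_simp
  have hcomp0 : q₀.comp (X - C η) = C α * X ^ 2 + C (γ - α * η ^ 2) := by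
    rw [hq0f, hηβ]
    simp only [add_comp, mul_comp, C_comp, X_comp, pow_comp, map_sub, map_mul, map_pow,
      map_ofNat, ofNat_comp]
    ring
  have H2 := congrArg (fun r : ℚ[X] => r.comp (X - C η)) H
  simp only [add_comp, pow_comp, mul_comp, X_comp, C_comp] at H2
  rw [hcomp0] at H2
  have hR : ((C α * X ^ 2 + C (γ - α * η ^ 2)) ^ 3 + C (a : ℚ) * (C α * X ^ 2 + C (γ - α * η ^ 2)) ^ 2 +
      C (b : ℚ) * (C α * X ^ 2 + C (γ - α * η ^ 2)) + C (c : ℚ) : ℚ[X]).natDegree ≤ 6 := by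
    compute_degree
  obtain ⟨d1, d2⟩ := natDegree_le_three_of_sum_sq _ _ _ hR H2
  rw [cubic_form _ d1, cubic_form _ d2] at H2
  refine final_alg a b c γ h ?_ ?_ hPirr α η _ _ _ _ _ _ _ _ _ hα rfl H2
  · rw [hpf] at hd
    simp at hd
    convert hd using 1
    ring
  · rw [hpf] at hp
    simpa using hp

end Pool.Agent.R325.CubicTwoSquares
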