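import Mathlib

namespace Pool.Agent.R325.DP

/-- `X` is a `d`-distance dominating set: every vertex outside `X` is at distance at most `d`
from some vertex of `X`. -/
def IsDom {V : Type} (G : SimpleGraph V) (d : ℕ) (X : Finset V) : Prop :=
  ∀ u, u ∉ X → ∃ x ∈ X, G.dist u x ≤ d

/-- `X` is a `p`-packing: distinct vertices of `X` are at distance at least `p + 1`. -/
def IsPacking {V : Type} (G : SimpleGraph V) (p : ℕ) (X : Finset V) : Prop :=
  ∀ u ∈ X, ∀ v ∈ X, u ≠ v → p + 1 ≤ G.dist u v

/-- The `d`-distance `p`-packing domination number (for trees and `p ≤ d`, when the set of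
sizes is nonempty). -/
noncomputable def gamma {V : Type} (G : SimpleGraph V) (d p : ℕ) : ℕ :=
  sInf {k | ∃ X : Finset V, IsDom G d X ∧ IsPacking G p X ∧ X.card = k}

end Pool.Agent.R325.DP
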