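import Mathlib

namespace Pool.Agent.R325.DP

open SimpleGraph

section Par

variable {V : Type} (r : V) (par : V → V) (dep : V → ℕ)

/-- the graph of a parent function -/
def parGraph : SimpleGraph V where
  Adj x y := x ≠ y ∧ ((x ≠ r ∧ par x = y) ∨ (y ≠ r ∧ par y = x))
  symm := ⟨fun _ _ h => ⟨h.1.symm, h.2.symm⟩⟩
  loopless := ⟨fun _ h => h.1 rfl⟩

variable {r par dep}

lemma adj_par (hdep : ∀ x, x ≠ r → dep x = dep (par x) + 1) {x : V} (hx : x ≠ r) :
    (parGraph r par).Adj x (par x) := by
  refine ⟨?_, Or.inl ⟨hx, rfl⟩⟩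
  intro h
  have := hdep x hx
  rw [← h] at this
  omega

lemma reach (hdep : ∀ x, x ≠ r → dep x = dep (par x) + 1) :
    ∀ n x, dep x = n → ∃ p : (parGraph r par).Walk x r, p.length ≤ n := by
  intro n
  induction n with
  | zero =>
    intro x hx
    have : x = r := by
      by_contra h
      have := hdep x h
      omega
    subst this
    exact ⟨Walk.nil, le_rfl⟩
  | succ n ih =>
    intro x hx
    by_cases h : x = r
    · subst h
      exact ⟨Walk.nil, by simp⟩
    · have h1 := hdep x h
      obtain ⟨p, hp⟩ := ih (par x) (by omega)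
      exact ⟨Walk.cons (adj_par hdep h) p, by rw [Walk.length_cons]; omega⟩

lemma conn (hdep : ∀ x, x ≠ r → dep x = dep (par x) + 1) : (parGraph r par).Connected := by
  rw [connected_iff_exists_forall_reachable]
  refine ⟨r, fun x => ?_⟩
  obtain ⟨p, _⟩ := reach hdep (dep x) x rfl
  exact p.reachable.symm

lemma dist_root_le (hdep : ∀ x, x ≠ r → dep x = dep (par x) + 1) (x : V) :
    (parGraph r par).dist x r ≤ dep x := by
  obtain ⟨p, hp⟩ := reach hdep (dep x) x rfl
  exact (dist_le p).trans hp

lemma isTree_parGraph [Finite V] (hdep : ∀ x, x ≠ r → dep x = dep (par x) + 1) :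
    (parGraph r par).IsTree := by
  rw [isTree_iff_connected_and_card]
  refine ⟨conn hdep, ?_⟩
  have e : {x : V // x ≠ r} ≃ (parGraph r par).edgeSet := by
    refine Equiv.ofBijective (fun x => ⟨s(x.1, par x.1), adj_par hdep x.2⟩) ⟨?_, ?_⟩
    · intro x y hxy
      have h := congrArg Subtype.val hxy
      simp only [Sym2.eq_iff] at h
      rcases h with ⟨h, _⟩ | ⟨h1, h2⟩
      · exact Subtype.ext h
      · have h3 := hdep x x.2
        have h4 := hdep y y.2
        rw [h2] at h3
        rw [← h1] at h4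
        omega
    · rintro ⟨e, he⟩
      induction e using Sym2.ind with
      | _ x y =>
        rw [mem_edgeSet] at he
        rcases he.2 with ⟨h1, h2⟩ | ⟨h1, h2⟩
        · exact ⟨⟨x, h1⟩, Subtype.ext (by simp only [h2])⟩
        · exact ⟨⟨y, h1⟩, Subtype.ext (by simp only [h2]; exact Sym2.eq_swap)⟩
  rw [← Nat.card_congr e]
  have := Fintype.ofFinite V
  classical
  rw [Nat.card_eq_fintype_card, Nat.card_eq_fintype_card, Fintype.card_subtype_compl,
    Fintype.card_subtype_eq]
  have : 0 < Fintype.card V := Fintype.card_pos_iff.mpr ⟨r⟩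
  omega

/-- 1-Lipschitz functions -/
lemma lip {f : V → ℕ}
    (hf : ∀ x, x ≠ r → f x ≤ f (par x) + 1 ∧ f (par x) ≤ f x + 1)
    {x y : V} (p : (parGraph r par).Walk x y) : f x ≤ f y + p.length := by
  induction p with
  | nil => simp
  | cons h p ih =>
    rw [Walk.length_cons]
    rcases h.2 with ⟨h1, h2⟩ | ⟨h1, h2⟩
    · have := (hf _ h1).1
      rw [h2] at this
      omega
    · have := (hf _ h1).2
      rw [h2] at this
      omega

lemma lip_dist (hdep : ∀ x, x ≠ r → dep x = dep (par x) + 1) {f : V → ℕ}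
    (hf : ∀ x, x ≠ r → f x ≤ f (par x) + 1 ∧ f (par x) ≤ f x + 1) (x y : V) :
    f x ≤ f y + (parGraph r par).dist x y := by
  obtain ⟨p, hp⟩ := (conn hdep).exists_walk_length_eq_dist x y
  rw [← hp]
  exact lip hf p

end Par

end Pool.Agent.R325.DP
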