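import Pool.Agent.R325.DPDefs
import Pool.Agent.R325.DPTree

namespace Pool.Agent.R325.DP

open SimpleGraph

/-- vertices of the tree: the root `c`, `s` branches `c - u i - h i`, and at every `h i` there are
`t` pendant paths with `L` vertices `v i j 0, ..., v i j (L-1)` -/
inductive Vx (s t L : ℕ) : Type
  | c : Vx s t L
  | u (i : Fin s) : Vx s t L
  | h (i : Fin s) : Vx s t L
  | v (i : Fin s) (j : Fin t) (k : Fin L) : Vx s t L
  deriving DecidableEq

variable {s t L : ℕ}

def Vx.equiv : Vx s t L ≃ Unit ⊕ (Fin s ⊕ (Fin s ⊕ (Fin s × Fin t × Fin L))) where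
  toFun
    | .c => .inl ()
    | .u i => .inr (.inl i)
    | .h i => .inr (.inr (.inl i))
    | .v i j k => .inr (.inr (.inr (i, j, k)))
  invFun
    | .inl _ => .c
    | .inr (.inl i) => .u i
    | .inr (.inr (.inl i)) => .h i
    | .inr (.inr (.inr (i, j, k))) => .v i j k
  left_inv x := by cases x <;> rfl
  right_inv x := by rcases x with _ | _ | _ | ⟨_, _, _⟩ <;> rfl

instance : Fintype (Vx s t L) := Fintype.ofEquiv _ Vx.equiv.symm

lemma card_Vx : Fintype.card (Vx s t L) = 1 + (s + (s + s * (t * L))) := by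
  rw [Fintype.card_congr Vx.equiv]
  simp

def par : Vx s t L → Vx s t L
  | .c => .c
  | .u _ => .c
  | .h i => .u i
  | .v i j k => if k.1 = 0 then .h i else .v i j ⟨k.1 - 1, by omega⟩

def dep : Vx s t L → ℕ
  | .c => 0
  | .u _ => 1
  | .h _ => 2
  | .v _ _ k => 3 + k.1

lemma dep_par (x : Vx s t L) (hx : x ≠ .c) : dep x = dep (par x) + 1 := by
  cases x with
  | c => exact absurd rfl hx
  | u i => rfl
  | h i => rfl
  | v i j k =>
    simp only [par]
    split_ifs with h
    · simp only [dep, h]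
    · simp only [dep]
      omega

/-- the tree -/
abbrev T (s t L : ℕ) : SimpleGraph (Vx s t L) := parGraph .c par

/-- the distance to the end of the pendant path `(i, j)`, truncated at `L + 2` -/
def fd (i : Fin s) (j : Fin t) : Vx s t L → ℕ
  | .c => L + 2
  | .u i' => if i' = i then L + 1 else L + 2
  | .h i' => if i' = i then L else L + 2
  | .v i' j' k => if i' = i then (if j' = j then L - 1 - k.1 else
      (if k.1 = 0 then L + 1 else L + 2)) else L + 2

lemma fd_lip (i : Fin s) (j : Fin t) (x : Vx s t L) (hx : x ≠ .c) :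
    fd i j x ≤ fd i j (par x) + 1 ∧ fd i j (par x) ≤ fd i j x + 1 := by
  cases x with
  | c => exact absurd rfl hx
  | u i' =>
    simp only [par, fd]
    split_ifs <;> omega
  | h i' =>
    simp only [par, fd]
    split_ifs <;> omega
  | v i' j' k =>
    have hk := k.2
    simp only [par]
    by_cases h0 : k.1 = 0
    · simp only [h0, if_true, fd]
      split_ifs <;> omega
    · simp only [h0, if_false, fd]
      split_ifs <;> omega

/-- the dominators of the end of a pendant path -/
lemma dominators (hL : 0 < L) (i : Fin s) (j : Fin t) (x : Vx s t L)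
    (hx : (T s t L).dist x (.v i j ⟨L - 1, by omega⟩) ≤ L + 1) :
    x = .u i ∨ x = .h i ∨ (∃ j' k, x = .v i j' k ∧ k.1 = 0) ∨ ∃ k, x = .v i j k := by
  have h := lip_dist dep_par (fd_lip i j) x (.v i j ⟨L - 1, by omega⟩)
  have h0 : fd i j (.v i j ⟨L - 1, by omega⟩ : Vx s t L) = 0 := by
    simp [fd]
  rw [h0, zero_add] at h
  have h1 : fd i j x ≤ L + 1 := h.trans hx
  cases x with
  | c => simp only [fd] at h1; omega
  | u i' =>
    simp only [fd] at h1
    split_ifs at h1 with h2
    · left; rw [h2]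
    · omega
  | h i' =>
    simp only [fd] at h1
    split_ifs at h1 with h2
    · right; left; rw [h2]
    · omega
  | v i' j' k =>
    simp only [fd] at h1
    split_ifs at h1 with h2 h3 h4
    · right; right; right; exact ⟨k, by rw [h2, h3]⟩
    · right; right; left; exact ⟨j', k, by rw [h2], h4⟩
    · omega
    · omega

/-- the zone of branch `i` -/
def Zn (i : Fin s) (x : Vx s t L) : Prop :=
  x = .u i ∨ x = .h i ∨ ∃ j' k, x = .v i j' k ∧ k.1 = 0

lemma Zn.dep_le {i : Fin s} {x : Vx s t L} (h : Zn i x) : dep x ≤ 3 := by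
  rcases h with rfl | rfl | ⟨j', k, rfl, hk⟩ <;> simp only [dep] <;> omega

lemma Zn.unique {i i' : Fin s} {x : Vx s t L} (h : Zn i x) (h' : Zn i' x) : i = i' := by
  rcases h with rfl | rfl | ⟨j', k, rfl, hk⟩ <;> rcases h' with h' | h' | ⟨j'', k', h', hk'⟩ <;>
    simp_all

lemma Zn.dist_le {i i' : Fin s} {x y : Vx s t L} (h : Zn i x) (h' : Zn i' y) :
    (T s t L).dist x y ≤ 6 := by
  change (parGraph Vx.c par).dist x y ≤ 6
  have h1 := dist_root_le dep_par x
  have h2 := dist_root_le dep_par y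
  have h3 := (conn (dep_par (s := s) (t := t) (L := L))).dist_triangle (u := x) (v := .c) (w := y)
  rw [dist_comm (u := Vx.c)] at h3
  have := h.dep_le
  have := h'.dep_le
  omega

/-- lower bound for the number of vertices of a dominating packing -/
lemma lower (hL : 0 < L) (hs : 0 < s) {d p : ℕ} (hd : d ≤ L + 1) (hp : 6 ≤ p)
    {X : Finset (Vx s t L)} (hdom : IsDom (T s t L) d X) (hpack : IsPacking (T s t L) p X) :
    (s - 1) * t ≤ X.card := by
  classical
  -- at most one branch has a vertex of `X` in its zone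
  obtain ⟨i₀, hi₀⟩ : ∃ i₀ : Fin s, ∀ i, i ≠ i₀ → ∀ x ∈ X, ¬ Zn i x := by
    by_cases hex : ∃ i, ∃ x ∈ X, Zn i x
    · obtain ⟨i₀, x₀, hx₀, hz₀⟩ := hex
      refine ⟨i₀, fun i hi x hx hz => ?_⟩
      have hxx : x = x₀ := by
        by_contra hne
        have h1 := hpack x hx x₀ hx₀ hne
        have h2 := hz.dist_le hz₀
        omega
      subst hxx
      exact hi (hz.unique hz₀)
    · push Not at hex
      exact ⟨⟨0, hs⟩, fun i _ x hx => hex i x hx⟩
  -- the pendant path of a vertex
  let g : Vx s t L → Option (Fin s × Fin t)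
    | .v i j _ => some (i, j)
    | _ => none
  have hsub : ((Finset.univ.erase i₀) ×ˢ (Finset.univ : Finset (Fin t))).image some ⊆
      X.image g := by
    intro o ho
    rw [Finset.mem_image] at ho
    obtain ⟨⟨i, j⟩, hij, rfl⟩ := ho
    have hi : i ≠ i₀ := by
      have := (Finset.mem_product.mp hij).1
      exact (Finset.mem_erase.mp this).1
    rw [Finset.mem_image]
    obtain ⟨x, hxX, hx⟩ : ∃ x ∈ X, (T s t L).dist x (.v i j ⟨L - 1, by omega⟩) ≤ L + 1 := by
      by_cases hz : (.v i j ⟨L - 1, by omega⟩ : Vx s t L) ∈ X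
      · exact ⟨_, hz, by rw [dist_self]; omega⟩
      · obtain ⟨x, hxX, hx⟩ := hdom _ hz
        exact ⟨x, hxX, by rw [dist_comm]; omega⟩
    have hnz := hi₀ i hi x hxX
    rcases dominators hL i j x hx with h | h | h | ⟨k, rfl⟩
    · exact absurd (Or.inl h) hnz
    · exact absurd (Or.inr (Or.inl h)) hnz
    · exact absurd (Or.inr (Or.inr h)) hnz
    · exact ⟨_, hxX, rfl⟩
  have h1 := (Finset.card_le_card hsub).trans Finset.card_image_le
  rw [Finset.card_image_of_injective _ (Option.some_injective _), Finset.card_product,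
    Finset.card_erase_of_mem (Finset.mem_univ _), Finset.card_univ, Finset.card_univ,
    Fintype.card_fin, Fintype.card_fin] at h1
  exact h1

/-- dominating packings exist for `p ≤ d` -/
lemma exists_dom_packing {V : Type} [Finite V] (G : SimpleGraph V) {d p : ℕ} (hpd : p ≤ d) :
    ∃ X : Finset V, IsDom G d X ∧ IsPacking G p X := by
  classical
  have := Fintype.ofFinite V
  obtain ⟨X, hX, hmax⟩ := Finset.exists_max_image
    ((Finset.univ : Finset (Finset V)).filter (fun X => IsPacking G p X)) Finset.card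
    ⟨∅, by simp [IsPacking]⟩
  rw [Finset.mem_filter] at hX
  refine ⟨X, ?_, hX.2⟩
  intro u hu
  by_contra hc
  push Not at hc
  have hpk : IsPacking G p (insert u X) := by
    intro a ha b hb hab
    rw [Finset.mem_insert] at ha hb
    rcases ha with rfl | ha <;> rcases hb with rfl | hb
    · exact absurd rfl hab
    · have := hc b hb; omega
    · have := hc a ha
      rw [dist_comm] at this
      omega
    · exact hX.2 a ha b hb hab
  have := hmax (insert u X) (by simp [hpk])
  rw [Finset.card_insert_of_notMem hu] at this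
  omega

/-- the lower bound for `gamma` -/
theorem gamma_lower {d p : ℕ} (hp : 6 ≤ p) (hpd : p ≤ d) {s t : ℕ} (hs : 0 < s) :
    (s - 1) * t ≤ gamma (T s t (d - 1)) d p := by
  have hne : {k | ∃ X : Finset (Vx s t (d - 1)), IsDom (T s t (d - 1)) d X ∧
      IsPacking (T s t (d - 1)) p X ∧ X.card = k}.Nonempty := by
    obtain ⟨X, h1, h2⟩ := exists_dom_packing (T s t (d - 1)) hpd
    exact ⟨_, X, h1, h2, rfl⟩
  obtain ⟨X, h1, h2, h3⟩ := Nat.sInf_mem hne
  have hg : gamma (T s t (d - 1)) d p = X.card := h3.symm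
  rw [hg]
  exact lower (by omega) hs (by omega) hp h1 h2

/-- the bound fails for all `6 ≤ p ≤ d` -/
theorem counterexample {d p : ℕ} (hp : 6 ≤ p) (hpd : p ≤ d) :
    (T (2 * d) 6 (d - 1)).IsTree ∧
    ((Fintype.card (Vx (2 * d) 6 (d - 1)) : ℝ) -
      2 * Real.sqrt (Fintype.card (Vx (2 * d) 6 (d - 1))) + d + 1) / d
      < gamma (T (2 * d) 6 (d - 1)) d p := by
  refine ⟨isTree_parGraph dep_par, ?_⟩
  have hne : {k | ∃ X : Finset (Vx (2 * d) 6 (d - 1)), IsDom (T (2 * d) 6 (d - 1)) d X ∧
      IsPacking (T (2 * d) 6 (d - 1)) p X ∧ X.card = k}.Nonempty := by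
    obtain ⟨X, h1, h2⟩ := exists_dom_packing (T (2 * d) 6 (d - 1)) hpd
    exact ⟨_, X, h1, h2, rfl⟩
  obtain ⟨X, h1, h2, h3⟩ := Nat.sInf_mem hne
  have h4 := lower (by omega) (by omega) (by omega) hp h1 h2
  have hg : gamma (T (2 * d) 6 (d - 1)) d p = X.card := h3.symm
  rw [hg, card_Vx]
  obtain ⟨e, rfl⟩ : ∃ e, d = e + 1 := ⟨d - 1, by omega⟩
  have h5 : (2 * (e + 1) - 1) * 6 = 12 * e + 6 := by omega
  rw [h5] at h4
  have h6 : ((12 * e + 6 : ℕ) : ℝ) ≤ X.card := by exact_mod_cast h4
  have hn : ((1 + (2 * (e + 1) + (2 * (e + 1) + 2 * (e + 1) * (6 * (e + 1 - 1)))) : ℕ) : ℝ)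
      = 1 + 4 * (e + 1) + 12 * (e + 1) * e := by
    rw [Nat.add_sub_cancel]
    push_cast
    ring
  rw [hn]
  have hsq : 0 < Real.sqrt (1 + 4 * (e + 1) + 12 * (e + 1) * e : ℝ) :=
    Real.sqrt_pos.mpr (by positivity)
  refine lt_of_lt_of_le ?_ h6
  push_cast
  rw [div_lt_iff₀ (by positivity)]
  have he : (5 : ℝ) ≤ e := by
    have : 5 ≤ e := by omega
    exact_mod_cast this
  nlinarith

end Pool.Agent.R325.DP
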