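import Mathlib

/-!
# Fibonacci and Lucas polynomials and the rings `ℤ[ζ - ζ⁻¹]`
-/

set_option autoImplicit false

namespace Pool.Agent.R325.LucasFib

open Polynomial IntermediateField

/-- The Lucas polynomials: `L_0 = 2`, `L_1 = x`, `L_n = x L_{n-1} + L_{n-2}`. -/
noncomputable def lucas : ℕ → ℤ[X]
  | 0 => 2
  | 1 => X
  | (n + 2) => X * lucas (n + 1) + lucas n

/-- The Fibonacci polynomials: `F_0 = 0`, `F_1 = 1`, `F_n = x F_{n-1} + F_{n-2}`. -/
noncomputable def fib : ℕ → ℤ[X]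
  | 0 => 0
  | 1 => 1
  | (n + 2) => X * fib (n + 1) + fib n

/-- `ℤ[θ]` is the full ring of integers of `ℚ(θ)`: a complex number lies in `ℚ(θ)` and is an
algebraic integer if and only if it lies in `ℤ[θ]`. -/
def IsFullRing (θ : ℂ) : Prop :=
  ∀ z : ℂ, (z ∈ ℚ⟮θ⟯ ∧ IsIntegral ℤ z) ↔ z ∈ Algebra.adjoin ℤ {θ}

/-- A polynomial `f` (monic and irreducible in the applications) is monogenic if for its complex
roots `θ` the ring `ℤ[θ]` is the full ring of integers of `ℚ(θ)`. -/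
def Monogenic (f : ℤ[X]) : Prop := ∀ θ : ℂ, aeval θ f = 0 → IsFullRing θ

theorem lucas_aeval (a b : ℂ) (hab : a * b = -1) (n : ℕ) :
    aeval (a + b) (lucas n) = a ^ n + b ^ n ∧
    aeval (a + b) (lucas (n + 1)) = a ^ (n + 1) + b ^ (n + 1) := by
  induction n with
  | zero =>
    constructor
    · simp only [lucas, pow_zero]
      rw [map_ofNat]; norm_num
    · simp [lucas]
  | succ n ih =>
    refine ⟨ih.2, ?_⟩
    rw [show n + 1 + 1 = n + 2 from rfl, lucas, map_add, map_mul, aeval_X, ih.1, ih.2]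
    linear_combination (a ^ n + b ^ n) * hab

theorem fib_aeval (a b : ℂ) (hab : a * b = -1) (n : ℕ) :
    (a - b) * aeval (a + b) (fib n) = a ^ n - b ^ n ∧
    (a - b) * aeval (a + b) (fib (n + 1)) = a ^ (n + 1) - b ^ (n + 1) := by
  induction n with
  | zero => simp [fib]
  | succ n ih =>
    refine ⟨ih.2, ?_⟩
    rw [show n + 1 + 1 = n + 2 from rfl, fib, map_add, map_mul, aeval_X, mul_add, ih.1,
      mul_left_comm, ih.2]
    linear_combination (a ^ n - b ^ n) * hab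

theorem lucas_eval (z : ℂ) (hz : z ≠ 0) (n : ℕ) :
    aeval (z - z⁻¹) (lucas n) = z ^ n + (-z⁻¹) ^ n := by
  rw [sub_eq_add_neg]
  exact (lucas_aeval z (-z⁻¹) (by field_simp) n).1

theorem fib_eval (z : ℂ) (hz : z ≠ 0) (n : ℕ) :
    (z + z⁻¹) * aeval (z - z⁻¹) (fib n) = z ^ n - (-z⁻¹) ^ n := by
  have h := (fib_aeval z (-z⁻¹) (by field_simp) n).1
  rw [sub_neg_eq_add, ← sub_eq_add_neg] at h
  exact h

/-- Every complex number is of the form `z - z⁻¹` with `z ≠ 0`. -/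
theorem exists_z (θ : ℂ) : ∃ z : ℂ, z ≠ 0 ∧ z - z⁻¹ = θ := by
  obtain ⟨s, hs⟩ := IsAlgClosed.exists_pow_nat_eq (θ ^ 2 + 4) (n := 2) (by norm_num)
  have hz : (θ + s) / 2 ≠ 0 := by
    intro h
    have : s = -θ := by linear_combination 2 * h
    rw [this] at hs
    have : (4 : ℂ) = 0 := by linear_combination -hs
    norm_num at this
  refine ⟨(θ + s) / 2, hz, ?_⟩
  have h1 : ((θ + s) / 2)⁻¹ = (s - θ) / 2 := by
    apply inv_eq_of_mul_eq_one_right
    linear_combination hs / 4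
  rw [h1]; ring

theorem lucas_monic (n : ℕ) : (lucas (n + 1)).Monic ∧ (lucas (n + 1)).natDegree = n + 1 := by
  induction n using Nat.strong_induction_on with
  | _ n ih =>
    rcases n with _ | _ | n
    · simp [lucas, monic_X]
    · have : lucas (0 + 1 + 1) = X ^ 2 + C 2 := by
        simp [lucas]; ring
      rw [this]
      exact ⟨monic_X_pow_add_C 2 (by norm_num), natDegree_X_pow_add_C⟩
    · obtain ⟨h1, h2⟩ := ih (n + 1) (by omega)
      obtain ⟨h3, h4⟩ := ih n (by omega)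
      rw [show n + 1 + 1 + 1 = (n + 1) + 2 from rfl, lucas]
      have hm : (X * lucas (n + 1 + 1)).Monic := monic_X.mul h1
      have hd : (X * lucas (n + 1 + 1)).natDegree = n + 1 + 2 := by
        rw [monic_X.natDegree_mul h1, natDegree_X, h2]; ring
      have hlt : (lucas (n + 1)).degree < (X * lucas (n + 1 + 1)).degree := by
        rw [degree_eq_natDegree h3.ne_zero, degree_eq_natDegree hm.ne_zero, h4, hd]
        norm_cast; omega
      refine ⟨hm.add_of_left hlt, ?_⟩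
      rw [natDegree_add_eq_left_of_degree_lt hlt, hd]

theorem half_not_integral (k : ℂ) (hk : IsIntegral ℤ k) (h : 2 * k = 1) : False := by
  have h1 : k = algebraMap ℚ ℂ (1 / 2) := by
    rw [eq_comm]; simp
    rw [inv_eq_iff_eq_inv, eq_comm]
    apply inv_eq_of_mul_eq_one_left
    exact h
  rw [h1] at hk
  have h2 := (isIntegral_algebraMap_iff (algebraMap ℚ ℂ).injective).1 hk
  obtain ⟨m, hm⟩ := IsIntegrallyClosed.isIntegral_iff.1 h2
  have h3 : (2 : ℚ) * m = 1 := by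
    have : (m : ℚ) = 1 / 2 := by simpa using hm
    rw [this]; norm_num
  have h4 : (2 : ℤ) * m = 1 := by exact_mod_cast h3
  omega

/-- If `ζ` is a root of unity of odd order and `ζ - ζ⁻¹ ≠ 0` then `ℤ[ζ - ζ⁻¹]` is not the full
ring of integers of `ℚ(ζ - ζ⁻¹)`. -/
theorem not_full (n : ℕ) (hn : Odd n) (ζ : ℂ) (hζ : ζ ^ n = 1) (h0 : ζ - ζ⁻¹ ≠ 0) :
    ¬ IsFullRing (ζ - ζ⁻¹) := by
  intro hfull
  set θ := ζ - ζ⁻¹ with hθ
  have hn0 : n ≠ 0 := by rintro rfl; simp at hn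
  have hζ0 : ζ ≠ 0 := by
    rintro rfl; rw [zero_pow hn0] at hζ; exact zero_ne_one hζ
  -- `ζ + ζ⁻¹ = L_{n+1}(θ)`
  have hsum : ζ + ζ⁻¹ = aeval θ (lucas (n + 1)) := by
    rw [hθ, lucas_eval ζ hζ0, Even.neg_pow hn.add_one, pow_succ, hζ, inv_pow, pow_succ, hζ]
    simp
  have hθmem : θ ∈ ℚ⟮θ⟯ := mem_adjoin_simple_self ℚ θ
  have hpoly : ∀ p : ℤ[X], aeval θ p ∈ ℚ⟮θ⟯ := by
    intro p
    rw [aeval_eq_sum_range]
    exact sum_mem fun i _ => zsmul_mem (pow_mem hθmem i) _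
  have hζmem : ζ ∈ ℚ⟮θ⟯ := by
    have h1 : ζ = (1 / 2 : ℚ) • (aeval θ (lucas (n + 1)) + θ) := by
      rw [← hsum, hθ, Algebra.smul_def]
      simp; ring
    rw [h1]
    exact IntermediateField.smul_mem _ (add_mem (hpoly _) hθmem)
  have hζint : IsIntegral ℤ ζ := ⟨X ^ n - 1, monic_X_pow_sub_C 1 hn0, by simp [hζ]⟩
  have hζinvint : IsIntegral ℤ ζ⁻¹ := ⟨X ^ n - 1, monic_X_pow_sub_C 1 hn0, by simp [hζ]⟩
  have hθint : IsIntegral ℤ θ := hζint.sub hζinvint
  have hζadj : ζ ∈ Algebra.adjoin ℤ {θ} := (hfull ζ).1 ⟨hζmem, hζint⟩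
  -- complex conjugation
  have hconj : (starRingEnd ℂ) ζ = ζ⁻¹ := by
    have hnorm : ‖ζ‖ = 1 := Complex.norm_eq_one_of_pow_eq_one hζ hn0
    rw [Complex.inv_def, Complex.normSq_eq_norm_sq, hnorm]
    simp
  have hconjθ : (starRingEnd ℂ) θ = -θ := by
    rw [hθ, map_sub, map_inv₀, hconj, inv_inv]; ring
  have key : ∀ z ∈ Algebra.adjoin ℤ {θ}, (starRingEnd ℂ) z ∈ Algebra.adjoin ℤ {θ} ∧
      ∃ k ∈ Algebra.adjoin ℤ {θ}, z - (starRingEnd ℂ) z = 2 * θ * k := by
    intro z hz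
    induction hz using Algebra.adjoin_induction with
    | mem x hx =>
      rw [Set.mem_singleton_iff] at hx
      subst hx
      refine ⟨?_, 1, one_mem _, ?_⟩
      · rw [hconjθ]; exact neg_mem (Algebra.self_mem_adjoin_singleton ℤ _)
      · rw [hconjθ]; ring
    | algebraMap r =>
      have : (starRingEnd ℂ) (algebraMap ℤ ℂ r) = algebraMap ℤ ℂ r := by simp
      rw [this]
      exact ⟨Subalgebra.algebraMap_mem _ r, 0, zero_mem _, by ring⟩
    | add x y _ _ hx hy =>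
      obtain ⟨hx1, k, hk, hxk⟩ := hx
      obtain ⟨hy1, l, hl, hyl⟩ := hy
      refine ⟨by rw [map_add]; exact add_mem hx1 hy1, k + l, add_mem hk hl, ?_⟩
      rw [map_add]; linear_combination hxk + hyl
    | mul x y hx0 hy0 hx hy =>
      obtain ⟨hx1, k, hk, hxk⟩ := hx
      obtain ⟨hy1, l, hl, hyl⟩ := hy
      refine ⟨by rw [map_mul]; exact mul_mem hx1 hy1,
        k * y + (starRingEnd ℂ) x * l, add_mem (mul_mem hk hy0) (mul_mem hx1 hl), ?_⟩
      rw [map_mul]; linear_combination y * hxk + (starRingEnd ℂ) x * hyl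
  obtain ⟨-, k, hk, hk2⟩ := key ζ hζadj
  rw [hconj, ← hθ] at hk2
  have h2k : 2 * k = 1 := by
    have : θ * (2 * k - 1) = 0 := by linear_combination -hk2
    rcases mul_eq_zero.mp this with h | h
    · exact absurd h h0
    · linear_combination h
  have hkint : IsIntegral ℤ k :=
    (Algebra.IsIntegral.adjoin (by simpa using hθint)).isIntegral (⟨k, hk⟩ : Algebra.adjoin ℤ {θ})
      |>.map (Algebra.adjoin ℤ {θ}).val
  exact half_not_integral k hkint h2k

/-- `ℤ[0] = ℤ` is the full ring of integers of `ℚ`. -/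
theorem full_zero : IsFullRing 0 := by
  intro z
  have h1 : Algebra.adjoin ℤ ({0} : Set ℂ) = ⊥ := by
    rw [eq_bot_iff, Algebra.adjoin_le_iff]
    simp
  have h2 : ℚ⟮(0 : ℂ)⟯ = ⊥ := by
    rw [IntermediateField.adjoin_simple_eq_bot_iff]
    exact zero_mem _
  rw [h1, h2]
  constructor
  · rintro ⟨hz, hint⟩
    obtain ⟨q, rfl⟩ := IntermediateField.mem_bot.mp hz
    have := (isIntegral_algebraMap_iff (algebraMap ℚ ℂ).injective).1 hint
    obtain ⟨m, hm⟩ := IsIntegrallyClosed.isIntegral_iff.1 this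
    rw [Algebra.mem_bot]
    exact ⟨m, by rw [← hm]; simp⟩
  · intro hz
    obtain ⟨m, rfl⟩ := Algebra.mem_bot.mp hz
    exact ⟨IntermediateField.mem_bot.mpr ⟨m, by simp⟩, isIntegral_algebraMap⟩

end Pool.Agent.R325.LucasFib
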