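import Mathlib

/-!
# Products of powers of distinct irreducible polynomials and twisted derivatives
-/

set_option autoImplicit false
set_option linter.unusedSectionVars false

namespace Pool.Agent.R325.MVSP

open Polynomial

variable {K : Type} [Field K] [DecidableEq K[X]]

/-- the radical `∏ π` -/
noncomputable def Rad (R : Finset K[X]) : K[X] := ∏ π ∈ R, π

/-- `∏ π ^ n π` -/
noncomputable def Pn (R : Finset K[X]) (n : K[X] → ℕ) : K[X] := ∏ π ∈ R, π ^ n π

/-- `∑ s π * π' * (Rad / π)` -/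
noncomputable def Lam (R : Finset K[X]) (s : K[X] → K) : K[X] :=
  ∑ π ∈ R, C (s π) * (derivative π * ∏ ρ ∈ R.erase π, ρ)

/-- the twisted derivative -/
noncomputable def nab (R : Finset K[X]) (s : K[X] → K) (f : K[X]) : K[X] :=
  Rad R * derivative f + Lam R s * f

theorem Pn_add (R : Finset K[X]) (n m : K[X] → ℕ) :
    Pn R (fun π => n π + m π) = Pn R n * Pn R m := by
  simp only [Pn, pow_add, Finset.prod_mul_distrib]

theorem Pn_mul (R : Finset K[X]) (n : K[X] → ℕ) (k : ℕ) :
    Pn R (fun π => k * n π) = (Pn R n) ^ k := by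
  simp only [Pn]
  rw [← Finset.prod_pow]
  refine Finset.prod_congr rfl fun π _ => ?_
  rw [mul_comm, pow_mul]

theorem Pn_congr (R : Finset K[X]) (n m : K[X] → ℕ) (h : ∀ π ∈ R, n π = m π) :
    Pn R n = Pn R m :=
  Finset.prod_congr rfl fun π hπ => by rw [h π hπ]

theorem Pn_zero (R : Finset K[X]) : Pn R (fun _ => 0) = 1 := by simp [Pn]

theorem Pn_one (R : Finset K[X]) : Pn R (fun _ => 1) = Rad R := by simp [Pn, Rad]

theorem Pn_ne_zero (R : Finset K[X]) (hR : ∀ π ∈ R, π ≠ 0) (n : K[X] → ℕ) : Pn R n ≠ 0 :=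
  Finset.prod_ne_zero_iff.mpr fun π hπ => pow_ne_zero _ (hR π hπ)

theorem Rad_ne_zero (R : Finset K[X]) (hR : ∀ π ∈ R, π ≠ 0) : Rad R ≠ 0 :=
  Finset.prod_ne_zero_iff.mpr fun π hπ => hR π hπ

theorem Lam_congr (R : Finset K[X]) (s t : K[X] → K) (h : ∀ π ∈ R, s π = t π) :
    Lam R s = Lam R t :=
  Finset.sum_congr rfl fun π hπ => by rw [h π hπ]

theorem Lam_add (R : Finset K[X]) (s t : K[X] → K) :
    Lam R (fun π => s π + t π) = Lam R s + Lam R t := by
  simp only [Lam, map_add, add_mul, Finset.sum_add_distrib]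

theorem Lam_zero (R : Finset K[X]) (s : K[X] → K) (h : ∀ π ∈ R, s π = 0) : Lam R s = 0 := by
  rw [Lam]
  exact Finset.sum_eq_zero fun π hπ => by rw [h π hπ]; simp

theorem derivative_Pn (R : Finset K[X]) (n : K[X] → ℕ) :
    derivative (Pn R n) * Rad R = Pn R n * Lam R (fun π => (n π : K)) := by
  rw [Pn, derivative_prod_finset, Finset.sum_mul, Lam, Finset.mul_sum]
  refine Finset.sum_congr rfl fun π hπ => ?_
  have h1 : Rad R = π * ∏ ρ ∈ R.erase π, ρ := (Finset.mul_prod_erase R id hπ).symm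
  have h2 : ∏ ρ ∈ R, ρ ^ n ρ = π ^ n π * ∏ ρ ∈ R.erase π, ρ ^ n ρ :=
    (Finset.mul_prod_erase R (fun ρ => ρ ^ n ρ) hπ).symm
  rw [h1, h2, derivative_pow]
  by_cases h0 : n π = 0
  · rw [h0]; simp
  · obtain ⟨k, hk⟩ := Nat.exists_eq_succ_of_ne_zero h0
    rw [hk]
    simp only [Nat.succ_eq_add_one, Nat.add_sub_cancel, pow_succ]
    ring

theorem nab_Pn_mul (R : Finset K[X]) (s : K[X] → K) (n : K[X] → ℕ) (f : K[X]) :
    nab R s (Pn R n * f) = Pn R n * nab R (fun π => s π + (n π : K)) f := by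
  rw [nab, nab, derivative_mul, Lam_add]
  linear_combination f * derivative_Pn R n

theorem nab_add (R : Finset K[X]) (s : K[X] → K) (f g : K[X]) :
    nab R s (f + g) = nab R s f + nab R s g := by
  simp only [nab, derivative_add]; ring

theorem nab_zero (R : Finset K[X]) (s : K[X] → K) : nab R s 0 = 0 := by
  simp [nab]

theorem nab_sum {ι : Type} (R : Finset K[X]) (s : K[X] → K) (t : Finset ι) (f : ι → K[X]) :
    nab R s (∑ i ∈ t, f i) = ∑ i ∈ t, nab R s (f i) := by
  simp only [nab, derivative_sum, Finset.mul_sum, ← Finset.sum_add_distrib]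

theorem nab_C_mul (R : Finset K[X]) (s : K[X] → K) (a : K) (f : K[X]) :
    nab R s (C a * f) = C a * nab R s f := by
  simp only [nab, derivative_mul, derivative_C]; ring

theorem nab_mul_of_derivative (R : Finset K[X]) (s : K[X] → K) (g f : K[X])
    (hg : derivative g = 0) : nab R s (g * f) = g * nab R s f := by
  simp only [nab, derivative_mul, hg]; ring

theorem derivative_pow_p (p : ℕ) [CharP K p] (f : K[X]) (k : ℕ) (hk : p ∣ k) :
    derivative (f ^ k) = 0 := by
  rw [derivative_pow]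
  have : (k : K) = 0 := (CharP.cast_eq_zero_iff K p k).mpr hk
  rw [this]; simp

theorem natDegree_Lam_le (R : Finset K[X]) (hR : ∀ π ∈ R, Irreducible π) (s : K[X] → K) :
    (Lam R s).natDegree + 1 ≤ (Rad R).natDegree ∨ R = ∅ := by
  by_cases hRe : R = ∅
  · exact Or.inr hRe
  left
  have hRne : R.Nonempty := Finset.nonempty_iff_ne_empty.mpr hRe
  have hne : ∀ π ∈ R, π ≠ 0 := fun π hπ => (hR π hπ).ne_zero
  have hdeg : (Rad R).natDegree = ∑ π ∈ R, π.natDegree := natDegree_prod _ _ hne
  have hpos : 0 < (Rad R).natDegree := by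
    rw [hdeg]
    obtain ⟨π, hπ⟩ := hRne
    exact lt_of_lt_of_le (hR π hπ).natDegree_pos
      (Finset.single_le_sum (f := fun π => π.natDegree) (fun _ _ => Nat.zero_le _) hπ)
  have hle : (Lam R s).natDegree ≤ (Rad R).natDegree - 1 := by
    rw [Lam]
    apply natDegree_sum_le_of_forall_le
    intro π hπ
    have hπpos := (hR π hπ).natDegree_pos
    have h1 : Rad R = π * ∏ ρ ∈ R.erase π, ρ := (Finset.mul_prod_erase R id hπ).symm
    have hne2 : ∏ ρ ∈ R.erase π, ρ ≠ 0 :=
      Finset.prod_ne_zero_iff.mpr fun ρ hρ => hne ρ (Finset.mem_of_mem_erase hρ)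
    have h2 : (Rad R).natDegree = π.natDegree + (∏ ρ ∈ R.erase π, ρ).natDegree := by
      rw [h1, natDegree_mul (hne π hπ) hne2]
    have h3 : (derivative π).natDegree < π.natDegree := natDegree_derivative_lt hπpos.ne'
    refine (natDegree_C_mul_le _ _).trans (natDegree_mul_le.trans ?_)
    omega
  omega

/-- degree bound for the twisted derivative -/
theorem natDegree_nab_le (R : Finset K[X]) (hR : ∀ π ∈ R, Irreducible π) (hRe : R ≠ ∅)
    (s : K[X] → K) (f : K[X]) (A : ℕ) (hf : f.natDegree ≤ A) :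
    (nab R s f).natDegree + 1 ≤ A + (Rad R).natDegree := by
  have hL := (natDegree_Lam_le R hR s).resolve_right hRe
  have hle : (nab R s f).natDegree ≤ A + (Rad R).natDegree - 1 := by
    rw [nab]
    apply natDegree_add_le_of_degree_le
    · by_cases h0 : f.natDegree = 0
      · rw [derivative_of_natDegree_zero h0]; simp
      · have := natDegree_derivative_lt h0
        refine natDegree_mul_le.trans ?_
        omega
    · refine natDegree_mul_le.trans ?_
      omega
  omega

theorem natDegree_Pn (R : Finset K[X]) (hR : ∀ π ∈ R, π ≠ 0) (n : K[X] → ℕ) :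
    (Pn R n).natDegree = ∑ π ∈ R, n π * π.natDegree := by
  rw [Pn, natDegree_prod _ _ (fun π hπ => pow_ne_zero _ (hR π hπ))]
  exact Finset.sum_congr rfl fun π _ => natDegree_pow _ _

theorem natDegree_Rad (R : Finset K[X]) (hR : ∀ π ∈ R, π ≠ 0) :
    (Rad R).natDegree = ∑ π ∈ R, π.natDegree := natDegree_prod _ _ hR

/-- distinct monic irreducible polynomials are coprime -/
theorem coprime_of_ne (π ρ : K[X]) (hπ : Irreducible π) (hρ : Irreducible ρ) (hπm : π.Monic)
    (hρm : ρ.Monic) (hne : π ≠ ρ) : IsCoprime π ρ := by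
  rw [hπ.coprime_iff_not_dvd]
  intro h
  exact hne (eq_of_monic_of_associated hπm hρm (hπ.associated_of_dvd hρ h))

theorem Rad_dvd (R : Finset K[X]) (hR : ∀ π ∈ R, Irreducible π ∧ π.Monic) (V : K[X])
    (hV : ∀ π ∈ R, π ∣ V) : Rad R ∣ V := by
  rw [Rad]
  apply Finset.prod_dvd_of_coprime
  · intro π hπ ρ hρ hne
    exact coprime_of_ne π ρ (hR π hπ).1 (hR ρ hρ).1 (hR π hπ).2 (hR ρ hρ).2 hne
  · exact hV

theorem Pn_dvd (R : Finset K[X]) (hR : ∀ π ∈ R, Irreducible π ∧ π.Monic) (n : K[X] → ℕ)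
    (V : K[X]) (hV : ∀ π ∈ R, π ^ n π ∣ V) : Pn R n ∣ V := by
  rw [Pn]
  apply Finset.prod_dvd_of_coprime
  · intro π hπ ρ hρ hne
    exact (coprime_of_ne π ρ (hR π hπ).1 (hR ρ hρ).1 (hR π hπ).2 (hR ρ hρ).2 hne).pow
  · exact hV

/-- The root lemma. -/
theorem root_lemma (p : ℕ) [hp : Fact p.Prime] [CharP K p] [PerfectRing K p] (R : Finset K[X])
    (hR : ∀ π ∈ R, Irreducible π ∧ π.Monic) (j : K[X] → ℕ) (hj : ∀ π ∈ R, j π < p)
    (β : K[X]) (h : nab R (fun π => -(j π : K)) β = 0) :
    ∃ γ : K[X], β = Pn R j * γ ^ p := by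
  have hne : ∀ π ∈ R, π ≠ 0 := fun π hπ => (hR π hπ).1.ne_zero
  have hder : derivative (Pn R (fun π => p - j π) * β) = 0 := by
    have h1 : nab R (fun _ => 0) (Pn R (fun π => p - j π) * β) = 0 := by
      rw [nab_Pn_mul]
      have h2 : nab R (fun π => 0 + ((p - j π : ℕ) : K)) β = nab R (fun π => -(j π : K)) β := by
        rw [nab, nab]
        congr 2
        apply Lam_congr
        intro π hπ
        rw [Nat.cast_sub (hj π hπ).le, CharP.cast_eq_zero]
        ring
      rw [h2, h, mul_zero]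
    rw [nab, Lam_zero R _ (fun _ _ => rfl), zero_mul, add_zero] at h1
    exact (mul_eq_zero.mp h1).resolve_left (Rad_ne_zero R hne)
  have e := expand_contract p hder hp.out.ne_zero
  rw [polynomial_expand_eq] at e
  set V := (contract p (Pn R (fun π => p - j π) * β)).map ((frobeniusEquiv K p).symm : K →+* K)
    with hVdef
  have hdvd : Rad R ∣ V := by
    apply Rad_dvd R hR
    intro π hπ
    apply (hR π hπ).1.prime.dvd_of_dvd_pow (n := p)
    rw [e]
    apply Dvd.dvd.mul_right
    rw [Pn]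
    refine (dvd_pow_self π ?_).trans (Finset.dvd_prod_of_mem (fun π => π ^ (p - j π)) hπ)
    have := hj π hπ
    omega
  obtain ⟨γ, hγ⟩ := hdvd
  refine ⟨γ, ?_⟩
  have h3 : Pn R (fun π => p - j π) * β = Pn R (fun π => p - j π) * (Pn R j * γ ^ p) := by
    rw [← e, hγ, mul_pow, ← mul_assoc, ← Pn_add]
    congr 1
    rw [← Pn_one, ← Pn_mul]
    apply Pn_congr
    intro π hπ
    have := hj π hπ
    omega
  exact mul_left_cancel₀ (Pn_ne_zero R hne _) h3

/-- The gap lemma. -/
theorem gap_lemma (M G : ℕ) (P : ℕ → K[X]) (hdeg : ∀ e < M, P e ≠ 0 → (P e).natDegree < G)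
    (h : ∑ e ∈ Finset.range M, X ^ (e * G) * P e = 0) : ∀ e < M, P e = 0 := by
  intro e he
  ext i
  rw [coeff_zero]
  by_cases hP : P e = 0
  · rw [hP, coeff_zero]
  by_cases hi : i < G
  · have h1 := congrArg (fun f => coeff f (i + e * G)) h
    simp only [finsetSum_coeff, coeff_zero] at h1
    rw [Finset.sum_eq_single e] at h1
    · rwa [coeff_X_pow_mul] at h1
    · intro e' he' hne
      rw [Finset.mem_range] at he'
      rw [coeff_X_pow_mul']
      split_ifs with hle
      · by_cases hP' : P e' = 0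
        · rw [hP', coeff_zero]
        · apply coeff_eq_zero_of_natDegree_lt
          have hd := hdeg e' he' hP'
          have hlt : e' < e := by
            rcases lt_or_gt_of_ne hne with h2 | h2
            · exact h2
            · exfalso
              have : (e + 1) * G ≤ e' * G := Nat.mul_le_mul_right _ h2
              rw [add_mul, one_mul] at this
              omega
          have : (e' + 1) * G ≤ e * G := Nat.mul_le_mul_right _ hlt
          rw [add_mul, one_mul] at this
          omega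
      · rfl
    · intro h2
      exact absurd (Finset.mem_range.mpr he) h2
  · have := hdeg e he hP
    exact coeff_eq_zero_of_natDegree_lt (by omega)

end Pool.Agent.R325.MVSP
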