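import Mathlib
import Pool.Agent.R325.MVSPBasic

/-!
# The induction step
-/

set_option autoImplicit false
set_option linter.unusedSectionVars false

namespace Pool.Agent.R325.MVSP

open Polynomial

variable {K : Type} [Field K] [DecidableEq K[X]]

theorem pow_char_pow_inj (p : ℕ) [hp : Fact p.Prime] [CharP K p] (a : ℕ) (f g : K[X])
    (h : f ^ p ^ a = g ^ p ^ a) : f = g := by
  have h1 : (f - g) ^ p ^ a = 0 := by rw [sub_pow_char_pow, h, sub_self]
  exact sub_eq_zero.mp (pow_eq_zero_iff (pow_ne_zero _ hp.out.ne_zero) |>.mp h1)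

/-- Given the family `α` and the relation, produce the roots of all orders `p ^ a`, `a ≤ κ`. -/
theorem sublevel (p : ℕ) [hp : Fact p.Prime] [CharP K p] [PerfectRing K p]
    (κ v h ρ : ℕ) (hvh : v * h + 1 = p ^ κ) (hρ : 2 ≤ ρ) (hv1 : 1 ≤ v)
    (hcond : ∀ a, 1 ≤ a → a < κ → ∀ c, 1 ≤ c → c < v → p ^ a ∣ v - c → p ^ a + 1 ≤ ρ * c)
    (R : Finset K[X]) (hR : ∀ π ∈ R, Irreducible π ∧ π.Monic) (hRe : R ≠ ∅)
    (c : K[X] → ℕ) (hc : ∀ π ∈ R, 1 ≤ c π ∧ c π < v)
    (M G' : ℕ) (α : ℕ → K[X])
    (hdeg : ∀ e < M, α e ≠ 0 →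
      ρ * (v * (α e).natDegree + ∑ π ∈ R, c π * π.natDegree) < p ^ κ * G')
    (W : ℕ → K[X])
    (hW0 : ∀ e < M, W e = Rad R * α e - X * nab R (fun π => -((c π * h : ℕ) : K)) (α e))
    (hW1 : ∀ e < M, W (M + e) = nab R (fun π => -((c π * h : ℕ) : K)) (α e))
    (Gz : K[X])
    (hrel : ∑ e ∈ Finset.range (M + M), X ^ (e * (p ^ κ * G')) * W e =
      Pn R (fun π => 1 + c π * h) * Gz ^ p ^ κ) (a : ℕ) (ha : a ≤ κ) :
    ∃ β : ℕ → K[X], ∀ e < M + M, W e = Pn R (fun π => (1 + c π * h) % p ^ a) * (β e) ^ p ^ a := by
  have hne : ∀ π ∈ R, π ≠ 0 := fun π hπ => (hR π hπ).1.ne_zero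
  have hp2 := hp.out.two_le
  induction a with
  | zero =>
    refine ⟨W, fun e _ => ?_⟩
    simp [Nat.mod_one, Pn_zero]
  | succ a ih =>
    have haκ : a < κ := ha
    obtain ⟨β, hβ⟩ := ih haκ.le
    set s : K[X] → K := fun π => -((c π * h : ℕ) : K) with hs
    set J : K[X] → ℕ := fun π => 1 + c π * h with hJ
    set Ga : ℕ := p ^ (κ - a) * G' with hGa
    have hpa : 0 < p ^ a := pow_pos hp.out.pos a
    have hκa : p ^ κ = p ^ a * p ^ (κ - a) := by rw [← pow_add]; congr 1; omega
    have hGGa : p ^ κ * G' = p ^ a * Ga := by rw [hGa, hκa, mul_assoc]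
    have hpGa : p ∣ Ga := by
      rw [hGa]
      exact Dvd.dvd.mul_right (dvd_pow_self p (by omega)) _
    -- the sum `S_a`
    set Sa : K[X] := ∑ e ∈ Finset.range (M + M), X ^ (e * Ga) * β e with hSa
    have hSapow : Pn R (fun π => J π % p ^ a) * Sa ^ p ^ a = Pn R J * Gz ^ p ^ κ := by
      rw [← hrel, hSa, sum_pow_char_pow, Finset.mul_sum]
      refine Finset.sum_congr rfl fun e he => ?_
      rw [Finset.mem_range] at he
      rw [hβ e he, mul_pow, ← pow_mul, hGGa]
      have : e * Ga * p ^ a = e * (p ^ a * Ga) := by ring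
      rw [this]
      ring
    have hJsplit : Pn R J = Pn R (fun π => J π % p ^ a) * (Pn R (fun π => J π / p ^ a)) ^ p ^ a := by
      rw [← Pn_mul, ← Pn_add]
      apply Pn_congr
      intro π _
      exact (Nat.mod_add_div _ _).symm
    have hSaeq : Sa = Pn R (fun π => J π / p ^ a) * Gz ^ p ^ (κ - a) := by
      apply pow_char_pow_inj p a
      have h1 : Pn R (fun π => J π % p ^ a) * Sa ^ p ^ a = Pn R (fun π => J π % p ^ a) *
          (Pn R (fun π => J π / p ^ a) * Gz ^ p ^ (κ - a)) ^ p ^ a := by
        rw [hSapow, hJsplit, mul_pow, ← pow_mul, mul_comm (p ^ (κ - a)) (p ^ a), ← hκa, mul_assoc]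
      exact mul_left_cancel₀ (Pn_ne_zero R hne _) h1
    set j : K[X] → ℕ := fun π => (J π / p ^ a) % p with hj
    have hjlt : ∀ π ∈ R, j π < p := fun π _ => Nat.mod_lt _ hp.out.pos
    have hnabS : nab R (fun π => -(j π : K)) Sa = 0 := by
      have h1 : Sa = Pn R j * (Pn R (fun π => (J π / p ^ a) / p) * Gz ^ p ^ (κ - a - 1)) ^ p := by
        rw [hSaeq, mul_pow, ← Pn_mul, ← mul_assoc, ← Pn_add, ← pow_mul, ← pow_succ]
        congr 2
        · funext π
          exact (Nat.mod_add_div _ _).symm
        · congr 1
          omega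
      rw [h1, nab_Pn_mul, nab, derivative_pow_p p _ p dvd_rfl, mul_zero, zero_add,
        Lam_zero R _ (fun π _ => by ring), zero_mul, mul_zero]
    have hnabsum : ∑ e ∈ Finset.range (M + M), X ^ (e * Ga) * nab R (fun π => -(j π : K)) (β e)
        = 0 := by
      rw [← hnabS, hSa, nab_sum]
      refine Finset.sum_congr rfl fun e _ => ?_
      rw [nab_mul_of_derivative]
      exact derivative_pow_p p X _ (Dvd.dvd.mul_left hpGa e)
    -- the degree bound
    have hbound : ∀ e < M, α e ≠ 0 → ∀ e' < M + M, (e' = e ∨ e' = M + e) → β e' ≠ 0 →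
        (β e').natDegree + (Rad R).natDegree ≤ Ga := by
      intro e he hα e' he' hee hβne
      set A := (α e).natDegree with hA
      have hWdeg : (W e').natDegree ≤ A + (Rad R).natDegree := by
        have hn := natDegree_nab_le R (fun π hπ => (hR π hπ).1) hRe s (α e) A le_rfl
        rcases hee with rfl | rfl
        · rw [hW0 _ he]
          refine (natDegree_sub_le_of_le (m := A + (Rad R).natDegree)
            (n := A + (Rad R).natDegree) ?_ ?_).trans (by simp)
          · refine natDegree_mul_le.trans ?_
            omega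
          · refine natDegree_mul_le.trans ?_
            rw [natDegree_X]
            omega
        · rw [hW1 _ he]
          omega
      have hWeq : (W e').natDegree = ∑ π ∈ R, (J π % p ^ a) * π.natDegree +
          p ^ a * (β e').natDegree := by
        rw [hβ e' he', natDegree_mul (Pn_ne_zero R hne _) (pow_ne_zero _ hβne), natDegree_Pn R hne,
          natDegree_pow]
      -- divisibility
      have hdvd : Pn R (fun π => J π % p ^ a - 1) ∣ α e := by
        have hsum : Rad R * α e = W e + X * W (M + e) := by
          rw [hW0 _ he, hW1 _ he]; ring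
        have hd1 : Pn R (fun π => J π % p ^ a) ∣ Rad R * α e := by
          rw [hsum, hβ e (by omega), hβ (M + e) (by omega)]
          exact dvd_add (dvd_mul_right _ _) (Dvd.dvd.mul_left (dvd_mul_right _ _) _)
        apply Pn_dvd R hR
        intro π hπ
        by_cases h0 : J π % p ^ a = 0
        · rw [h0]; simp
        · have h1 : π ^ (J π % p ^ a) ∣ Rad R * α e :=
            (Finset.dvd_prod_of_mem (fun π => π ^ (J π % p ^ a)) hπ).trans hd1
          have h2 : Rad R = π * ∏ ρ ∈ R.erase π, ρ := (Finset.mul_prod_erase R id hπ).symm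
          obtain ⟨k, hk⟩ := Nat.exists_eq_succ_of_ne_zero h0
          have hk' : J π % p ^ a = k + 1 := hk
          rw [hk', pow_succ, h2, mul_comm (π ^ k) π, mul_assoc] at h1
          have h3 := (mul_dvd_mul_iff_left (hne π hπ)).mp h1
          have h4 : IsCoprime (π ^ k) (∏ ρ ∈ R.erase π, ρ) := by
            apply IsCoprime.pow_left
            apply IsCoprime.prod_right
            intro ρ hρ
            rw [Finset.mem_erase] at hρ
            exact coprime_of_ne π ρ (hR π hπ).1 (hR ρ hρ.2).1 (hR π hπ).2 (hR ρ hρ.2).2 hρ.1.symm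
          have h5 := h4.dvd_of_dvd_mul_left h3
          simpa [hk'] using h5
      have hBA : ∑ π ∈ R, (J π % p ^ a - 1) * π.natDegree ≤ A := by
        rw [← natDegree_Pn R hne]
        exact natDegree_le_of_dvd hdvd hα
      -- the termwise inequality
      have hterm : ∀ π ∈ R, (1 + p ^ a) * π.natDegree ≤ ρ * (c π * π.natDegree) +
          (J π % p ^ a) * π.natDegree + (ρ * v - 1) * ((J π % p ^ a - 1) * π.natDegree) := by
        intro π hπ
        obtain ⟨hc1, hc2⟩ := hc π hπ
        have hkey : 1 + p ^ a ≤ ρ * c π + J π % p ^ a + (ρ * v - 1) * (J π % p ^ a - 1) := by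
          by_cases h0 : J π % p ^ a = 0
          · rw [h0]
            rcases Nat.eq_zero_or_pos a with ha0 | ha0
            · subst ha0
              simp only [pow_zero]
              nlinarith
            · -- `p ^ a ∣ v - c`
              have h1 : p ^ a ∣ J π := Nat.dvd_of_mod_eq_zero h0
              have h2 : p ^ a ∣ v * J π := Dvd.dvd.mul_left h1 _
              have h3 : v * J π = (v - c π) + c π * p ^ κ := by
                rw [hJ, ← hvh]
                dsimp only
                obtain ⟨d, hd⟩ := Nat.exists_eq_add_of_lt hc2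
                rw [hd]
                have : c π + d + 1 - c π = d + 1 := by omega
                rw [this]
                ring
              rw [h3] at h2
              have h4 : p ^ a ∣ c π * p ^ κ := Dvd.dvd.mul_left (pow_dvd_pow p haκ.le) _
              have h5 : p ^ a ∣ v - c π := (Nat.dvd_add_iff_left h4).mpr h2
              have := hcond a ha0 haκ (c π) hc1 hc2 h5
              simp only [zero_tsub, mul_zero, add_zero]
              omega
          · obtain ⟨k, hk⟩ := Nat.exists_eq_succ_of_ne_zero h0
            have hk' : J π % p ^ a = k + 1 := hk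
            rw [hk']
            simp only [Nat.add_sub_cancel]
            -- `p ^ a ∣ c + k v`
            have h1 : p ^ a ∣ c π + v * k := by
              have h2 : v * J π + c π = v + c π * p ^ κ := by
                rw [hJ, ← hvh]
                ring
              have h3 : v * (J π % p ^ a) + c π = v + v * k + c π := by rw [hk']; ring
              have h4 : J π = J π % p ^ a + p ^ a * (J π / p ^ a) := (Nat.mod_add_div _ _).symm
              have h5 : v * (J π % p ^ a) + v * (p ^ a * (J π / p ^ a)) + c π =
                  v + c π * p ^ κ := by rw [← mul_add, ← h4, h2]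
              have h6 : (c π + v * k) + p ^ a * (v * (J π / p ^ a)) = c π * p ^ κ := by
                have h7 : v * (p ^ a * (J π / p ^ a)) = p ^ a * (v * (J π / p ^ a)) := by ring
                have h8 : v * (J π % p ^ a) = v + v * k := by rw [hk']; ring
                rw [h7, h8] at h5
                omega
              have h9 : p ^ a ∣ c π * p ^ κ := Dvd.dvd.mul_left (pow_dvd_pow p haκ.le) _
              rw [← h6] at h9
              exact (Nat.dvd_add_iff_left (dvd_mul_right _ _)).mpr h9
            have h2 : p ^ a ≤ c π + v * k := Nat.le_of_dvd (by omega) h1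
            have h3 : 1 ≤ ρ * v := Nat.one_le_iff_ne_zero.mpr (by positivity)
            obtain ⟨m, hm⟩ : ∃ m, ρ * v = m + 1 := ⟨ρ * v - 1, by omega⟩
            rw [hm, Nat.add_sub_cancel]
            have h4 : c π + v * k ≤ ρ * (c π + v * k) := Nat.le_mul_of_pos_left _ (by omega)
            have h5 : ρ * (c π + v * k) = ρ * c π + (m + 1) * k := by rw [← hm]; ring
            rw [h5] at h4
            have h6 : (m + 1) * k = m * k + k := by ring
            omega
        calc (1 + p ^ a) * π.natDegree
            ≤ (ρ * c π + J π % p ^ a + (ρ * v - 1) * (J π % p ^ a - 1)) * π.natDegree :=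
              Nat.mul_le_mul_right _ hkey
          _ = _ := by ring
      have hsumterm := Finset.sum_le_sum hterm
      rw [← Finset.mul_sum, Finset.sum_add_distrib, Finset.sum_add_distrib, ← Finset.mul_sum,
        ← Finset.mul_sum, ← natDegree_Rad R hne] at hsumterm
      set dR := (Rad R).natDegree with hdR
      set CR := ∑ π ∈ R, c π * π.natDegree with hCR
      set JR := ∑ π ∈ R, (J π % p ^ a) * π.natDegree with hJR
      set BR := ∑ π ∈ R, (J π % p ^ a - 1) * π.natDegree with hBR
      have hd := hdeg e he hα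
      obtain ⟨m, hm⟩ : ∃ m, ρ * v = m + 1 := ⟨ρ * v - 1, by
        have : 1 ≤ ρ * v := Nat.one_le_iff_ne_zero.mpr (by positivity)
        omega⟩
      rw [hm, Nat.add_sub_cancel] at hsumterm
      have h1 : m * BR ≤ m * A := Nat.mul_le_mul_left _ hBA
      have h2 : ρ * (v * A + CR) = m * A + A + ρ * CR := by
        have : ρ * (v * A + CR) = (ρ * v) * A + ρ * CR := by ring
        rw [this, hm]; ring
      rw [h2, hGGa] at hd
      have h3 : p ^ a * ((β e').natDegree + dR) < p ^ a * Ga := by
        have h4 : p ^ a * ((β e').natDegree + dR) = p ^ a * (β e').natDegree + p ^ a * dR := by ring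
        have h5 : (1 + p ^ a) * dR = dR + p ^ a * dR := by ring
        rw [h5] at hsumterm
        rw [h4]
        omega
      exact (Nat.lt_of_mul_lt_mul_left h3).le
    -- all twisted derivatives vanish
    have hvanish : ∀ e < M + M, nab R (fun π => -(j π : K)) (β e) = 0 := by
      apply gap_lemma (M + M) Ga _ _ hnabsum
      intro e' he' hne'
      have hβne : β e' ≠ 0 := by
        intro h0
        apply hne'
        rw [h0, nab_zero]
      obtain ⟨e, he, hee⟩ : ∃ e < M, (e' = e ∨ e' = M + e) := by
        by_cases h1 : e' < M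
        · exact ⟨e', h1, Or.inl rfl⟩
        · exact ⟨e' - M, by omega, Or.inr (by omega)⟩
      have hα : α e ≠ 0 := by
        intro h0
        have hWz : W e' = 0 := by
          rcases hee with rfl | rfl
          · rw [hW0 _ he, h0, nab_zero]; simp
          · rw [hW1 _ he, h0, nab_zero]
        rw [hβ e' he'] at hWz
        rcases mul_eq_zero.mp hWz with h1 | h1
        · exact Pn_ne_zero R hne _ h1
        · exact hβne (pow_eq_zero_iff (pow_ne_zero _ hp.out.ne_zero) |>.mp h1)
      have h1 := hbound e he hα e' he' hee hβne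
      have h2 := natDegree_nab_le R (fun π hπ => (hR π hπ).1) hRe (fun π => -(j π : K)) (β e')
        _ le_rfl
      omega
    -- extract the roots
    have hroot : ∀ e, ∃ γ : K[X], e < M + M → β e = Pn R j * γ ^ p := by
      intro e
      by_cases he : e < M + M
      · obtain ⟨γ, hγ⟩ := root_lemma p R hR j hjlt (β e) (hvanish e he)
        exact ⟨γ, fun _ => hγ⟩
      · exact ⟨0, fun h => absurd h he⟩
    choose γ hγ using hroot
    refine ⟨γ, fun e he => ?_⟩
    rw [hβ e he, hγ e he, mul_pow, ← pow_mul, ← Pn_mul, ← mul_assoc, ← Pn_add]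
    congr 1
    · apply Pn_congr
      intro π _
      rw [pow_succ, Nat.mod_mul]
    · rw [pow_succ, mul_comm]

end Pool.Agent.R325.MVSP
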