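import Mathlib
import Pool.Agent.R325.MVSPStep

/-!
# The core theorem
-/

set_option autoImplicit false
set_option linter.unusedSectionVars false

namespace Pool.Agent.R325.MVSP

open Polynomial

variable {K : Type} [Field K] [DecidableEq K[X]]

/-- `geo h Q i = h (1 + Q + ... + Q^(i-1))` -/
def geo (h Q : ℕ) : ℕ → ℕ
  | 0 => 0
  | i + 1 => h + Q * geo h Q i

theorem geo_prop (v h Q : ℕ) (hvh : v * h + 1 = Q) (i : ℕ) : v * geo h Q i + 1 = Q ^ i := by
  induction i with
  | zero => simp [geo]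
  | succ i ih =>
    rw [geo, pow_succ, ← ih]
    have : v * (h + Q * geo h Q i) + 1 = (v * h + 1) + v * Q * geo h Q i := by ring
    rw [this, hvh]
    ring

/-- `B_i = (∏ π ^ c π) ^ geo i * E ^ (Q ^ i)` -/
noncomputable def Bi (R : Finset K[X]) (c : K[X] → ℕ) (h Q : ℕ) (E : K[X]) (i : ℕ) : K[X] :=
  (Pn R c) ^ geo h Q i * E ^ Q ^ i

theorem Bi_succ (R : Finset K[X]) (c : K[X] → ℕ) (h Q : ℕ) (E : K[X]) (i : ℕ) :
    Bi R c h Q E (i + 1) = (Pn R c) ^ h * (Bi R c h Q E i) ^ Q := by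
  simp only [Bi, geo, pow_add, mul_pow, ← pow_mul, pow_succ]
  ring

theorem nab_Bi_succ (p : ℕ) [CharP K p] (R : Finset K[X]) (c : K[X] → ℕ) (h Q : ℕ) (hQ : p ∣ Q)
    (E : K[X]) (i : ℕ) :
    nab R (fun π => -((c π * h : ℕ) : K)) (Bi R c h Q E (i + 1)) = 0 := by
  rw [Bi_succ, ← Pn_mul, nab_Pn_mul, nab, derivative_pow_p p _ Q hQ, mul_zero, zero_add,
    Lam_zero R _ (fun π _ => by push_cast; ring), zero_mul, mul_zero]

/-- The relation `(Rel0)`: for `S` in the span of the `B_i`. -/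
theorem rel_of_mem_span (p : ℕ) [hp : Fact p.Prime] [CharP K p] [PerfectRing K p]
    (κ : ℕ) (hκ : 1 ≤ κ) (h q : ℕ) (R : Finset K[X]) (c : K[X] → ℕ) (E : K[X]) (m : ℕ)
    (w : ℕ → K) (hw0 : w 0 ≠ 0)
    (hE : Rad R * ∑ i ∈ Finset.range (m + 1), C (w i) * Bi R c h (p ^ κ) E i =
      C (w 0) * (X - X ^ q) * nab R (fun π => -((c π * h : ℕ) : K)) E)
    (S : K[X]) (hS : S ∈ Submodule.span K (Set.range (Bi R c h (p ^ κ) E))) :
    ∃ G ∈ Submodule.span K (Set.range (Bi R c h (p ^ κ) E)),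
      Rad R * S - (X - X ^ q) * nab R (fun π => -((c π * h : ℕ) : K)) S =
        Pn R (fun π => 1 + c π * h) * G ^ p ^ κ := by
  have hQ : p ∣ p ^ κ := dvd_pow_self p (by omega)
  have hPJ : Pn R (fun π => 1 + c π * h) = Rad R * (Pn R c) ^ h := by
    rw [Pn_add, Pn_one]
    congr 1
    rw [← Pn_mul]
    exact Pn_congr R _ _ fun π _ => mul_comm _ _
  have hfrob : ∀ x : K, ∃ y : K, y ^ p ^ κ = x := by
    intro x
    refine ⟨(iterateFrobeniusEquiv K p κ).symm x, ?_⟩
    have := (iterateFrobeniusEquiv K p κ).apply_symm_apply x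
    rwa [iterateFrobeniusEquiv_apply, iterateFrobenius_def] at this
  induction hS using Submodule.span_induction with
  | mem x hx =>
    obtain ⟨i, rfl⟩ := hx
    rcases Nat.eq_zero_or_pos i with rfl | hi
    · -- `B_0 = E`
      have hB0 : Bi R c h (p ^ κ) E 0 = E := by simp [Bi, geo]
      choose f hf using hfrob
      refine ⟨∑ i ∈ Finset.range m, C (f (-(w (i + 1) / w 0))) * Bi R c h (p ^ κ) E i, ?_, ?_⟩
      · apply Submodule.sum_mem
        intro i _
        rw [← smul_eq_C_mul]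
        exact Submodule.smul_mem _ _ (Submodule.subset_span ⟨i, rfl⟩)
      · rw [hB0]
        have h1 : (X - X ^ q) * nab R (fun π => -((c π * h : ℕ) : K)) E =
            C (w 0)⁻¹ * (Rad R * ∑ i ∈ Finset.range (m + 1), C (w i) * Bi R c h (p ^ κ) E i) := by
          rw [hE, ← mul_assoc, ← mul_assoc, ← C_mul, inv_mul_cancel₀ hw0, C_1, one_mul]
        rw [h1, Finset.sum_range_succ', hB0, hPJ, sum_pow_char_pow]
        have h2 : C (w 0)⁻¹ * (Rad R * (∑ k ∈ Finset.range m, C (w (k + 1)) *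
            Bi R c h (p ^ κ) E (k + 1) + C (w 0) * E)) = Rad R * (∑ k ∈ Finset.range m,
            C (w (k + 1) / w 0) * Bi R c h (p ^ κ) E (k + 1)) + Rad R * E := by
          rw [mul_add (Rad R), mul_add (C (w 0)⁻¹)]
          congr 1
          · rw [Finset.mul_sum, Finset.mul_sum, Finset.mul_sum]
            refine Finset.sum_congr rfl fun k _ => ?_
            rw [div_eq_mul_inv, C_mul]
            ring
          · have : (C (w 0)⁻¹ * C (w 0) : K[X]) = 1 := by
              rw [← C_mul, inv_mul_cancel₀ hw0, C_1]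
            linear_combination Rad R * E * this
        rw [h2, Finset.mul_sum, Finset.mul_sum]
        have h3 : ∑ i ∈ Finset.range m, Rad R * Pn R c ^ h *
            (C (f (-(w (i + 1) / w 0))) * Bi R c h (p ^ κ) E i) ^ p ^ κ =
            -∑ i ∈ Finset.range m, Rad R * (C (w (i + 1) / w 0) * Bi R c h (p ^ κ) E (i + 1)) := by
          rw [← Finset.sum_neg_distrib]
          refine Finset.sum_congr rfl fun k _ => ?_
          rw [mul_pow, ← C_pow, hf, Bi_succ, C_neg]
          ring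
        rw [h3]
        ring
    · obtain ⟨i, rfl⟩ : ∃ k, i = k + 1 := ⟨i - 1, by omega⟩
      refine ⟨Bi R c h (p ^ κ) E i, Submodule.subset_span ⟨i, rfl⟩, ?_⟩
      rw [nab_Bi_succ p R c h _ hQ, mul_zero, sub_zero, Bi_succ, hPJ]
      ring
  | zero => exact ⟨0, Submodule.zero_mem _, by simp [nab_zero, hp.out.ne_zero]⟩
  | add x y _ _ hx hy =>
    obtain ⟨G₁, h1, e1⟩ := hx
    obtain ⟨G₂, h2, e2⟩ := hy
    refine ⟨G₁ + G₂, Submodule.add_mem _ h1 h2, ?_⟩
    rw [nab_add, add_pow_char_pow, mul_add, mul_add (X - X ^ q), mul_add (Pn R _), ← e1, ← e2]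
    ring
  | smul a x _ hx =>
    obtain ⟨G, h1, e1⟩ := hx
    obtain ⟨b, hb⟩ := hfrob a
    refine ⟨b • G, Submodule.smul_mem _ _ h1, ?_⟩
    rw [smul_eq_C_mul, smul_eq_C_mul, nab_C_mul, mul_pow, ← C_pow, hb]
    linear_combination C a * e1

/-- One level of the induction. -/
theorem level_step (p : ℕ) [hp : Fact p.Prime] [CharP K p] [PerfectRing K p]
    (κ v h ρ : ℕ) (hκ : 1 ≤ κ) (hvh : v * h + 1 = p ^ κ) (hρ : 2 ≤ ρ) (hv1 : 1 ≤ v)
    (hcond : ∀ a, 1 ≤ a → a < κ → ∀ c, 1 ≤ c → c < v → p ^ a ∣ v - c → p ^ a + 1 ≤ ρ * c)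
    (R : Finset K[X]) (hR : ∀ π ∈ R, Irreducible π ∧ π.Monic) (hRe : R ≠ ∅)
    (c : K[X] → ℕ) (hc : ∀ π ∈ R, 1 ≤ c π ∧ c π < v) (E : K[X]) (m : ℕ)
    (w : ℕ → K) (hw0 : w 0 ≠ 0) (q : ℕ)
    (hE : Rad R * ∑ i ∈ Finset.range (m + 1), C (w i) * Bi R c h (p ^ κ) E i =
      C (w 0) * (X - X ^ q) * nab R (fun π => -((c π * h : ℕ) : K)) E)
    (M G' : ℕ) (hMG : M * (p ^ κ * G') = q) (α : ℕ → K[X]) (hex : ∃ e < M, α e ≠ 0)
    (hdeg : ∀ e < M, α e ≠ 0 →
      ρ * (v * (α e).natDegree + ∑ π ∈ R, c π * π.natDegree) < p ^ κ * G')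
    (hspan : ∑ e ∈ Finset.range M, X ^ (e * (p ^ κ * G')) * α e ∈
      Submodule.span K (Set.range (Bi R c h (p ^ κ) E))) :
    ∃ α' : ℕ → K[X], (∃ e < M * p ^ κ, α' e ≠ 0) ∧
      (∀ e < M * p ^ κ, α' e ≠ 0 →
        ρ * (v * (α' e).natDegree + ∑ π ∈ R, c π * π.natDegree) < G') ∧
      ∑ e ∈ Finset.range (M * p ^ κ), X ^ (e * G') * α' e ∈
        Submodule.span K (Set.range (Bi R c h (p ^ κ) E)) := by
  have hne : ∀ π ∈ R, π ≠ 0 := fun π hπ => (hR π hπ).1.ne_zero
  have hQ : p ∣ p ^ κ := dvd_pow_self p (by omega)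
  have hQ2 : 2 ≤ p ^ κ := by
    calc 2 ≤ p := hp.out.two_le
      _ = p ^ 1 := (pow_one p).symm
      _ ≤ p ^ κ := Nat.pow_le_pow_right hp.out.pos hκ
  have hh1 : 1 ≤ h := by
    rcases Nat.eq_zero_or_pos h with h0 | h0
    · rw [h0] at hvh; omega
    · exact h0
  set s : K[X] → K := fun π => -((c π * h : ℕ) : K) with hs
  obtain ⟨Gz, hGz, hrel⟩ := rel_of_mem_span p κ hκ h q R c E m w hw0 hE _ hspan
  set W : ℕ → K[X] := fun e => if e < M then Rad R * α e - X * nab R s (α e)
    else nab R s (α (e - M)) with hW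
  have hW0 : ∀ e < M, W e = Rad R * α e - X * nab R s (α e) := by
    intro e he
    simp only [hW, he, if_true]
  have hW1 : ∀ e < M, W (M + e) = nab R s (α e) := by
    intro e he
    have : ¬ (M + e < M) := by omega
    simp only [hW, this, if_false, Nat.add_sub_cancel_left]
  have hrelW : ∑ e ∈ Finset.range (M + M), X ^ (e * (p ^ κ * G')) * W e =
      Pn R (fun π => 1 + c π * h) * Gz ^ p ^ κ := by
    rw [← hrel, Finset.sum_range_add, nab_sum, Finset.mul_sum, Finset.mul_sum,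
      ← Finset.sum_sub_distrib, ← Finset.sum_add_distrib]
    refine Finset.sum_congr rfl fun e he => ?_
    rw [Finset.mem_range] at he
    rw [hW0 e he, hW1 e he, nab_mul_of_derivative R s (X ^ (e * (p ^ κ * G'))) _
      (derivative_pow_p p X _ (Dvd.dvd.mul_left (Dvd.dvd.mul_right hQ _) e)), add_mul, hMG, pow_add]
    ring
  obtain ⟨β, hβ⟩ := sublevel p κ v h ρ hvh hρ hv1 hcond R hR hRe c hc M G' α hdeg W hW0 hW1 Gz
    hrelW κ le_rfl
  -- simplify `J % Q`
  have hJ : Pn R (fun π => (1 + c π * h) % p ^ κ) = Pn R (fun π => 1 + c π * h) := by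
    apply Pn_congr
    intro π hπ
    apply Nat.mod_eq_of_lt
    obtain ⟨h1, h2⟩ := hc π hπ
    have h3 : (c π + 1) * h ≤ v * h := Nat.mul_le_mul_right _ h2
    have h4 : (c π + 1) * h = c π * h + h := by ring
    omega
  rw [hJ] at hβ
  set PJ := Pn R (fun π => 1 + c π * h) with hPJ
  have hPJ0 : PJ ≠ 0 := Pn_ne_zero R hne _
  have hsumβ : ∑ e ∈ Finset.range (M + M), X ^ (e * G') * β e = Gz := by
    apply pow_char_pow_inj p κ
    apply mul_left_cancel₀ hPJ0
    rw [← hrelW, sum_pow_char_pow, Finset.mul_sum]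
    refine Finset.sum_congr rfl fun e he => ?_
    rw [Finset.mem_range] at he
    rw [hβ e he, mul_pow, ← pow_mul]
    have : e * G' * p ^ κ = e * (p ^ κ * G') := by ring
    rw [this]
    ring
  have h2M : M + M ≤ M * p ^ κ := by nlinarith
  refine ⟨fun e => if e < M + M then β e else 0, ?_, ?_, ?_⟩
  · obtain ⟨e, he, hα⟩ := hex
    by_contra hcon
    push Not at hcon
    have hz : ∀ e' < M + M, β e' = 0 := by
      intro e' he'
      have := hcon e' (by omega)
      simpa [he'] using this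
    have hsum : Rad R * α e = W e + X * W (M + e) := by
      rw [hW0 _ he, hW1 _ he]; ring
    rw [hβ e (by omega), hβ (M + e) (by omega), hz e (by omega), hz (M + e) (by omega)] at hsum
    have hp0 : p ^ κ ≠ 0 := by omega
    rw [zero_pow hp0] at hsum
    simp only [mul_zero, add_zero] at hsum
    rcases mul_eq_zero.mp hsum with h1 | h1
    · exact Rad_ne_zero R hne h1
    · exact hα h1
  · intro e' he' hne'
    by_cases h2 : e' < M + M
    · simp only [h2, if_true] at hne' ⊢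
      obtain ⟨e, he, hee⟩ : ∃ e < M, (e' = e ∨ e' = M + e) := by
        by_cases h1 : e' < M
        · exact ⟨e', h1, Or.inl rfl⟩
        · exact ⟨e' - M, by omega, Or.inr (by omega)⟩
      have hα : α e ≠ 0 := by
        intro h0
        have hWz : W e' = 0 := by
          rcases hee with rfl | rfl
          · rw [hW0 _ he, h0, nab_zero]; simp
          · rw [hW1 _ he, h0, nab_zero]
        rw [hβ e' h2] at hWz
        rcases mul_eq_zero.mp hWz with h1 | h1
        · exact hPJ0 h1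
        · exact hne' (pow_eq_zero_iff (by omega) |>.mp h1)
      have hWdeg : (W e').natDegree ≤ (α e).natDegree + (Rad R).natDegree := by
        have hn := natDegree_nab_le R (fun π hπ => (hR π hπ).1) hRe s (α e) _ le_rfl
        rcases hee with rfl | rfl
        · rw [hW0 _ he]
          refine (natDegree_sub_le_of_le (m := (α e').natDegree + (Rad R).natDegree)
            (n := (α e').natDegree + (Rad R).natDegree) ?_ ?_).trans (by simp)
          · refine natDegree_mul_le.trans ?_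
            omega
          · refine natDegree_mul_le.trans ?_
            rw [natDegree_X]
            omega
        · rw [hW1 _ he]
          omega
      rw [hβ e' h2, natDegree_mul hPJ0 (pow_ne_zero _ hne'), natDegree_pow, hPJ,
        natDegree_Pn R hne, natDegree_Rad R hne] at hWdeg
      have h3 : ∑ π ∈ R, (1 + c π * h) * π.natDegree =
          ∑ π ∈ R, π.natDegree + h * ∑ π ∈ R, c π * π.natDegree := by
        rw [Finset.mul_sum, ← Finset.sum_add_distrib]
        exact Finset.sum_congr rfl fun π _ => by ring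
      rw [h3] at hWdeg
      set CR := ∑ π ∈ R, c π * π.natDegree with hCR
      set b := (β e').natDegree with hb
      set A := (α e).natDegree with hA
      have h4 : h * CR + p ^ κ * b ≤ A := by omega
      have h5 := hdeg e he hα
      have h6 : p ^ κ * (ρ * (v * b + CR)) ≤ ρ * (v * A + CR) := by
        have h7 : v * (h * CR + p ^ κ * b) ≤ v * A := Nat.mul_le_mul_left _ h4
        have h8 : p ^ κ * (v * b + CR) ≤ v * A + CR := by
          have h9 : p ^ κ * (v * b + CR) = v * (p ^ κ * b) + (v * h + 1) * CR := by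
            rw [hvh]; ring
          rw [h9]
          have h10 : v * (h * CR + p ^ κ * b) = v * (p ^ κ * b) + v * h * CR := by ring
          have h11 : (v * h + 1) * CR = v * h * CR + CR := by ring
          omega
        calc p ^ κ * (ρ * (v * b + CR)) = ρ * (p ^ κ * (v * b + CR)) := by ring
          _ ≤ ρ * (v * A + CR) := Nat.mul_le_mul_left _ h8
      exact Nat.lt_of_mul_lt_mul_left (lt_of_le_of_lt h6 h5)
    · simp only [h2, if_false] at hne'
      exact absurd rfl hne'
  · have h1 : ∑ e ∈ Finset.range (M * p ^ κ), X ^ (e * G') * (if e < M + M then β e else 0) =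
        Gz := by
      rw [← hsumβ]
      symm
      have h2 : Finset.range (M + M) ⊆ Finset.range (M * p ^ κ) := Finset.range_subset_range.mpr h2M
      rw [← Finset.sum_subset h2]
      · refine Finset.sum_congr rfl fun e he => ?_
        rw [Finset.mem_range] at he
        rw [if_pos he]
      · intro e _ he
        rw [Finset.mem_range] at he
        rw [if_neg he, mul_zero]
    rw [h1]
    exact hGz

/-- The core theorem. -/
theorem core (p : ℕ) [hp : Fact p.Prime] [CharP K p] [PerfectRing K p]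
    (κ v h ρ N : ℕ) (hκ : 1 ≤ κ) (hvh : v * h + 1 = p ^ κ) (hρ : 2 ≤ ρ) (hv1 : 1 ≤ v)
    (hcond : ∀ a, 1 ≤ a → a < κ → ∀ c, 1 ≤ c → c < v → p ^ a ∣ v - c → p ^ a + 1 ≤ ρ * c)
    (R : Finset K[X]) (hR : ∀ π ∈ R, Irreducible π ∧ π.Monic)
    (c : K[X] → ℕ) (hc : ∀ π ∈ R, 1 ≤ c π ∧ c π < v) (E : K[X]) (hE0 : E ≠ 0) (m : ℕ)
    (w : ℕ → K) (hw0 : w 0 ≠ 0)
    (hE : Rad R * ∑ i ∈ Finset.range (m + 1), C (w i) * Bi R c h (p ^ κ) E i =
      C (w 0) * (X - X ^ ((p ^ κ) ^ N)) * nab R (fun π => -((c π * h : ℕ) : K)) E)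
    (hdeg : ρ * (v * E.natDegree + ∑ π ∈ R, c π * π.natDegree) < (p ^ κ) ^ N) : R = ∅ := by
  by_contra hRe
  have key : ∀ l, l ≤ N → ∃ α : ℕ → K[X], (∃ e < (p ^ κ) ^ l, α e ≠ 0) ∧
      (∀ e < (p ^ κ) ^ l, α e ≠ 0 →
        ρ * (v * (α e).natDegree + ∑ π ∈ R, c π * π.natDegree) < (p ^ κ) ^ (N - l)) ∧
      ∑ e ∈ Finset.range ((p ^ κ) ^ l), X ^ (e * (p ^ κ) ^ (N - l)) * α e ∈
        Submodule.span K (Set.range (Bi R c h (p ^ κ) E)) := by
    intro l
    induction l with
    | zero =>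
      intro _
      refine ⟨fun _ => E, ⟨0, by simp, hE0⟩, fun e _ _ => by simpa using hdeg, ?_⟩
      rw [pow_zero, Finset.sum_range_one, zero_mul, pow_zero, one_mul]
      apply Submodule.subset_span
      exact ⟨0, by simp [Bi, geo]⟩
    | succ l ih =>
      intro hl
      obtain ⟨α, h1, h2, h3⟩ := ih (by omega)
      have hNl : (p ^ κ) ^ (N - l) = p ^ κ * (p ^ κ) ^ (N - (l + 1)) := by
        rw [← pow_succ']
        congr 1
        omega
      rw [hNl] at h2 h3
      have := level_step p κ v h ρ hκ hvh hρ hv1 hcond R hR hRe c hc E m w hw0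
        ((p ^ κ) ^ N) hE ((p ^ κ) ^ l) ((p ^ κ) ^ (N - (l + 1))) (by
          rw [← hNl, ← pow_add]
          congr 1
          omega) α h1 h2 h3
      rw [← pow_succ] at this
      exact this
  obtain ⟨α, ⟨e, he, hα⟩, h2, -⟩ := key N le_rfl
  have h3 := h2 e he hα
  rw [Nat.sub_self, pow_zero] at h3
  have h4 : 1 ≤ ∑ π ∈ R, c π * π.natDegree := by
    obtain ⟨π, hπ⟩ := Finset.nonempty_iff_ne_empty.mpr hRe
    have h5 : 1 ≤ c π * π.natDegree := by
      have h6 := (hc π hπ).1
      have h7 := (hR π hπ).1.natDegree_pos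
      exact Nat.one_le_iff_ne_zero.mpr (by positivity)
    exact h5.trans (Finset.single_le_sum (f := fun π => c π * π.natDegree)
      (fun _ _ => Nat.zero_le _) hπ)
  have h5 : 1 ≤ ρ * (v * (α e).natDegree + ∑ π ∈ R, c π * π.natDegree) := by
    apply Nat.one_le_iff_ne_zero.mpr
    have : 0 < v * (α e).natDegree + ∑ π ∈ R, c π * π.natDegree := by omega
    positivity
  omega

end Pool.Agent.R325.MVSP
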