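import Mathlib

/-!
# Minimal value set polynomials: definitions
-/

set_option autoImplicit false

namespace Pool.Agent.R325.MVSP

open Polynomial

variable {K : Type} [Field K]

/-- The value set `V_F = {F(a) : a ∈ K}`. -/
def valueSet (F : K[X]) : Set K := Set.range (fun a : K => F.eval a)

/-- `F` is a minimal value set polynomial over the finite field `K`:
it is nonconstant and `#V_F = ⌊(q - 1) / deg F⌋ + 1`, `q = #K`. -/
def IsMVSP (F : K[X]) : Prop :=
  0 < F.natDegree ∧ (valueSet F).ncard = (Nat.card K - 1) / F.natDegree + 1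

/-- `𝒫(S, q)`: the minimal value set polynomials over `K` with value set `S`. -/
def MVSPs (S : Set K) : Set K[X] := {F | IsMVSP F ∧ valueSet F = S}

/-- `S ^ v = {s ^ v : s ∈ S}`. -/
def powSet (S : Set K) (v : ℕ) : Set K := (fun s => s ^ v) '' S

end Pool.Agent.R325.MVSP
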