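import Mathlib
import Pool.Agent.R325.MVSPCore

/-!
# From the differential relation to `F = λ E^v`
-/

set_option autoImplicit false
set_option linter.unusedSectionVars false

namespace Pool.Agent.R325.MVSP

open Polynomial

variable {K : Type} [Field K]

/-- The differential relation. -/
theorem diff_relation (q v h Q m : ℕ) (hvh : v * h + 1 = Q) (hQ0 : (Q : K) = 0)
    (hq0 : (q : K) = 0) (F : K[X]) (hF : 0 < F.natDegree) (w : ℕ → K)
    (hρ : 2 ≤ geo h Q m) (hdeg : geo h Q m * F.natDegree < q)
    (hdvd : (X ^ q - X : K[X]) ∣ ∑ i ∈ Finset.range (m + 1), C (w i) * F ^ (geo h Q i + 1)) :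
    ∑ i ∈ Finset.range (m + 1), C (w i) * F ^ (geo h Q i + 1) =
      C (w 0 * h) * (X ^ q - X) * derivative F := by
  have hF0 : F ≠ 0 := by rintro rfl; simp at hF
  obtain ⟨ω, hω⟩ := hdvd
  set D := F.natDegree with hD
  have hq2 : 2 * D < q := lt_of_le_of_lt (Nat.mul_le_mul_right _ hρ) hdeg
  have hq1 : 1 < q := by omega
  have hXq0 : (X ^ q - X : K[X]) ≠ 0 := by
    intro h0
    have := congrArg (fun f => coeff f 1) h0
    simp [coeff_X_pow, show (1 : ℕ) ≠ q by omega] at this
  have hXqdeg : (X ^ q - X : K[X]).natDegree = q := by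
    rw [natDegree_sub_eq_left_of_natDegree_lt]
    · exact natDegree_X_pow q
    · rw [natDegree_X, natDegree_X_pow]; exact hq1
  -- `geo i = h` in `K` for `i ≥ 1`
  have hvhK : (v : K) * h = -1 := by
    have : (v : K) * h + 1 = 0 := by rw [← hQ0, ← hvh]; push_cast; ring
    linear_combination this
  have hgeo : ∀ i, 1 ≤ i → (geo h Q i : K) = h := by
    intro i hi
    obtain ⟨j, rfl⟩ : ∃ j, i = j + 1 := ⟨i - 1, by omega⟩
    rw [geo]; push_cast; rw [hQ0]; ring
  -- derivative of the sum
  have hder : F * derivative (∑ i ∈ Finset.range (m + 1), C (w i) * F ^ (geo h Q i + 1)) =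
      C ((h : K) + 1) * (∑ i ∈ Finset.range (m + 1), C (w i) * F ^ (geo h Q i + 1)) * derivative F -
        C (h * w 0) * F * derivative F := by
    rw [derivative_sum, Finset.mul_sum]
    have hterm : ∀ i ∈ Finset.range (m + 1), F * derivative (C (w i) * F ^ (geo h Q i + 1)) =
        C ((h : K) + 1) * (C (w i) * F ^ (geo h Q i + 1)) * derivative F -
          (if i = 0 then C (h * w 0) * F * derivative F else 0) := by
      intro i _
      rw [derivative_C_mul, derivative_pow]
      simp only [Nat.add_sub_cancel]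
      rcases Nat.eq_zero_or_pos i with rfl | hi
      · simp only [geo, if_true]
        simp only [map_add, map_mul, map_one, map_natCast, Nat.cast_add, Nat.cast_zero,
          Nat.cast_one, zero_add, pow_zero, pow_one]
        ring
      · rw [if_neg (by omega)]
        have : (((geo h Q i + 1 : ℕ) : K)) = h + 1 := by push_cast; rw [hgeo i hi]
        rw [this]
        ring
    rw [Finset.sum_congr rfl hterm, Finset.sum_sub_distrib, Finset.sum_ite_eq',
      if_pos (by simp), ← Finset.sum_mul, ← Finset.mul_sum]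
  rw [hω] at hder
  have hder2 : derivative ((X ^ q - X : K[X]) * ω) = -ω + (X ^ q - X) * derivative ω := by
    rw [derivative_mul, derivative_sub, derivative_X, derivative_X_pow, hq0]
    simp
  rw [hder2] at hder
  have hkey : F * (C (h * w 0) * derivative F - ω) =
      (X ^ q - X) * (C ((h : K) + 1) * ω * derivative F - F * derivative ω) := by
    linear_combination hder
  -- degree of `ω`
  have hωdeg : ω.natDegree + 1 ≤ D ∨ ω = 0 := by
    by_cases hω0 : ω = 0
    · exact Or.inr hω0
    left
    have h1 : ((X ^ q - X : K[X]) * ω).natDegree = q + ω.natDegree := by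
      rw [natDegree_mul hXq0 hω0, hXqdeg]
    have hmono : ∀ i, i ≤ m → geo h Q i ≤ geo h Q m := by
      intro i hi
      have e1 := geo_prop v h Q hvh i
      have e2 := geo_prop v h Q hvh m
      have hQpos : 0 < Q := by omega
      have e3 : Q ^ i ≤ Q ^ m := Nat.pow_le_pow_right hQpos hi
      have hv0 : 0 < v := by
        rcases Nat.eq_zero_or_pos v with h0 | h0
        · rw [h0] at e2
          simp at e2
          -- then Q ^ m = 1 and geo is bounded; use Q = 1
          rw [h0] at hvh
          simp at hvh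
          exfalso
          have : (1 : K) = 0 := by rw [← hQ0, ← hvh]; simp
          exact one_ne_zero this
        · exact h0
      have e4 : v * geo h Q i ≤ v * geo h Q m := by omega
      exact Nat.le_of_mul_le_mul_left e4 hv0
    have h2 : (∑ i ∈ Finset.range (m + 1), C (w i) * F ^ (geo h Q i + 1)).natDegree ≤
        (geo h Q m + 1) * D := by
      apply natDegree_sum_le_of_forall_le
      intro i hi
      rw [Finset.mem_range] at hi
      refine (natDegree_C_mul_le _ _).trans (natDegree_pow_le.trans ?_)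
      exact Nat.mul_le_mul_right _ (by have := hmono i (by omega); omega)
    rw [hω, h1] at h2
    have h3 : (geo h Q m + 1) * D = geo h Q m * D + D := by ring
    omega
  have hzero : C (h * w 0) * derivative F - ω = 0 := by
    by_contra hne
    have hR0 : C ((h : K) + 1) * ω * derivative F - F * derivative ω ≠ 0 := by
      intro h0
      rw [h0, mul_zero] at hkey
      exact (mul_ne_zero hF0 hne) hkey
    have h1 : q ≤ (F * (C (h * w 0) * derivative F - ω)).natDegree := by
      rw [hkey, natDegree_mul hXq0 hR0, hXqdeg]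
      omega
    rw [natDegree_mul hF0 hne] at h1
    have h2 : (C (h * w 0) * derivative F - ω).natDegree ≤ D := by
      refine (natDegree_sub_le_of_le (m := D) (n := D) ?_ ?_).trans (by simp)
      · refine (natDegree_C_mul_le _ _).trans ?_
        exact (natDegree_derivative_lt hF.ne').le
      · rcases hωdeg with h3 | h3
        · omega
        · rw [h3]; simp
    omega
  have hω' : ω = C (h * w 0) * derivative F := (sub_eq_zero.mp hzero).symm
  rw [hω, hω', mul_comm (w 0)]
  ring

/-- Factorisation `F = λ (∏ π ^ c π) E ^ v`. -/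
theorem exists_factorisation [DecidableEq K[X]] (F : K[X]) (hF : F ≠ 0) (v : ℕ) (hv : 1 ≤ v) :
    ∃ (R : Finset K[X]) (c : K[X] → ℕ) (lam : K) (E : K[X]),
      (∀ π ∈ R, Irreducible π ∧ π.Monic) ∧ (∀ π ∈ R, 1 ≤ c π ∧ c π < v) ∧ lam ≠ 0 ∧ E ≠ 0 ∧
      F = C lam * Pn R c * E ^ v := by
  classical
  set s := UniqueFactorizationMonoid.normalizedFactors F with hs
  have hirr : ∀ π ∈ s, Irreducible π := fun π hπ =>
    UniqueFactorizationMonoid.irreducible_of_normalized_factor π hπ
  have hmon : ∀ π ∈ s, π.Monic := by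
    intro π hπ
    rw [← UniqueFactorizationMonoid.normalize_normalized_factor π hπ]
    exact monic_normalize (hirr π hπ).ne_zero
  set fs := s.toFinset with hfs
  set mult : K[X] → ℕ := fun π => s.count π with hmult
  have hmem : ∀ π ∈ fs, Irreducible π ∧ π.Monic := by
    intro π hπ
    rw [hfs, Multiset.mem_toFinset] at hπ
    exact ⟨hirr π hπ, hmon π hπ⟩
  refine ⟨fs.filter (fun π => ¬ v ∣ mult π), fun π => mult π % v, F.leadingCoeff,
    ∏ π ∈ fs, π ^ (mult π / v), ?_, ?_, leadingCoeff_ne_zero.mpr hF, ?_, ?_⟩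
  · intro π hπ
    exact hmem π (Finset.mem_filter.mp hπ).1
  · intro π hπ
    have h1 := (Finset.mem_filter.mp hπ).2
    refine ⟨Nat.one_le_iff_ne_zero.mpr fun h0 => h1 (Nat.dvd_of_mod_eq_zero h0), ?_⟩
    exact Nat.mod_lt _ hv
  · exact Finset.prod_ne_zero_iff.mpr fun π hπ => pow_ne_zero _ (hmem π hπ).1.ne_zero
  · have h1 : F = C F.leadingCoeff * s.prod := by
      have h2 := UniqueFactorizationMonoid.prod_normalizedFactors hF
      have h3 : s.prod.Monic := by
        have h3' : ∀ t : Multiset K[X], (∀ π ∈ t, π.Monic) → t.prod.Monic := by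
          intro t
          induction t using Multiset.induction_on with
          | empty => intro _; simp
          | cons a t ih =>
            intro ht
            rw [Multiset.prod_cons]
            exact (ht a (Multiset.mem_cons_self a t)).mul
              (ih fun π hπ => ht π (Multiset.mem_cons_of_mem hπ))
        exact h3' s hmon
      obtain ⟨u, hu⟩ := h2
      obtain ⟨r, hr, hru⟩ := isUnit_iff.mp u.isUnit
      rw [← hs, ← hru] at hu
      have h4 : F.leadingCoeff = r := by
        rw [← hu, leadingCoeff_mul, h3.leadingCoeff, one_mul, leadingCoeff_C]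
      rw [h4, mul_comm]
      exact hu.symm
    have h2 : s.prod = ∏ π ∈ fs, π ^ mult π := Finset.prod_multiset_count s
    have h3 : ∏ π ∈ fs, π ^ mult π =
        (∏ π ∈ fs, π ^ (mult π % v)) * (∏ π ∈ fs, π ^ (mult π / v)) ^ v := by
      rw [← Finset.prod_pow, ← Finset.prod_mul_distrib]
      refine Finset.prod_congr rfl fun π _ => ?_
      rw [← pow_mul, ← pow_add]
      congr 1
      rw [mul_comm]
      exact (Nat.mod_add_div _ _).symm
    have h4 : ∏ π ∈ fs, π ^ (mult π % v) =
        Pn (fs.filter (fun π => ¬ v ∣ mult π)) (fun π => mult π % v) := by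
      rw [Pn, Finset.prod_filter]
      refine Finset.prod_congr rfl fun π _ => ?_
      by_cases h5 : v ∣ mult π
      · rw [if_neg (not_not.mpr h5), Nat.mod_eq_zero_of_dvd h5, pow_zero]
      · rw [if_pos h5]
    rw [mul_assoc, ← h4, ← h3, ← h2]
    exact h1

/-- `F` is a constant times a `v`-th power. -/
theorem const_mul_pow [DecidableEq K[X]] (p : ℕ) [hp : Fact p.Prime] [CharP K p] [PerfectRing K p]
    (κ v h m N : ℕ) (hκ : 1 ≤ κ) (hvh : v * h + 1 = p ^ κ) (hv1 : 1 ≤ v) (hN : 1 ≤ N)
    (hρ : 2 ≤ geo h (p ^ κ) m)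
    (hcond : ∀ a, 1 ≤ a → a < κ → ∀ c, 1 ≤ c → c < v → p ^ a ∣ v - c →
      p ^ a + 1 ≤ geo h (p ^ κ) m * c)
    (F : K[X]) (hF : 0 < F.natDegree) (w : ℕ → K) (hw0 : w 0 ≠ 0)
    (hdeg : geo h (p ^ κ) m * F.natDegree < (p ^ κ) ^ N)
    (hdvd : (X ^ ((p ^ κ) ^ N) - X : K[X]) ∣
      ∑ i ∈ Finset.range (m + 1), C (w i) * F ^ (geo h (p ^ κ) i + 1)) :
    ∃ (lam : K) (E : K[X]), F = C lam * E ^ v := by
  have hF0 : F ≠ 0 := by rintro rfl; simp at hF
  have hQ0 : ((p ^ κ : ℕ) : K) = 0 := by
    rw [Nat.cast_pow, CharP.cast_eq_zero, zero_pow (by omega)]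
  have hq0 : (((p ^ κ) ^ N : ℕ) : K) = 0 := by
    rw [Nat.cast_pow, hQ0, zero_pow (by omega)]
  have hrel := diff_relation ((p ^ κ) ^ N) v h (p ^ κ) m hvh hQ0 hq0 F hF w hρ hdeg hdvd
  obtain ⟨R, c, lam, E, hR, hc, hlam, hE0, hFf⟩ := exists_factorisation F hF0 v hv1
  have hne : ∀ π ∈ R, π ≠ 0 := fun π hπ => (hR π hπ).1.ne_zero
  have hvhK : (v : K) * h = -1 := by
    have : (v : K) * h + 1 = 0 := by rw [← hQ0, ← hvh]; push_cast; ring
    linear_combination this
  have hgp := geo_prop v h (p ^ κ) hvh
  -- E * F ^ (geo + 1) = F * lam^geo * B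
  have hB : ∀ i, E * F ^ (geo h (p ^ κ) i + 1) =
      F * (C (lam ^ geo h (p ^ κ) i) * Bi R c h (p ^ κ) E i) := by
    intro i
    rw [Bi, ← hgp i, pow_succ F, pow_succ E]
    conv_lhs => rw [show F ^ geo h (p ^ κ) i = (C lam * Pn R c * E ^ v) ^ geo h (p ^ κ) i by
      rw [← hFf]]
    rw [mul_pow, mul_pow, ← pow_mul, C_pow]
    ring
  -- Rad * E * F' = F * v * nab
  have hder : Rad R * E * derivative F =
      F * (C (v : K) * nab R (fun π => -((c π * h : ℕ) : K)) E) := by
    have h1 : derivative F = C lam * (derivative (Pn R c) * E ^ v +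
        Pn R c * (C (v : K) * E ^ (v - 1) * derivative E)) := by
      conv_lhs => rw [hFf]
      rw [mul_assoc, derivative_C_mul, derivative_mul, derivative_pow]
    have h2 := derivative_Pn R c
    have h3 : C (v : K) * Lam R (fun π => -((c π * h : ℕ) : K)) =
        Lam R (fun π => (c π : K)) := by
      rw [Lam, Lam, Finset.mul_sum]
      refine Finset.sum_congr rfl fun π _ => ?_
      rw [← mul_assoc, ← C_mul]
      congr 2
      push_cast
      linear_combination (-(c π : K)) * hvhK
    have h4 : E * E ^ (v - 1) = E ^ v := by rw [← pow_succ']; congr 1; omega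
    rw [nab, mul_add, mul_add, h1]
    have h5 : F * (C (v : K) * (Lam R (fun π => -((c π * h : ℕ) : K)) * E)) =
        C lam * Pn R c * E ^ v * (Lam R (fun π => (c π : K)) * E) := by
      rw [← h3, ← hFf]; ring
    rw [h5]
    conv_rhs => rw [hFf]
    linear_combination (C lam * E * E ^ v) * h2 +
      (C lam * Rad R * Pn R c * C (v : K) * derivative E) * h4
  -- the relation for the core theorem
  have hE : Rad R * ∑ i ∈ Finset.range (m + 1),
      C (w i * lam ^ geo h (p ^ κ) i) * Bi R c h (p ^ κ) E i =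
      C (w 0 * lam ^ geo h (p ^ κ) 0) * (X - X ^ ((p ^ κ) ^ N)) *
        nab R (fun π => -((c π * h : ℕ) : K)) E := by
    apply mul_left_cancel₀ hF0
    have h1 : F * (Rad R * ∑ i ∈ Finset.range (m + 1),
        C (w i * lam ^ geo h (p ^ κ) i) * Bi R c h (p ^ κ) E i) =
        Rad R * E * ∑ i ∈ Finset.range (m + 1), C (w i) * F ^ (geo h (p ^ κ) i + 1) := by
      rw [Finset.mul_sum, Finset.mul_sum, Finset.mul_sum]
      refine Finset.sum_congr rfl fun i _ => ?_
      rw [C_mul]
      linear_combination (-(C (w i) * Rad R)) * hB i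
    rw [h1, hrel]
    simp only [geo, pow_zero, mul_one]
    have h2 : C (w 0 * h) * C (v : K) = -C (w 0) := by
      rw [← C_mul, ← C_neg]
      congr 1
      linear_combination w 0 * hvhK
    linear_combination (C (w 0 * h) * (X ^ ((p ^ κ) ^ N) - X)) * hder +
      (F * (X ^ ((p ^ κ) ^ N) - X) * nab R (fun π => -((c π * h : ℕ) : K)) E) * h2
  have hdegF : F.natDegree = v * E.natDegree + ∑ π ∈ R, c π * π.natDegree := by
    rw [hFf, natDegree_mul (mul_ne_zero (C_ne_zero.mpr hlam) (Pn_ne_zero R hne c))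
      (pow_ne_zero _ hE0), natDegree_C_mul hlam, natDegree_Pn R hne, natDegree_pow]
    ring
  have hRe := core p κ v h (geo h (p ^ κ) m) N hκ hvh hρ hv1 hcond R hR c hc E hE0 m
    (fun i => w i * lam ^ geo h (p ^ κ) i) (by simpa [geo] using hw0) hE (by rw [← hdegF]; exact hdeg)
  refine ⟨lam, E, ?_⟩
  rw [hFf, hRe]
  simp [Pn]

end Pool.Agent.R325.MVSP
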