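import Mathlib
import Pool.Agent.R325.MVSPWrap
import Pool.Agent.R325.MVSPDefs

/-!
# Value sets `U ^ v`
-/

set_option autoImplicit false
set_option linter.unusedSectionVars false

namespace Pool.Agent.R325.MVSP

open Polynomial

variable {K : Type} [Field K]

theorem mem_subfield_pow [Finite K] (k0 : Subfield K) (x : K) (hx : x ∈ k0) (i : ℕ) :
    x ^ (Nat.card k0) ^ i = x := by
  have : Fintype k0 := Fintype.ofFinite k0
  have h1 : ∀ y : k0, y ^ (Nat.card k0) ^ i = y := by
    intro y
    rw [Nat.card_eq_fintype_card]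
    exact FiniteField.pow_card_pow i y
  have h2 := congrArg (fun y : k0 => (y : K)) (h1 ⟨x, hx⟩)
  simpa using h2

theorem exists_linearized [Finite K] (p κ : ℕ) [Fact p.Prime] [CharP K p] (k0 : Subfield K)
    (hQ : Nat.card k0 = p ^ κ) (hκ : 1 ≤ κ) (U : Submodule k0 K) (h1 : (1 : K) ∈ U) :
    ∃ w : ℕ → K, w 0 ≠ 0 ∧ ∀ u ∈ U,
      ∑ i ∈ Finset.range (Module.finrank k0 U + 1), w i * u ^ (p ^ κ) ^ i = 0 := by
  classical
  set Q := p ^ κ with hQdef
  set m := Module.finrank k0 U with hm
  have hp : p.Prime := Fact.out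
  have hQ2 : 2 ≤ Q := le_trans hp.two_le (by
    calc p = p ^ 1 := (pow_one p).symm
      _ ≤ p ^ κ := Nat.pow_le_pow_right hp.pos hκ)
  have hm1 : 1 ≤ m := by
    rw [hm, Nat.succ_le_iff, Module.finrank_pos_iff]
    refine ⟨⟨0, ⟨1, h1⟩, ?_⟩⟩
    intro h
    have := congrArg (fun y : U => (y : K)) h
    simp at this
  let b := Module.finBasis k0 U
  let Φ : (Fin (m + 1) → K) →ₗ[K] (Fin m → K) :=
    { toFun := fun w j => ∑ i : Fin (m + 1), w i * ((b j : U) : K) ^ Q ^ (i : ℕ)
      map_add' := by
        intro w w'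
        funext j
        simp only [Pi.add_apply, add_mul, Finset.sum_add_distrib]
      map_smul' := by
        intro c w
        funext j
        simp only [Pi.smul_apply, smul_eq_mul, RingHom.id_apply, Finset.mul_sum, mul_assoc] }
  have hker : LinearMap.ker Φ ≠ ⊥ := by
    apply LinearMap.ker_ne_bot_of_finrank_lt
    simp
  obtain ⟨w, hwker, hw0⟩ := (Submodule.ne_bot_iff _).mp hker
  rw [LinearMap.mem_ker] at hwker
  -- the linear map
  let L : K →ₗ[k0] K :=
    { toFun := fun x => ∑ i : Fin (m + 1), w i * x ^ Q ^ (i : ℕ)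
      map_add' := by
        intro x y
        rw [← Finset.sum_add_distrib]
        refine Finset.sum_congr rfl fun i _ => ?_
        rw [hQdef, ← pow_mul, add_pow_char_pow, mul_add]
      map_smul' := by
        intro c x
        rw [RingHom.id_apply, Finset.smul_sum]
        refine Finset.sum_congr rfl fun i _ => ?_
        have h2 : (c : K) ^ Q ^ (i : ℕ) = c := by
          have := mem_subfield_pow k0 (c : K) c.2 i
          rwa [hQ] at this
        have h3 : c • x = (c : K) * x := rfl
        have h4 : c • (w i * x ^ Q ^ (i : ℕ)) = (c : K) * (w i * x ^ Q ^ (i : ℕ)) := rfl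
        rw [h3, h4, mul_pow, h2]
        ring }
  have hL : L ∘ₗ U.subtype = 0 := by
    apply b.ext
    intro j
    have := congrFun hwker j
    simpa [Φ, L] using this
  set w' : ℕ → K := fun i => if h : i < m + 1 then w ⟨i, h⟩ else 0 with hw'
  have hwi : ∀ i : Fin (m + 1), w' i = w i := fun i => dif_pos i.2
  have hsum : ∀ x : K, ∑ i ∈ Finset.range (m + 1), w' i * x ^ Q ^ i =
      ∑ i : Fin (m + 1), w i * x ^ Q ^ (i : ℕ) := by
    intro x
    rw [Finset.sum_range]
    refine Finset.sum_congr rfl fun i _ => ?_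
    rw [hwi]
  have hvan : ∀ u ∈ U, ∑ i ∈ Finset.range (m + 1), w' i * u ^ Q ^ i = 0 := by
    intro u hu
    rw [hsum]
    have := congrArg (fun f : U →ₗ[k0] K => f ⟨u, hu⟩) hL
    simpa [L] using this
  refine ⟨w', ?_, hvan⟩
  intro hw'0
  -- roots
  have hsurj : ∀ y : K, ∃ r : K, r ^ Q = y := by
    intro y
    obtain ⟨r, hr⟩ := (iterateFrobeniusEquiv K p κ).surjective y
    exact ⟨r, by rw [← hr, iterateFrobeniusEquiv_def]⟩
  choose r hr using hsurj
  set G : K[X] := ∑ i ∈ Finset.range m, C (r (w' (i + 1))) * X ^ Q ^ i with hG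
  have hcardU : Nat.card U = Q ^ m := by
    have : Fintype k0 := Fintype.ofFinite k0
    have : Fintype U := Fintype.ofFinite U
    rw [Nat.card_eq_fintype_card, Module.card_eq_pow_finrank (K := k0) (V := U),
      ← Nat.card_eq_fintype_card, hQ]
  have hGdeg : G.natDegree ≤ Q ^ (m - 1) := by
    apply natDegree_sum_le_of_forall_le
    intro i hi
    rw [Finset.mem_range] at hi
    refine (natDegree_C_mul_X_pow_le _ _).trans ?_
    exact Nat.pow_le_pow_right (by omega) (by omega)
  have hGeval : ∀ u ∈ U, G.eval u = 0 := by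
    intro u hu
    have h2 : (G.eval u) ^ Q = 0 := by
      rw [hG, eval_finsetSum, hQdef, sum_pow_char_pow, ← hQdef]
      have h3 := hvan u hu
      rw [Finset.sum_range_succ', hw'0, zero_mul, add_zero] at h3
      rw [← h3]
      refine Finset.sum_congr rfl fun i _ => ?_
      rw [eval_mul, eval_C, eval_pow, eval_X, mul_pow, hr, ← pow_mul, ← pow_succ]
    exact pow_eq_zero_iff (by omega) |>.mp h2
  have hG0 : G = 0 := by
    have : Fintype U := Fintype.ofFinite U
    apply eq_zero_of_natDegree_lt_card_of_eval_eq_zero' G (Finset.univ.map ⟨((↑) : U → K),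
      Subtype.val_injective⟩)
    · intro i hi
      rw [Finset.mem_map] at hi
      obtain ⟨u, _, rfl⟩ := hi
      exact hGeval u u.2
    · rw [Finset.card_map, Finset.card_univ, ← Nat.card_eq_fintype_card, hcardU]
      refine lt_of_le_of_lt hGdeg ?_
      exact Nat.pow_lt_pow_right (by omega) (by omega)
  have hcoef : ∀ i < m, w' (i + 1) = 0 := by
    intro i hi
    have h2 := congrArg (fun f => coeff f (Q ^ i)) hG0
    simp only [coeff_zero] at h2
    rw [hG, finsetSum_coeff] at h2
    rw [Finset.sum_eq_single i] at h2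
    · rw [coeff_C_mul, coeff_X_pow_self, mul_one] at h2
      rw [← hr (w' (i + 1)), h2, zero_pow (by omega)]
    · intro j _ hji
      rw [coeff_C_mul, coeff_X_pow, if_neg, mul_zero]
      intro h3
      exact hji (Nat.pow_right_injective hQ2 h3).symm
    · intro h3
      exact absurd (Finset.mem_range.mpr hi) h3
  apply hw0
  funext i
  have h2 : w i = w' i := (hwi i).symm
  rw [h2, Pi.zero_apply]
  rcases Nat.eq_zero_or_pos (i : ℕ) with h3 | h3
  · rw [h3, hw'0]
  · obtain ⟨j, hj⟩ : ∃ j, (i : ℕ) = j + 1 := ⟨i - 1, by omega⟩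
    rw [hj]
    exact hcoef j (by have := i.2; omega)

end Pool.Agent.R325.MVSP
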