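import Mathlib
import Pool.Agent.R325.MVSPGen1

/-!
# Value sets `U ^ v`: the general theorem
-/

set_option autoImplicit false
set_option linter.unusedSectionVars false

namespace Pool.Agent.R325.MVSP

open Polynomial

variable {K : Type} [Field K]

/-- A polynomial vanishing on `K` is divisible by `X ^ q - X`. -/
theorem dvd_of_vanish [Finite K] (G : K[X]) (hG : ∀ a : K, G.eval a = 0) :
    (X ^ (Nat.card K) - X : K[X]) ∣ G := by
  classical
  have : Fintype K := Fintype.ofFinite K
  rw [Nat.card_eq_fintype_card]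
  have h1 : (X ^ Fintype.card K - X : K[X]) = ∏ a : K, (X - C a) := by
    have h2 : (X ^ Fintype.card K - X : K[X]).Monic := by
      apply monic_X_pow_sub
      rw [degree_X]
      exact_mod_cast Fintype.one_lt_card
    have h3 := prod_multiset_X_sub_C_of_monic_of_roots_card_eq h2 (by
      rw [FiniteField.roots_X_pow_card_sub_X, FiniteField.X_pow_card_sub_X_natDegree_eq K
        Fintype.one_lt_card]
      rfl)
    rw [FiniteField.roots_X_pow_card_sub_X] at h3
    exact h3.symm
  rw [h1]
  apply Finset.prod_dvd_of_coprime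
  · intro a _ b _ hab
    exact pairwise_coprime_X_sub_C Function.injective_id hab
  · intro a _
    exact dvd_iff_isRoot.mpr (hG a)

/-- A primitive `v`-th root of unity in `k0` when `v ∣ #k0 - 1`. -/
theorem exists_prim [Finite K] (k0 : Subfield K) (v : ℕ) (hv : v ∣ Nat.card k0 - 1) :
    ∃ ζ : K, ζ ∈ k0 ∧ IsPrimitiveRoot ζ v := by
  have : Fintype k0 := Fintype.ofFinite k0
  obtain ⟨g, hg⟩ := IsCyclic.exists_ofOrder_eq_natCard (α := k0ˣ)
  have hcard : Nat.card k0ˣ = Nat.card k0 - 1 := Nat.card_units k0
  obtain ⟨j, hj⟩ := hv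
  have hg1 : IsPrimitiveRoot g (Nat.card k0 - 1) := by
    rw [← hcard, ← hg]; exact IsPrimitiveRoot.orderOf g
  have hpos : 0 < Nat.card k0 - 1 := by
    rw [← hcard]; exact Nat.card_pos
  have hg2 : IsPrimitiveRoot (g ^ j) v := hg1.pow hpos (by rw [hj, mul_comm])
  refine ⟨((g ^ j : k0ˣ) : k0), ((g ^ j : k0ˣ) : k0).2, ?_⟩
  have hg3 : IsPrimitiveRoot ((g ^ j : k0ˣ) : k0) v := IsPrimitiveRoot.coe_units_iff.mpr hg2
  exact hg3.map_of_injective (f := k0.subtype) Subtype.val_injective

theorem root_mem [Finite K] (k0 : Subfield K) (v : ℕ) (hv1 : 1 ≤ v) (hv : v ∣ Nat.card k0 - 1)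
    (x : K) (hx : x ^ v = 1) : x ∈ k0 := by
  obtain ⟨ζ, hζ, hprim⟩ := exists_prim k0 v hv
  have : NeZero v := ⟨by omega⟩
  obtain ⟨i, _, hi⟩ := hprim.eq_pow_of_pow_eq_one hx
  rw [← hi]
  exact k0.pow_mem hζ i

/-- The number of elements of `U ^ v`. -/
theorem card_powSet [Finite K] (k0 : Subfield K) (v : ℕ) (hv1 : 1 ≤ v)
    (hv : v ∣ Nat.card k0 - 1) (U : Submodule k0 K) :
    v * ((powSet (U : Set K) v).ncard - 1) + 1 = Nat.card U ∧
      1 ≤ (powSet (U : Set K) v).ncard := by
  classical
  have : Fintype K := Fintype.ofFinite K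
  obtain ⟨ζ, hζ, hprim⟩ := exists_prim k0 v hv
  set A : Finset K := Finset.univ.filter (fun x => x ∈ U ∧ x ≠ 0) with hA
  have hU : Nat.card U = A.card + 1 := by
    have h1 : (Finset.univ.filter (fun x : K => x ∈ U)) = insert 0 A := by
      ext x
      simp only [hA, Finset.mem_filter, Finset.mem_univ, true_and, Finset.mem_insert]
      constructor
      · intro h
        by_cases h0 : x = 0
        · exact Or.inl h0
        · exact Or.inr ⟨h, h0⟩
      · rintro (h | h)
        · rw [h]; exact U.zero_mem
        · exact h.1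
    have h2 : Nat.card U = (Finset.univ.filter (fun x : K => x ∈ U)).card := by
      rw [Nat.card_eq_fintype_card, Fintype.card_subtype]
    rw [h2, h1, Finset.card_insert_of_notMem]
    simp [hA]
  have hP : (powSet (U : Set K) v) = ((insert 0 (A.image (fun x => x ^ v)) : Finset K) : Set K) := by
    ext y
    simp only [powSet, Set.mem_image, SetLike.mem_coe, Finset.coe_insert, Set.mem_insert_iff,
      Finset.coe_image, hA, Finset.coe_filter, Finset.mem_univ, true_and, Set.mem_ofPred_eq]
    constructor
    · rintro ⟨x, hx, rfl⟩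
      by_cases h0 : x = 0
      · left; rw [h0, zero_pow (by omega)]
      · exact Or.inr ⟨x, ⟨hx, h0⟩, rfl⟩
    · rintro (h | ⟨x, hx, rfl⟩)
      · exact ⟨0, U.zero_mem, by rw [h, zero_pow (by omega)]⟩
      · exact ⟨x, hx.1, rfl⟩
  have hPc : (powSet (U : Set K) v).ncard = (A.image (fun x => x ^ v)).card + 1 := by
    rw [hP, Set.ncard_coe_finset, Finset.card_insert_of_notMem]
    simp only [Finset.mem_image, not_exists, not_and, hA, Finset.mem_filter]
    intro x hx h0
    exact hx.2.2 (pow_eq_zero_iff (by omega) |>.mp h0)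
  have hfib : ∀ y ∈ A.image (fun x => x ^ v), (A.filter (fun x => x ^ v = y)).card = v := by
    intro y hy
    obtain ⟨x0, hx0, rfl⟩ := Finset.mem_image.mp hy
    simp only [hA, Finset.mem_filter, Finset.mem_univ, true_and] at hx0
    have h1 : A.filter (fun x => x ^ v = x0 ^ v) =
        (nthRootsFinset v (1 : K)).image (fun z => z * x0) := by
      ext x
      simp only [hA, Finset.mem_filter, Finset.mem_univ, true_and, Finset.mem_image]
      constructor
      · rintro ⟨⟨hx, hx0'⟩, hxv⟩
        refine ⟨x / x0, ?_, div_mul_cancel₀ x hx0.2⟩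
        rw [mem_nthRootsFinset (by omega), div_pow, hxv, div_self (pow_ne_zero _ hx0.2)]
      · rintro ⟨z, hz, rfl⟩
        rw [mem_nthRootsFinset (by omega)] at hz
        have hz0 : z ≠ 0 := by
          rintro rfl
          rw [zero_pow (by omega)] at hz
          exact zero_ne_one hz
        have hzk : z ∈ k0 := root_mem k0 v hv1 hv z hz
        refine ⟨⟨?_, mul_ne_zero hz0 hx0.2⟩, by rw [mul_pow, hz, one_mul]⟩
        exact U.smul_mem ⟨z, hzk⟩ hx0.1
    rw [h1, Finset.card_image_of_injective]
    · exact hprim.card_nthRootsFinset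
    · intro a b hab
      exact mul_right_cancel₀ hx0.2 hab
  have hcount : A.card = v * (A.image (fun x => x ^ v)).card := by
    rw [Finset.card_eq_sum_card_image (fun x => x ^ v) A, Finset.sum_congr rfl hfib,
      Finset.sum_const, smul_eq_mul, mul_comm]
  refine ⟨?_, by omega⟩
  rw [hPc, Nat.add_sub_cancel, hU, hcount]

/-- `q ≤ deg f * #V_f` -/
theorem card_le_deg_mul [Finite K] (f : K[X]) (hf : 0 < f.natDegree) :
    Nat.card K ≤ f.natDegree * (valueSet f).ncard := by
  classical
  have : Fintype K := Fintype.ofFinite K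
  have h1 : (valueSet f) = ((Finset.univ.image (fun a : K => f.eval a) : Finset K) : Set K) := by
    ext y; simp [valueSet]
  rw [h1, Set.ncard_coe_finset, Nat.card_eq_fintype_card, ← Finset.card_univ]
  have h2 := Finset.card_le_mul_card_image (f := fun a : K => f.eval a) (Finset.univ : Finset K)
    f.natDegree (by
      intro y _
      have h3 : (f - C y) ≠ 0 := by
        intro h0
        have : f.natDegree = 0 := by
          rw [sub_eq_zero.mp h0, natDegree_C]
        omega
      calc (Finset.univ.filter (fun a : K => f.eval a = y)).card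
          ≤ (f - C y).roots.toFinset.card := by
            apply Finset.card_le_card
            intro a ha
            rw [Finset.mem_filter] at ha
            rw [Multiset.mem_toFinset, mem_roots h3, IsRoot.def, eval_sub, eval_C, ha.2, sub_self]
        _ ≤ Multiset.card (f - C y).roots := Multiset.toFinset_card_le _
        _ ≤ (f - C y).natDegree := card_roots' _
        _ = f.natDegree := natDegree_sub_C)
  exact h2

end Pool.Agent.R325.MVSP
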