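import Mathlib
import Pool.Agent.R325.MVSPGen2

/-!
# Value sets `U ^ v`: the general theorem
-/

set_option autoImplicit false
set_option linter.unusedSectionVars false

namespace Pool.Agent.R325.MVSP

open Polynomial

variable {K : Type} [Field K]

theorem general [Finite K] (p κ : ℕ) [Fact p.Prime] [CharP K p] (k0 : Subfield K)
    (hQ : Nat.card k0 = p ^ κ) (hκ : 1 ≤ κ) (v : ℕ) (hv1 : 1 ≤ v) (hv : v ∣ p ^ κ - 1)
    (U : Submodule k0 K) (h1 : (1 : K) ∈ U) (h2 : 2 < (powSet (U : Set K) v).ncard)
    (hcond : ∀ a, 1 ≤ a → a < κ → ∀ c, 1 ≤ c → c < v → p ^ a ∣ v - c →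
      p ^ a + 1 ≤ ((powSet (U : Set K) v).ncard - 1) * c) :
    MVSPs (powSet (U : Set K) v) = {F | ∃ f ∈ MVSPs (U : Set K), F = f ^ v} := by
  classical
  have hp : p.Prime := Fact.out
  set m := Module.finrank k0 U with hm
  set ρ := (powSet (U : Set K) v).ncard - 1 with hρ
  obtain ⟨hcard, hcard1⟩ := card_powSet k0 v hv1 (by rw [hQ]; exact hv) U
  rw [← hρ] at hcard
  have hρ1 : (powSet (U : Set K) v).ncard = ρ + 1 := by omega
  have hρ2 : 2 ≤ ρ := by omega
  obtain ⟨h, hh⟩ := hv
  have hQpos : 0 < p ^ κ := pow_pos hp.pos κ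
  have hvh : v * h + 1 = p ^ κ := by omega
  have hcardU : Nat.card U = (p ^ κ) ^ m := by
    have : Fintype k0 := Fintype.ofFinite k0
    have : Fintype U := Fintype.ofFinite U
    rw [Nat.card_eq_fintype_card, Module.card_eq_pow_finrank (K := k0) (V := U),
      ← Nat.card_eq_fintype_card, hQ]
  have hgeo : geo h (p ^ κ) m = ρ := by
    have h3 := geo_prop v h (p ^ κ) hvh m
    have h4 : v * geo h (p ^ κ) m = v * ρ := by omega
    exact Nat.eq_of_mul_eq_mul_left (by omega) h4
  set N := Module.finrank k0 K with hN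
  have hcardK : Nat.card K = (p ^ κ) ^ N := by
    have : Fintype k0 := Fintype.ofFinite k0
    have : Fintype K := Fintype.ofFinite K
    rw [Nat.card_eq_fintype_card, Module.card_eq_pow_finrank (K := k0) (V := K),
      ← Nat.card_eq_fintype_card, hQ]
  have hN1 : 1 ≤ N := Module.finrank_pos
  have hKpos : 0 < Nat.card K := Nat.card_pos
  have hpowval : ∀ f : K[X], valueSet (f ^ v) = powSet (valueSet f) v := by
    intro f
    ext y
    simp [valueSet, powSet]
  ext F
  constructor
  · rintro ⟨⟨hF, hFc⟩, hFv⟩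
    rw [hFv, hρ1] at hFc
    have hFc' : ρ = (Nat.card K - 1) / F.natDegree := by omega
    have hFdeg : ρ * F.natDegree < Nat.card K := by
      have : ρ * F.natDegree ≤ Nat.card K - 1 := by
        rw [hFc']; exact Nat.div_mul_le_self _ _
      omega
    obtain ⟨w, hw0, hw⟩ := exists_linearized p κ k0 hQ hκ U h1
    have hmem : ∀ a : K, ∃ u ∈ U, u ^ v = F.eval a := by
      intro a
      have : F.eval a ∈ powSet (U : Set K) v := by
        rw [← hFv]; exact ⟨a, rfl⟩
      obtain ⟨u, hu, hu'⟩ := this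
      exact ⟨u, hu, hu'⟩
    have hdvd : (X ^ ((p ^ κ) ^ N) - X : K[X]) ∣
        ∑ i ∈ Finset.range (m + 1), C (w i) * F ^ (geo h (p ^ κ) i + 1) := by
      rw [← hcardK]
      apply dvd_of_vanish
      intro a
      obtain ⟨u, hu, hu'⟩ := hmem a
      rw [eval_finsetSum]
      have h3 : ∀ i ∈ Finset.range (m + 1),
          eval a (C (w i) * F ^ (geo h (p ^ κ) i + 1)) = u ^ (v - 1) * (w i * u ^ (p ^ κ) ^ i) := by
        intro i _
        rw [eval_mul, eval_C, eval_pow, ← hu', ← pow_mul]
        have h4 := geo_prop v h (p ^ κ) hvh i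
        have h5 : v * (geo h (p ^ κ) i + 1) = (v - 1) + (p ^ κ) ^ i := by
          rw [mul_add, mul_one]; omega
        rw [h5, pow_add]
        ring
      rw [Finset.sum_congr rfl h3, ← Finset.mul_sum, hw u hu, mul_zero]
    obtain ⟨lam, E, hE⟩ := const_mul_pow p κ v h m N hκ hvh hv1 hN1 (by rw [hgeo]; exact hρ2)
      (by rw [hgeo]; exact hcond) F hF w hw0 (by rw [hgeo, ← hcardK]; exact hFdeg) hdvd
    -- normalise
    have hone : (1 : K) ∈ valueSet F := by
      rw [hFv]; exact ⟨1, h1, one_pow v⟩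
    obtain ⟨a0, ha0⟩ := hone
    simp only at ha0
    have hEa : lam * (E.eval a0) ^ v = 1 := by
      rw [← ha0, hE]; simp
    have hEa0 : E.eval a0 ≠ 0 := by
      intro h0
      rw [h0, zero_pow (by omega), mul_zero] at hEa
      exact zero_ne_one hEa
    set f : K[X] := C (E.eval a0)⁻¹ * E with hf
    have hFf : F = f ^ v := by
      rw [hf, mul_pow, ← C_pow, hE]
      congr 2
      rw [inv_pow]
      exact eq_inv_of_mul_eq_one_left hEa
    have hdegf : F.natDegree = v * f.natDegree := by rw [hFf, natDegree_pow]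
    have hf0 : 0 < f.natDegree := by
      rcases Nat.eq_zero_or_pos f.natDegree with h0 | h0
      · rw [h0, mul_zero] at hdegf; omega
      · exact h0
    have hsub : valueSet f ⊆ (U : Set K) := by
      rintro _ ⟨b, rfl⟩
      obtain ⟨u, hu, hu'⟩ := hmem b
      have h3 : (f.eval b) ^ v = u ^ v := by rw [hu', hFf, eval_pow]
      by_cases hu0 : u = 0
      · rw [hu0, zero_pow (by omega)] at h3
        have : f.eval b = 0 := pow_eq_zero_iff (by omega) |>.mp h3
        simp only [this]
        exact U.zero_mem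
      · have h4 : (f.eval b / u) ^ v = 1 := by
          rw [div_pow, h3, div_self (pow_ne_zero _ hu0)]
        have h5 : f.eval b / u ∈ k0 := root_mem k0 v hv1 (by rw [hQ]; exact ⟨h, hh⟩) _ h4
        have h6 : f.eval b = (⟨f.eval b / u, h5⟩ : k0) • u := by
          change f.eval b = f.eval b / u * u
          rw [div_mul_cancel₀ _ hu0]
        simp only
        rw [h6]
        exact U.smul_mem _ hu
    have hUn : (U : Set K).ncard = Nat.card U := rfl
    have hle : (valueSet f).ncard ≤ Nat.card U := by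
      rw [← hUn]; exact Set.ncard_le_ncard hsub (Set.toFinite _)
    have hge := card_le_deg_mul f hf0
    -- `v ρ ≤ (q - 1) / deg f`
    have h3 : v * ρ ≤ (Nat.card K - 1) / f.natDegree := by
      rw [Nat.le_div_iff_mul_le hf0]
      have : v * ρ * f.natDegree = ρ * F.natDegree := by rw [hdegf]; ring
      omega
    have h4 : (Nat.card K - 1) / f.natDegree + 1 ≤ (valueSet f).ncard := by
      have : (Nat.card K - 1) / f.natDegree < (valueSet f).ncard := by
        rw [Nat.div_lt_iff_lt_mul hf0]
        have : (valueSet f).ncard * f.natDegree = f.natDegree * (valueSet f).ncard := mul_comm _ _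
        omega
      omega
    have heq : valueSet f = (U : Set K) := by
      apply Set.eq_of_subset_of_ncard_le hsub _ (Set.toFinite _)
      rw [hUn]; omega
    refine ⟨f, ⟨⟨hf0, ?_⟩, heq⟩, hFf⟩
    omega
  · rintro ⟨f, ⟨⟨hf0, hfc⟩, hfv⟩, rfl⟩
    have hval : valueSet (f ^ v) = powSet (U : Set K) v := by rw [hpowval, hfv]
    refine ⟨⟨?_, ?_⟩, hval⟩
    · rw [natDegree_pow]
      exact Nat.mul_pos (by omega) hf0
    · rw [hval, hρ1, natDegree_pow]
      have hUn : (U : Set K).ncard = Nat.card U := rfl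
      rw [hfv, hUn] at hfc
      have h3 : v * ρ = (Nat.card K - 1) / f.natDegree := by omega
      rw [mul_comm v, ← Nat.div_div_eq_div_mul, ← h3, Nat.mul_div_cancel_left _ (by omega)]

end Pool.Agent.R325.MVSP
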