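import Mathlib
import Pool.Agent.R325.MVSPGen3

/-!
# Minimal value set polynomials with value set `U ^ v`: the main theorem
-/

set_option autoImplicit false
set_option linter.unusedSectionVars false

namespace Pool.Agent.R325.MVSP

open Polynomial

variable {K : Type} [Field K]

/-- `L ^ v = {0} ∪ μ_ρ` when `v ρ = #L - 1`. -/
theorem powSet_field [Finite K] (L : Subfield K) (v ρ : ℕ) (hv : 1 ≤ v) (hρ : 1 ≤ ρ)
    (h : v * ρ + 1 = Nat.card L) : powSet (L : Set K) v = {y : K | y = 0 ∨ y ^ ρ = 1} := by
  ext y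
  simp only [powSet, Set.mem_image, SetLike.mem_coe, Set.mem_ofPred_eq]
  constructor
  · rintro ⟨x, hx, rfl⟩
    by_cases h0 : x = 0
    · left; rw [h0, zero_pow (by omega)]
    · right
      have h1 := mem_subfield_pow L x hx 1
      rw [pow_one, ← h, pow_succ] at h1
      rw [← pow_mul]
      exact mul_right_cancel₀ h0 (by rw [h1, one_mul])
  · rintro (rfl | hy)
    · exact ⟨0, L.zero_mem, zero_pow (by omega)⟩
    · obtain ⟨ζ, hζ, hprim⟩ := exists_prim L (v * ρ) (by rw [← h, Nat.add_sub_cancel])
      have : NeZero (v * ρ) := ⟨by positivity⟩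
      obtain ⟨i, _, hi⟩ := hprim.eq_pow_of_pow_eq_one (ξ := y)
        (by rw [mul_comm, pow_mul, hy, one_pow])
      have h2 : ζ ^ (i * ρ) = 1 := by rw [pow_mul, hi, hy]
      have h3 : v * ρ ∣ i * ρ := hprim.dvd_of_pow_eq_one _ h2
      have h4 : v ∣ i := Nat.dvd_of_mul_dvd_mul_right (by omega) h3
      obtain ⟨j, rfl⟩ := h4
      exact ⟨ζ ^ j, L.pow_mem hζ j, by rw [← pow_mul, mul_comm j v, hi]⟩

/-- a subfield all of whose elements... -/
theorem card_closure_le [Finite K] (p : ℕ) [Fact p.Prime] [CharP K p] (a : ℕ) (ha : 1 ≤ a)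
    (S : Set K) (hS : ∀ y ∈ S, y ^ p ^ a = y) : Nat.card (Subfield.closure S) ≤ p ^ a := by
  classical
  have : Fintype K := Fintype.ofFinite K
  have hp : p.Prime := Fact.out
  have h1 : Subfield.closure S ≤ (iterateFrobenius K p a).eqLocusField (RingHom.id K) := by
    rw [Subfield.closure_le]
    intro y hy
    change iterateFrobenius K p a y = RingHom.id K y
    rw [iterateFrobenius_def, hS y hy, RingHom.id_apply]
  have h1' : ∀ x ∈ Subfield.closure S, x ^ p ^ a = x := by
    intro x hx
    have := h1 hx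
    change iterateFrobenius K p a x = RingHom.id K x at this
    rwa [iterateFrobenius_def, RingHom.id_apply] at this
  have hpa : 1 < p ^ a := Nat.one_lt_pow (by omega) hp.one_lt
  have h2 : (X ^ p ^ a - X : K[X]) ≠ 0 := FiniteField.X_pow_card_sub_X_ne_zero K hpa
  have h3 : (Subfield.closure S : Set K) ⊆ ((X ^ p ^ a - X : K[X]).roots.toFinset : Set K) := by
    intro x hx
    rw [Finset.mem_coe, Multiset.mem_toFinset, mem_roots h2, IsRoot.def]
    simp [h1' x hx]
  have h4 := Set.ncard_le_ncard h3 (Set.toFinite _)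
  rw [Set.ncard_coe_finset] at h4
  calc Nat.card (Subfield.closure S) = (Subfield.closure S : Set K).ncard := rfl
    _ ≤ _ := h4
    _ ≤ Multiset.card (X ^ p ^ a - X : K[X]).roots := Multiset.toFinset_card_le _
    _ ≤ (X ^ p ^ a - X : K[X]).natDegree := card_roots' _
    _ = p ^ a := FiniteField.X_pow_card_sub_X_natDegree_eq K hpa

/-- A subfield as a module over itself. -/
def asModule (L : Subfield K) : Submodule L K where
  carrier := (L : Set K)
  add_mem' := L.add_mem
  zero_mem' := L.zero_mem
  smul_mem' c _ hx := L.mul_mem c.2 hx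

theorem main [Finite K] (p n k : ℕ) (hp : p.Prime) (hK : Nat.card K = p ^ n)
    (k0 : Subfield K) (hk0 : Nat.card k0 = p ^ k) (v : ℕ) (hv1 : 1 ≤ v) (hv : v ∣ p ^ k - 1)
    (U : Submodule k0 K) (h1 : (1 : K) ∈ U) (h2 : 2 < (powSet (U : Set K) v).ncard) :
    ((¬ ∃ L : Subfield K, (L : Set K) = (U : Set K)) →
      MVSPs (powSet (U : Set K) v) = {F | ∃ f ∈ MVSPs (U : Set K), F = f ^ v}) ∧
    ((∃ L : Subfield K, (L : Set K) = (U : Set K)) → ∀ m e : ℕ, Module.finrank k0 U = m →
      Nat.card (Subfield.closure (powSet (U : Set K) v)) = p ^ e →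
      p ^ (m * k) - 1 ∣ (p ^ e - 1) * v ∧
      MVSPs (powSet (U : Set K) v) =
        {F | ∃ f ∈ MVSPs (Subfield.closure (powSet (U : Set K) v) : Set K),
          F = f ^ ((p ^ e - 1) * v / (p ^ (m * k) - 1))}) := by
  classical
  have : Fact p.Prime := ⟨hp⟩
  have : CharP K p := by
    have : Fintype K := Fintype.ofFinite K
    rw [Nat.card_eq_fintype_card] at hK
    exact charP_of_card_eq_prime_pow hK
  have hk : 1 ≤ k := by
    rcases Nat.eq_zero_or_pos k with h0 | h0
    · rw [h0, pow_zero] at hk0
      have : 1 < Nat.card k0 := Finite.one_lt_card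
      omega
    · exact h0
  have hQpos : 0 < p ^ k := pow_pos hp.pos k
  obtain ⟨hcard, hcard1⟩ := card_powSet k0 v hv1 (by rw [hk0]; exact hv) U
  set ρ := (powSet (U : Set K) v).ncard - 1 with hρ
  have hρ2 : 2 ≤ ρ := by omega
  have hcardU : Nat.card U = (p ^ k) ^ (Module.finrank k0 U) := by
    have : Fintype k0 := Fintype.ofFinite k0
    have : Fintype U := Fintype.ofFinite U
    rw [Nat.card_eq_fintype_card, Module.card_eq_pow_finrank (K := k0) (V := U),
      ← Nat.card_eq_fintype_card, hk0]
  refine ⟨?_, ?_⟩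
  · intro hnf
    apply general p k k0 hk0 hk v hv1 hv U h1 h2
    intro a ha hak c hc _ _
    rw [← hρ]
    -- the dimension is at least 2
    have hm1 : Module.finrank k0 U ≠ 1 := by
      intro hm1
      apply hnf
      refine ⟨k0, ?_⟩
      have hne : (⟨1, h1⟩ : U) ≠ 0 := by
        intro h0
        have := congrArg (fun y : U => (y : K)) h0
        simp at this
      have h3 := (finrank_eq_one_iff_of_nonzero' (⟨1, h1⟩ : U) hne).mp hm1
      ext x
      constructor
      · intro hx
        have h4 := U.smul_mem (⟨x, hx⟩ : k0) h1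
        have h5 : (⟨x, hx⟩ : k0) • (1 : K) = x := mul_one x
        rw [h5] at h4
        exact h4
      · intro hx
        obtain ⟨c, hc⟩ := h3 ⟨x, hx⟩
        have h4 := congrArg (fun y : U => (y : K)) hc
        simp only at h4
        have h5 : ((c • (⟨1, h1⟩ : U) : U) : K) = (c : K) := mul_one (c : K)
        rw [h5] at h4
        rw [SetLike.mem_coe, ← h4]
        exact c.2
    have hm0 : Module.finrank k0 U ≠ 0 := by
      intro hm0
      rw [hm0, pow_zero] at hcardU
      have : 1 ≤ v * ρ := Nat.mul_pos (by omega) (by omega)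
      omega
    have hm2 : 2 ≤ Module.finrank k0 U := by omega
    obtain ⟨h, hh⟩ := hv
    have hvh : v * h + 1 = p ^ k := by omega
    have h3 : (p ^ k) ^ 2 ≤ (p ^ k) ^ Module.finrank k0 U := Nat.pow_le_pow_right hQpos hm2
    have hh1 : 1 ≤ h := by
      rcases Nat.eq_zero_or_pos h with h0 | h0
      · rw [h0, mul_zero] at hvh
        have : 1 < p ^ k := Nat.one_lt_pow (by omega) hp.one_lt
        omega
      · exact h0
    have h4 : v * (p ^ k + 1) ≤ v * ρ := by
      have h5 : (p ^ k) ^ 2 = v * h * (p ^ k + 1) + 1 := by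
        nlinarith [hvh]
      have h6 : v * (p ^ k + 1) ≤ v * h * (p ^ k + 1) := by
        apply Nat.mul_le_mul_right
        exact Nat.le_mul_of_pos_right v hh1
      omega
    have h5 : p ^ k + 1 ≤ ρ := Nat.le_of_mul_le_mul_left h4 (by omega)
    have h6 : p ^ a ≤ p ^ k := Nat.pow_le_pow_right hp.pos hak.le
    calc p ^ a + 1 ≤ ρ := by omega
      _ ≤ ρ * c := Nat.le_mul_of_pos_right ρ hc
  · rintro ⟨L, hL⟩ m e hm he
    have hcardL : Nat.card L = v * ρ + 1 := by
      rw [hcard]
      have h3 : (L : Set K).ncard = (U : Set K).ncard := by rw [hL]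
      exact h3
    have hset : powSet (U : Set K) v = {y : K | y = 0 ∨ y ^ ρ = 1} := by
      rw [← hL]; exact powSet_field L v ρ hv1 (by omega) hcardL.symm
    set L0 := Subfield.closure (powSet (U : Set K) v) with hL0
    have hsub : powSet (U : Set K) v ⊆ (L0 : Set K) := Subfield.subset_closure
    have hρdvd : ρ ∣ p ^ e - 1 := by
      obtain ⟨ζ, _, hprim⟩ := exists_prim L ρ (by rw [hcardL, Nat.add_sub_cancel]; exact ⟨v, mul_comm _ _⟩)
      have h3 : ζ ∈ L0 := hsub (by rw [hset]; exact Or.inr hprim.pow_eq_one)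
      have h4 := mem_subfield_pow L0 ζ h3 1
      rw [pow_one, he] at h4
      apply hprim.dvd_of_pow_eq_one
      have hζ0 : ζ ≠ 0 := hprim.ne_zero (by omega)
      have h5 : p ^ e = (p ^ e - 1) + 1 := by
        have : 0 < p ^ e := pow_pos hp.pos e
        omega
      rw [h5, pow_succ] at h4
      exact mul_right_cancel₀ hζ0 (by rw [h4, one_mul])
    obtain ⟨t, ht⟩ := hρdvd
    have he1 : 1 ≤ e := by
      rcases Nat.eq_zero_or_pos e with h0 | h0
      · rw [h0, pow_zero] at he
        have : 1 < Nat.card L0 := Finite.one_lt_card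
        omega
      · exact h0
    have hpe : 1 < p ^ e := Nat.one_lt_pow (by omega) hp.one_lt
    have ht1 : 1 ≤ t := by
      rcases Nat.eq_zero_or_pos t with h0 | h0
      · rw [h0, mul_zero] at ht; omega
      · exact h0
    have htρ : t * ρ + 1 = Nat.card L0 := by
      rw [he, mul_comm]; omega
    have hmk : p ^ (m * k) - 1 = v * ρ := by
      rw [mul_comm m k, pow_mul, ← hm, ← hcardU, ← hcard, Nat.add_sub_cancel]
    have hdiv : (p ^ e - 1) * v = (v * ρ) * t := by rw [ht]; ring
    rw [hmk, hdiv]
    refine ⟨Dvd.intro t rfl, ?_⟩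
    rw [Nat.mul_div_cancel_left _ (Nat.mul_pos (by omega) (by omega))]
    have hset2 : powSet ((asModule L0 : Submodule L0 K) : Set K) t = powSet (U : Set K) v := by
      rw [hset]
      exact powSet_field L0 t ρ ht1 (by omega) htρ
    have hgen := general p e L0 he he1 t ht1 (by rw [ht]; exact Dvd.intro_left ρ rfl)
      (asModule L0) L0.one_mem (by rw [hset2]; exact h2) (by
        intro a ha hae c hc hct hdvd
        rw [hset2, ← hρ]
        obtain ⟨j, hj⟩ := hdvd
        have hpa : 2 ≤ p ^ a := Nat.one_lt_pow (by omega) hp.one_lt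
        have h3 : p ^ e = p ^ a * p ^ (e - a) := by rw [← pow_add]; congr 1; omega
        have h4 : (ρ * c + 1) + p ^ a * (ρ * j) = p ^ a * p ^ (e - a) := by
          have h5 : t = c + p ^ a * j := by omega
          rw [← h3, ← he, ← htρ, h5]
          ring
        have h5 : p ^ a ∣ ρ * c + 1 := by
          have h6 : p ^ a ∣ (ρ * c + 1) + p ^ a * (ρ * j) := by rw [h4]; exact Dvd.intro _ rfl
          exact (Nat.dvd_add_left (Dvd.intro _ rfl)).mp h6
        obtain ⟨i, hi⟩ := h5
        have hi0 : i ≠ 0 := by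
          rintro rfl
          omega
        have hi1 : i ≠ 1 := by
          rintro rfl
          rw [mul_one] at hi
          have h6 : Nat.card L0 ≤ p ^ a := by
            apply card_closure_le p a ha
            intro y hy
            rw [hset] at hy
            rcases hy with rfl | hy
            · exact zero_pow (by omega)
            · rw [← hi, pow_succ, pow_mul, hy, one_pow, one_mul]
          rw [he] at h6
          have h7 : p ^ a < p ^ e := Nat.pow_lt_pow_right hp.one_lt hae
          omega
        have hi2 : 2 ≤ i := by omega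
        have h6 : p ^ a * 2 ≤ p ^ a * i := Nat.mul_le_mul_left _ hi2
        omega)
    rw [hset2] at hgen
    exact hgen

end Pool.Agent.R325.MVSP
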