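import Mathlib

/-!
# Good factors of the parameter polynomials of `z^d + λ` over finite fields
-/

set_option autoImplicit false

namespace Pool.Agent.R325.ParamPoly

open Polynomial

variable {F : Type} [Field F]

/-- `P_{n,α}(λ) = f_λ^n(α)` for `f_λ(z) = z^d + λ` (with `P_{0,α} = α`). -/
noncomputable def P (d : ℕ) (α : F) : ℕ → F[X]
  | 0 => C α
  | n + 1 => (P d α n) ^ d + X

theorem P_succ (d : ℕ) (α : F) (n : ℕ) : P d α (n + 1) = (P d α n) ^ d + X := rfl

theorem natDegree_P (d : ℕ) (hd : 2 ≤ d) (α : F) (n : ℕ) : (P d α (n + 1)).natDegree = d ^ n := by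
  induction n with
  | zero =>
    rw [P_succ, P, ← C_pow, add_comm, natDegree_X_add_C, pow_zero]
  | succ n ih =>
    rw [P_succ, natDegree_add_eq_left_of_natDegree_lt, natDegree_pow, ih, pow_succ, mul_comm]
    rw [natDegree_X, natDegree_pow, ih]
    have : 0 < d ^ n := by positivity
    nlinarith

theorem natDegree_P_sub (d : ℕ) (hd : 2 ≤ d) (α β : F) (n : ℕ) :
    (P d α (n + 1) - C β).natDegree = d ^ n := by
  rw [natDegree_sub_C, natDegree_P d hd]

theorem P_sub_ne_zero (d : ℕ) (hd : 2 ≤ d) (α β : F) (n : ℕ) : P d α (n + 1) - C β ≠ 0 := by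
  intro h
  have := natDegree_P_sub d hd α β n
  rw [h, natDegree_zero] at this
  have h2 : 0 < d ^ n := by positivity
  omega

/-- periodicity modulo a good irreducible polynomial -/
theorem exists_period [Fintype F] (d : ℕ) (hd : 2 ≤ d) (g : F[X]) (hg : Irreducible g)
    (hgood : Nat.Coprime d (Fintype.card F ^ g.natDegree - 1)) (α : F) :
    ∃ T : ℕ, 0 < T ∧ ∀ m r : ℕ, g ∣ P d α (T * m + r) - P d α r := by
  classical
  have : Fact (Irreducible g) := ⟨hg⟩
  let E := AdjoinRoot g
  have : Module.Finite F E := (AdjoinRoot.powerBasis hg.ne_zero).finite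
  have : Finite E := Module.finite_of_finite F
  have : Fintype E := Fintype.ofFinite E
  have hcard : Fintype.card E = Fintype.card F ^ g.natDegree := by
    rw [Module.card_eq_pow_finrank (K := F) (V := E)]
    congr 1
    rw [(AdjoinRoot.powerBasis hg.ne_zero).finrank, AdjoinRoot.powerBasis_dim]
  let f : E → E := fun z => z ^ d + AdjoinRoot.root g
  have hinj : Function.Injective f := by
    intro z w hzw
    have h1 : z ^ d = w ^ d := add_right_cancel hzw
    by_cases hw : w = 0
    · subst hw
      rw [zero_pow (by omega)] at h1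
      exact (pow_eq_zero_iff (by omega)).mp h1
    · have h2 : (z / w) ^ d = 1 := by rw [div_pow, h1, div_self (pow_ne_zero _ hw)]
      have hz : z / w ≠ 0 := by
        intro h
        rw [h, zero_pow (by omega)] at h2
        exact zero_ne_one h2
      have h3 : (z / w) ^ (Fintype.card E - 1) = 1 := FiniteField.pow_card_sub_one_eq_one _ hz
      rw [hcard] at h3
      have h4 : orderOf (z / w) ∣ 1 := by
        rw [← hgood]
        exact Nat.dvd_gcd (orderOf_dvd_of_pow_eq_one h2) (orderOf_dvd_of_pow_eq_one h3)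
      have h5 : z / w = 1 := orderOf_eq_one_iff.mp (Nat.dvd_one.mp h4)
      exact (div_eq_one_iff_eq hw).mp h5
  have hbij : Function.Bijective f := Finite.injective_iff_bijective.mp hinj
  let φ : Equiv.Perm E := Equiv.ofBijective f hbij
  have hφ : ∀ (n : ℕ) (z : E), (φ ^ n) z = f^[n] z := by
    intro n z
    induction n generalizing z with
    | zero => simp
    | succ n ih => rw [pow_succ, Equiv.Perm.mul_apply, ih, Function.iterate_succ_apply]; rfl
  have hfin : IsOfFinOrder φ := isOfFinOrder_of_finite φ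
  refine ⟨orderOf φ, hfin.orderOf_pos, fun m r => ?_⟩
  have hmk : ∀ n, AdjoinRoot.mk g (P d α n) = f^[n] (AdjoinRoot.mk g (C α)) := by
    intro n
    induction n with
    | zero => rfl
    | succ n ih =>
      rw [Function.iterate_succ_apply', ← ih, P_succ, map_add, map_pow, AdjoinRoot.mk_X]
  rw [← AdjoinRoot.mk_eq_zero, map_sub, sub_eq_zero, hmk, hmk, ← hφ, ← hφ, pow_add, pow_mul,
    pow_orderOf_eq_one, one_pow, one_mul]

theorem dvd_natDegree (e : ℕ) (n : ℕ) : ∀ Q : F[X], Q.natDegree ≤ n → Q ≠ 0 →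
    (∀ g : F[X], Irreducible g → g ∣ Q → e ∣ g.natDegree) → e ∣ Q.natDegree := by
  induction n with
  | zero =>
    intro Q hQ _ _
    have : Q.natDegree = 0 := by omega
    rw [this]; exact dvd_zero _
  | succ n ih =>
    intro Q hQ hQ0 h
    by_cases h0 : Q.natDegree = 0
    · rw [h0]; exact dvd_zero _
    · obtain ⟨g, hg, hgQ⟩ := exists_irreducible_of_natDegree_ne_zero h0
      have h1 := h g hg hgQ
      obtain ⟨R, hR⟩ := hgQ
      have hR0 : R ≠ 0 := by rintro rfl; rw [mul_zero] at hR; exact hQ0 hR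
      have h2 : Q.natDegree = g.natDegree + R.natDegree := by
        rw [hR, natDegree_mul hg.ne_zero hR0]
      have h3 : 0 < g.natDegree := hg.natDegree_pos
      have h4 := ih R (by omega) hR0 (fun g' hg' hgR => h g' hg' (by rw [hR]; exact hgR.mul_left _))
      rw [h2]
      exact dvd_add h1 h4

theorem finite_deg_le [Fintype F] (M : ℕ) : {g : F[X] | g.natDegree ≤ M}.Finite := by
  have hinj : Set.InjOn (fun (p : F[X]) (i : Fin (M + 1)) => p.coeff i)
      {g : F[X] | g.natDegree ≤ M} := by
    intro p hp p' hp' he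
    have hp1 : p.natDegree ≤ M := hp
    have hp2 : p'.natDegree ≤ M := hp'
    ext n
    by_cases hn : n < M + 1
    · exact congrFun he ⟨n, hn⟩
    · rw [coeff_eq_zero_of_natDegree_lt (by omega), coeff_eq_zero_of_natDegree_lt (by omega)]
  exact Set.Finite.of_finite_image (Set.toFinite _) hinj

/-- a common period modulo all good irreducible polynomials of small degree -/
theorem exists_common_period [Fintype F] (d : ℕ) (hd : 2 ≤ d) (α : F) (M : ℕ) :
    ∃ L : ℕ, 0 < L ∧ ∀ g : F[X], Irreducible g → g.natDegree ≤ M →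
      Nat.Coprime d (Fintype.card F ^ g.natDegree - 1) →
      ∀ r, g ∣ P d α (L + r) - P d α r := by
  classical
  set S := (finite_deg_le (F := F) M).toFinset with hS
  have hch : ∀ g : F[X], ∃ T : ℕ, 0 < T ∧ (Irreducible g →
      Nat.Coprime d (Fintype.card F ^ g.natDegree - 1) →
      ∀ m r : ℕ, g ∣ P d α (T * m + r) - P d α r) := by
    intro g
    by_cases hg : Irreducible g ∧ Nat.Coprime d (Fintype.card F ^ g.natDegree - 1)
    · obtain ⟨T, hT, h⟩ := exists_period d hd g hg.1 hg.2 α
      exact ⟨T, hT, fun _ _ => h⟩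
    · exact ⟨1, one_pos, fun h1 h2 => absurd ⟨h1, h2⟩ hg⟩
  choose T hT hT' using hch
  refine ⟨∏ g ∈ S, T g, Finset.prod_pos fun g _ => hT g, ?_⟩
  intro g hg hgM hgood r
  have hgS : g ∈ S := by rw [hS, Set.Finite.mem_toFinset]; exact hgM
  obtain ⟨m, hm⟩ := Finset.dvd_prod_of_mem T hgS
  rw [hm]
  exact hT' g hg hgood m r

/-- The criterion. -/
theorem good_factor [Fintype F] (p : ℕ) [Fact p.Prime] [CharP F p] (d : ℕ) (hd : 2 ≤ d)
    (hgcd : Nat.Coprime d (Fintype.card F - 1)) (e : ℕ) (he : e.Prime)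
    (hel : ∀ l : ℕ, l.Prime → l ∣ d → l ≠ p → e ∣ orderOf (Fintype.card F : ZMod l))
    (α β : F) (hαβ : α ≠ β) (M : ℕ) :
    ∃ n : ℕ, 1 ≤ n ∧ ∃ g : F[X], Irreducible g ∧ g ∣ P d α n - C β ∧ M < g.natDegree ∧
      Nat.Coprime d (Fintype.card F ^ g.natDegree - 1) := by
  classical
  set q := Fintype.card F with hq
  have hpq : ∃ m : ℕ, q = p ^ (m : ℕ) ∧ 0 < m := by
    obtain ⟨m, hm⟩ := FiniteField.card F p
    exact ⟨m, hm.2, m.pos⟩
  obtain ⟨s, hqs, hs⟩ := hpq
  have hp : p.Prime := Fact.out
  have hq2 : 2 ≤ q := Fintype.one_lt_card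
  have hbad : ∀ k, 0 < k → ¬ e ∣ k → Nat.Coprime d (q ^ k - 1) := by
    intro k hk hek
    by_contra hnc
    obtain ⟨l, hl, hld, hlk⟩ := Nat.Prime.not_coprime_iff_dvd.mp hnc
    have hqk : 1 ≤ q ^ k := Nat.one_le_pow _ _ (by omega)
    have hlp : l ≠ p := by
      rintro rfl
      have h1 : l ∣ q ^ k := dvd_pow (by rw [hqs]; exact dvd_pow_self _ hs.ne') hk.ne'
      have h2 : l ∣ 1 := by
        have := (Nat.dvd_sub h1 hlk)
        rwa [Nat.sub_sub_self hqk] at this
      exact hl.one_lt.ne' (Nat.dvd_one.mp h2)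
    apply hek
    refine (hel l hl hld hlp).trans (orderOf_dvd_of_pow_eq_one ?_)
    have h3 : ((q ^ k - 1 : ℕ) : ZMod l) = 0 := (ZMod.natCast_eq_zero_iff _ _).mpr hlk
    rw [Nat.cast_sub hqk] at h3
    push_cast at h3
    exact sub_eq_zero.mp h3
  by_cases hed : e ∣ d
  · -- then `e = p`
    have hep : e = p := by
      by_contra hne
      have : Fact e.Prime := ⟨he⟩
      have h1 := hel e he hed hne
      have hqe : (q : ZMod e) ≠ 0 := by
        rw [Ne, ZMod.natCast_eq_zero_iff, hqs]
        intro h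
        exact hne ((Nat.prime_dvd_prime_iff_eq he hp).mp (he.dvd_of_dvd_pow h))
      have h2 : orderOf (q : ZMod e) ∣ e - 1 := ZMod.orderOf_dvd_card_sub_one hqe
      have h3 := Nat.le_of_dvd (by have := he.two_le; omega) (h1.trans h2)
      have := he.two_le
      omega
    subst hep
    set M' := max M 1 with hM'
    obtain ⟨L, hL, hper⟩ := exists_common_period d hd α M'
    set lin : F[X] := X - C (β - α ^ d) with hlin
    have hlinirr : Irreducible lin := irreducible_X_sub_C _
    have hP1 : P d α 1 - C β = lin := by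
      rw [P_succ, P, hlin, map_sub, map_pow]; ring
    -- separability
    have hder : ∀ n, derivative (P d α (n + 1)) = 1 := by
      intro n
      rw [P_succ, derivative_add, derivative_X, derivative_pow]
      have : (d : F) = 0 := (CharP.cast_eq_zero_iff F e d).mpr hed
      rw [this]; simp
    have hlin1 : lin ∣ P d α (L + 1) - C β := by
      have h1 := hper lin hlinirr (by rw [hlin, natDegree_X_sub_C]; exact le_max_right _ _)
        (by rw [hlin, natDegree_X_sub_C, pow_one]; exact hgcd) 1
      have h2 : P d α (L + 1) - C β = (P d α (L + 1) - P d α 1) + lin := by rw [← hP1]; ring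
      rw [h2]
      exact dvd_add h1 dvd_rfl
    obtain ⟨B, hB⟩ := hlin1
    have hsep : ¬ lin ∣ B := by
      rintro ⟨D, hD⟩
      rw [hD] at hB
      have h1 := congrArg derivative hB
      rw [derivative_sub, hder, derivative_C, sub_zero, derivative_mul, derivative_mul] at h1
      have h2 : lin ∣ 1 := by
        rw [h1]
        exact dvd_add (Dvd.intro_left _ (by ring : derivative lin * D * lin = _)) (dvd_mul_right _ _)
      exact hlinirr.not_isUnit (isUnit_of_dvd_one h2)
    have hB0 : B ≠ 0 := by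
      rintro rfl
      rw [mul_zero] at hB
      exact P_sub_ne_zero d hd α β L hB
    have hdeg : 1 + B.natDegree = d ^ L := by
      rw [← natDegree_P_sub d hd α β L, hB, natDegree_mul hlinirr.ne_zero hB0, hlin,
        natDegree_X_sub_C]
    have hnd : ¬ e ∣ B.natDegree := by
      intro h
      have h1 : e ∣ d ^ L := dvd_pow hed hL.ne'
      rw [← hdeg] at h1
      have h2 : e ∣ 1 := (Nat.dvd_add_iff_left h).mpr h1
      exact he.one_lt.ne' (Nat.dvd_one.mp h2)
    have hex : ∃ g : F[X], Irreducible g ∧ g ∣ B ∧ ¬ e ∣ g.natDegree := by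
      by_contra hcon
      push Not at hcon
      exact hnd (dvd_natDegree e _ B le_rfl hB0 hcon)
    obtain ⟨g, hg, hgB, hge⟩ := hex
    have hgood := hbad g.natDegree hg.natDegree_pos hge
    refine ⟨L + 1, by omega, g, hg, by rw [hB]; exact hgB.mul_left _, ?_, hgood⟩
    by_contra hlt
    push Not at hlt
    have h1 := hper g hg (hlt.trans (le_max_left _ _)) hgood 1
    have h2 : g ∣ lin := by
      have h3 : g ∣ P d α (L + 1) - C β := by rw [hB]; exact hgB.mul_left _
      have h4 : lin = (P d α (L + 1) - C β) - (P d α (L + 1) - P d α 1) := by rw [← hP1]; ring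
      rw [h4]
      exact dvd_sub h3 h1
    have h5 : Associated g lin := hg.associated_of_dvd hlinirr h2
    exact hsep (h5.symm.dvd.trans hgB)
  · obtain ⟨L, hL, hper⟩ := exists_common_period d hd α M
    obtain ⟨L', rfl⟩ : ∃ L', L = L' + 1 := ⟨L - 1, by omega⟩
    have hnd : ¬ e ∣ (P d α (L' + 1) - C β).natDegree := by
      rw [natDegree_P_sub d hd]
      intro h
      exact hed (he.dvd_of_dvd_pow h)
    have hex : ∃ g : F[X], Irreducible g ∧ g ∣ (P d α (L' + 1) - C β) ∧ ¬ e ∣ g.natDegree := by
      by_contra hcon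
      push Not at hcon
      exact hnd (dvd_natDegree e _ _ le_rfl (P_sub_ne_zero d hd α β L') hcon)
    obtain ⟨g, hg, hgB, hge⟩ := hex
    have hgood := hbad g.natDegree hg.natDegree_pos hge
    refine ⟨L' + 1, by omega, g, hg, hgB, ?_, hgood⟩
    by_contra hlt
    push Not at hlt
    have h1 := hper g hg hlt hgood 0
    have h2 : g ∣ C (β - α) := by
      have h4 : (C (β - α) : F[X]) = (P d α (L' + 1 + 0) - P d α 0) - (P d α (L' + 1) - C β) := by
        rw [add_zero, P, map_sub]; ring
      rw [h4]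
      exact dvd_sub h1 hgB
    have h3 : IsUnit (C (β - α) : F[X]) := by
      rw [isUnit_C]
      exact (sub_ne_zero.mpr hαβ.symm).isUnit
    exact hg.not_isUnit (isUnit_of_dvd_unit h2 h3)

end Pool.Agent.R325.ParamPoly
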