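import Mathlib

namespace Pool.Agent.R325.QH

open Quandles

universe u v

/-- The inner automorphism group `Inn(P)`: the subgroup of `Sym(P)` generated by all `s_x`,
where `s_x y = x ◃ y`. -/
def Inn (P : Type u) [Quandle P] : Subgroup (Equiv.Perm P) :=
  Subgroup.closure (Set.range fun x : P => Rack.act' x)

/-- The relative inner automorphism group `Inn(f)`: the inner automorphisms of `P` which map
every fibre of `f` to itself. -/
def RelInn {P : Type u} {Q : Type v} [Quandle P] [Quandle Q] (f : P →◃ Q) :
    Subgroup (Equiv.Perm P) where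
  carrier := {g | g ∈ Inn P ∧ ∀ x, f (g x) = f x}
  mul_mem' := fun {a b} ha hb => ⟨(Inn P).mul_mem ha.1 hb.1, fun x => by
    rw [Equiv.Perm.mul_apply, ha.2, hb.2]⟩
  one_mem' := ⟨(Inn P).one_mem, fun _ => rfl⟩
  inv_mem' := fun {a} ha => ⟨(Inn P).inv_mem ha.1, fun x => by
    rw [← ha.2 (a⁻¹ x)]; simp⟩

/-- A quandle homomorphism is doubly transitive if it is surjective and `Inn(f)` acts
transitively on the ordered pairs of distinct points of every fibre. -/
def DoublyTransitive {P : Type u} {Q : Type v} [Quandle P] [Quandle Q] (f : P →◃ Q) : Prop :=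
  Function.Surjective f ∧
    ∀ (q : Q) (x y x' y' : P), f x = q → f y = q → f x' = q → f y' = q → x ≠ y → x' ≠ y' →
      ∃ g ∈ RelInn f, g x = x' ∧ g y = y'

/-- The fibre `f⁻¹(q)`, as a subquandle of `P`, is isomorphic to the trivial quandle of
order `n`: it has exactly `n` points (here `n` is positive) and `s_x` fixes `y` for all
`x, y` in the fibre. -/
def FibreIsTrivial {P : Type u} {Q : Type v} [Quandle P] [Quandle Q] (f : P →◃ Q) (q : Q)
    (n : ℕ) : Prop :=
  0 < n ∧ Nat.card {x : P // f x = q} = n ∧ ∀ x y : P, f x = q → f y = q → x ◃ y = y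

end Pool.Agent.R325.QH
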