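import Mathlib

namespace Pool.Agent.R325.QH

open Equiv Equiv.Perm MulAction

/-- two-transitivity of a homomorphism to a symmetric group -/
def T2 {N Ω : Type*} [Group N] (φ : N →* Perm Ω) : Prop :=
  ∀ x y x' y' : Ω, x ≠ y → x' ≠ y' → ∃ g : N, φ g x = x' ∧ φ g y = y'

lemma three_of_fix {h : Perm (Fin 6)} (h9 : h ^ 9 = 1) (h1 : h ≠ 1) {x : Fin 6} (hx : h x = x) :
    h.IsThreeCycle := by
  have hs : h.support.card ≤ 5 := by
    have hsub : h.support ⊆ Finset.univ.erase x := by
      intro y hy
      simp only [Finset.mem_erase, Finset.mem_univ, and_true]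
      rintro rfl
      exact (mem_support.mp hy) hx
    calc _ ≤ _ := Finset.card_le_card hsub
      _ = 5 := by simp
  have hall : ∀ c ∈ h.cycleType, c = 3 := by
    intro c hc
    have h2 := two_le_of_mem_cycleType hc
    have hd : c ∣ 9 := (dvd_of_mem_cycleType hc).trans (orderOf_dvd_of_pow_eq_one h9)
    have hle : c ≤ 5 := (le_card_support_of_mem_cycleType hc).trans hs
    interval_cases c <;> simp_all
  have hrep : h.cycleType = Multiset.replicate h.cycleType.card 3 :=
    Multiset.eq_replicate.mpr ⟨rfl, hall⟩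
  have hsum := h.sum_cycleType
  have hpos : 0 < h.cycleType.card := card_cycleType_pos.mpr h1
  rw [hrep, Multiset.sum_replicate] at hsum
  have : h.cycleType.card = 1 := by
    simp only [smul_eq_mul] at hsum
    omega
  rw [this] at hrep
  exact hrep

lemma T2.preprim {H : Subgroup (Perm (Fin 6))} (h2 : T2 H.subtype) : IsPreprimitive H (Fin 6) := by
  apply isPreprimitive_of_is_two_pretransitive
  rw [is_two_pretransitive_iff]
  intro a b c d hab hcd
  obtain ⟨g, hg⟩ := h2 a b c d hab hcd
  exact ⟨g, hg⟩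

lemma T2.three {H : Subgroup (Perm (Fin 6))} (h2 : T2 H.subtype) {g : Perm (Fin 6)} (hg : g ∈ H)
    (h3 : g.IsThreeCycle) : 360 ∣ Nat.card H := by
  have := alternatingGroup_le_of_isPreprimitive_of_isThreeCycle_mem h2.preprim h3 hg
  have h := Subgroup.card_dvd_of_le this
  rw [nat_card_alternatingGroup] at h
  simpa [Nat.factorial] using h

lemma card_orbit_mul {G Ω : Type*} [Group G] [MulAction G Ω] (x : Ω) :
    Nat.card (stabilizer G x) * (orbit G x).ncard = Nat.card G := by
  rw [← index_stabilizer, Subgroup.card_mul_index]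

lemma E9 {H : Subgroup (Perm (Fin 6))} (h2 : T2 H.subtype) (h9 : 9 ∣ Nat.card H) :
    360 ∣ Nat.card H := by
  have : Fact (Nat.Prime 3) := ⟨by norm_num⟩
  obtain ⟨K, hK⟩ := Sylow.exists_subgroup_card_pow_prime (G := H) 3 (n := 2) h9
  have horb := card_orbit_mul (G := K) (0 : Fin 6)
  rw [hK] at horb
  have hle : (orbit K (0 : Fin 6)).ncard ≤ 6 := by
    calc _ ≤ (Set.univ : Set (Fin 6)).ncard := Set.ncard_le_ncard (Set.subset_univ _)
      _ = 6 := by simp
  have hst : 1 < Nat.card (stabilizer K (0 : Fin 6)) := by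
    by_contra hc
    have : Nat.card (stabilizer K (0 : Fin 6)) ≤ 1 := by omega
    have : Nat.card (stabilizer K (0 : Fin 6)) * (orbit K (0 : Fin 6)).ncard ≤ 1 * 6 :=
      Nat.mul_le_mul this hle
    omega
  rw [Finite.one_lt_card_iff_nontrivial] at hst
  obtain ⟨k, hk⟩ := exists_ne (1 : stabilizer K (0 : Fin 6))
  have hk9 : ((k : K) : H) ^ 9 = 1 := by
    have : (k : K) ^ (Nat.card K) = 1 := pow_card_eq_one'
    rw [hK] at this
    have h' := congrArg (fun z : K => (z : H)) this
    simpa using h'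
  have hfix : (((k : K) : H) : Perm (Fin 6)) 0 = 0 := by
    have := k.2
    rw [mem_stabilizer_iff] at this
    exact this
  refine h2.three ((k : K) : H).2 (three_of_fix (x := 0) ?_ ?_ hfix)
  · have h' := congrArg (fun z : H => (z : Perm (Fin 6))) hk9
    simpa using h'
  · intro hc
    apply hk
    ext
    simp [hc]

lemma trans_of_T2 {N Ω : Type*} [Group N] {φ : N →* Perm Ω} (h : T2 φ) [Nontrivial Ω] (x y : Ω) :
    ∃ g : N, φ g x = y := by
  obtain ⟨x', hx'⟩ := exists_ne x
  obtain ⟨y', hy'⟩ := exists_ne y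
  obtain ⟨g, hg, _⟩ := h x x' y y' hx'.symm hy'.symm
  exact ⟨g, hg⟩

/-- a nontrivial normal subgroup is transitive -/
lemma normal_trans {N Ω : Type*} [Group N] {φ : N →* Perm Ω} (h : T2 φ) {K : Subgroup N}
    (hK : K.Normal) {k : N} (hk : k ∈ K) (hk1 : φ k ≠ 1) (x y : Ω) : ∃ g ∈ K, φ g x = y := by
  by_cases hxy : x = y
  · exact ⟨1, K.one_mem, by simp [hxy]⟩
  · obtain ⟨z, hz⟩ : ∃ z, φ k z ≠ z := by
      by_contra hc
      push Not at hc
      exact hk1 (Equiv.ext hc)
    obtain ⟨g, hg1, hg2⟩ := h z (φ k z) x y hz.symm hxy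
    refine ⟨g * k * g⁻¹, hK.conj_mem k hk g, ?_⟩
    have : φ g⁻¹ x = z := by
      rw [map_inv, Perm.inv_eq_iff_eq, hg1]
    simp only [map_mul, Perm.mul_apply, this]
    exact hg2

lemma card_dvd_of_trans {N Ω : Type*} [Group N] (φ : N →* Perm Ω) (K : Subgroup N)
    (x : Ω) (h : ∀ y, ∃ g ∈ K, φ g x = y) : Nat.card Ω ∣ Nat.card (K.map φ) := by
  have h1 : orbit (K.map φ) x = Set.univ := by
    ext y
    simp only [Set.mem_univ, iff_true]
    obtain ⟨g, hg, hgy⟩ := h y
    exact ⟨⟨φ g, Subgroup.mem_map_of_mem φ hg⟩, hgy⟩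
  have h2 := card_orbit_mul (G := K.map φ) x
  rw [h1, Set.ncard_univ] at h2
  exact ⟨_, by rw [← h2, mul_comm]⟩


lemma stab_card_of_T2 {H : Subgroup (Perm (Fin 6))} (h2 : T2 H.subtype) (x : Fin 6) :
    Nat.card (stabilizer H x) * 6 = Nat.card H := by
  have h1 : orbit H x = Set.univ := by
    ext y
    simp only [Set.mem_univ, iff_true]
    obtain ⟨g, hg⟩ := trans_of_T2 h2 x y
    exact ⟨g, hg⟩
  have h3 := card_orbit_mul (G := H) x
  rw [h1, Set.ncard_univ, Nat.card_fin] at h3
  exact h3

lemma E30 {H : Subgroup (Perm (Fin 6))} (h2 : T2 H.subtype) (h30 : Nat.card H = 30) : False := by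
  have p2 : Fact (Nat.Prime 2) := ⟨by norm_num⟩
  have p5 : Fact (Nat.Prime 5) := ⟨by norm_num⟩
  have p3 : Fact (Nat.Prime 3) := ⟨by norm_num⟩
  obtain ⟨u, hu⟩ := exists_prime_orderOf_dvd_card' (G := H) 2 (by rw [h30]; norm_num)
  obtain ⟨v, hv⟩ := exists_prime_orderOf_dvd_card' (G := H) 5 (by rw [h30]; norm_num)
  have hu' : orderOf (u : Perm (Fin 6)) = 2 := by rw [Subgroup.orderOf_coe, hu]
  -- `u` has no fixed point
  have hfix : ∀ x : Fin 6, (u : Perm (Fin 6)) x ≠ x := by
    intro x hx
    have hs := stab_card_of_T2 h2 x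
    have hmem : u ∈ stabilizer H x := hx
    have : orderOf (⟨u, hmem⟩ : stabilizer H x) ∣ Nat.card (stabilizer H x) := orderOf_dvd_natCard _
    rw [Subgroup.orderOf_mk, hu] at this
    omega
  have hsupp : (u : Perm (Fin 6)).support = Finset.univ := by
    ext x
    simpa using hfix x
  have hsign : sign (u : Perm (Fin 6)) = -1 := by
    obtain ⟨n, hn⟩ := cycleType_prime_order (σ := (u : Perm (Fin 6))) (by rw [hu']; norm_num)
    have hsum := (u : Perm (Fin 6)).sum_cycleType
    rw [hsupp, hn, hu'] at hsum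
    simp only [Multiset.sum_replicate, smul_eq_mul, Finset.card_univ, Fintype.card_fin] at hsum
    have hn2 : n = 2 := by omega
    rw [sign_of_cycleType, hn, hu', hn2]
    decide
  -- the kernel of the sign
  let K : Subgroup H := (sign.comp H.subtype).ker
  have hKn : K.Normal := MonoidHom.normal_ker _
  have hvK : v ∈ K := by
    rw [MonoidHom.mem_ker]
    have h5 : v ^ 5 = 1 := by rw [← hv, pow_orderOf_eq_one]
    have h5' : ((sign.comp H.subtype) v) ^ 5 = 1 := by rw [← map_pow, h5, map_one]
    rcases Int.units_eq_one_or ((sign.comp H.subtype) v) with h | h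
    · exact h
    · rw [h] at h5'
      exact absurd h5' (by decide)
  have hv1 : H.subtype v ≠ 1 := by
    intro h
    have : v = 1 := by
      ext1
      exact h
    rw [this, orderOf_one] at hv
    omega
  have h6 := card_dvd_of_trans H.subtype K 0 (fun y => normal_trans h2 hKn hvK hv1 0 y)
  rw [Nat.card_fin] at h6
  have h6' : 6 ∣ Nat.card K := by
    rwa [Nat.card_congr (Subgroup.equivMapOfInjective K H.subtype H.subtype_injective).toEquiv]
  have h5 : 5 ∣ Nat.card K := by
    have : orderOf (⟨v, hvK⟩ : K) ∣ Nat.card K := orderOf_dvd_natCard _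
    rwa [Subgroup.orderOf_mk, hv] at this
  have h30' : 30 ∣ Nat.card K := by omega
  have hKtop : K = ⊤ := by
    apply Subgroup.eq_top_of_card_eq
    have hd := Subgroup.card_subgroup_dvd_card K
    rw [h30] at hd
    rw [h30]
    exact Nat.dvd_antisymm hd h30'
  have : u ∈ K := by rw [hKtop]; trivial
  rw [MonoidHom.mem_ker] at this
  have h' : sign (u : Perm (Fin 6)) = 1 := this
  rw [hsign] at h'
  exact absurd h' (by decide)

lemma E16 {H B : Subgroup (Perm (Fin 6))} (hBH : B ≤ H) (h2 : T2 H.subtype)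
    (hH : Nat.card H = 16 * Nat.card B) (hB : Nat.card B = 15 ∨ Nat.card B = 45) : False := by
  have p5 : Fact (Nat.Prime 5) := ⟨by norm_num⟩
  have p3 : Fact (Nat.Prime 3) := ⟨by norm_num⟩
  obtain ⟨g, hg⟩ := exists_prime_orderOf_dvd_card' (G := B) 5
    (by rcases hB with h | h <;> rw [h] <;> norm_num)
  have hg' : orderOf (g : Perm (Fin 6)) = 5 := by rw [Subgroup.orderOf_coe, hg]
  obtain ⟨n, hn⟩ := cycleType_prime_order (σ := (g : Perm (Fin 6))) (by rw [hg']; norm_num)
  have hsum := (g : Perm (Fin 6)).sum_cycleType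
  have hle : (g : Perm (Fin 6)).support.card ≤ 6 := by
    calc _ ≤ _ := Finset.card_le_univ _
      _ = 6 := by simp
  rw [hn, hg', Multiset.sum_replicate, smul_eq_mul] at hsum
  have hn0 : n = 0 := by omega
  have hcyc : (g : Perm (Fin 6)).IsCycle := by
    rw [← card_cycleType_eq_one, hn, hn0]
    simp
  have hs5 : (g : Perm (Fin 6)).support.card = 5 := by omega
  obtain ⟨x, hx⟩ : ∃ x, x ∉ (g : Perm (Fin 6)).support := by
    by_contra hc
    push Not at hc
    have : (g : Perm (Fin 6)).support = Finset.univ := Finset.eq_univ_iff_forall.mpr hc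
    rw [this] at hs5
    simp at hs5
  have hcover : ∀ y, y ≠ x → y ∈ (g : Perm (Fin 6)).support := by
    intro y hy
    by_contra hc
    have : (g : Perm (Fin 6)).support ⊆ (Finset.univ.erase x).erase y := by
      intro z hz
      simp only [Finset.mem_erase, Finset.mem_univ, and_true]
      exact ⟨fun h => hc (h ▸ hz), fun h => hx (h ▸ hz)⟩
    have := Finset.card_le_card this
    rw [Finset.card_erase_of_mem (by simp [hy]), Finset.card_erase_of_mem (by simp), hs5] at this
    simp at this
  -- the orbit of `x` under `B` is a point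
  have hfixB : ∀ b : B, (b : Perm (Fin 6)) x = x := by
    by_contra hc
    push Not at hc
    obtain ⟨b, hb⟩ := hc
    have huniv : orbit B x = Set.univ := by
      ext z
      simp only [Set.mem_univ, iff_true]
      by_cases hzx : z = x
      · rw [hzx]; exact mem_orbit_self x
      · obtain ⟨i, hi⟩ := hcyc.exists_zpow_eq (x := (b : Perm (Fin 6)) x) (y := z)
          (mem_support.mp (hcover _ hb)) (mem_support.mp (hcover _ hzx))
        refine ⟨g ^ i * b, ?_⟩
        change ((g ^ i * b : B) : Perm (Fin 6)) x = z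
        simpa using hi
    have h3 := card_orbit_mul (G := B) x
    rw [huniv, Set.ncard_univ, Nat.card_fin] at h3
    omega
  have hBle : B ≤ stabilizer (Perm (Fin 6)) x := fun b hb => hfixB ⟨b, hb⟩
  have hd := Subgroup.card_dvd_of_le hBle
  have hst : Nat.card (stabilizer (Perm (Fin 6)) x) = 120 := by
    have h3 := card_orbit_mul (G := Perm (Fin 6)) x
    have huniv : orbit (Perm (Fin 6)) x = Set.univ := orbit_eq_univ _ _
    rw [huniv, Set.ncard_univ, Nat.card_fin, Nat.card_perm, Nat.card_fin] at h3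
    have : Nat.factorial 6 = 720 := rfl
    omega
  rw [hst] at hd
  have hB15 : Nat.card B = 15 := by
    rcases hB with h | h
    · exact h
    · rw [h] at hd
      omega
  obtain ⟨h, hh⟩ := exists_prime_orderOf_dvd_card' (G := B) 3 (by rw [hB15]; norm_num)
  have hh' : orderOf (h : Perm (Fin 6)) = 3 := by rw [Subgroup.orderOf_coe, hh]
  have h3c : (h : Perm (Fin 6)).IsThreeCycle := by
    refine three_of_fix (x := x) ?_ ?_ (hfixB h)
    · rw [← orderOf_dvd_iff_pow_eq_one, hh']
      norm_num
    · intro hc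
      rw [hc, orderOf_one] at hh'
      omega
  have := h2.three (hBH h.2) h3c
  omega

end Pool.Agent.R325.QH
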