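import Pool.Agent.R325.QHNum

namespace Pool.Agent.R325.QH

open Equiv Equiv.Perm MulAction

lemma T2.range {N Ω : Type*} [Group N] {φ : N →* Perm Ω} (h : T2 φ) : T2 φ.range.subtype := by
  intro x y x' y' hxy hxy'
  obtain ⟨g, hg⟩ := h x y x' y' hxy hxy'
  exact ⟨⟨φ g, ⟨g, rfl⟩⟩, hg⟩

/-- a permutation of prime order with exactly one fixed point: the order of its centraliser -/
lemma card_cent {Ω : Type*} [Fintype Ω] [DecidableEq Ω] {a : Perm Ω} {r : ℕ} (hr : r.Prime)
    (ha : orderOf a = r) {b : Ω} (hsupp : a.support = Finset.univ.erase b) :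
    ∃ k, (k + 1) * r = Nat.card Ω - 1 ∧
      Nat.card (Subgroup.centralizer {a}) = r ^ (k + 1) * (k + 1).factorial := by
  obtain ⟨n, hn⟩ := cycleType_prime_order (σ := a) (by rw [ha]; exact hr)
  rw [ha] at hn
  have hsum := a.sum_cycleType
  rw [hsupp, hn, Finset.card_erase_of_mem (Finset.mem_univ _), Finset.card_univ,
    Multiset.sum_replicate, smul_eq_mul] at hsum
  have hpos : 0 < Fintype.card Ω := Fintype.card_pos_iff.mpr ⟨b⟩
  refine ⟨n, by rw [Nat.card_eq_fintype_card]; exact hsum, ?_⟩
  rw [nat_card_centralizer, hn, Multiset.sum_replicate, smul_eq_mul, hsum, Multiset.prod_replicate,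
    show Fintype.card Ω - (Fintype.card Ω - 1) = 1 by omega]
  simp only [Nat.factorial_one, one_mul]
  congr 1
  rw [Multiset.toFinset_replicate, if_neg (by omega), Finset.prod_singleton,
    Multiset.count_replicate_self]

theorem NL {N Ω : Type*} [Group N] (φ : N →* Perm (Fin 6)) (ψ : N →* Perm Ω)
    (hφ : T2 φ) (hψ : T2 ψ) (hker : φ.ker = ψ.ker) (b : Ω) (a : Perm Ω) (ha1 : a ≠ 1)
    (hab : a b = b) (hcomm : ∀ g : N, ψ g b = b → a * ψ g = ψ g * a) : False := by
  classical
  obtain ⟨c, hc⟩ : ∃ c, a c ≠ c := by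
    by_contra hcon
    push Not at hcon
    exact ha1 (Equiv.ext hcon)
  have hcb : c ≠ b := by
    rintro rfl
    exact hc hab
  have hnt : Nontrivial Ω := ⟨c, b, hcb⟩
  let e : φ.range ≃* ψ.range := (QuotientGroup.quotientKerEquivRange φ).symm.trans
    ((QuotientGroup.quotientMulEquivOfEq hker).trans (QuotientGroup.quotientKerEquivRange ψ))
  have hfr : Finite ψ.range := Finite.of_equiv _ e.toEquiv
  have hfin : Finite Ω := by
    apply Finite.of_surjective (fun g : ψ.range => (g : Perm Ω) b)
    intro y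
    obtain ⟨g, hg⟩ := trans_of_T2 hψ b y
    exact ⟨⟨ψ g, ⟨g, rfl⟩⟩, hg⟩
  have := Fintype.ofFinite Ω
  -- a power of prime order
  have hoa : orderOf a ≠ 1 := by rwa [ne_eq, orderOf_eq_one_iff]
  obtain ⟨r, hr, hrd⟩ := Nat.exists_prime_and_dvd hoa
  have hoa0 : orderOf a ≠ 0 := (orderOf_pos a).ne'
  obtain ⟨j, hj⟩ : ∃ j : ℕ, orderOf (a ^ j) = r :=
    ⟨orderOf a / r, orderOf_pow_orderOf_div hoa0 hrd⟩
  have hbj : (a ^ j) b = b := by
    have : ∀ i : ℕ, (a ^ i) b = b := by
      intro i
      induction i with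
      | zero => simp
      | succ i ih => rw [pow_succ, Perm.mul_apply, hab, ih]
    exact this j
  have hcommj : ∀ g : N, ψ g b = b → a ^ j * ψ g = ψ g * a ^ j := fun g hg =>
    Commute.pow_left (show Commute a (ψ g) from hcomm g hg) j
  have haj1 : a ^ j ≠ 1 := by
    intro h
    rw [h, orderOf_one] at hj
    exact hr.one_lt.ne hj
  generalize a ^ j = a' at hj hbj hcommj haj1
  -- support
  have hsupp : a'.support = Finset.univ.erase b := by
    ext y
    simp only [mem_support, Finset.mem_erase, Finset.mem_univ, and_true]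
    constructor
    · rintro h rfl
      exact h hbj
    · intro hyb hy
      apply haj1
      ext z
      by_cases hzb : z = b
      · rw [hzb, hbj]; rfl
      · obtain ⟨g, hg1, hg2⟩ := hψ b y b z (Ne.symm hyb) (Ne.symm hzb)
        have h1 : (a' * ψ g) y = (ψ g * a') y := by rw [hcommj g hg1]
        rw [Perm.mul_apply, Perm.mul_apply, hy, hg2] at h1
        exact h1
  obtain ⟨k, hk1, hk2⟩ := card_cent hr hj hsupp
  -- the stabiliser
  have hcardeq : Nat.card φ.range = Nat.card ψ.range := Nat.card_congr e.toEquiv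
  set B : Subgroup ψ.range := stabilizer ψ.range b with hB
  have hs1 : Nat.card B * Nat.card Ω = Nat.card ψ.range := stab1 hψ.range b
  have hs2 : (Nat.card Ω - 1) ∣ Nat.card B := stab2 hψ.range b
  have hs3 : Nat.card B ∣ Nat.card (Subgroup.centralizer {a'}) := by
    have hle : B.map ψ.range.subtype ≤ Subgroup.centralizer {a'} := by
      rintro _ ⟨⟨_, ⟨g, rfl⟩⟩, hgB, rfl⟩
      rw [Subgroup.mem_centralizer_singleton_iff]
      exact (hcommj g hgB).symm
    have := Subgroup.card_dvd_of_le hle
    rwa [← Nat.card_congr (Subgroup.equivMapOfInjective B ψ.range.subtype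
      ψ.range.subtype_injective).toEquiv] at this
  rw [hk2] at hs3
  have hm1 : 1 < Nat.card Ω := Finite.one_lt_card_iff_nontrivial.mpr hnt
  have hd720 : Nat.card φ.range ∣ 720 := by
    have := Subgroup.card_subgroup_dvd_card φ.range
    rw [Nat.card_perm, Nat.card_fin] at this
    exact this
  have hd30 : 30 ∣ Nat.card φ.range := by
    have h1 := stab1 hφ.range 0
    have h2 := stab2 hφ.range 0
    rw [Nat.card_fin] at h1 h2
    rw [← h1]
    exact Nat.mul_dvd_mul_right h2 6
  rcases numeric hm1 (by rw [hs1, ← hcardeq]; exact hd720) (by rw [hs1, ← hcardeq]; exact hd30)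
    hs2 hr hk1 hs3 with h | ⟨h, h'⟩ | ⟨h, h'⟩
  · rw [hs1, ← hcardeq] at h
    exact E30 hφ.range h
  · rw [hs1, ← hcardeq] at h h'
    have h3 := Nat.le_of_dvd Nat.card_pos (E9 hφ.range h)
    omega
  · rw [h] at hs1
    let B' : Subgroup φ.range := B.map e.symm.toMonoidHom
    have hB' : Nat.card B' = Nat.card B :=
      (Nat.card_congr (Subgroup.equivMapOfInjective B e.symm.toMonoidHom
        e.symm.injective).toEquiv).symm
    let B'' : Subgroup (Perm (Fin 6)) := B'.map φ.range.subtype
    have hB'' : Nat.card B'' = Nat.card B' :=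
      (Nat.card_congr (Subgroup.equivMapOfInjective B' φ.range.subtype
        φ.range.subtype_injective).toEquiv).symm
    refine E16 (B := B'') (H := φ.range) ?_ hφ.range ?_ ?_
    · rintro _ ⟨x, _, rfl⟩
      exact x.2
    · rw [hB'', hB', hcardeq, ← hs1]
      ring
    · rw [hB'', hB']
      exact h'

end Pool.Agent.R325.QH
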