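import Pool.Agent.R325.QHDefs
import Pool.Agent.R325.QHNL

namespace Pool.Agent.R325.QH

open Quandles Equiv

universe u v

/-- the key lemma: a normal subgroup which acts semiregularly (modulo the kernel of `φ`) in one
2-transitive action acts trivially in a 2-transitive action `φ` of degree 6 -/
lemma S1 {N Ω F : Type*} [Group N] (φ : N →* Perm Ω) (ψ : N →* Perm F) (hφ : T2 φ) (hψ : T2 ψ)
    (hΩ : Nat.card Ω = 6) {K : Subgroup N} (hK : K.Normal) (b : F)
    (h : ∀ g ∈ K, ψ g b = b → φ g = 1) : ∀ g ∈ K, φ g = 1 := by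
  intro k hk
  by_contra hk1
  have hfin : Finite Ω := Nat.finite_of_card_ne_zero (by omega)
  have hne : Nonempty Ω := by
    rw [← Finite.card_pos_iff]
    omega
  obtain ⟨x₀⟩ := hne
  have h6 := card_dvd_of_trans φ K x₀ (fun y => normal_trans hφ hK hk hk1 x₀ y)
  rw [hΩ] at h6
  have p2 : Fact (Nat.Prime 2) := ⟨by norm_num⟩
  have p3 : Fact (Nat.Prime 3) := ⟨by norm_num⟩
  obtain ⟨u₂, hu₂⟩ := exists_prime_orderOf_dvd_card' (G := K.map φ) 2
    (dvd_trans (by norm_num) h6)
  obtain ⟨u₃, hu₃⟩ := exists_prime_orderOf_dvd_card' (G := K.map φ) 3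
    (dvd_trans (by norm_num) h6)
  obtain ⟨k₂, hk₂, he₂⟩ := Subgroup.mem_map.mp u₂.2
  obtain ⟨k₃, hk₃, he₃⟩ := Subgroup.mem_map.mp u₃.2
  have ho₂ : orderOf (φ k₂) = 2 := by rw [he₂, Subgroup.orderOf_coe, hu₂]
  have ho₃ : orderOf (φ k₃) = 3 := by rw [he₃, Subgroup.orderOf_coe, hu₃]
  have hb₂ : ψ k₂ b ≠ b := by
    intro hb
    rw [h k₂ hk₂ hb, orderOf_one] at ho₂
    omega
  have hb₃ : ψ k₃ b ≠ b := by
    intro hb
    rw [h k₃ hk₃ hb, orderOf_one] at ho₃
    omega
  obtain ⟨g, hg1, hg2⟩ := hψ b (ψ k₂ b) b (ψ k₃ b) hb₂.symm hb₃.symm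
  have hmem : k₃⁻¹ * (g * k₂ * g⁻¹) ∈ K :=
    K.mul_mem (K.inv_mem hk₃) (hK.conj_mem k₂ hk₂ g)
  have hinv : ψ g⁻¹ b = b := by
    rw [map_inv, Perm.inv_eq_iff_eq, hg1]
  have hfix : ψ (k₃⁻¹ * (g * k₂ * g⁻¹)) b = b := by
    simp only [map_mul, Perm.mul_apply, hinv, hg2]
    rw [map_inv, Perm.inv_eq_iff_eq]
  have h1 := h _ hmem hfix
  rw [map_mul, map_inv, inv_mul_eq_one, map_mul, map_mul, map_inv] at h1
  have h2 : φ k₂ ^ 2 = 1 := by rw [← ho₂, pow_orderOf_eq_one]
  have h3 : φ k₃ ^ 2 = 1 := by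
    rw [h1, conj_pow, h2]
    simp
  have h4 := orderOf_dvd_of_pow_eq_one h3
  rw [ho₃] at h4
  omega

variable {P : Type u} {Q : Type v} [Quandle P] [Quandle Q] (f : P →◃ Q)

/-- the translation `s_b` as a permutation -/
abbrev sg (b : P) : Perm P := Rack.act' b

lemma sg_mem (b : P) : sg b ∈ Inn P := Subgroup.subset_closure ⟨b, rfl⟩

lemma f_sg (b x : P) : f (sg b x) = f b ◃ f x := by
  simp only [sg, Rack.act'_apply, ShelfHom.map_act]

lemma sg_inv (b x : P) : (sg b)⁻¹ (sg b x) = x := (sg b).symm_apply_apply x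

lemma conj_mem {b : P} {g : Perm P} (hg : g ∈ RelInn f) : sg b * g * (sg b)⁻¹ ∈ RelInn f := by
  refine ⟨(Inn P).mul_mem ((Inn P).mul_mem (sg_mem b) hg.1) ((Inn P).inv_mem (sg_mem b)), ?_⟩
  intro x
  obtain ⟨y, rfl⟩ := (sg b).surjective x
  simp only [Perm.mul_apply, sg_inv]
  rw [f_sg, f_sg, hg.2]

/-- conjugation by `s_b` on `Inn(f)` -/
def cj (b : P) : RelInn f →* RelInn f where
  toFun g := ⟨sg b * g * (sg b)⁻¹, conj_mem f g.2⟩
  map_one' := by
    ext1
    simp
  map_mul' g h := by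
    ext1
    simp only [Subgroup.coe_mul]
    group

/-- inner automorphisms are quandle automorphisms -/
lemma inn_act {g : Perm P} (hg : g ∈ Inn P) : ∀ x : P, g * sg x * g⁻¹ = sg (g x) := by
  induction hg using Subgroup.closure_induction with
  | mem y hy =>
    obtain ⟨b, rfl⟩ := hy
    intro x
    have := Rack.ad_conj b x
    rw [← this]
    rfl
  | one => intro x; simp
  | mul a b _ _ ha hb =>
    intro x
    rw [Perm.mul_apply, ← ha, ← hb]
    group
  | inv a _ ha =>
    intro x
    have h := ha (a⁻¹ x)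
    have h2 : a (a⁻¹ x) = x := a.apply_symm_apply x
    rw [h2] at h
    rw [← h]
    group

lemma cj_fix {b : P} {g : RelInn f} (hg : (g : Perm P) b = b) : cj f b g = g := by
  ext1
  have h := inn_act g.2.1 b
  rw [hg] at h
  change sg b * (g : Perm P) * (sg b)⁻¹ = g
  have h' : (g : Perm P) * sg b = sg b * g := by
    rw [mul_inv_eq_iff_eq_mul] at h
    exact h
  rw [← h']
  group

/-- the action of `Inn(f)` on a fibre -/
def pi (q : Q) : RelInn f →* Perm {x : P // f x = q} where
  toFun g :=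
    { toFun := fun x => ⟨(g : Perm P) x, by rw [g.2.2, x.2]⟩
      invFun := fun x => ⟨((g⁻¹ : RelInn f) : Perm P) x, by rw [(g⁻¹).2.2, x.2]⟩
      left_inv := fun x => by
        ext1
        exact (g : Perm P).symm_apply_apply x
      right_inv := fun x => by
        ext1
        exact (g : Perm P).apply_symm_apply x }
  map_one' := rfl
  map_mul' _ _ := rfl

lemma pi_apply (q : Q) (g : RelInn f) (x : {x : P // f x = q}) :
    ((pi f q g x : {x : P // f x = q}) : P) = (g : Perm P) x := rfl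

lemma pi_one_iff (q : Q) (g : RelInn f) : pi f q g = 1 ↔ ∀ x, f x = q → (g : Perm P) x = x := by
  constructor
  · intro h x hx
    have := congrArg (fun e : Perm {x : P // f x = q} => ((e ⟨x, hx⟩ : {x : P // f x = q}) : P)) h
    exact this
  · intro h
    ext x
    exact h x x.2

lemma pi_T2 (hf : DoublyTransitive f) (q : Q) : T2 (pi f q) := by
  intro x y x' y' hxy hxy'
  obtain ⟨g, hg, h1, h2⟩ := hf.2 q x y x' y' x.2 y.2 x'.2 y'.2
    (fun h => hxy (Subtype.ext h)) (fun h => hxy' (Subtype.ext h))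
  exact ⟨⟨g, hg⟩, Subtype.ext h1, Subtype.ext h2⟩

/-- `s_b` maps the fibre over `q` onto the fibre over `f b ◃ q` -/
def fibEquiv (b : P) (q : Q) : {x : P // f x = q} ≃ {x : P // f x = f b ◃ q} where
  toFun x := ⟨sg b x, by rw [f_sg, x.2]⟩
  invFun x := ⟨(sg b)⁻¹ x, by
    have h := f_sg f b ((sg b)⁻¹ x)
    have h2 : sg b ((sg b)⁻¹ x) = x := (sg b).apply_symm_apply x
    rw [h2, x.2] at h
    exact ((Rack.left_cancel _).mp h).symm⟩
  left_inv x := by
    ext1
    exact (sg b).symm_apply_apply x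
  right_inv x := by
    ext1
    exact (sg b).apply_symm_apply x

lemma pi_cj_iff (b : P) (q : Q) (g : RelInn f) :
    pi f (f b ◃ q) (cj f b g) = 1 ↔ pi f q g = 1 := by
  rw [pi_one_iff, pi_one_iff]
  constructor
  · intro h x hx
    have h1 := h (sg b x) (by rw [f_sg, hx])
    have h2 : (cj f b g : Perm P) (sg b x) = sg b ((g : Perm P) x) := by
      change (sg b * (g : Perm P) * (sg b)⁻¹) (sg b x) = _
      simp only [Perm.mul_apply, sg_inv]
    rw [h2] at h1
    exact (sg b).injective h1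
  · intro h x hx
    obtain ⟨y, rfl⟩ := (sg b).surjective x
    have h2 : (cj f b g : Perm P) (sg b y) = sg b ((g : Perm P) y) := by
      change (sg b * (g : Perm P) * (sg b)⁻¹) (sg b y) = _
      simp only [Perm.mul_apply, sg_inv]
    rw [h2, h y]
    rw [f_sg] at hx
    exact (Rack.left_cancel _).mp hx

/-- Step 1 -/
lemma step1 (hf : DoublyTransitive f) {q : Q} (hq : Nat.card {x : P // f x = q} = 6) (b : P)
    (g : RelInn f) : pi f (f b ◃ q) g = 1 ↔ pi f q g = 1 := by
  have hq' : Nat.card {x : P // f x = f b ◃ q} = 6 := by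
    rw [← hq]
    exact (Nat.card_congr (fibEquiv f b q)).symm
  constructor
  · have := S1 (pi f q) (pi f (f b)) (pi_T2 f hf q) (pi_T2 f hf (f b)) hq
      (K := (pi f (f b ◃ q)).ker) (MonoidHom.normal_ker _) ⟨b, rfl⟩ (by
        intro g hg hb
        have hb' : (g : Perm P) b = b := congrArg Subtype.val hb
        rw [MonoidHom.mem_ker, ← cj_fix f hb', pi_cj_iff] at hg
        exact hg)
    exact this g
  · have := S1 (pi f (f b ◃ q)) (pi f (f b)) (pi_T2 f hf _) (pi_T2 f hf (f b)) hq'
      (K := (pi f q).ker) (MonoidHom.normal_ker _) ⟨b, rfl⟩ (by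
        intro g hg hb
        have hb' : (g : Perm P) b = b := congrArg Subtype.val hb
        rw [MonoidHom.mem_ker] at hg
        rw [← cj_fix f hb', pi_cj_iff]
        exact hg)
    exact this g

/-- `s_b` restricted to the fibre of `b` -/
def ownFib (b : P) : Perm {x : P // f x = f b} where
  toFun x := ⟨sg b x, by rw [f_sg, x.2, Quandle.fix]⟩
  invFun x := ⟨(sg b)⁻¹ x, by
    have h := f_sg f b ((sg b)⁻¹ x)
    have h2 : sg b ((sg b)⁻¹ x) = x := (sg b).apply_symm_apply x
    rw [h2, x.2] at h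
    have h3 : f b ◃ f b = f b := Quandle.fix
    exact ((Rack.left_cancel (f b)).mp (h3.trans h)).symm⟩
  left_inv x := by
    ext1
    exact (sg b).symm_apply_apply x
  right_inv x := by
    ext1
    exact (sg b).apply_symm_apply x

lemma pi_cj_own (b : P) (g : RelInn f) :
    pi f (f b) (cj f b g) = ownFib f b * pi f (f b) g * (ownFib f b)⁻¹ := rfl

/-- Step 2 -/
lemma step2 (hf : DoublyTransitive f) {q : Q} (hq : Nat.card {x : P // f x = q} = 6) (b : P)
    (g : RelInn f) : pi f q (cj f b g) = pi f q g := by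
  have hcj : ∀ g, pi f q g = 1 ↔ pi f q (cj f b g) = 1 := fun g => by
    rw [← pi_cj_iff f b q g, step1 f hf hq b]
  have hφ := pi_T2 f hf q
  have hψ := pi_T2 f hf (f b)
  by_cases hA : ∀ r, pi f (f b) r = 1 → pi f q r = 1
  · by_cases hB : ∀ k, pi f q k = 1 → pi f (f b) k = 1
    · -- the two kernels agree
      have hker : (pi f q).ker = (pi f (f b)).ker := by
        ext r
        rw [MonoidHom.mem_ker, MonoidHom.mem_ker]
        exact ⟨hB r, hA r⟩
      have ha : ownFib f b = 1 := by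
        by_contra ha
        have hfin : Finite {x : P // f x = q} := Nat.finite_of_card_ne_zero (by omega)
        let e : {x : P // f x = q} ≃ Fin 6 := Finite.equivFinOfCardEq hq
        let φ' : RelInn f →* Perm (Fin 6) := (e.permCongrHom.toMonoidHom).comp (pi f q)
        have hφ' : T2 φ' := by
          intro x y x' y' hxy hxy'
          obtain ⟨g, h1, h2⟩ := hφ (e.symm x) (e.symm y) (e.symm x') (e.symm y')
            (fun h => hxy (e.symm.injective h)) (fun h => hxy' (e.symm.injective h))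
          refine ⟨g, ?_, ?_⟩
          · change e (pi f q g (e.symm x)) = x'
            rw [h1, e.apply_symm_apply]
          · change e (pi f q g (e.symm y)) = y'
            rw [h2, e.apply_symm_apply]
        have hker' : φ'.ker = (pi f (f b)).ker := by
          rw [← hker]
          ext r
          rw [MonoidHom.mem_ker, MonoidHom.mem_ker]
          exact (EmbeddingLike.map_eq_one_iff (f := e.permCongrHom))
        refine NL φ' (pi f (f b)) hφ' hψ hker' ⟨b, rfl⟩ (ownFib f b) ha ?_ ?_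
        · ext1
          exact Quandle.fix
        · intro g hg
          have hb' : (g : Perm P) b = b := congrArg Subtype.val hg
          have h1 := pi_cj_own f b g
          rw [cj_fix f hb', eq_mul_inv_iff_mul_eq] at h1
          exact h1.symm
      have h1 : pi f (f b) (cj f b g * g⁻¹) = 1 := by
        rw [map_mul, pi_cj_own, ha, map_inv]
        simp
      have h2 := hA _ h1
      rwa [map_mul, map_inv, mul_inv_eq_one] at h2
    · -- the kernel of the action on the 6 points is transitive on the fibre of `b`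
      push Not at hB
      obtain ⟨k, hk, hk1⟩ := hB
      obtain ⟨k', hk', hk'b⟩ := normal_trans hψ (K := (pi f q).ker) (MonoidHom.normal_ker _) hk hk1
        ⟨b, rfl⟩ (pi f (f b) g ⟨b, rfl⟩)
      rw [MonoidHom.mem_ker] at hk'
      have hn : ((k'⁻¹ * g : RelInn f) : Perm P) b = b := by
        have h1 : pi f (f b) (k'⁻¹ * g) ⟨b, rfl⟩ = ⟨b, rfl⟩ := by
          rw [map_mul, Perm.mul_apply, ← hk'b, map_inv, Perm.inv_eq_iff_eq]
        exact congrArg Subtype.val h1
      have h2 : g = k' * (k'⁻¹ * g) := by group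
      have h3 : cj f b g = cj f b k' * (k'⁻¹ * g) := by
        conv_lhs => rw [h2, map_mul, cj_fix f hn]
      rw [h3, map_mul, (hcj k').mp hk', one_mul, map_mul, map_inv, hk']
      simp
  · push Not at hA
    obtain ⟨r₀, hr₀, hr₀'⟩ := hA
    by_contra hne
    have hd : pi f q (g⁻¹ * cj f b g) ≠ 1 := by
      rw [map_mul, map_inv, ne_eq, inv_mul_eq_one]
      exact fun h => hne h.symm
    let C : Subgroup (RelInn f) := Subgroup.centralizer ((pi f (f b)).ker : Set (RelInn f))
    have hC : C.Normal := inferInstance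
    have hbfix : ∀ r : RelInn f, pi f (f b) r = 1 → cj f b r = r := fun r hr =>
      cj_fix f ((pi_one_iff f (f b) r).mp hr b rfl)
    have hdC : g⁻¹ * cj f b g ∈ C := by
      rw [Subgroup.mem_centralizer_iff]
      intro r hr
      have hr' : pi f (f b) r = 1 := hr
      have h1 := hbfix r hr'
      have h2 : pi f (f b) (g * r * g⁻¹) = 1 := by
        rw [map_mul, map_mul, hr', mul_one, ← map_mul, mul_inv_cancel, map_one]
      have h3 := hbfix _ h2
      rw [map_mul, map_mul, h1, map_inv, mul_inv_eq_iff_eq_mul] at h3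
      have h4 : cj f b g * r = g * r * (g⁻¹ * cj f b g) := by rw [h3]; group
      rw [mul_assoc, h4]
      group
    have hne6 : Nonempty {x : P // f x = q} := by
      have hfin : Finite {x : P // f x = q} := Nat.finite_of_card_ne_zero (by omega)
      rw [← Finite.card_pos_iff]
      omega
    obtain ⟨x₀⟩ := hne6
    refine hr₀' (S1 (pi f q) (pi f q) hφ hφ hq (K := (pi f (f b)).ker) (MonoidHom.normal_ker _) x₀
      ?_ r₀ hr₀)
    intro r hr hrx
    ext1 y
    obtain ⟨c, hc, hcy⟩ := normal_trans hφ hC hdC hd x₀ y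
    have hcomm : r * c = c * r := (Subgroup.mem_centralizer_iff.mp hc) r hr
    rw [← hcy, ← Perm.mul_apply, ← map_mul, hcomm, map_mul, Perm.mul_apply, hrx]
    rfl

lemma conj_mem' {b : P} {g : Perm P} (hg : g ∈ RelInn f) :
    (sg b)⁻¹ * g * sg b ∈ RelInn f := by
  refine ⟨(Inn P).mul_mem ((Inn P).mul_mem ((Inn P).inv_mem (sg_mem b)) hg.1) (sg_mem b), ?_⟩
  intro x
  have h1 := f_sg f b (((sg b)⁻¹ * g * sg b) x)
  have h2 : sg b (((sg b)⁻¹ * g * sg b) x) = g (sg b x) := by
    simp only [Perm.mul_apply]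
    exact (sg b).apply_symm_apply _
  rw [h2, hg.2, f_sg] at h1
  exact ((Rack.left_cancel _).mp h1).symm

/-- no doubly transitive quandle homomorphism has a fibre with six points -/
theorem no_six (hf : DoublyTransitive f) (q : Q) : Nat.card {x : P // f x = q} ≠ 6 := by
  intro hq
  -- every inner automorphism centralises `Inn(f)` modulo the kernel
  have hinn : ∀ h ∈ Inn P, ∀ g ∈ RelInn f, h * g * h⁻¹ ∈ RelInn f ∧ h⁻¹ * g * h ∈ RelInn f ∧
      ∀ x, f x = q → (h * g * h⁻¹) x = g x := by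
    intro h hh
    induction hh using Subgroup.closure_induction with
    | mem y hy =>
      obtain ⟨b, rfl⟩ := hy
      intro g hg
      refine ⟨conj_mem f hg, conj_mem' f hg, fun x hx => ?_⟩
      have h1 := step2 f hf hq b ⟨g, hg⟩
      have h2 := congrArg (fun e : Perm {x : P // f x = q} =>
        ((e ⟨x, hx⟩ : {x : P // f x = q}) : P)) h1
      exact h2
    | one =>
      intro g hg
      simpa using hg
    | mul a b _ _ ha hb =>
      intro g hg
      obtain ⟨hb1, hb2, hb3⟩ := hb g hg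
      obtain ⟨ha1, ha2, ha3⟩ := ha _ hb1
      obtain ⟨ha1', ha2', ha3'⟩ := ha g hg
      obtain ⟨hb1', hb2', hb3'⟩ := hb _ ha2'
      have e1 : a * b * g * (a * b)⁻¹ = a * (b * g * b⁻¹) * a⁻¹ := by group
      have e2 : (a * b)⁻¹ * g * (a * b) = b⁻¹ * (a⁻¹ * g * a) * b := by group
      rw [e1, e2]
      refine ⟨ha1, hb2', fun x hx => ?_⟩
      rw [ha3 x hx, hb3 x hx]
    | inv a _ ha =>
      intro g hg
      obtain ⟨ha1, ha2, ha3⟩ := ha g hg
      obtain ⟨ha1', ha2', ha3'⟩ := ha _ ha2
      rw [inv_inv]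
      refine ⟨ha2, ha1, fun x hx => ?_⟩
      have h1 := ha3' x hx
      have e1 : a * (a⁻¹ * g * a) * a⁻¹ = g := by group
      rw [e1] at h1
      exact h1.symm
  have hfin : Finite {x : P // f x = q} := Nat.finite_of_card_ne_zero (by omega)
  let e : {x : P // f x = q} ≃ Fin 6 := Finite.equivFinOfCardEq hq
  obtain ⟨x, y, z, hxy, hxz, hyz⟩ : ∃ x y z : {x : P // f x = q}, x ≠ y ∧ x ≠ z ∧ y ≠ z := by
    refine ⟨e.symm 0, e.symm 1, e.symm 2, ?_, ?_, ?_⟩ <;>
      exact fun h => absurd (e.symm.injective h) (by decide)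
  have h2 := pi_T2 f hf q
  obtain ⟨g, hg1, hg2⟩ := h2 x y x z hxy hxz
  obtain ⟨h, hh1, _⟩ := h2 x y y x hxy hxy.symm
  have key := (hinn h h.2.1 g g.2).2.2 y y.2
  -- evaluate at `y`
  have h1 : ((h : Perm P))⁻¹ (y : P) = x := by
    rw [Perm.inv_eq_iff_eq]
    exact (congrArg Subtype.val hh1).symm
  have h3 : (g : Perm P) x = x := congrArg Subtype.val hg1
  have h4 : (h : Perm P) x = y := congrArg Subtype.val hh1
  have h5 : (g : Perm P) y = z := congrArg Subtype.val hg2
  simp only [Perm.mul_apply] at key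
  rw [h1, h3, h4, h5] at key
  exact hyz (Subtype.ext key)

end Pool.Agent.R325.QH
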