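import Pool.Agent.R325.QHGroup

namespace Pool.Agent.R325.QH

open Equiv Equiv.Perm MulAction

lemma stab1 {Ω : Type*} [Nontrivial Ω] {H : Subgroup (Perm Ω)} (h2 : T2 H.subtype) (x : Ω) :
    Nat.card (stabilizer H x) * Nat.card Ω = Nat.card H := by
  have h1 : orbit H x = Set.univ := by
    ext y
    simp only [Set.mem_univ, iff_true]
    obtain ⟨g, hg⟩ := trans_of_T2 h2 x y
    exact ⟨g, hg⟩
  have h3 := card_orbit_mul (G := H) x
  rwa [h1, Set.ncard_univ] at h3

lemma stab2 {Ω : Type*} [Finite Ω] [Nontrivial Ω] {H : Subgroup (Perm Ω)} (h2 : T2 H.subtype)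
    (x : Ω) : (Nat.card Ω - 1) ∣ Nat.card (stabilizer H x) := by
  obtain ⟨y, hy⟩ := exists_ne x
  have h1 : orbit (stabilizer H x) y = {x}ᶜ := by
    ext z
    simp only [Set.mem_compl_iff, Set.mem_singleton_iff]
    constructor
    · rintro ⟨g, hg⟩ rfl
      apply hy
      have hgx : (g : H) • z = z := g.2
      have hgy : (g : H) • y = z := hg
      exact (smul_left_cancel (g : H) (hgx.trans hgy.symm)).symm
    · intro hz
      obtain ⟨g, hg1, hg2⟩ := h2 x y x z hy.symm (fun h => hz h.symm)
      exact ⟨⟨g, hg1⟩, hg2⟩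
  have h3 := card_orbit_mul (G := stabilizer H x) y
  rw [h1, Set.ncard_compl, Set.ncard_singleton] at h3
  exact ⟨_, by rw [← h3, mul_comm]⟩

lemma numeric {m s r k : ℕ} (hm : 1 < m) (h720 : s * m ∣ 720) (h30 : 30 ∣ s * m)
    (hs : (m - 1) ∣ s) (hr : r.Prime) (hrk : (k + 1) * r = m - 1)
    (hc : s ∣ r ^ (k + 1) * (k + 1).factorial) :
    s * m = 30 ∨ (9 ∣ s * m ∧ s * m < 360) ∨ (m = 16 ∧ (s = 15 ∨ s = 45)) := by
  have h1 : (m - 1) * m ∣ 720 := (Nat.mul_dvd_mul_right hs m).trans h720
  have hs0 : 0 < s := by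
    rcases Nat.eq_zero_or_pos s with h | h
    · rw [h] at h720; simp at h720
    · exact h
  have hm27 : m ≤ 27 := by
    by_contra hcon
    push Not at hcon
    have h2 := Nat.le_of_dvd (by norm_num) h1
    have : 27 * 28 ≤ (m - 1) * m := Nat.mul_le_mul (by omega) hcon
    omega
  have hm' : m = 2 ∨ m = 3 ∨ m = 4 ∨ m = 5 ∨ m = 6 ∨ m = 9 ∨ m = 10 ∨ m = 16 := by
    clear hs h30 hrk hc h720
    interval_cases m <;> simp at h1 ⊢
  have hr2 := hr.two_le
  obtain ⟨t, rfl⟩ := hs
  have ht0 : 0 < t := by
    rcases Nat.eq_zero_or_pos t with h | h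
    · rw [h] at hs0; simp at hs0
    · exact h
  rcases hm' with rfl | rfl | rfl | rfl | rfl | rfl | rfl | rfl
  · nlinarith
  · have hr' : r = 2 := by nlinarith
    subst hr'
    obtain rfl : k = 0 := by omega
    norm_num [Nat.factorial] at hc h30
    have := Nat.le_of_dvd (by norm_num) hc
    omega
  · have hr' : r ≤ 3 := Nat.le_of_dvd (by norm_num) (Dvd.intro_left _ hrk)
    interval_cases r
    · omega
    · obtain rfl : k = 0 := by omega
      norm_num [Nat.factorial] at hc h30
      have := Nat.le_of_dvd (by norm_num) hc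
      omega
  · have hr' : r ≤ 4 := Nat.le_of_dvd (by norm_num) (Dvd.intro_left _ hrk)
    interval_cases r
    · obtain rfl : k = 1 := by omega
      norm_num [Nat.factorial] at hc h30
      have := Nat.le_of_dvd (by norm_num) hc
      omega
    · omega
    · norm_num at hr
  · have hr' : r ≤ 5 := Nat.le_of_dvd (by norm_num) (Dvd.intro_left _ hrk)
    interval_cases r
    · omega
    · omega
    · norm_num at hr
    · obtain rfl : k = 0 := by omega
      norm_num [Nat.factorial] at hc h30
      have := Nat.le_of_dvd (by norm_num) hc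
      omega
  · have hr' : r ≤ 8 := Nat.le_of_dvd (by norm_num) (Dvd.intro_left _ hrk)
    have ht : t ≤ 10 := by
      have := Nat.le_of_dvd (by norm_num) h720
      omega
    have hr2 : r = 2 := by
      interval_cases r <;> first | rfl | omega | (norm_num at hr)
    subst hr2
    obtain rfl : k = 3 := by omega
    norm_num [Nat.factorial] at hc h30 h720
    interval_cases t <;> omega
  · have hr' : r ≤ 9 := Nat.le_of_dvd (by norm_num) (Dvd.intro_left _ hrk)
    have ht : t ≤ 8 := by
      have := Nat.le_of_dvd (by norm_num) h720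
      omega
    have hr2 : r = 3 := by
      interval_cases r <;> first | rfl | omega | (norm_num at hr)
    subst hr2
    obtain rfl : k = 2 := by omega
    norm_num [Nat.factorial] at hc h30 h720
    interval_cases t <;> omega
  · have ht : t ≤ 3 := by
      have := Nat.le_of_dvd (by norm_num) h720
      omega
    norm_num at h720 h30
    interval_cases t <;> omega

end Pool.Agent.R325.QH
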